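import Mathlib

-- part Pool.Agent.Lib.MP_a430e8_ag.Push
section

/-! Compression of a finite set of lattice cells along the lines of direction (g, c, -1). -/

namespace Pool.Agent.Lib.MP_a430e8_ag
open Finset

abbrev Cell := ℕ × ℕ × ℕ

/-- The levels occupied by `D` on the line of direction `(g, c, -1)` with foot `(A, B, 0)`. -/
def lev (D : Finset Cell) (g c A B : ℕ) : Finset ℕ :=
  (D.filter (fun p => p.1 + p.2.2 * g = A ∧ p.2.1 + p.2.2 * c = B)).image (fun p => p.2.2)

lemma mem_lev {D : Finset Cell} {g c A B j : ℕ} :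
    j ∈ lev D g c A B ↔ ∃ a b, (a, b, j) ∈ D ∧ a + j * g = A ∧ b + j * c = B := by
  simp only [lev, mem_image, mem_filter, Prod.exists]
  constructor
  · rintro ⟨a, b, i, ⟨h, h1, h2⟩, rfl⟩
    exact ⟨a, b, h, h1, h2⟩
  · rintro ⟨a, b, h, h1, h2⟩
    exact ⟨a, b, j, ⟨h, h1, h2⟩, rfl⟩

lemma exists_ge_of_lt_card {S : Finset ℕ} {i : ℕ} (h : i < S.card) : ∃ j ∈ S, i ≤ j := by
  by_contra hc
  push Not at hc
  have : S ⊆ range i := fun j hj => mem_range.2 (hc j hj)
  have := card_le_card this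
  rw [card_range] at this
  omega

/-- Every line is compressed to its lowest levels. -/
def push (D : Finset Cell) (g c : ℕ) : Finset Cell :=
  (D.biUnion fun q => (range (q.2.2 + 1)).image
      fun i => (q.1 + (q.2.2 - i) * g, q.2.1 + (q.2.2 - i) * c, i)).filter
    (fun p => p.2.2 < (lev D g c (p.1 + p.2.2 * g) (p.2.1 + p.2.2 * c)).card)

lemma mem_push {D : Finset Cell} {g c a b i : ℕ} :
    (a, b, i) ∈ push D g c ↔ i < (lev D g c (a + i * g) (b + i * c)).card := by
  unfold push
  rw [mem_filter]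
  refine ⟨fun h => h.2, fun h => ⟨?_, h⟩⟩
  obtain ⟨j, hj, hij⟩ := exists_ge_of_lt_card h
  obtain ⟨a', b', hD, h1, h2⟩ := mem_lev.1 hj
  obtain ⟨k, rfl⟩ := Nat.exists_eq_add_of_le hij
  refine mem_biUnion.2 ⟨_, hD, mem_image.2 ⟨i, mem_range.2 (by simp only; omega), ?_⟩⟩
  simp only [Nat.add_sub_cancel_left, Prod.mk.injEq, and_true]
  rw [add_mul] at h1 h2
  constructor <;> omega

lemma lev_push (D : Finset Cell) (g c A B : ℕ) :
    lev (push D g c) g c A B = range (lev D g c A B).card := by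
  ext i
  rw [mem_lev, mem_range]
  constructor
  · rintro ⟨a, b, h, rfl, rfl⟩
    exact mem_push.1 h
  · intro h
    obtain ⟨j, hj, hij⟩ := exists_ge_of_lt_card h
    obtain ⟨a', b', -, h1, h2⟩ := mem_lev.1 hj
    obtain ⟨k, rfl⟩ := Nat.exists_eq_add_of_le hij
    rw [add_mul] at h1 h2
    have e1 : a' + k * g + i * g = A := by omega
    have e2 : b' + k * c + i * c = B := by omega
    refine ⟨a' + k * g, b' + k * c, mem_push.2 ?_, e1, e2⟩
    rwa [e1, e2]

lemma card_eq_sum_lev (D : Finset Cell) (g c : ℕ) (T : Finset (ℕ × ℕ))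
    (hT : ∀ p ∈ D, (p.1 + p.2.2 * g, p.2.1 + p.2.2 * c) ∈ T) :
    D.card = ∑ β ∈ T, (lev D g c β.1 β.2).card := by
  rw [card_eq_sum_card_fiberwise (f := fun p : Cell => (p.1 + p.2.2 * g, p.2.1 + p.2.2 * c)) hT]
  refine sum_congr rfl fun β _ => ?_
  unfold lev
  rw [card_image_of_injOn]
  · congr 1
    ext p
    simp [Prod.ext_iff]
  · rintro ⟨a, b, j⟩ h ⟨a', b', j'⟩ h' hj
    simp only [coe_filter, Set.mem_ofPred_eq] at h h' hj
    subst hj
    simp only [Prod.mk.injEq, and_true]
    omega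

lemma foot_push {D : Finset Cell} {g c a b i : ℕ} (h : (a, b, i) ∈ push D g c) :
    ∃ a' b' j, (a', b', j) ∈ D ∧ a' + j * g = a + i * g ∧ b' + j * c = b + i * c := by
  obtain ⟨j, hj, -⟩ := exists_ge_of_lt_card (mem_push.1 h)
  obtain ⟨a', b', hD, h1, h2⟩ := mem_lev.1 hj
  exact ⟨a', b', j, hD, h1, h2⟩

lemma card_push (D : Finset Cell) (g c : ℕ) : (push D g c).card = D.card := by
  set T := D.image (fun p : Cell => (p.1 + p.2.2 * g, p.2.1 + p.2.2 * c))
  rw [card_eq_sum_lev D g c T (fun p hp => mem_image_of_mem _ hp),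
    card_eq_sum_lev (push D g c) g c T]
  · simp [lev_push]
  · rintro ⟨a, b, i⟩ h
    obtain ⟨a', b', j, hD, h1, h2⟩ := foot_push h
    exact mem_image.2 ⟨_, hD, by simp [h1, h2]⟩

/-- `D` is closed under the move `(u, v, -k)` whenever the target has nonnegative coordinates. -/
def Rel (D : Finset Cell) (u v : ℤ) (k : ℕ) : Prop :=
  ∀ a b j a' b' : ℕ, (a, b, j + k) ∈ D → (a' : ℤ) = a + u → (b' : ℤ) = b + v → (a', b', j) ∈ D

lemma Rel.comp {D : Finset Cell} {u v u' v' : ℤ} {k l : ℕ} (h : Rel D u v k) (h' : Rel D u' v' l)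
    (hu : 0 ≤ u ∨ u' ≤ 0) (hv : 0 ≤ v ∨ v' ≤ 0) : Rel D (u + u') (v + v') (k + l) := by
  intro a b j a' b' hD h1 h2
  have e : j + (k + l) = (j + l) + k := by omega
  rw [e] at hD
  have h3 := h a b (j + l) (a + u).toNat (b + v).toNat hD (by omega) (by omega)
  exact h' _ _ j a' b' h3 (by omega) (by omega)

lemma Rel.of_eq {D : Finset Cell} {u v u' v' : ℤ} {k l : ℕ} (h : Rel D u v k) (hu : u = u')
    (hv : v = v') (hk : k = l) : Rel D u' v' l := by
  subst hu hv hk; exact h

lemma lt_card_of_shift (S S' : Finset ℕ) (V : ℕ → Prop) (K B : ℕ)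
    (hV : ∀ i j, i ≤ j → V j → V i) (hB : ∀ j, V j → j ≤ B)
    (h1 : ∀ j, j + K ∈ S' → V j) (h2 : ∀ k ≤ K, ∀ j, j + k ∈ S' → V j → j ∈ S)
    {i : ℕ} (hi : V i) (h : i < S'.card) : i < S.card := by
  classical
  by_cases hall : ∀ j, V j → j ∈ S
  · have : range (i + 1) ⊆ S := fun j hj => hall j (hV j i (by simpa [Nat.lt_succ_iff] using hj) hi)
    have := card_le_card this
    rw [card_range] at this
    omega
  · push Not at hall
    obtain ⟨j1, hj1, hj1'⟩ := hall
    have hne : ((range (B + 1)).filter (fun j => V j ∧ j ∉ S)).Nonempty :=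
      ⟨j1, mem_filter.2 ⟨mem_range.2 (Nat.lt_succ_of_le (hB _ hj1)), hj1, hj1'⟩⟩
    obtain ⟨j0, hj0, hmax⟩ := exists_max_image _ id hne
    obtain ⟨-, hV0, hS0⟩ := mem_filter.1 hj0
    have hgap : ∀ j ∈ S', j < j0 ∨ j0 + K < j := by
      intro j hj
      by_contra hc
      push Not at hc
      obtain ⟨k, rfl⟩ := Nat.exists_eq_add_of_le hc.1
      exact hS0 (h2 k (by omega) j0 hj hV0)
    refine lt_of_lt_of_le h (card_le_card_of_injOn (fun j => if j < j0 then j else j - K) ?_ ?_)
    · intro j hj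
      rcases hgap j hj with hlt | hgt
      · simp only [if_pos hlt]
        exact h2 0 (Nat.zero_le _) j hj (hV _ _ hlt.le hV0)
      · simp only [if_neg (show ¬ j < j0 by omega)]
        obtain ⟨j', rfl⟩ : ∃ j', j = j' + K := ⟨j - K, by omega⟩
        rw [Nat.add_sub_cancel]
        have hv := h1 j' hj
        by_contra hn
        have := hmax j' (mem_filter.2 ⟨mem_range.2 (Nat.lt_succ_of_le (hB _ hv)), hv, hn⟩)
        simp only [id] at this
        omega
    · intro j hj j' hj' hjj
      have := hgap j hj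
      have := hgap j' hj'
      simp only at hjj
      split_ifs at hjj <;> omega

lemma Rel.push_horiz {D : Finset Cell} {g c K : ℕ} {u v : ℤ} (hgc : 0 < g + c)
    (hR : ∀ k ≤ K, Rel D (u + k * g) (v + k * c) k)
    (hu : 0 ≤ u + K * g ∨ g = 0) (hv : 0 ≤ v + K * c ∨ c = 0) : Rel (push D g c) u v 0 := by
  intro a b j a' b' hD h1 h2
  rw [add_zero, mem_push] at hD
  rw [mem_push]
  refine lt_card_of_shift _ _ (fun i => i * g ≤ a' + j * g ∧ i * c ≤ b' + j * c) K
    (a' + j * g + (b' + j * c)) ?_ ?_ ?_ ?_ ⟨by omega, by omega⟩ hD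
  · intro i i' hii h
    exact ⟨(Nat.mul_le_mul_right g hii).trans h.1, (Nat.mul_le_mul_right c hii).trans h.2⟩
  · intro i h
    have : i * 1 ≤ i * (g + c) := Nat.mul_le_mul_left i hgc
    rw [mul_add] at this
    omega
  · intro i hi
    obtain ⟨a1, b1, -, e1, e2⟩ := mem_lev.1 hi
    rw [add_mul] at e1 e2
    constructor
    · rcases hu with hu | hu
      · zify at e1 ⊢; omega
      · subst hu; simp
    · rcases hv with hv | hv
      · zify at e2 ⊢; omega
      · subst hv; simp
  · intro k hk i hi hVi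
    obtain ⟨a1, b1, hD1, e1, e2⟩ := mem_lev.1 hi
    rw [add_mul] at e1 e2
    obtain ⟨a2, ha2⟩ := Nat.exists_eq_add_of_le' hVi.1
    obtain ⟨b2, hb2⟩ := Nat.exists_eq_add_of_le' hVi.2
    refine mem_lev.2 ⟨a2, b2, hR k hk a1 b1 i a2 b2 hD1 ?_ ?_, ha2.symm, hb2.symm⟩
    · zify at e1 ha2; omega
    · zify at e2 hb2; omega

lemma Rel.push_vert {D : Finset Cell} {g c g' c' : ℕ} (h : Rel D g' c' 1) :
    Rel (push D g c) g' c' 1 := by
  intro a b j a' b' hD h1 h2
  obtain rfl : a' = a + g' := by omega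
  obtain rfl : b' = b + c' := by omega
  rw [mem_push] at hD ⊢
  have key : ((lev D g c (a + (j + 1) * g) (b + (j + 1) * c)).erase 0).card ≤
      (lev D g c (a + g' + j * g) (b + c' + j * c)).card := by
    refine card_le_card_of_injOn (fun i => i - 1) ?_ ?_
    · intro i hi
      obtain ⟨hi0, hi⟩ := mem_erase.1 hi
      obtain ⟨i, rfl⟩ : ∃ i', i = i' + 1 := ⟨i - 1, by omega⟩
      obtain ⟨a1, b1, hD1, e1, e2⟩ := mem_lev.1 hi
      rw [add_mul, add_mul] at e1 e2
      refine mem_lev.2 ⟨a1 + g', b1 + c', h a1 b1 i _ _ hD1 (by push_cast; ring)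
        (by push_cast; ring), ?_, ?_⟩
      · simp only [Nat.add_sub_cancel]; omega
      · simp only [Nat.add_sub_cancel]; omega
    · intro i hi i' hi' hii
      have := (mem_erase.1 hi).1
      have := (mem_erase.1 hi').1
      simp only at hii
      omega
  have := pred_card_le_card_erase (s := lev D g c (a + (j + 1) * g) (b + (j + 1) * c)) (a := 0)
  omega

lemma push_self (D : Finset Cell) (g c : ℕ) : Rel (push D g c) g c 1 := by
  intro a b j a' b' hD h1 h2
  obtain rfl : a' = a + g := by omega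
  obtain rfl : b' = b + c := by omega
  rw [mem_push] at hD ⊢
  have e1 : a + g + j * g = a + (j + 1) * g := by ring
  have e2 : b + c + j * c = b + (j + 1) * c := by ring
  rw [e1, e2]
  omega

/-- The four horizontal closure properties. -/
structure Inv (D : Finset Cell) : Prop where
  x : Rel D (-1) 0 0
  y : Rel D 0 (-1) 0
  u : Rel D (-2) 1 0
  w : Rel D 1 (-2) 0

/-- Stability under all directions of degree less than `n`. -/
def Stab (D : Finset Cell) (n : ℕ) : Prop := ∀ g c : ℕ, g + c < n → Rel D g c 1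

/-- All cells lie on lines whose foot has degree less than `m`. -/
def Bound (D : Finset Cell) (δ m : ℕ) : Prop := ∀ a b j, (a, b, j) ∈ D → a + b + δ * j < m

lemma Stab.push {D : Finset Cell} {n : ℕ} (h : Stab D n) (g c : ℕ) : Stab (push D g c) n :=
  fun g' c' hgc => (h g' c' hgc).push_vert

lemma Bound.push {D : Finset Cell} {m g c : ℕ} (h : Bound D (g + c) m) :
    Bound (push D g c) (g + c) m := by
  intro a b i hD
  obtain ⟨a', b', j, hD', h1, h2⟩ := foot_push hD
  have := h a' b' j hD'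
  have e1 : (g + c) * j = j * g + j * c := by ring
  have e2 : (g + c) * i = i * g + i * c := by ring
  omega

lemma Inv.push {D : Finset Cell} {g c : ℕ} (hI : Inv D) (hS : Stab D (g + c)) (h2 : 2 ≤ g + c)
    (hg : g = 1 → Rel D 0 ((g + c : ℕ) : ℤ) 1) (hc : c = 1 → Rel D ((g + c : ℕ) : ℤ) 0 1) :
    Inv (push D g c) := by
  have hgc : 0 < g + c := by omega
  refine ⟨?_, ?_, ?_, ?_⟩
  · rcases Nat.eq_zero_or_pos g with h0 | h0
    · refine Rel.push_horiz (K := 0) hgc ?_ (Or.inr h0) (Or.inl (by simp))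
      intro k hk
      obtain rfl : k = 0 := by omega
      simpa using hI.x
    · refine Rel.push_horiz (K := 1) hgc ?_ (Or.inl (by omega)) (Or.inl (by omega))
      intro k hk
      obtain rfl | rfl : k = 0 ∨ k = 1 := by omega
      · simpa using hI.x
      · exact (hS (g - 1) c (by omega)).of_eq (by omega) (by omega) rfl
  · rcases Nat.eq_zero_or_pos c with h0 | h0
    · refine Rel.push_horiz (K := 0) hgc ?_ (Or.inl (by simp)) (Or.inr h0)
      intro k hk
      obtain rfl : k = 0 := by omega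
      simpa using hI.y
    · refine Rel.push_horiz (K := 1) hgc ?_ (Or.inl (by omega)) (Or.inl (by omega))
      intro k hk
      obtain rfl | rfl : k = 0 ∨ k = 1 := by omega
      · simpa using hI.y
      · exact (hS g (c - 1) (by omega)).of_eq (by omega) (by omega) rfl
  · obtain h0 | h0 | h0 : g = 0 ∨ g = 1 ∨ 2 ≤ g := by omega
    · refine Rel.push_horiz (K := 0) hgc ?_ (Or.inr h0) (Or.inl (by simp))
      intro k hk
      obtain rfl : k = 0 := by omega
      simpa using hI.u
    · refine Rel.push_horiz (K := 2) hgc ?_ (Or.inl (by omega)) (Or.inl (by omega))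
      intro k hk
      obtain rfl | rfl | rfl : k = 0 ∨ k = 1 ∨ k = 2 := by omega
      · simpa using hI.u
      · exact (hI.x.comp (hg h0) (Or.inr le_rfl) (Or.inl le_rfl)).of_eq (by omega) (by omega) rfl
      · exact ((hg h0).comp (hS 0 c (by omega)) (Or.inl le_rfl) (Or.inl (by omega))).of_eq
          (by omega) (by omega) rfl
    · refine Rel.push_horiz (K := 1) hgc ?_ (Or.inl (by omega)) (Or.inl (by omega))
      intro k hk
      obtain rfl | rfl : k = 0 ∨ k = 1 := by omega
      · simpa using hI.u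
      · exact (hS (g - 2) (c + 1) (by omega)).of_eq (by omega) (by omega) rfl
  · obtain h0 | h0 | h0 : c = 0 ∨ c = 1 ∨ 2 ≤ c := by omega
    · refine Rel.push_horiz (K := 0) hgc ?_ (Or.inl (by simp)) (Or.inr h0)
      intro k hk
      obtain rfl : k = 0 := by omega
      simpa using hI.w
    · refine Rel.push_horiz (K := 2) hgc ?_ (Or.inl (by omega)) (Or.inl (by omega))
      intro k hk
      obtain rfl | rfl | rfl : k = 0 ∨ k = 1 ∨ k = 2 := by omega
      · simpa using hI.w
      · exact (hI.y.comp (hc h0) (Or.inl le_rfl) (Or.inr le_rfl)).of_eq (by omega) (by omega) rfl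
      · exact ((hc h0).comp (hS g 0 (by omega)) (Or.inl (by omega)) (Or.inl le_rfl)).of_eq
          (by omega) (by omega) rfl
    · refine Rel.push_horiz (K := 1) hgc ?_ (Or.inl (by omega)) (Or.inl (by omega))
      intro k hk
      obtain rfl | rfl : k = 0 ∨ k = 1 := by omega
      · simpa using hI.w
      · exact (hS (g + 1) (c - 2) (by omega)).of_eq (by omega) (by omega) rfl

end Pool.Agent.Lib.MP_a430e8_ag
end

-- part Pool.Agent.Lib.MP_a430e8_ag.Count
section

/-! The counting argument: a stable configuration that is small enough stays in the triangle. -/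

namespace Pool.Agent.Lib.MP_a430e8_ag
open Finset

lemma Stab.rel_mul {D : Finset Cell} {x : ℕ} (h : Stab D (x + 1)) (s : ℕ) :
    ∀ g c : ℕ, g + c ≤ s * x → Rel D g c s := by
  induction s with
  | zero =>
    intro g c hgc a b j a' b' hD h1 h2
    obtain rfl : a' = a := by omega
    obtain rfl : b' = b := by omega
    exact hD
  | succ s ih =>
    intro g c hgc
    rw [add_mul, one_mul] at hgc
    have h1 := h (min g x) (min c (x - min g x)) (by omega)
    have h2 := ih (g - min g x) (c - min c (x - min g x)) (by omega)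
    exact (h1.comp h2 (Or.inl (by omega)) (Or.inl (by omega))).of_eq (by omega) (by omega)
      (by omega)

lemma Inv.reach {D : Finset Cell} (hI : Inv D) {a b j : ℕ} (hD : (a, b, j) ∈ D) (i : ℕ) :
    ∀ x y : ℕ, x + y + i = a + b → a ≤ x + 2 * i → x ≤ a + i → (x, y, j) ∈ D := by
  induction i with
  | zero =>
    intro x y h1 h2 h3
    obtain rfl : x = a := by omega
    obtain rfl : y = b := by omega
    exact hD
  | succ i ih =>
    intro x y h1 h2 h3
    by_cases hx : x + 2 * i + 2 = a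
    · have hy : 1 ≤ y := by omega
      exact hI.u (x + 2) (y - 1) j x y (ih _ _ (by omega) (by omega) (by omega)) (by omega)
        (by omega)
    by_cases hx' : x + 2 * i + 1 = a
    · exact hI.x (x + 1) y j x y (ih _ _ (by omega) (by omega) (by omega)) (by omega) (by omega)
    by_cases hx'' : x = a + i + 1
    · exact hI.w (x - 1) (y + 2) j x y (ih _ _ (by omega) (by omega) (by omega)) (by omega)
        (by omega)
    · exact hI.y x (y + 1) j x y (ih _ _ (by omega) (by omega) (by omega)) (by omega) (by omega)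

/-- Number of cells of given level and degree. -/
def cnt (D : Finset Cell) (i d : ℕ) : ℕ := (D.filter (fun p => (p.2.2, p.1 + p.2.1) = (i, d))).card

lemma le_cnt {D : Finset Cell} {i d lo hi : ℕ} (hd : hi ≤ d)
    (h : ∀ x y, lo ≤ x → x ≤ hi → x + y = d → (x, y, i) ∈ D) : hi + 1 - lo ≤ cnt D i d := by
  rw [← Nat.card_Icc]
  refine card_le_card_of_injOn (fun x => (x, d - x, i)) ?_ ?_
  · intro x hx
    obtain ⟨h1, h2⟩ := mem_Icc.1 hx
    refine mem_filter.2 ⟨h x _ h1 h2 (by omega), ?_⟩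
    simp only [Prod.mk.injEq, true_and]
    omega
  · intro x _ x' _ hxx
    exact (Prod.ext_iff.1 hxx).1

lemma sum_cnt_le (D : Finset Cell) (T : Finset (ℕ × ℕ)) :
    ∑ β ∈ T, cnt D β.1 β.2 ≤ D.card := by
  unfold cnt
  rw [sum_card_fiberwise_eq_card_filter]
  exact card_filter_le _ _

lemma two_mul_sum_succ (n : ℕ) : 2 * ∑ d ∈ range n, (d + 1) = n * (n + 1) := by
  induction n with
  | zero => simp
  | succ n ih => rw [sum_range_succ, mul_add, ih]; ring

/-- The half-fatness function. -/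
def FF (t : ℕ) : ℕ := ∑ d ∈ range (t + 1), (min d (t - d) + 1)

lemma FF_add_two (t : ℕ) : FF (t + 2) = FF t + t + 3 := by
  unfold FF
  rw [sum_range_succ, sum_range_succ']
  have : ∑ d ∈ range (t + 1), (min (d + 1) (t + 2 - (d + 1)) + 1) =
      ∑ d ∈ range (t + 1), ((min d (t - d) + 1) + 1) := by
    refine sum_congr rfl fun d hd => ?_
    have := mem_range.1 hd
    omega
  rw [this, sum_add_distrib]
  simp
  omega

lemma FF_ge (t : ℕ) : (t + 1) * (t + 2) + 2 ≤ 4 * FF t := by
  induction t using Nat.twoStepInduction with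
  | zero => decide
  | one => decide
  | more t ih _ => rw [FF_add_two]; nlinarith

lemma FF_ge' (t : ℕ) : t + 1 ≤ FF t := by
  unfold FF
  calc t + 1 = ∑ _d ∈ range (t + 1), 1 := by simp
    _ ≤ _ := sum_le_sum fun d _ => by omega

lemma level_ge {D : Finset Cell} (hI : Inv D) {x : ℕ} (hS : Stab D (x + 1)) {a b i s : ℕ}
    (hD : (a, b, i + s) ∈ D) :
    s * x * (s * x + 1) + 2 * FF (a + b) + 2 * ((a + b + 1) * (s * x)) ≤
      2 * ∑ d ∈ range (s * x + (a + b + 1)), cnt D i d := by
  set y := s * x with hy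
  rw [sum_range_add, mul_add]
  have h0 : (0, 0, i + s) ∈ D := hI.reach hD (a + b) 0 0 (by omega) (by omega) (by omega)
  have h1 : ∑ d ∈ range y, (d + 1) ≤ ∑ d ∈ range y, cnt D i d := by
    refine sum_le_sum fun d hd => ?_
    have hd := mem_range.1 hd
    refine le_cnt (lo := 0) (hi := d) le_rfl fun x' y' _ _ h => ?_
    exact hS.rel_mul s x' y' (by omega) 0 0 i x' y' h0 (by omega) (by omega)
  have h2 : ∑ d ∈ range (a + b + 1), (min d (a + b - d) + 1 + y) ≤
      ∑ d ∈ range (a + b + 1), cnt D i (y + d) := by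
    refine sum_le_sum fun d hd => ?_
    have hd := mem_range.1 hd
    have := le_cnt (D := D) (i := i) (d := y + d) (lo := a - 2 * (a + b - d))
      (hi := min (a + (a + b - d)) d + y) (by omega) (fun x' y' h1 h2 h3 => by
        have hm := hI.reach hD (a + b - d) (min x' (min (a + (a + b - d)) d))
          (d - min x' (min (a + (a + b - d)) d)) (by omega) (by omega) (by omega)
        exact hS.rel_mul s (x' - min x' (min (a + (a + b - d)) d))
          (y - (x' - min x' (min (a + (a + b - d)) d))) (by omega) _ _ i x' y' hm (by omega)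
          (by omega))
    omega
  rw [sum_add_distrib, sum_const, card_range, smul_eq_mul] at h2
  have h3 := two_mul_sum_succ y
  unfold FF
  linarith

lemma sum_ineq (t x F : ℕ) (hx : 2 ≤ x) (h1 : (t + 1) * (t + 2) + 2 ≤ 4 * F) (h2 : t + 1 ≤ F)
    (j : ℕ) :
    (t + (x + 1) * (j + 1)) * (t + (x + 1) * (j + 1) + 1) + 2 ≤
      ∑ s ∈ range (j + 2), (s * x * (s * x + 1) + 2 * F + 2 * ((t + 1) * (s * x))) := by
  induction j with
  | zero =>
    simp only [sum_range_succ, range_zero, sum_empty]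
    nlinarith
  | succ j ih =>
    rw [sum_range_succ]
    obtain ⟨z, rfl⟩ := Nat.exists_eq_add_of_le hx
    have h3 : 0 ≤ j * z * z := Nat.zero_le _
    have h4 : 0 ≤ j * j * z * z := Nat.zero_le _
    have h5 : 0 ≤ j * j * z := Nat.zero_le _
    have h6 : 0 ≤ t * j * z := Nat.zero_le _
    have h7 : 0 ≤ t * j := Nat.zero_le _
    have h8 : 0 ≤ t * z := Nat.zero_le _
    nlinarith

theorem Bound.succ {D : Finset Cell} {x m : ℕ} (hI : Inv D) (hS : Stab D (x + 1)) (hx : 2 ≤ x)
    (hB : Bound D x m) (hcard : 2 * D.card ≤ m * (m + 1)) : Bound D (x + 1) m := by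
  intro a b j hD
  by_contra hc
  push Not at hc
  have hB' := hB a b j hD
  obtain ⟨j, rfl⟩ : ∃ j', j = j' + 1 := ⟨j - 1, by
    rcases Nat.eq_zero_or_pos j with h | h
    · subst h; omega
    · omega⟩
  set T : Finset (ℕ × ℕ) := (range (j + 2)).biUnion
    (fun s => (range (s * x + (a + b + 1))).image (fun d => (j + 1 - s, d))) with hT
  have h1 := sum_cnt_le D T
  rw [hT, sum_biUnion] at h1
  · have h2 : ∑ s ∈ range (j + 2), (s * x * (s * x + 1) + 2 * FF (a + b) +
        2 * ((a + b + 1) * (s * x))) ≤ ∑ s ∈ range (j + 2), 2 *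
        ∑ β ∈ (range (s * x + (a + b + 1))).image (fun d => (j + 1 - s, d)), cnt D β.1 β.2 := by
      refine sum_le_sum fun s hs => ?_
      have hs := mem_range.1 hs
      rw [sum_image (fun d _ d' _ h => (Prod.ext_iff.1 h).2)]
      have e : j + 1 - s + s = j + 1 := by omega
      exact level_ge (i := j + 1 - s) hI hS (e.symm ▸ hD)
    rw [← mul_sum] at h2
    have h3 := sum_ineq (a + b) x (FF (a + b)) hx (FF_ge _) (FF_ge' _) j
    have h4 : m * (m + 1) ≤ (a + b + (x + 1) * (j + 1)) * (a + b + (x + 1) * (j + 1) + 1) :=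
      Nat.mul_le_mul hc (by omega)
    omega
  · intro s hs s' hs' hss
    have hs := mem_range.1 (mem_coe.1 hs)
    have hs' := mem_range.1 (mem_coe.1 hs')
    refine disjoint_left.2 fun β h h' => hss ?_
    obtain ⟨d, -, rfl⟩ := mem_image.1 h
    obtain ⟨d', -, h'⟩ := mem_image.1 h'
    have := (Prod.ext_iff.1 h').1
    simp only at this
    omega

end Pool.Agent.Lib.MP_a430e8_ag
end

-- part Pool.Agent.Lib.MP_a430e8_ag.Alg
section

/-! The compression lemma: substituting `z + ε x^g y^c` for `z` with large `ε`. -/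

namespace Pool.Agent.Lib.MP_a430e8_ag
open Finset Filter Topology

lemma exists_choose_dual (S : Finset ℕ) {k : ℕ} (hk : k < S.card) :
    ∃ a : ℕ → ℂ, ∀ i < S.card, ∑ j ∈ S, a j * (j.choose i : ℂ) = if i = k then 1 else 0 := by
  classical
  set n := S.card with hn
  let v : Fin n → ℕ := fun r => S.orderEmbOfFin hn.symm r
  have hv : Function.Injective v := (S.orderEmbOfFin hn.symm).injective
  let M : Matrix (Fin n) (Fin n) ℂ := Matrix.of fun r i => ((v r).choose i : ℂ)
  have hdet : M.det ≠ 0 := by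
    have h1 := Matrix.det_eval_matrixOfPolynomials_eq_det_vandermonde (fun r => (v r : ℂ))
      (fun i => descPochhammer ℂ i) (fun i => descPochhammer_natDegree ℂ i)
      (fun i => monic_descPochhammer ℂ i)
    have h2 : (Matrix.vandermonde fun r => (v r : ℂ)).det ≠ 0 :=
      Matrix.det_vandermonde_ne_zero_iff.2 (Nat.cast_injective.comp hv)
    have h3 : (Matrix.of fun r i : Fin n => (descPochhammer ℂ i).eval (v r : ℂ)) =
        Matrix.of fun r i : Fin n => ((i : ℕ).factorial : ℂ) * M r i := by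
      ext r i
      simp only [Matrix.of_apply, M]
      rw [descPochhammer_eval_eq_descFactorial, Nat.descFactorial_eq_factorial_mul_choose]
      push_cast
      rfl
    rw [h1, h3, Matrix.det_mul_row] at h2
    exact right_ne_zero_of_mul h2
  have hu : IsUnit M.det := isUnit_iff_ne_zero.2 hdet
  let w : Fin n → ℂ := Matrix.vecMul (Pi.single ⟨k, hk⟩ 1) M⁻¹
  have hw : Matrix.vecMul w M = Pi.single ⟨k, hk⟩ 1 := by
    simp only [w]
    rw [Matrix.vecMul_vecMul, Matrix.nonsing_inv_mul _ hu, Matrix.vecMul_one]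
  refine ⟨fun j => ∑ r, if v r = j then w r else 0, fun i hi => ?_⟩
  have h4 := congrFun hw ⟨i, hi⟩
  simp only [Matrix.vecMul, dotProduct, M, Matrix.of_apply, Pi.single_apply, Fin.mk.injEq] at h4
  rw [← h4]
  simp only [sum_mul]
  rw [sum_comm]
  refine sum_congr rfl fun r _ => ?_
  rw [sum_eq_single (v r)]
  · simp
  · intro j _ hj
    simp [Ne.symm hj]
  · intro h
    exact absurd (S.orderEmbOfFin_mem hn.symm r) h

section
variable {R : Type*} [CommRing R] [Algebra ℂ R]

/-- The monomial `x^a y^b z^j`. -/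
def mon (x y z : R) (p : Cell) : R := x ^ p.1 * y ^ p.2.1 * z ^ p.2.2

lemma mon_expand (x y ψ : R) (g c a b j N : ℕ) (hN : j ≤ N) {t : ℂ} (ht : t ≠ 0) :
    t ^ j • mon x y (ψ + t⁻¹ • (x ^ g * y ^ c)) (a, b, j) =
      ∑ i ∈ range (N + 1), ((j.choose i : ℂ) * t ^ i) •
        mon x y ψ (a + j * g - i * g, b + j * c - i * c, i) := by
  rw [← sum_subset (range_subset_range.2 (Nat.succ_le_succ hN))]
  · unfold mon
    simp only
    rw [add_pow, mul_sum, smul_sum]
    refine sum_congr rfl fun i hi => ?_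
    obtain ⟨k, rfl⟩ := Nat.exists_eq_add_of_le (Nat.lt_succ_iff.1 (mem_range.1 hi))
    have e1 : a + (i + k) * g - i * g = a + g * k := by rw [add_mul, mul_comm k g]; omega
    have e2 : b + (i + k) * c - i * c = b + c * k := by rw [add_mul, mul_comm k c]; omega
    rw [e1, e2, Nat.add_sub_cancel_left, smul_pow, mul_pow, ← pow_mul, ← pow_mul, pow_add, pow_add,
      pow_add]
    have e3 : (t ^ i * t ^ k) * t⁻¹ ^ k = t ^ i := by
      rw [mul_assoc, ← mul_pow, mul_inv_cancel₀ ht, one_pow, mul_one]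
    simp only [Algebra.smul_def, map_mul, map_natCast]
    rw [← map_mul, ← e3]
    simp only [map_mul]
    have e4 : (algebraMap ℂ R) (t ^ k) * (algebraMap ℂ R) (t⁻¹ ^ k) = 1 := by
      rw [← map_mul, ← mul_pow, mul_inv_cancel₀ ht, one_pow, map_one]
    linear_combination ((((i + k).choose i : R) * (algebraMap ℂ R) (t ^ i) *
      (x ^ a * x ^ (g * k) * (y ^ b * y ^ (c * k)) * ψ ^ i) * (algebraMap ℂ R) (t ^ k) *
      (algebraMap ℂ R) (t⁻¹ ^ k))) * e4
  · intro i _ hi
    have : j < i := by simpa [Nat.lt_succ_iff] using hi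
    simp [Nat.choose_eq_zero_of_lt this]

lemma exists_family (x y ψ : R) (D : Finset Cell) (g c : ℕ) (p : Cell) (hp : p ∈ push D g c) :
    ∃ (N : ℕ) (e : ℕ → ℂ) (r : ℕ → R), ∀ t : ℂ, t ≠ 0 →
      mon x y ψ p + ∑ i ∈ range N, (t ^ (i + 1) * e i) • r i ∈
        Submodule.span ℂ (Set.range fun q : D => mon x y (ψ + t⁻¹ • (x ^ g * y ^ c)) q) := by
  obtain ⟨a, b, k⟩ := p
  have hk := mem_push.1 hp
  set A := a + k * g with hA
  set B := b + k * c with hB
  set S := lev D g c A B with hS
  obtain ⟨α, hα⟩ := exists_choose_dual S hk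
  set N := S.sup id with hN
  have hkN : k ≤ N := by
    obtain ⟨j, hj, hkj⟩ := exists_ge_of_lt_card hk
    exact hkj.trans (le_sup (f := id) hj)
  let co : ℕ → ℂ := fun i => ∑ j ∈ S, α j * (j.choose i : ℂ)
  let w : ℕ → R := fun i => mon x y ψ (A - i * g, B - i * c, i)
  refine ⟨N - k, fun i => co (k + (i + 1)), fun i => w (k + (i + 1)), fun t ht => ?_⟩
  have h1 : ∑ j ∈ S, (α j * t ^ j) • mon x y (ψ + t⁻¹ • (x ^ g * y ^ c)) (A - j * g, B - j * c, j)
      ∈ Submodule.span ℂ (Set.range fun q : D => mon x y (ψ + t⁻¹ • (x ^ g * y ^ c)) q) := by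
    refine Submodule.sum_mem _ fun j hj => Submodule.smul_mem _ _ (Submodule.subset_span ?_)
    obtain ⟨a', b', hD, e1, e2⟩ := mem_lev.1 hj
    refine ⟨⟨_, hD⟩, ?_⟩
    simp only [← e1, ← e2, Nat.add_sub_cancel]
  have h2 : ∑ j ∈ S, (α j * t ^ j) • mon x y (ψ + t⁻¹ • (x ^ g * y ^ c)) (A - j * g, B - j * c, j)
      = ∑ i ∈ range (N + 1), (co i * t ^ i) • w i := by
    have : ∀ j ∈ S, (α j * t ^ j) • mon x y (ψ + t⁻¹ • (x ^ g * y ^ c)) (A - j * g, B - j * c, j)
        = ∑ i ∈ range (N + 1), (α j * (j.choose i : ℂ) * t ^ i) • w i := by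
      intro j hj
      obtain ⟨a', b', -, e1, e2⟩ := mem_lev.1 hj
      have e3 : A - j * g = a' := by omega
      have e4 : B - j * c = b' := by omega
      rw [e3, e4, mul_smul, mon_expand x y ψ g c a' b' j N (le_sup (f := id) hj) ht, smul_sum,
        e1, e2]
      refine sum_congr rfl fun i _ => ?_
      rw [smul_smul, mul_assoc]
    rw [sum_congr rfl this, sum_comm]
    refine sum_congr rfl fun i _ => ?_
    simp only [co, sum_mul, sum_smul]
  have h3 : ∑ i ∈ range (N + 1), (co i * t ^ i) • w i = t ^ k • (mon x y ψ (a, b, k) +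
      ∑ i ∈ range (N - k), (t ^ (i + 1) * co (k + (i + 1))) • w (k + (i + 1))) := by
    rw [show N + 1 = k + (N - k + 1) by omega, sum_range_add, sum_range_succ', smul_add, smul_sum,
      sum_eq_zero, zero_add, add_comm]
    · congr 1
      · have : co k = 1 := by simpa using hα k hk
        simp [this, w, hA, hB]
      · refine sum_congr rfl fun i _ => ?_
        rw [smul_smul]
        congr 1
        ring
    · intro i hi
      have hi := mem_range.1 hi
      have : co i = 0 := by simpa [hi.ne] using hα i (hi.trans hk)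
      simp [this]
  rw [h2, h3] at h1
  exact (Submodule.smul_mem_iff _ (pow_ne_zero k ht)).1 h1

theorem push_indep (x y ψ : R) (D : Finset Cell) (g c : ℕ)
    (h : LinearIndependent ℂ (fun p : push D g c => mon x y ψ p)) :
    ∀ᶠ t in 𝓝[≠] (0 : ℂ),
      LinearIndependent ℂ (fun q : D => mon x y (ψ + t⁻¹ • (x ^ g * y ^ c)) q) := by
  classical
  choose N e r hr using fun p : push D g c => exists_family x y ψ D g c p p.2
  obtain ⟨L, hL⟩ := LinearMap.exists_leftInverse_of_injective
    (Fintype.linearCombination ℂ (fun p : push D g c => mon x y ψ p))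
    (LinearMap.ker_eq_bot.2 (linearIndependent_iff_injective_fintypeLinearCombination.1 h))
  let F : ℂ → push D g c → R := fun t p =>
    mon x y ψ p + ∑ i ∈ range (N p), (t ^ (i + 1) * e p i) • r p i
  let G : ℂ → push D g c → push D g c → ℂ := fun t p =>
    L (mon x y ψ p) + ∑ i ∈ range (N p), (t ^ (i + 1) * e p i) • L (r p i)
  have hG : ∀ t p, G t p = L (F t p) := by
    intro t p
    simp [G, F, map_sum]
  have hc : Continuous G := by
    refine continuous_pi fun p => ?_
    simp only [G]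
    fun_prop
  have h0 : LinearIndependent ℂ (G 0) := by
    have : G 0 = fun p => Pi.single p 1 := by
      funext p
      have := LinearMap.congr_fun hL (Pi.single p 1)
      simp only [LinearMap.comp_apply, LinearMap.id_apply,
        Fintype.linearCombination_apply_single, one_smul] at this
      simp [G, this]
    rw [this]
    exact Pi.linearIndependent_single_one _ ℂ
  have h1 : ∀ᶠ t in 𝓝 (0 : ℂ), LinearIndependent ℂ (G t) :=
    hc.continuousAt.eventually h0.eventually
  filter_upwards [nhdsWithin_le_nhds h1, self_mem_nhdsWithin] with t ht ht0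
  have h2 : LinearIndependent ℂ (F t) := by
    refine LinearIndependent.of_comp L ?_
    have : (L ∘ F t) = G t := funext fun p => (hG t p).symm
    rw [this]
    exact ht
  rw [linearIndependent_iff_card_le_finrank_span]
  have h3 : LinearIndependent ℂ (fun p : push D g c => (⟨F t p, hr p t ht0⟩ : Submodule.span ℂ
      (Set.range fun q : D => mon x y (ψ + t⁻¹ • (x ^ g * y ^ c)) q))) :=
    LinearIndependent.of_comp (Submodule.subtype _) h2
  have : Module.Finite ℂ (Submodule.span ℂ
      (Set.range fun q : D => mon x y (ψ + t⁻¹ • (x ^ g * y ^ c)) q)) :=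
    Module.Finite.span_of_finite ℂ (Set.finite_range _)
  have h4 := h3.fintype_card_le_finrank
  simp only [Fintype.card_coe, card_push] at h4 ⊢
  exact h4

end

open MvPolynomial

/-- The ring of plane polynomials modulo the `m`-th power of the maximal ideal of the origin. -/
abbrev Jet (m : ℕ) := MvPolynomial (Fin 2) ℂ ⧸ (idealOfVars (Fin 2) ℂ) ^ m

/-- The quotient map. -/
noncomputable abbrev jmk (m : ℕ) : MvPolynomial (Fin 2) ℂ →ₐ[ℂ] Jet m := Ideal.Quotient.mkₐ ℂ _

/-- The monomials of `D` restricted to the graph of `φ` are independent modulo order `m`. -/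
def Ind (m : ℕ) (D : Finset Cell) (φ : MvPolynomial (Fin 2) ℂ) : Prop :=
  LinearIndependent ℂ (fun p : D => mon (jmk m (X 0)) (jmk m (X 1)) (jmk m φ) p)

/-- A common graph works for all members of the family. -/
def Good {ι : Type} (m : ι → ℕ) (D : ι → Finset Cell) : Prop :=
  ∃ φ ∈ (idealOfVars (Fin 2) ℂ) ^ 2, ∀ i, Ind (m i) (D i) φ

lemma X_mem (σ : Type*) (i : σ) : (X i : MvPolynomial σ ℂ) ∈ idealOfVars σ ℂ :=
  Ideal.subset_span ⟨i, rfl⟩

lemma Good.of_push {ι : Type} [Finite ι] {m : ι → ℕ} {D : ι → Finset Cell} {g c : ℕ}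
    (hgc : 2 ≤ g + c) (h : Good m (fun i => push (D i) g c)) : Good m D := by
  obtain ⟨φ, hφ, h⟩ := h
  have h1 := eventually_all.2 fun i => push_indep _ _ _ (D i) g c (h i)
  obtain ⟨t, ht⟩ := h1.exists
  refine ⟨φ + t⁻¹ • (X 0 ^ g * X 1 ^ c), Ideal.add_mem _ hφ ?_, fun i => ?_⟩
  · rw [smul_eq_C_mul]
    refine Ideal.mul_mem_left _ _ (Ideal.pow_le_pow_right hgc ?_)
    rw [pow_add]
    exact Ideal.mul_mem_mul (Ideal.pow_mem_pow (X_mem _ _) _) (Ideal.pow_mem_pow (X_mem _ _) _)
  · unfold Ind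
    simpa only [map_add, map_smul, map_mul, map_pow] using ht i

/-- Exponent vector in two variables. -/
noncomputable def ex2 (a b : ℕ) : Fin 2 →₀ ℕ := Finsupp.single 0 a + Finsupp.single 1 b

lemma ex2_inj {a b a' b' : ℕ} (h : ex2 a b = ex2 a' b') : a = a' ∧ b = b' := by
  have h0 := DFunLike.congr_fun h 0
  have h1 := DFunLike.congr_fun h 1
  simpa [ex2] using And.intro h0 h1

lemma degree_ex2 (a b : ℕ) : (ex2 a b).degree = a + b := by
  simp [ex2]

lemma monomial_ex2 (a b : ℕ) :
    (X 0 ^ a * X 1 ^ b : MvPolynomial (Fin 2) ℂ) = monomial (ex2 a b) 1 := by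
  rw [X_pow_eq_monomial, X_pow_eq_monomial, monomial_mul, one_mul, ex2]

lemma ind_of_flat {m : ℕ} {D : Finset Cell} (h : Bound D m m) : Ind m D 0 := by
  classical
  have hD : ∀ p ∈ D, p.2.2 = 0 ∧ p.1 + p.2.1 < m := by
    rintro ⟨a, b, j⟩ hp
    have := h a b j hp
    rcases Nat.eq_zero_or_pos j with h0 | h0
    · subst h0; simpa using this
    · have : m * 1 ≤ m * j := Nat.mul_le_mul_left m h0
      omega
  unfold Ind
  rw [Fintype.linearIndependent_iff]
  intro w hw p
  have h1 : jmk m (∑ q : D, monomial (ex2 q.1.1 q.1.2.1) (w q)) = 0 := by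
    rw [← hw, map_sum]
    refine sum_congr rfl fun q _ => ?_
    rw [mon, (hD q q.2).1, pow_zero, mul_one, ← map_pow, ← map_pow, ← map_mul, monomial_ex2,
      ← map_smul, smul_monomial, smul_eq_mul, mul_one]
  rw [Ideal.Quotient.mkₐ_eq_mk, Ideal.Quotient.eq_zero_iff_mem, mem_pow_idealOfVars_iff'] at h1
  have h2 := h1 (ex2 p.1.1 p.1.2.1) (by rw [degree_ex2]; exact (hD p p.2).2)
  rw [coeff_sum, sum_eq_single p] at h2
  · simpa using h2
  · intro q _ hq
    rw [coeff_monomial, if_neg]
    intro he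
    obtain ⟨e1, e2⟩ := ex2_inj he
    exact hq (Subtype.ext (Prod.ext e1 (Prod.ext e2 (by rw [(hD q q.2).1, (hD p p.2).1]))))
  · simp

/-- The pushes of one phase. -/
def phase (D : Finset Cell) (δ : ℕ) : ℕ → Finset Cell
  | 0 => push (push D δ 0) 0 δ
  | n + 1 => push (phase D δ n) n (δ - n)

lemma Good.of_phase {ι : Type} [Finite ι] {m : ι → ℕ} {D : ι → Finset Cell} {δ : ℕ}
    (hδ : 2 ≤ δ) (n : ℕ) (hn : n ≤ δ + 1) (h : Good m (fun i => phase (D i) δ n)) : Good m D := by
  induction n with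
  | zero => exact Good.of_push (by omega) (Good.of_push (g := 0) (c := δ) (by omega) h)
  | succ n ih => exact ih (by omega) (Good.of_push (g := n) (c := δ - n) (by omega) h)

lemma step_spec {D : Finset Cell} {δ m g c : ℕ} (hδ : 2 ≤ δ) (hgc : g + c = δ) (hI : Inv D)
    (hS : Stab D δ) (hB : Bound D δ m) (hg : g = 1 → Rel D (0 : ℕ) (δ : ℕ) 1)
    (hc : c = 1 → Rel D (δ : ℕ) (0 : ℕ) 1) :
    Inv (push D g c) ∧ Stab (push D g c) δ ∧ Bound (push D g c) δ m := by
  subst hgc
  exact ⟨hI.push hS hδ hg hc, hS.push _ _, hB.push⟩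

lemma phase_spec {D : Finset Cell} {δ m : ℕ} (hδ : 2 ≤ δ) (hI : Inv D) (hS : Stab D δ)
    (hB : Bound D δ m) (n : ℕ) (hn : n ≤ δ + 1) :
    Inv (phase D δ n) ∧ Stab (phase D δ n) δ ∧ Bound (phase D δ n) δ m ∧
      (phase D δ n).card = D.card ∧ Rel (phase D δ n) (δ : ℕ) (0 : ℕ) 1 ∧
      Rel (phase D δ n) (0 : ℕ) (δ : ℕ) 1 ∧
      ∀ g c : ℕ, g < n → g + c = δ → Rel (phase D δ n) g c 1 := by
  induction n with
  | zero =>
    obtain ⟨i1, s1, b1⟩ := step_spec (g := δ) (c := 0) hδ rfl hI hS hB (by omega) (by omega)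
    obtain ⟨i2, s2, b2⟩ := step_spec (g := 0) (c := δ) hδ (zero_add _) i1 s1 b1 (by omega)
      (by omega)
    rw [phase]
    exact ⟨i2, s2, b2, by rw [card_push, card_push], (push_self _ _ _).push_vert,
      push_self _ _ _, by omega⟩
  | succ n ih =>
    obtain ⟨h1, h2, h3, h4, h5, h6, h7⟩ := ih (by omega)
    obtain ⟨i2, s2, b2⟩ := step_spec (g := n) (c := δ - n) hδ (by omega) h1 h2 h3 (fun _ => h6)
      (fun _ => h5)
    rw [phase]
    refine ⟨i2, s2, b2, by rw [card_push, h4], h5.push_vert, h6.push_vert, fun g c hg hgc => ?_⟩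
    rcases Nat.lt_succ_iff_lt_or_eq.1 hg with hg | rfl
    · exact (h7 g c hg hgc).push_vert
    · obtain rfl : c = δ - g := by omega
      exact push_self _ _ _

theorem good_of_bound {ι : Type} [Finite ι] (m : ι → ℕ) (M : ℕ) (hM : ∀ i, m i ≤ M) (k : ℕ) :
    ∀ (δ : ℕ) (D : ι → Finset Cell), 2 ≤ δ → M ≤ δ + k → (∀ i, Inv (D i)) → (∀ i, Stab (D i) δ) →
      (∀ i, Bound (D i) δ (m i)) → (∀ i, 2 * (D i).card ≤ m i * (m i + 1)) → Good m D := by
  induction k with
  | zero =>
    intro δ D _ hk _ _ hB _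
    refine ⟨0, Ideal.zero_mem _, fun i => ind_of_flat fun a b j hD => ?_⟩
    have := hB i a b j hD
    have : m i * j ≤ δ * j := Nat.mul_le_mul_right j ((hM i).trans hk)
    omega
  | succ k ih =>
    intro δ D hδ hk hI hS hB hc
    have h := fun i => phase_spec hδ (hI i) (hS i) (hB i) (δ + 1) le_rfl
    have hS' : ∀ i, Stab (phase (D i) δ (δ + 1)) (δ + 1) := by
      intro i g c hgc
      rcases Nat.lt_succ_iff_lt_or_eq.1 hgc with hg | hg
      · exact (h i).2.1 g c hg
      · exact (h i).2.2.2.2.2.2 g c (by omega) hg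
    refine Good.of_phase hδ (δ + 1) le_rfl (ih (δ + 1) _ (by omega) (by omega) (fun i => (h i).1) hS'
      (fun i => Bound.succ (h i).1 (hS' i) hδ (h i).2.2.1 ?_) fun i => ?_)
    · rw [(h i).2.2.2.1]; exact hc i
    · rw [(h i).2.2.2.1]; exact hc i

/-- The main combinatorial theorem. -/
theorem good {ι : Type} [Finite ι] (m : ι → ℕ) (D : ι → Finset Cell) (hI : ∀ i, Inv (D i))
    (hS : ∀ i, Stab (D i) 2) (hB : ∀ i, Bound (D i) 2 (m i))
    (hc : ∀ i, 2 * (D i).card ≤ m i * (m i + 1)) : Good m D := by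
  obtain ⟨M, hM⟩ := (Set.finite_range m).bddAbove
  exact good_of_bound m M (fun i => hM ⟨i, rfl⟩) M 2 D le_rfl (by omega) hI hS hB hc

end Pool.Agent.Lib.MP_a430e8_ag
end
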