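import Pool.Agent.Lib.MP_a430e8_ag.Alg

/-! Starting configurations and their cardinalities. -/

namespace Pool.Agent.Lib.MP_a430e8_ag
open Finset

/-- Cells of total degree less than `n`. -/
def tet (n : ℕ) : Finset Cell :=
  (range n ×ˢ range n ×ˢ range n).filter (fun p => p.1 + p.2.1 + p.2.2 < n)

lemma mem_tet {n : ℕ} {p : Cell} : p ∈ tet n ↔ p.1 + p.2.1 + p.2.2 < n := by
  obtain ⟨a, b, j⟩ := p
  simp only [tet, mem_filter, mem_product, mem_range]
  omega

/-- Cells of level zero and degree less than `n`. -/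
def tri (n : ℕ) : Finset Cell := (tet n).filter (fun p => p.2.2 = 0)

lemma mem_tri {n : ℕ} {p : Cell} : p ∈ tri n ↔ p.1 + p.2.1 < n ∧ p.2.2 = 0 := by
  simp only [tri, mem_filter, mem_tet]
  omega

lemma card_tri (n : ℕ) : (tri n).card = (n + 1).choose 2 := by
  induction n with
  | zero => rfl
  | succ n ih =>
    have : tri (n + 1) = tri n ∪ (range (n + 1)).image (fun a => (a, n - a, 0)) := by
      ext ⟨a, b, j⟩
      simp only [mem_union, mem_tri, mem_image, mem_range, Prod.mk.injEq]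
      constructor
      · rintro ⟨h1, rfl⟩
        by_cases h : a + b < n
        · exact Or.inl ⟨h, rfl⟩
        · exact Or.inr ⟨a, by omega, rfl, by omega, rfl⟩
      · rintro (⟨h1, rfl⟩ | ⟨a', h1, rfl, rfl, rfl⟩) <;> omega
    rw [this, card_union_of_disjoint, ih, card_image_of_injective, card_range,
      Nat.choose_succ_succ' (n + 1) 1]
    · simp [add_comm]
    · intro a a' h
      exact (Prod.ext_iff.1 h).1
    · refine disjoint_left.2 fun p hp hp' => ?_
      obtain ⟨a, ha, rfl⟩ := mem_image.1 hp'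
      have := mem_range.1 ha
      have := (mem_tri.1 hp).1
      simp only at this
      omega

lemma card_tet (n : ℕ) : (tet n).card = (n + 2).choose 3 := by
  induction n with
  | zero => rfl
  | succ n ih =>
    have : tet (n + 1) = tri (n + 1) ∪ (tet n).image (fun p => (p.1, p.2.1, p.2.2 + 1)) := by
      ext ⟨a, b, j⟩
      simp only [mem_union, mem_tri, mem_image, mem_tet, Prod.mk.injEq, Prod.exists]
      constructor
      · intro h1
        rcases Nat.eq_zero_or_pos j with h | h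
        · exact Or.inl ⟨by omega, h⟩
        · exact Or.inr ⟨a, b, j - 1, by omega, rfl, rfl, by omega⟩
      · rintro (⟨h1, rfl⟩ | ⟨a', b', j', h1, rfl, rfl, rfl⟩) <;> omega
    rw [this, card_union_of_disjoint, card_tri, card_image_of_injective, ih,
      Nat.choose_succ_succ' (n + 2) 2]
    · rintro ⟨a, b, j⟩ ⟨a', b', j'⟩ h
      simpa using h
    · refine disjoint_left.2 fun p hp hp' => ?_
      obtain ⟨q, -, rfl⟩ := mem_image.1 hp'
      simpa using (mem_tri.1 hp).2

lemma two_mul_choose (m : ℕ) : 2 * (m + 1).choose 2 = m * (m + 1) := by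
  induction m with
  | zero => rfl
  | succ m ih => rw [Nat.choose_succ_succ' (m + 1) 1, mul_add, ih]; simp; ring

lemma six_mul_choose (n : ℕ) : 6 * (n + 2).choose 3 = n * (n + 1) * (n + 2) := by
  induction n with
  | zero => rfl
  | succ n ih =>
    have := two_mul_choose (n + 1)
    rw [Nat.choose_succ_succ' (n + 2) 2, mul_add, ih]
    nlinarith

/-- The admissible part of the tetrahedron. -/
def adm (e m : ℕ) : Finset Cell := (tet (e + 1)).filter (fun p => p.1 + p.2.1 + 2 * p.2.2 < m)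

lemma mem_adm {e m : ℕ} {p : Cell} :
    p ∈ adm e m ↔ p.1 + p.2.1 + p.2.2 ≤ e ∧ p.1 + p.2.1 + 2 * p.2.2 < m := by
  simp only [adm, mem_filter, mem_tet]
  omega

lemma adm_subset (e m : ℕ) : adm e m ⊆ tet (e + 1) := filter_subset _ _

lemma adm_mono {e e' : ℕ} (h : e ≤ e') (m : ℕ) : adm e m ⊆ adm e' m := by
  intro p hp
  rw [mem_adm] at hp ⊢
  omega

lemma adm_eq_tet {e m : ℕ} (h : 2 * e < m) : adm e m = tet (e + 1) := by
  ext p
  rw [mem_adm, mem_tet]
  omega

lemma adm_two_mul (e : ℕ) : adm e (2 * e) = (tet (e + 1)).erase (0, 0, e) := by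
  ext ⟨a, b, j⟩
  simp only [mem_adm, mem_erase, mem_tet, ne_eq, Prod.mk.injEq]
  omega

lemma card_adm_two_mul (e : ℕ) : (adm e (2 * e)).card + 1 = (e + 3).choose 3 := by
  rw [adm_two_mul, card_erase_add_one (by simp [mem_tet]), card_tet]

lemma card_adm_ge (e m : ℕ) (h : 2 * e ≤ m + 1) : (e + 3).choose 3 ≤ (adm e m).card + 3 := by
  have h1 : tet (e + 1) ⊆ adm e m ∪ {(0, 0, e), (1, 0, e - 1), (0, 1, e - 1)} := by
    rintro ⟨a, b, j⟩ hp
    simp only [mem_tet, mem_union, mem_adm, mem_insert, mem_singleton, Prod.mk.injEq] at hp ⊢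
    omega
  have h2 := card_le_card h1
  rw [card_tet] at h2
  exact h2.trans ((card_union_le _ _).trans (Nat.add_le_add_left card_le_three _))

lemma choose_le_card_adm_small :
    ∀ e ≤ 5, ∀ m ≤ 2 * e, ¬ (m = 2 * e ∧ 2 ≤ e ∧ e ≤ 4) → (m + 1).choose 2 ≤ (adm e m).card := by
  decide +kernel

lemma choose_le_card_adm {e m : ℕ} (h1 : (m + 1).choose 2 ≤ (e + 3).choose 3 ∨ m ≤ 2 * e)
    (h2 : ¬ (m = 2 * e ∧ 2 ≤ e ∧ e ≤ 4)) : (m + 1).choose 2 ≤ (adm e m).card := by
  by_cases hm : 2 * e < m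
  · rw [adm_eq_tet hm, card_tet]
    exact h1.resolve_right (by omega)
  by_cases he : e ≤ 5
  · exact choose_le_card_adm_small e he m (by omega) h2
  by_cases hm' : m ≤ 10
  · exact (choose_le_card_adm_small 5 le_rfl m hm' (by omega)).trans
      (card_le_card (adm_mono (by omega) m))
  · obtain ⟨k, hk⟩ : ∃ k, 2 * (k + 6) = m ∨ 2 * (k + 6) = m + 1 := ⟨(m + 1) / 2 - 6, by omega⟩
    refine le_trans ?_ (card_le_card (adm_mono (show k + 6 ≤ e by omega) m))
    have h3 := card_adm_ge (k + 6) m (by omega)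
    have h4 := six_mul_choose (k + 7)
    have h5 := two_mul_choose m
    have h6 : m * (m + 1) ≤ (2 * (k + 6)) * (2 * (k + 6) + 1) :=
      Nat.mul_le_mul (by omega) (by omega)
    rw [show k + 7 + 2 = k + 6 + 3 by omega] at h4
    nlinarith [Nat.zero_le (k * k * k), Nat.zero_le (k * k)]

lemma exists_lower {α : Type*} [DecidableEq α] (B : Finset α) (f : α → ℕ) (n : ℕ)
    (hn : n ≤ B.card) :
    ∃ D ⊆ B, D.card = n ∧ ∀ p ∈ D, ∀ q ∈ B, f q < f p → q ∈ D := by
  induction n with
  | zero => exact ⟨∅, empty_subset _, rfl, by simp⟩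
  | succ n ih =>
    obtain ⟨D, hD, hc, hl⟩ := ih (by omega)
    have hne : (B \ D).Nonempty := by
      rw [← card_pos, card_sdiff_of_subset hD]
      omega
    obtain ⟨p, hp, hmin⟩ := exists_min_image _ f hne
    obtain ⟨hpB, hpD⟩ := mem_sdiff.1 hp
    refine ⟨insert p D, insert_subset hpB hD, by rw [card_insert_of_notMem hpD, hc], ?_⟩
    intro p' hp' q hq hlt
    rcases mem_insert.1 hp' with rfl | hp'
    · by_contra hc
      have := hmin q (mem_sdiff.2 ⟨hq, fun h => hc (mem_insert_of_mem h)⟩)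
      omega
    · exact mem_insert_of_mem (hl p' hp' q hq hlt)

lemma exists_conf (e m n : ℕ) (hn : n ≤ (adm e m).card) :
    ∃ D ⊆ adm e m, D.card = n ∧ Inv D ∧ Stab D 2 ∧ Bound D 2 m := by
  obtain ⟨D, hD, hc, hl⟩ := exists_lower (adm e m) (fun p => p.2.2 * (e + 1) + (p.1 + p.2.1)) n hn
  have key : ∀ u v : ℤ, u + v = -1 → Rel D u v 0 := by
    intro u v huv a b j a' b' hp h1 h2
    have := mem_adm.1 (hD hp)
    simp only at this
    refine hl _ hp _ (mem_adm.2 ?_) ?_
    · simp only; omega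
    · simp only [add_zero]; omega
  refine ⟨D, hD, hc, ⟨key _ _ rfl, key _ _ rfl, key _ _ rfl, key _ _ rfl⟩, ?_, ?_⟩
  · intro g c hgc a b j a' b' hp h1 h2
    have := mem_adm.1 (hD hp)
    simp only at this
    refine hl _ hp _ (mem_adm.2 ?_) ?_
    · simp only; omega
    · simp only [add_mul]; omega
  · intro a b j hp
    exact (mem_adm.1 (hD hp)).2

/-- Two systems at once. -/
theorem exists_pair (e m n e' m' : ℕ) (hn : n ≤ (adm e m).card) (hn' : n ≤ (m + 1).choose 2)
    (h' : (m' + 1).choose 2 ≤ (adm e' m').card) :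
    ∃ D ⊆ adm e m, ∃ D' ⊆ adm e' m', D.card = n ∧ D'.card = (m' + 1).choose 2 ∧
      ∃ φ ∈ (MvPolynomial.idealOfVars (Fin 2) ℂ) ^ 2, Ind m D φ ∧ Ind m' D' φ := by
  obtain ⟨D, hD, hc, hI, hS, hB⟩ := exists_conf e m n hn
  obtain ⟨D', hD', hc', hI', hS', hB'⟩ := exists_conf e' m' _ h'
  have h1 := two_mul_choose m
  have h2 := two_mul_choose m'
  obtain ⟨φ, hφ, h⟩ := good (ι := Bool) (fun i => cond i m m') (fun i => cond i D D')
    (by rintro (_ | _) <;> assumption) (by rintro (_ | _) <;> assumption)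
    (by rintro (_ | _) <;> assumption)
    (by rintro (_ | _) <;> simp only [cond_true, cond_false] <;> omega)
  exact ⟨D, hD, D', hD', hc, hc', φ, hφ, h true, h false⟩

end Pool.Agent.Lib.MP_a430e8_ag
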