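import Mathlib

/-! Linear series with an assigned fat point on a surface in projective 3-space. -/

namespace Pool.Agent.Lib.MP_a430e8_ag
open MvPolynomial

/-- Passage to the affine chart `x_0 = 1` of projective 3-space. -/
noncomputable def dehom : MvPolynomial (Fin 4) ℂ →ₐ[ℂ] MvPolynomial (Fin 3) ℂ :=
  aeval ![1, X 0, X 1, X 2]

/-- The maximal ideal of the point `q` of the affine chart. -/
noncomputable def maxId (q : Fin 3 → ℂ) : Ideal (MvPolynomial (Fin 3) ℂ) :=
  Ideal.span (Set.range fun i => X i - C (q i))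

/-- The forms of degree `e` whose restriction to the surface `f = 0` vanishes to order at least `m`
at the point `(1 : q)`, that is, lies in the `m`-th power of the maximal ideal of the point in the
coordinate ring of the affine surface. -/
noncomputable def series (f : MvPolynomial (Fin 4) ℂ) (q : Fin 3 → ℂ) (e m : ℕ) :
    Submodule ℂ (MvPolynomial (Fin 4) ℂ) :=
  homogeneousSubmodule (Fin 4) ℂ e ⊓
    ((Ideal.span {dehom f} ⊔ maxId q ^ m).restrictScalars ℂ).comap dehom.toLinearMap

/-- `P` holds on a nonempty Zariski-open set of forms of degree `d`: off the zero set of a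
polynomial in the coefficients which does not vanish on all forms of degree `d`. -/
def GeneralForm (d : ℕ) (P : MvPolynomial (Fin 4) ℂ → Prop) : Prop :=
  ∃ Φ : MvPolynomial (Fin 4 →₀ ℕ) ℂ,
    (∃ f : MvPolynomial (Fin 4) ℂ, f.IsHomogeneous d ∧ eval (fun s => f.coeff s) Φ ≠ 0) ∧
    ∀ f : MvPolynomial (Fin 4) ℂ, f.IsHomogeneous d → eval (fun s => f.coeff s) Φ ≠ 0 → P f

/-- `P` holds on a nonempty Zariski-open set of points `(1 : q)` of the surface `f = 0`. -/
def GeneralPoint (f : MvPolynomial (Fin 4) ℂ) (P : (Fin 3 → ℂ) → Prop) : Prop :=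
  ∃ G : MvPolynomial (Fin 3) ℂ, (∃ q, eval q (dehom f) = 0 ∧ eval q G ≠ 0) ∧
    ∀ q, eval q (dehom f) = 0 → eval q G ≠ 0 → P q

end Pool.Agent.Lib.MP_a430e8_ag
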