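import Pool.Agent.Lib.MP_a430e8_ag.Loc

-- part Pool.Agent.Lib.MP_a430e8_ag.Dim
section

/-! Dimension bounds for the series from an open independence condition. -/

namespace Pool.Agent.Lib.MP_a430e8_ag
open Finset MvPolynomial

/-- Truncated coefficient vectors of the monomials of `D` and of the multiples of `g`. -/
noncomputable def vec {A : Type*} [CommRing A] (m : ℕ) (D : Finset Cell)
    (g : MvPolynomial (Fin 3) A) : D ⊕ tet (m - 1) → tet m → A := fun i κ =>
  (Sum.elim (fun p : D => mon (X 0) (X 1) (X 2) p)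
    (fun β : tet (m - 1) => g * mon (X 0) (X 1) (X 2) β) i).coeff (ex3 κ)

lemma map_vec {A B : Type*} [CommRing A] [CommRing B] (h : A →+* B) (m : ℕ) (D : Finset Cell)
    (g : MvPolynomial (Fin 3) A) (i : D ⊕ tet (m - 1)) (κ : tet m) :
    h (vec m D g i κ) = vec m D (MvPolynomial.map h g) i κ := by
  rcases i with p | β <;> simp [vec, ← coeff_map, map_mon]

/-- The open condition. -/
def Ind3 (m : ℕ) (D : Finset Cell) (g : P3) : Prop := LinearIndependent ℂ (vec m D g)

lemma ind3_iff {m : ℕ} {D : Finset Cell} {g : P3} :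
    Ind3 m D g ↔ ∀ c c' : Cell → ℂ,
      ∑ p ∈ D, c p • mono3 p + g * ∑ p ∈ tet (m - 1), c' p • mono3 p ∈ m3 ^ m →
      (∀ p ∈ D, c p = 0) ∧ ∀ p ∈ tet (m - 1), c' p = 0 := by
  classical
  have key : ∀ c c' : Cell → ℂ,
      ∑ p ∈ D, c p • mono3 p + g * ∑ p ∈ tet (m - 1), c' p • mono3 p ∈ m3 ^ m ↔
      ∑ i, Sum.elim (fun p : D => c p) (fun p : tet (m - 1) => c' p) i • vec m D g i = 0 := by
    intro c c'
    rw [mem_m3_pow, funext_iff, Subtype.forall]
    refine forall₂_congr fun κ hκ => ?_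
    rw [Fintype.sum_sum_type, mul_sum, ← sum_coe_sort D, ← sum_coe_sort (tet (m - 1))]
    simp [vec, coeff_sum, mono3]
  unfold Ind3
  rw [Fintype.linearIndependent_iff]
  constructor
  · intro h c c' hc
    have := h _ ((key c c').1 hc)
    exact ⟨fun p hp => this (Sum.inl ⟨p, hp⟩), fun p hp => this (Sum.inr ⟨p, hp⟩)⟩
  · intro h w hw
    have := h (fun p => if hp : p ∈ D then w (Sum.inl ⟨p, hp⟩) else 0)
      (fun p => if hp : p ∈ tet (m - 1) then w (Sum.inr ⟨p, hp⟩) else 0) ((key _ _).2 (by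
        rw [← hw]
        refine sum_congr rfl ?_
        rintro (p | p) - <;> simp))
    rintro (p | p)
    · simpa using this.1 p p.2
    · simpa using this.2 p p.2

lemma coeff_zero_of_mul {g : P3} {m : ℕ} (hg : g ∉ m3 ^ 2) (c' : Cell → ℂ)
    (h : g * ∑ p ∈ tet (m - 1), c' p • mono3 p ∈ m3 ^ m) : ∀ p ∈ tet (m - 1), c' p = 0 := by
  intro p hp
  have := mem_m3_pow.1 (mem_pow_of_mul hg h) p hp
  rwa [coeff_sum_mono3, if_pos hp] at this

lemma ev_mem_pow {φ : P2} (hφ : φ ∈ m2) {k : ℕ} {F : P3} (h : F ∈ m3 ^ k) : ev φ F ∈ m2 ^ k := by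
  have h1 : m3.map (ev φ) ≤ m2 := by
    rw [Ideal.map_span, Ideal.span_le]
    rintro _ ⟨_, ⟨i, rfl⟩, rfl⟩
    fin_cases i
    · simpa [ev] using X_mem (Fin 2) 0
    · simpa [ev] using X_mem (Fin 2) 1
    · simpa [ev] using hφ
  have h2 := Ideal.mem_map_of_mem (ev φ) h
  rw [Ideal.map_pow] at h2
  exact Ideal.pow_right_mono h1 k h2

lemma special_not_mem (A B : P3) : X 2 - X 0 * A - X 1 * B ∉ m3 ^ 2 := by
  intro h
  have h1 := mem_m3_pow.1 h (0, 0, 1) (mem_tet.2 (by simp))
  have e : ex3 (0, 0, 1) = Finsupp.single 2 1 := by simp [ex3]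
  rw [e] at h1
  simp [coeff_X_mul', coeff_X] at h1

lemma ind3_of_ex {m : ℕ} {D : Finset Cell} {g A B : P3} {φ : P2}
    (hg : g = X 2 - X 0 * A - X 1 * B) (hφ : φ ∈ m2 ^ 2) (hev : ev φ g ∈ m2 ^ m)
    (hI : Ind m D φ) : Ind3 m D g := by
  rw [ind3_iff]
  intro c c' h
  have h1 := ev_mem_pow (Ideal.pow_le_self two_ne_zero hφ) h
  rw [map_add, map_mul] at h1
  have h2 := ind_iff.1 hI c (by
    exact (Ideal.add_mem_iff_left _ (Ideal.mul_mem_right _ _ hev)).1 h1)
  refine ⟨h2, coeff_zero_of_mul (hg ▸ special_not_mem A B) c' ?_⟩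
  rwa [sum_eq_zero (fun p hp => by rw [h2 p hp, zero_smul]), zero_add] at h

lemma Ind3.not_mem {m : ℕ} {D : Finset Cell} {g : P3} (h : Ind3 m D g) (hm : 2 ≤ m) :
    g ∉ m3 ^ 2 := by
  classical
  intro hg
  have hp : ((m - 2, 0, 0) : Cell) ∈ tet (m - 1) := mem_tet.2 (by simp only; omega)
  have := (ind3_iff.1 h 0 (fun p => if p = (m - 2, 0, 0) then 1 else 0) ?_).2 _ hp
  · simp at this
  · simp only [Pi.zero_apply, zero_smul, sum_const_zero, zero_add, ite_smul, one_smul,
      sum_ite_eq', if_pos hp]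
    have e : mono3 (m - 2, 0, 0) = X 0 ^ (m - 2) := by simp [mono3, mon]
    have := Ideal.mul_mem_mul hg (Ideal.pow_mem_pow (X_mem (Fin 3) 0) (m - 2))
    rwa [← pow_add, show 2 + (m - 2) = m by omega, ← e] at this

/-- The series at the origin of the chart. -/
noncomputable def ser0 (g : P3) (e m : ℕ) : Submodule ℂ P4 :=
  homogeneousSubmodule (Fin 4) ℂ e ⊓
    ((Ideal.span {g} ⊔ m3 ^ m).restrictScalars ℂ).comap dehom.toLinearMap

lemma mem_ser0 {g : P3} {e m : ℕ} {F : P4} :
    F ∈ ser0 g e m ↔ F.IsHomogeneous e ∧ ∃ A, dehom F - g * A ∈ m3 ^ m := by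
  simp only [ser0, Submodule.mem_inf, mem_homogeneousSubmodule, Submodule.mem_comap,
    AlgHom.toLinearMap_apply, Submodule.restrictScalars_mem, Ideal.mem_span_singleton_sup]
  refine and_congr_right fun _ => ⟨?_, ?_⟩
  · rintro ⟨a, b, hb, h⟩
    exact ⟨a, by rw [← h]; convert hb using 1; ring⟩
  · rintro ⟨a, h⟩
    exact ⟨a, _, h, by ring⟩

instance (g : P3) (e m : ℕ) : Module.Finite ℂ (ser0 g e m) := by
  have : Module.Finite ℂ (homogeneousSubmodule (Fin 4) ℂ e) :=
    Module.Finite.iff_fg.2 (homogeneousSubmodule_fg _ _ e)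
  exact Submodule.finiteDimensional_of_le (S₂ := homogeneousSubmodule (Fin 4) ℂ e) inf_le_left

lemma finrank_ser0_le {g : P3} {e m : ℕ} {D : Finset Cell} (hD : D ⊆ tet (e + 1))
    (hg : g ∈ m3) (h : Ind3 m D g) :
    Module.finrank ℂ (ser0 g e m) + D.card ≤ (e + 3).choose 3 := by
  classical
  let ρ : ser0 g e m →ₗ[ℂ] (↥(tet (e + 1) \ D) → ℂ) :=
    (LinearMap.pi fun p : ↥(tet (e + 1) \ D) => lcoeff ℂ (ex4 e p)) ∘ₗ Submodule.subtype _
  have hρ : Function.Injective ρ := by
    rw [← LinearMap.ker_eq_bot, LinearMap.ker_eq_bot']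
    rintro ⟨F, hF⟩ h0
    obtain ⟨hF1, A, hA⟩ := mem_ser0.1 hF
    have h1 : F = ∑ p ∈ D, F.coeff (ex4 e p) • mono4 e p := by
      conv_lhs => rw [form_eq_sum hF1]
      refine (sum_subset hD fun p hp hp' => ?_).symm
      have : F.coeff (ex4 e p) = 0 := congrFun h0 ⟨p, mem_sdiff.2 ⟨hp, hp'⟩⟩
      rw [this, zero_smul]
    have h2 : dehom F = ∑ p ∈ D, F.coeff (ex4 e p) • mono3 p := by
      conv_lhs => rw [h1]
      simp only [map_sum, map_smul, dehom_mono4]
    have hle : m3 * m3 ^ (m - 1) ≤ m3 ^ m := by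
      rw [← pow_succ']
      exact Ideal.pow_le_pow_right (by omega)
    have h3 := Ideal.add_mem _ hA (hle (Ideal.mul_mem_mul hg (sub_trunc_mem (m - 1) A)))
    have h4 := (ind3_iff.1 h (fun p => F.coeff (ex4 e p)) (fun p => -A.coeff (ex3 p)) (by
      convert h3 using 1
      simp only [neg_smul, sum_neg_distrib]
      rw [h2]
      ring)).1
    ext1
    change F = 0
    rw [h1]
    exact sum_eq_zero fun p hp => by rw [h4 p hp, zero_smul]
  have h5 := LinearMap.finrank_le_finrank_of_injective hρ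
  rw [Module.finrank_fintype_fun_eq_card, Fintype.card_coe, card_sdiff_of_subset hD,
    card_tet] at h5
  have h6 := card_le_card hD
  rw [card_tet] at h6
  change _ ≤ (e + 1 + 2).choose 3
  omega

lemma le_finrank_ser0 {g : P3} (e m : ℕ) (h : ∀ c' : Cell → ℂ,
      g * ∑ p ∈ tet (m - 1), c' p • mono3 p ∈ m3 ^ m → ∀ p ∈ tet (m - 1), c' p = 0) :
    (e + 3).choose 3 ≤ Module.finrank ℂ (ser0 g e m) + (m + 1).choose 2 := by
  classical
  let tr : P3 →ₗ[ℂ] (tet m → ℂ) := LinearMap.pi fun κ : tet m => lcoeff ℂ (ex3 κ)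
  have htr : ∀ F, tr F = 0 ↔ F ∈ m3 ^ m := by
    intro F
    rw [mem_m3_pow, funext_iff, Subtype.forall]
    rfl
  let v : tet (m - 1) → tet m → ℂ := fun β => tr (g * mono3 β)
  have hv : LinearIndependent ℂ v := by
    rw [Fintype.linearIndependent_iff]
    intro w hw p
    have := h (fun p => if hp : p ∈ tet (m - 1) then w ⟨p, hp⟩ else 0) ((htr _).1 (by
      rw [← hw, mul_sum, map_sum, ← sum_coe_sort]
      refine sum_congr rfl fun q _ => ?_
      simp [v])) p p.2
    simpa using this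
  let U := Submodule.span ℂ (Set.range v)
  let Λ : (tet (e + 1) → ℂ) →ₗ[ℂ] P4 := Fintype.linearCombination ℂ fun p => mono4 e p
  let τ := U.mkQ ∘ₗ tr ∘ₗ dehom.toLinearMap ∘ₗ Λ
  have h1 := τ.finrank_range_add_finrank_ker
  have h2 := (LinearMap.range τ).finrank_le
  have h3 := U.finrank_quotient_add_finrank
  rw [finrank_span_eq_card hv] at h3
  have hΛ : Function.Injective Λ := by
    rw [← LinearMap.ker_eq_bot, LinearMap.ker_eq_bot']
    intro w hw
    funext p
    have h4 : dehom (Λ w) = ∑ q ∈ tet (e + 1), (if hq : q ∈ tet (e + 1) then w ⟨q, hq⟩ else 0) •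
        mono3 q := by
      rw [← sum_coe_sort]
      simp [Λ, Fintype.linearCombination_apply, dehom_mono4]
    have h5 := congrArg (coeff (ex3 p)) h4
    rw [coeff_sum_mono3, hw] at h5
    simpa using h5.symm
  have h6 : (LinearMap.ker τ).map Λ ≤ ser0 g e m := by
    rintro _ ⟨w, hw, rfl⟩
    refine mem_ser0.2 ⟨?_, ?_⟩
    · rw [Fintype.linearCombination_apply]
      exact (homogeneousSubmodule (Fin 4) ℂ e).sum_mem fun p _ =>
        Submodule.smul_mem _ _ (mono4_hom p.2)
    · have h7 : tr (dehom (Λ w)) ∈ U := (Submodule.Quotient.mk_eq_zero U).1 hw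
      obtain ⟨c, hc⟩ := (Submodule.mem_span_range_iff_exists_fun ℂ).1 h7
      refine ⟨∑ β, c β • mono3 β, (htr _).1 ?_⟩
      rw [map_sub, ← hc, mul_sum, map_sum]
      simp [v]
  have h8 := Submodule.finrank_mono h6
  rw [← (Submodule.equivMapOfInjective Λ hΛ _).finrank_eq] at h8
  simp only [Module.finrank_fintype_fun_eq_card, Fintype.card_coe, card_tet] at h1 h3
  have h9 : (m + 2).choose 3 = (m - 1 + 2).choose 3 + (m + 1).choose 2 := by
    rcases m with _ | m
    · rfl
    · rw [Nat.choose_succ_succ' (m + 2) 2, add_comm]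
      rfl
  change (e + 1 + 2).choose 3 ≤ _
  omega

/-- Translation in the chart. -/
noncomputable def tau (q : Fin 3 → ℂ) : P3 →ₐ[ℂ] P3 := aeval fun i => X i + C (q i)

/-- Translation as a projective linear map. -/
noncomputable def sig (q : Fin 3 → ℂ) : P4 →ₐ[ℂ] P4 :=
  aeval ![X 0, X 1 + C (q 0) * X 0, X 2 + C (q 1) * X 0, X 3 + C (q 2) * X 0]

lemma dehom_sig (q : Fin 3 → ℂ) (F : P4) : dehom (sig q F) = tau q (dehom F) := by
  have : dehom.comp (sig q) = (tau q).comp dehom := by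
    refine algHom_ext fun i => ?_
    fin_cases i <;> simp [dehom, sig, tau]
  exact AlgHom.congr_fun this F

lemma sig_sig (q : Fin 3 → ℂ) (F : P4) : sig (-q) (sig q F) = F := by
  have : (sig (-q)).comp (sig q) = AlgHom.id ℂ _ := by
    refine algHom_ext fun i => ?_
    fin_cases i <;> simp [sig]
  exact AlgHom.congr_fun this F

lemma tau_tau (q : Fin 3 → ℂ) (F : P3) : tau (-q) (tau q F) = F := by
  have : (tau (-q)).comp (tau q) = AlgHom.id ℂ _ := by
    refine algHom_ext fun i => ?_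
    simp [tau]
  exact AlgHom.congr_fun this F

lemma sig_hom (q : Fin 3 → ℂ) {F : P4} {e : ℕ} (h : F.IsHomogeneous e) :
    (sig q F).IsHomogeneous e := by
  have := h.aeval (n := 1) (τ := Fin 4) (S := ℂ) ![X 0, X 1 + C (q 0) * X 0, X 2 + C (q 1) * X 0, X 3 + C (q 2) * X 0]
    (fun i => by
      fin_cases i
      · exact isHomogeneous_X _ _
      all_goals exact (isHomogeneous_X _ _).add (isHomogeneous_C_mul_X _ _))
  rw [one_mul] at this
  exact this

lemma tau_mem_iff (q : Fin 3 → ℂ) (g F : P3) (m : ℕ) :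
    F ∈ Ideal.span {g} ⊔ maxId q ^ m ↔ tau q F ∈ Ideal.span {tau q g} ⊔ m3 ^ m := by
  constructor
  · intro h
    have h1 := Ideal.mem_map_of_mem (tau q) h
    rw [Ideal.map_sup, Ideal.map_pow, Ideal.map_span, Set.image_singleton, maxId, Ideal.map_span,
      ← Set.range_comp] at h1
    have e : (⇑(tau q) ∘ fun i => X i - C (q i)) = X := by
      funext i
      simp [tau]
    rw [e] at h1
    exact h1
  · intro h
    have h1 := Ideal.mem_map_of_mem (tau (-q)) h
    rw [Ideal.map_sup, Ideal.map_pow, Ideal.map_span, Set.image_singleton, Ideal.map_span,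
      ← Set.range_comp, tau_tau, tau_tau] at h1
    have e : (⇑(tau (-q)) ∘ X) = fun i => X i - C (q i) := by
      funext i
      simp [tau, sub_eq_add_neg]
    rw [e] at h1
    exact h1

lemma mem_series_iff {f F : P4} {q : Fin 3 → ℂ} {e m : ℕ} :
    F ∈ series f q e m ↔ sig q F ∈ ser0 (tau q (dehom f)) e m := by
  simp only [series, ser0, Submodule.mem_inf, mem_homogeneousSubmodule, Submodule.mem_comap,
    AlgHom.toLinearMap_apply, Submodule.restrictScalars_mem, dehom_sig, ← tau_mem_iff]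
  refine and_congr_left fun _ => ⟨sig_hom q, fun h => ?_⟩
  have := sig_hom (-q) h
  rwa [sig_sig] at this

lemma finrank_series (f : P4) (q : Fin 3 → ℂ) (e m : ℕ) :
    Module.finrank ℂ (series f q e m) = Module.finrank ℂ (ser0 (tau q (dehom f)) e m) := by
  have hinj : Function.Injective (sig q).toLinearMap :=
    Function.LeftInverse.injective (g := sig (-q)) (sig_sig q)
  have : (series f q e m).map (sig q).toLinearMap = ser0 (tau q (dehom f)) e m := by
    ext G
    constructor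
    · rintro ⟨F, hF, rfl⟩
      exact mem_series_iff.1 hF
    · intro hG
      have e1 : sig q (sig (-q) G) = G := by simpa using sig_sig (-q) G
      exact ⟨sig (-q) G, mem_series_iff.2 (e1.symm ▸ hG), e1⟩
  rw [← this]
  exact (Submodule.equivMapOfInjective _ hinj _).finrank_eq

lemma tau_mem_m3 {g : P3} {q : Fin 3 → ℂ} (h : eval q g = 0) : tau q g ∈ m3 := by
  have h1 : constantCoeff (tau q g) = eval q g := by
    have : (constantCoeff : P3 →+* ℂ).comp (tau q).toRingHom = eval q := by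
      refine ringHom_ext (fun r => ?_) (fun i => ?_) <;> simp [tau]
    exact RingHom.congr_fun this g
  rw [← pow_one m3, mem_pow_idealOfVars_iff']
  intro x hx
  obtain rfl : x = 0 := (Finsupp.degree_eq_zero_iff x).1 (by omega)
  rw [← h, ← h1]
  rfl

end Pool.Agent.Lib.MP_a430e8_ag
end

-- part Pool.Agent.Lib.MP_a430e8_ag.Gen
section

/-! From one special surface to the general surface and the general point. -/

namespace Pool.Agent.Lib.MP_a430e8_ag
open Finset MvPolynomial

lemma open_indep {A ι κ : Type*} [CommRing A] [Algebra ℂ A] [Fintype ι] [Fintype κ]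
    (v : ι → κ → A) (φ₀ : A →ₐ[ℂ] ℂ) (h : LinearIndependent ℂ (fun i k => φ₀ (v i k))) :
    ∃ P : A, φ₀ P ≠ 0 ∧
      ∀ φ : A →ₐ[ℂ] ℂ, φ P ≠ 0 → LinearIndependent ℂ (fun i k => φ (v i k)) := by
  classical
  obtain ⟨L, hL⟩ := LinearMap.exists_leftInverse_of_injective
    (Fintype.linearCombination ℂ (fun i k => φ₀ (v i k)))
    (LinearMap.ker_eq_bot.2 (linearIndependent_iff_injective_fintypeLinearCombination.1 h))
  let M : Matrix ι ι A := fun i j => ∑ k, (L (Pi.single k 1) j) • v i k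
  have hM : ∀ φ : A →ₐ[ℂ] ℂ, φ M.det = Matrix.det (Matrix.of fun i => L fun k => φ (v i k)) := by
    intro φ
    rw [AlgHom.map_det]
    congr 1
    ext i j
    rw [Matrix.of_apply, pi_eq_sum_univ' (fun k => φ (v i k))]
    simp [M, map_sum, mul_comm]
  refine ⟨M.det, ?_, fun φ hφ => ?_⟩
  · rw [hM]
    have : (Matrix.of fun i => L fun k => φ₀ (v i k)) = 1 := by
      ext i j
      have := LinearMap.congr_fun hL (Pi.single i 1)
      simp only [LinearMap.comp_apply, LinearMap.id_apply,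
        Fintype.linearCombination_apply_single, one_smul] at this
      rw [Matrix.of_apply, this, Matrix.one_apply, Pi.single_apply]
      simp [eq_comm]
    rw [this, Matrix.det_one]
    exact one_ne_zero
  · rw [hM] at hφ
    exact LinearIndependent.of_comp L (Matrix.linearIndependent_rows_of_det_ne_zero hφ)

lemma exists_root {a b : Polynomial ℂ} {d : ℕ} (hd : a.natDegree ≤ d) (h : ¬ a ∣ b ^ d)
    (ha : a ≠ 0) : ∃ t, a.eval t = 0 ∧ b.eval t ≠ 0 := by
  by_contra hc
  push Not at hc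
  apply h
  have h1 : (a.roots.map fun r => Polynomial.X - Polynomial.C r).prod ∣
      (a.roots.map fun _ => b).prod :=
    Multiset.prod_dvd_prod_of_dvd _ _ fun r hr =>
      Polynomial.dvd_iff_isRoot.2 (hc r ((Polynomial.mem_roots ha).1 hr))
  rw [Multiset.map_const', Multiset.prod_replicate] at h1
  have h2 := h1.trans (pow_dvd_pow b ((Polynomial.card_roots' a).trans hd))
  rw [(IsAlgClosed.splits a).eq_prod_roots]
  exact (Polynomial.isUnit_C.2
    (isUnit_iff_ne_zero.2 (Polynomial.leadingCoeff_ne_zero.2 ha))).mul_left_dvd.2 h2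

lemma exists_phi {A : Type*} [CommRing A] [Algebra ℂ A] (a b : Polynomial A) (d : ℕ) (hd : 1 ≤ d)
    (ψ₀ : A →ₐ[ℂ] ℂ) (ha : a.map (ψ₀ : A →+* ℂ) = Polynomial.X) (hb : (b.map (ψ₀ : A →+* ℂ)).eval 0 ≠ 0) :
    ∃ Φ : A, ψ₀ Φ ≠ 0 ∧ ∀ ψ : A →ₐ[ℂ] ℂ, ψ Φ ≠ 0 → (a.map (ψ : A →+* ℂ)).natDegree ≤ d →
      ∃ t, (a.map (ψ : A →+* ℂ)).eval t = 0 ∧ (b.map (ψ : A →+* ℂ)).eval t ≠ 0 := by
  classical
  set K := (b ^ d).natDegree with hK
  let u : Option (Fin (K + 1)) → Polynomial A := fun i =>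
    Option.elim i (b ^ d) fun i => a * Polynomial.X ^ (i : ℕ)
  have hu : ∀ (ψ : A →ₐ[ℂ] ℂ) (w : Option (Fin (K + 1)) → ℂ) (k : Fin (K + 2)),
      (∑ i, w i • fun k : Fin (K + 2) => ψ ((u i).coeff k)) k =
      (w none • (b.map (ψ : A →+* ℂ)) ^ d + a.map (ψ : A →+* ℂ) * ∑ i : Fin (K + 1),
        w (some i) • Polynomial.X ^ (i : ℕ)).coeff k := by
    intro ψ w k
    rw [Fintype.sum_option, mul_sum, Polynomial.coeff_add, Polynomial.finsetSum_coeff]
    simp only [Pi.add_apply, Pi.smul_apply, Finset.sum_apply, u, Option.elim, mul_smul_comm,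
      Polynomial.coeff_smul]
    congr 1
    · rw [← Polynomial.map_pow, Polynomial.coeff_map]; rfl
    · refine sum_congr rfl fun i _ => ?_
      congr 1
      have : a.map (ψ : A →+* ℂ) * Polynomial.X ^ (i : ℕ) = (a * Polynomial.X ^ (i : ℕ)).map (ψ : A →+* ℂ) := by simp
      rw [this, Polynomial.coeff_map]; rfl
  obtain ⟨Φ, h0, hΦ⟩ := open_indep (fun i (k : Fin (K + 2)) => (u i).coeff k) ψ₀ (by
    rw [Fintype.linearIndependent_iff]
    intro w hw
    have h1 : ∀ k : Fin (K + 2), (w none • (b.map (ψ₀ : A →+* ℂ)) ^ d + a.map (ψ₀ : A →+* ℂ) * ∑ i : Fin (K + 1),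
        w (some i) • Polynomial.X ^ (i : ℕ)).coeff k = 0 := fun k => by
      rw [← hu, hw]; rfl
    have h2 : w none = 0 := by
      have := h1 0
      rw [ha] at this
      simp only [Fin.val_zero, Polynomial.coeff_add, Polynomial.coeff_smul,
        Polynomial.coeff_X_mul_zero, add_zero, smul_eq_mul, mul_eq_zero] at this
      refine this.resolve_right ?_
      rw [Polynomial.coeff_zero_eq_eval_zero, Polynomial.eval_pow]
      exact pow_ne_zero _ hb
    rintro (_ | i)
    · exact h2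
    · have := h1 i.succ
      rw [ha, h2, zero_smul, zero_add, Fin.val_succ, Polynomial.coeff_X_mul,
        Polynomial.finsetSum_coeff, sum_eq_single i] at this
      · simpa using this
      · intro j _ hj
        simp [Polynomial.coeff_X_pow, Fin.val_inj, Ne.symm hj]
      · simp)
  refine ⟨Φ, h0, fun ψ hψ hdeg => ?_⟩
  have h3 := Fintype.linearIndependent_iff.1 (hΦ ψ hψ)
  refine exists_root hdeg ?_ ?_
  · rintro ⟨h, hh⟩
    have hdh : h.natDegree < K + 1 ∨ a.map (ψ : A →+* ℂ) * h = 0 := by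
      by_cases h0 : a.map (ψ : A →+* ℂ) * h = 0
      · exact Or.inr h0
      · left
        have e1 := Polynomial.natDegree_mul (left_ne_zero_of_mul h0) (right_ne_zero_of_mul h0)
        have e2 : ((b.map (ψ : A →+* ℂ)) ^ d).natDegree ≤ K := by
          rw [← Polynomial.map_pow]
          exact Polynomial.natDegree_map_le
        rw [hh] at e2
        omega
    rcases hdh with hdh | hdh
    · have := h3 (fun i => Option.elim i (-1) fun i => h.coeff i) (by
        funext k
        rw [hu]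
        have e3 : ∑ i : Fin (K + 1), h.coeff i • Polynomial.X ^ (i : ℕ) = h := by
          rw [Fin.sum_univ_eq_sum_range (fun i => h.coeff i • Polynomial.X ^ i) (K + 1)]
          conv_rhs => rw [h.as_sum_range_C_mul_X_pow' hdh]
          simp only [Polynomial.smul_eq_C_mul]
        simp only [Option.elim, e3, hh]
        simp) none
      simp at this
    · have := h3 (fun i => Option.elim i 1 fun _ => 0) (by
        funext k
        rw [hu, hh, hdh]
        simp) none
      simp at this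
  · intro h0
    have := h3 (fun i => Option.elim i 0 fun _ => 1) (by
      funext k
      rw [hu, h0]
      simp) (some 0)
    simp at this

/-- Coefficients of the surface together with coordinates of the point. -/
abbrev UA := MvPolynomial ((Fin 4 →₀ ℕ) ⊕ Fin 3) ℂ

/-- Specialisation to a surface and a point. -/
noncomputable def spec (f : P4) (q : Fin 3 → ℂ) : UA →ₐ[ℂ] ℂ :=
  aeval (Sum.elim (fun s => f.coeff s) q)

/-- The universal translated equation. -/
noncomputable def gU (d : ℕ) : MvPolynomial (Fin 3) UA :=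
  ∑ p ∈ tet (d + 1), (C (X (Sum.inl (ex4 d p))) : MvPolynomial (Fin 3) UA) *
    mon (X 0 + C (X (Sum.inr 0)) : MvPolynomial (Fin 3) UA) (X 1 + C (X (Sum.inr 1)))
      (X 2 + C (X (Sum.inr 2))) p

lemma dehom_eq_sum {d : ℕ} {f : P4} (hf : f.IsHomogeneous d) :
    dehom f = ∑ p ∈ tet (d + 1), f.coeff (ex4 d p) • mono3 p := by
  conv_lhs => rw [form_eq_sum hf]
  simp only [map_sum, map_smul, dehom_mono4]

lemma map_gU {d : ℕ} {f : P4} (hf : f.IsHomogeneous d) (q : Fin 3 → ℂ) :
    MvPolynomial.map (spec f q : UA →+* ℂ) (gU d) = tau q (dehom f) := by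
  rw [dehom_eq_sum hf]
  simp [gU, map_sum, map_mon, spec, tau, mono3, smul_eq_C_mul]

theorem generic {d m : ℕ} {D : Finset Cell} (hd : 1 ≤ d) (h : Ex d m D) :
    GeneralForm d fun f => GeneralPoint f fun q => Ind3 m D (tau q (dehom f)) := by
  obtain ⟨f₀, A, B, φ, hf₀, hfe, hφ, hev, hI⟩ := h
  have h0 : Ind3 m D (dehom f₀) := ind3_of_ex hfe hφ hev hI
  have hspec : ∀ f : P4, f.IsHomogeneous d → ∀ q,
      (fun i k => spec f q (vec m D (gU d) i k)) = vec m D (tau q (dehom f)) := by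
    intro f hf q
    funext i k
    rw [← map_gU hf q]
    exact map_vec (spec f q : UA →+* ℂ) m D _ i k
  have tau0 : tau 0 (dehom f₀) = dehom f₀ := by simp [tau]
  obtain ⟨P, hP0, hP⟩ := open_indep (vec m D (gU d)) (spec f₀ 0) (by
    rw [hspec f₀ hf₀, tau0]; exact h0)
  let θ : UA →ₐ[ℂ] Polynomial (MvPolynomial (Fin 4 →₀ ℕ) ℂ) :=
    aeval (Sum.elim (fun s => Polynomial.C (X s)) ![0, 0, Polynomial.X])
  let ψ : P4 → MvPolynomial (Fin 4 →₀ ℕ) ℂ →ₐ[ℂ] ℂ := fun f => aeval fun s => f.coeff s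
  have hθ : ∀ (f : P4) (t : ℂ) (z : UA), ((θ z).map (ψ f : MvPolynomial (Fin 4 →₀ ℕ) ℂ →+* ℂ)).eval t = spec f ![0, 0, t] z := by
    intro f t z
    have : ((Polynomial.evalRingHom t).comp (Polynomial.mapRingHom
        (ψ f : MvPolynomial (Fin 4 →₀ ℕ) ℂ →+* ℂ))).comp (θ : UA →+* _) =
        (spec f ![0, 0, t] : UA →+* ℂ) := by
      refine ringHom_ext (fun r => ?_) ?_
      · simp [θ, ψ, spec, Polynomial.algebraMap_apply]
      · rintro (s | i)
        · simp [θ, ψ, spec]
        · fin_cases i <;> simp [θ, ψ, spec]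
    exact RingHom.congr_fun this z
  let aU : UA := ∑ p ∈ tet (d + 1), X (Sum.inl (ex4 d p)) *
    mon (X (Sum.inr 0)) (X (Sum.inr 1)) (X (Sum.inr 2)) p
  have haU : ∀ f : P4, f.IsHomogeneous d → ∀ q, spec f q aU = eval q (dehom f) := by
    intro f hf q
    rw [dehom_eq_sum hf]
    simp [aU, map_sum, map_mon, spec, mono3, smul_eq_C_mul]
  have hdeg : ∀ f : P4, ((θ aU).map (ψ f : MvPolynomial (Fin 4 →₀ ℕ) ℂ →+* ℂ)).natDegree ≤ d := by
    intro f
    refine Polynomial.natDegree_map_le.trans ?_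
    simp only [aU, map_sum]
    refine Polynomial.natDegree_sum_le_of_forall_le _ _ fun p hp => ?_
    have hp := mem_tet.1 hp
    have e : θ (X (Sum.inl (ex4 d p)) * mon (X (Sum.inr 0)) (X (Sum.inr 1)) (X (Sum.inr 2)) p) =
        Polynomial.C (X (ex4 d p) * (0 ^ p.1 * 0 ^ p.2.1)) * Polynomial.X ^ p.2.2 := by
      simp [θ, mon, mul_assoc]
    rw [e]
    exact (Polynomial.natDegree_C_mul_X_pow_le _ _).trans (by omega)
  obtain ⟨Φ, hΦ0, hΦ⟩ := exists_phi (θ aU) (θ P) d hd (ψ f₀) (by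
    refine Polynomial.funext fun t => ?_
    rw [hθ, haU f₀ hf₀, hfe]
    simp) (by
    rw [hθ]
    have : (![0, 0, 0] : Fin 3 → ℂ) = 0 := by
      funext i; fin_cases i <;> rfl
    rwa [this])
  refine ⟨Φ, ⟨f₀, hf₀, hΦ0⟩, fun f hf hfΦ => ?_⟩
  obtain ⟨t, ht1, ht2⟩ := hΦ (ψ f) hfΦ (hdeg f)
  rw [hθ] at ht1 ht2
  let G : P3 := aeval (Sum.elim (fun s => C (f.coeff s)) X) P
  have hG : ∀ q, eval q G = spec f q P := by
    intro q
    have : (eval q : P3 →+* ℂ).comp (aeval (Sum.elim (fun s => C (f.coeff s)) X) :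
        UA →ₐ[ℂ] P3).toRingHom = (spec f q : UA →+* ℂ) := by
      refine ringHom_ext (fun r => ?_) ?_
      · simp [spec]
      · rintro (s | i) <;> simp [spec]
    exact RingHom.congr_fun this P
  refine ⟨G, ⟨![0, 0, t], by rw [← haU f hf, ht1], by rwa [hG]⟩, fun q _ hq => ?_⟩
  rw [hG] at hq
  have := hP _ hq
  rwa [hspec f hf] at this

lemma GeneralForm.mono {d : ℕ} {P Q : P4 → (Fin 3 → ℂ) → Prop}
    (h : GeneralForm d fun f => GeneralPoint f (P f))
    (hPQ : ∀ f q, eval q (dehom f) = 0 → P f q → Q f q) :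
    GeneralForm d fun f => GeneralPoint f (Q f) := by
  obtain ⟨Φ, h1, h2⟩ := h
  refine ⟨Φ, h1, fun f hf hΦ => ?_⟩
  obtain ⟨G, h3, h4⟩ := h2 f hf hΦ
  exact ⟨G, h3, fun q hq hG => hPQ f q hq (h4 q hq hG)⟩

end Pool.Agent.Lib.MP_a430e8_ag
end
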