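import Pool.Agent.Lib.MP_a430e8_ag.Conf
import Pool.Agent.Lib.MP_a430e8_ag.Defs

/-! Monomial bases, orders of vanishing, and the special surface. -/

namespace Pool.Agent.Lib.MP_a430e8_ag
open Finset MvPolynomial

abbrev P2 := MvPolynomial (Fin 2) ℂ
abbrev P3 := MvPolynomial (Fin 3) ℂ
abbrev P4 := MvPolynomial (Fin 4) ℂ
noncomputable abbrev m2 : Ideal P2 := idealOfVars (Fin 2) ℂ
noncomputable abbrev m3 : Ideal P3 := idealOfVars (Fin 3) ℂ

lemma map_mon {R S F : Type*} [CommRing R] [CommRing S] [FunLike F R S] [RingHomClass F R S]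
    (h : F) (x y z : R) (p : Cell) : h (mon x y z p) = mon (h x) (h y) (h z) p := by
  simp [mon]

lemma mem_pow_iff_order {σ : Type*} (k : ℕ) (F : MvPolynomial σ ℂ) :
    F ∈ idealOfVars σ ℂ ^ k ↔ (k : ℕ∞) ≤ (F : MvPowerSeries σ ℂ).order := by
  rw [mem_pow_idealOfVars_iff']
  constructor
  · intro h
    exact MvPowerSeries.nat_le_order fun d hd => by simpa using h d hd
  · intro h d hd
    have : ((d.degree : ℕ) : ℕ∞) < (F : MvPowerSeries σ ℂ).order :=
      lt_of_lt_of_le (by exact_mod_cast hd) h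
    simpa using MvPowerSeries.coeff_of_lt_order this

lemma mem_pow_of_mul {σ : Type*} {g A : MvPolynomial σ ℂ} {m : ℕ} (hg : g ∉ idealOfVars σ ℂ ^ 2)
    (h : g * A ∈ idealOfVars σ ℂ ^ m) : A ∈ idealOfVars σ ℂ ^ (m - 1) := by
  rw [mem_pow_iff_order] at hg h ⊢
  rw [MvPolynomial.coe_mul, MvPowerSeries.order_mul] at h
  generalize (g : MvPowerSeries σ ℂ).order = u at hg h
  generalize (A : MvPowerSeries σ ℂ).order = v at h
  induction v using ENat.recTopCoe with
  | top => exact le_top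
  | coe v =>
    induction u using ENat.recTopCoe with
    | top => exact absurd le_top hg
    | coe u =>
      norm_cast at hg h ⊢
      omega

lemma mem_three_of_pow {σ : Type*} {φ : MvPolynomial σ ℂ} {e : ℕ}
    (h : φ ^ e ∈ idealOfVars σ ℂ ^ (2 * e + 1)) : φ ∈ idealOfVars σ ℂ ^ 3 := by
  by_contra hc
  have key : ∀ k : ℕ, ((φ ^ k : MvPolynomial σ ℂ) : MvPowerSeries σ ℂ).order ≤ (2 * k : ℕ) := by
    intro k
    induction k with
    | zero => simp [MvPowerSeries.order]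
    | succ k ih =>
      rw [pow_succ, MvPolynomial.coe_mul, MvPowerSeries.order_mul]
      rw [mem_pow_iff_order, not_le] at hc
      have h2 : (φ : MvPowerSeries σ ℂ).order ≤ (2 : ℕ) := by
        exact Order.le_of_lt_add_one hc
      exact (add_le_add ih h2).trans (by norm_cast)
  rw [mem_pow_iff_order] at h
  have := h.trans (key e)
  norm_cast at this
  omega

/-- Exponent vector in three variables. -/
noncomputable def ex3 (p : Cell) : Fin 3 →₀ ℕ :=
  Finsupp.single 0 p.1 + Finsupp.single 1 p.2.1 + Finsupp.single 2 p.2.2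

/-- Exponent vector of a form of degree `n`. -/
noncomputable def ex4 (n : ℕ) (p : Cell) : Fin 4 →₀ ℕ :=
  Finsupp.single 0 (n - (p.1 + p.2.1 + p.2.2)) +
    (Finsupp.single 1 p.1 + Finsupp.single 2 p.2.1 + Finsupp.single 3 p.2.2)

/-- Monomial in three variables. -/
noncomputable def mono3 (p : Cell) : P3 := mon (X 0) (X 1) (X 2) p

/-- Monomial form of degree `n`. -/
noncomputable def mono4 (n : ℕ) (p : Cell) : P4 :=
  X 0 ^ (n - (p.1 + p.2.1 + p.2.2)) * mon (X 1) (X 2) (X 3) p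

lemma mono3_eq (p : Cell) : mono3 p = monomial (ex3 p) 1 := by
  simp only [mono3, mon, X_pow_eq_monomial, monomial_mul, one_mul, ex3]

lemma mono4_eq (n : ℕ) (p : Cell) : mono4 n p = monomial (ex4 n p) 1 := by
  simp only [mono4, mon, X_pow_eq_monomial, monomial_mul, one_mul, ex4]

lemma ex3_inj : Function.Injective ex3 := by
  rintro ⟨a, b, j⟩ ⟨a', b', j'⟩ h
  have h0 := DFunLike.congr_fun h 0
  have h1 := DFunLike.congr_fun h 1
  have h2 := DFunLike.congr_fun h 2
  simpa [ex3] using And.intro h0 (And.intro h1 h2)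

lemma ex4_inj (n : ℕ) : Function.Injective (ex4 n) := by
  rintro ⟨a, b, j⟩ ⟨a', b', j'⟩ h
  have h0 := DFunLike.congr_fun h 1
  have h1 := DFunLike.congr_fun h 2
  have h2 := DFunLike.congr_fun h 3
  simpa [ex4] using And.intro h0 (And.intro h1 h2)

lemma degree_ex3 (p : Cell) : (ex3 p).degree = p.1 + p.2.1 + p.2.2 := by
  simp [ex3]

lemma degree_ex4 {n : ℕ} {p : Cell} (hp : p ∈ tet (n + 1)) : (ex4 n p).degree = n := by
  have := mem_tet.1 hp
  simp only [ex4, map_add, Finsupp.degree_single]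
  omega

lemma ex3_surj (s : Fin 3 →₀ ℕ) : ex3 (s 0, s 1, s 2) = s := by
  ext i
  fin_cases i <;> simp [ex3]

lemma ex2_surj (s : Fin 2 →₀ ℕ) : ex2 (s 0) (s 1) = s := by
  ext i
  fin_cases i <;> simp [ex2]

lemma ex4_surj {n : ℕ} (s : Fin 4 →₀ ℕ) (h : s.degree = n) :
    (s 1, s 2, s 3) ∈ tet (n + 1) ∧ ex4 n (s 1, s 2, s 3) = s := by
  rw [Finsupp.degree_eq_sum, Fin.sum_univ_four] at h
  refine ⟨mem_tet.2 (by simp only; omega), ?_⟩
  ext i
  fin_cases i <;> simp [ex4]
  omega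

lemma coeff_sum_mono3 (D : Finset Cell) (c : Cell → ℂ) (κ : Cell) :
    (∑ p ∈ D, c p • mono3 p).coeff (ex3 κ) = if κ ∈ D then c κ else 0 := by
  classical
  rw [coeff_sum]
  simp only [mono3_eq, smul_monomial, coeff_monomial, ex3_inj.eq_iff, smul_eq_mul, mul_one]
  rw [sum_ite_eq']

lemma mem_m3_pow {m : ℕ} {F : P3} : F ∈ m3 ^ m ↔ ∀ κ ∈ tet m, F.coeff (ex3 κ) = 0 := by
  rw [mem_pow_idealOfVars_iff']
  constructor
  · intro h κ hκ
    exact h _ (by rw [degree_ex3]; exact mem_tet.1 hκ)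
  · intro h s hs
    rw [← ex3_surj s] at hs ⊢
    exact h _ (mem_tet.2 (by rwa [degree_ex3] at hs))

lemma sub_trunc_mem (m : ℕ) (F : P3) :
    F - ∑ κ ∈ tet m, F.coeff (ex3 κ) • mono3 κ ∈ m3 ^ m := by
  rw [mem_m3_pow]
  intro κ hκ
  rw [coeff_sub, coeff_sum_mono3 _ (fun κ => F.coeff (ex3 κ)), if_pos hκ, sub_self]

lemma mono4_hom {n : ℕ} {p : Cell} (hp : p ∈ tet (n + 1)) : (mono4 n p).IsHomogeneous n := by
  rw [mono4_eq]
  exact isHomogeneous_monomial _ (degree_ex4 hp)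

lemma dehom_mono4 (n : ℕ) (p : Cell) : dehom (mono4 n p) = mono3 p := by
  simp [mono4, mono3, mon, dehom]

lemma form_eq_sum {n : ℕ} {f : P4} (hf : f.IsHomogeneous n) :
    f = ∑ p ∈ tet (n + 1), f.coeff (ex4 n p) • mono4 n p := by
  classical
  ext s
  rw [coeff_sum]
  simp only [mono4_eq, smul_monomial, coeff_monomial, smul_eq_mul, mul_one]
  by_cases hs : s.degree = n
  · obtain ⟨h1, h2⟩ := ex4_surj s hs
    rw [sum_eq_single (s 1, s 2, s 3)]
    · simp [h2]
    · intro p _ hp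
      rw [if_neg]
      intro he
      exact hp (ex4_inj n (he.trans h2.symm))
    · intro h
      exact absurd h1 h
  · rw [hf.coeff_eq_zero hs, sum_eq_zero]
    intro p hp
    rw [if_neg]
    rintro rfl
    exact hs (degree_ex4 hp)

lemma finrank_jet_le (k : ℕ) :
    Module.Finite ℂ (Jet k) ∧ Module.finrank ℂ (Jet k) ≤ (k + 1).choose 2 := by
  classical
  have h : Submodule.span ℂ (Set.range fun p : tri k => jmk k (X 0 ^ p.1.1 * X 1 ^ p.1.2.1)) =
      ⊤ := by
    rw [eq_top_iff]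
    rintro z -
    obtain ⟨F, rfl⟩ := Ideal.Quotient.mk_surjective z
    change jmk k F ∈ _
    rw [F.as_sum, map_sum]
    refine Submodule.sum_mem _ fun s _ => ?_
    by_cases hs : s.degree < k
    · have e : (monomial s (F.coeff s) : P2) = F.coeff s • (X 0 ^ s 0 * X 1 ^ s 1) := by
        rw [monomial_ex2, ex2_surj, smul_monomial, smul_eq_mul, mul_one]
      rw [e, map_smul]
      refine Submodule.smul_mem _ _ (Submodule.subset_span ⟨⟨(s 0, s 1, 0), ?_⟩, rfl⟩)
      rw [← ex2_surj s, degree_ex2] at hs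
      exact mem_tri.2 ⟨hs, rfl⟩
    · have : jmk k (monomial s (F.coeff s)) = 0 := by
        rw [Ideal.Quotient.mkₐ_eq_mk, Ideal.Quotient.eq_zero_iff_mem, mem_pow_idealOfVars_iff']
        intro x hx
        rw [coeff_monomial, if_neg]
        rintro rfl
        exact hs hx
      rw [this]
      exact Submodule.zero_mem _
  refine ⟨⟨h ▸ Submodule.fg_span (Set.finite_range _)⟩, ?_⟩
  have := finrank_range_le_card (R := ℂ) fun p : tri k => jmk k (X 0 ^ p.1.1 * X 1 ^ p.1.2.1)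
  rw [Set.finrank, h, finrank_top, Fintype.card_coe, card_tri] at this
  exact this

/-- Restriction to the graph `z = φ`. -/
noncomputable def ev (φ : P2) : P3 →ₐ[ℂ] P2 := aeval ![X 0, X 1, φ]

lemma jmk_ev_mono3 (m : ℕ) (φ : P2) (p : Cell) :
    jmk m (ev φ (mono3 p)) = mon (jmk m (X 0)) (jmk m (X 1)) (jmk m φ) p := by
  simp [mono3, map_mon, ev]

lemma ind_iff {m : ℕ} {D : Finset Cell} {φ : P2} :
    Ind m D φ ↔ ∀ c : Cell → ℂ, ev φ (∑ p ∈ D, c p • mono3 p) ∈ m2 ^ m → ∀ p ∈ D, c p = 0 := by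
  classical
  have key : ∀ c : Cell → ℂ, ev φ (∑ p ∈ D, c p • mono3 p) ∈ m2 ^ m ↔
      ∑ p : D, c p • mon (jmk m (X 0)) (jmk m (X 1)) (jmk m φ) p = 0 := by
    intro c
    rw [← Ideal.Quotient.eq_zero_iff_mem, ← Ideal.Quotient.mkₐ_eq_mk ℂ, map_sum, map_sum,
      ← sum_coe_sort D]
    simp only [map_smul, jmk_ev_mono3]
  unfold Ind
  rw [Fintype.linearIndependent_iff]
  constructor
  · intro h c hc p hp
    exact h (fun p => c p) ((key c).1 hc) ⟨p, hp⟩
  · intro h w hw p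
    have := h (fun p => if hp : p ∈ D then w ⟨p, hp⟩ else 0) ((key _).2 (by simpa using hw)) p p.2
    simpa using this

lemma exists_approx {k : ℕ} {D : Finset Cell} {φ : P2} (h : Ind k D φ)
    (hc : D.card = (k + 1).choose 2) (A : P2) :
    ∃ c : Cell → ℂ, A - ev φ (∑ p ∈ D, c p • mono3 p) ∈ m2 ^ k := by
  classical
  obtain ⟨hf, hr⟩ := finrank_jet_le k
  have h1 := h.fintype_card_le_finrank
  have h2 := LinearIndependent.span_eq_top_of_card_eq_finrank' h
    (by rw [Fintype.card_coe] at h1 ⊢; omega)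
  have h3 : jmk k A ∈ Submodule.span ℂ
    (Set.range fun p : D => mon (jmk k (X 0)) (jmk k (X 1)) (jmk k φ) p) := by
    rw [h2]; trivial
  obtain ⟨w, hw⟩ := (Submodule.mem_span_range_iff_exists_fun ℂ).1 h3
  refine ⟨fun p => if hp : p ∈ D then w ⟨p, hp⟩ else 0, ?_⟩
  rw [← Ideal.Quotient.eq_zero_iff_mem, ← Ideal.Quotient.mkₐ_eq_mk ℂ, map_sub, map_sum, map_sum,
      ← sum_coe_sort D, ← hw]
  simp [jmk_ev_mono3]

/-- A special surface of degree `d`, with affine equation `z = x A + y B`, which agrees to order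
`m` at the origin with a graph on which the monomials of `D` are independent. -/
def Ex (d m : ℕ) (D : Finset Cell) : Prop :=
  ∃ (f : P4) (A B : P3) (φ : P2), f.IsHomogeneous d ∧ dehom f = X 2 - X 0 * A - X 1 * B ∧
    φ ∈ m2 ^ 2 ∧ ev φ (dehom f) ∈ m2 ^ m ∧ Ind m D φ

lemma exists_decomp {φ : P2} (h : φ ∈ m2) : ∃ A B : P2, φ = X 0 * A + X 1 * B := by
  obtain ⟨c, hc⟩ := Ideal.mem_span_range_iff_exists_fun.1 h
  exact ⟨c 0, c 1, by rw [← hc, Fin.sum_univ_two]; ring⟩

lemma ex_of_pair {d m : ℕ} {D D' : Finset Cell} {φ : P2} (hD' : D' ⊆ tet (d + 1))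
    (hc : D'.card = (m - 1 + 1).choose 2) (hφ : φ ∈ m2 ^ 2) (h : Ind m D φ)
    (h' : Ind (m - 1) D' φ) : Ex (d + 1) m D := by
  obtain ⟨A, B, hAB⟩ := exists_decomp (Ideal.pow_le_self two_ne_zero hφ)
  obtain ⟨a, ha⟩ := exists_approx h' hc A
  obtain ⟨b, hb⟩ := exists_approx h' hc B
  have hh : ∀ c : Cell → ℂ, (∑ p ∈ D', c p • mono4 d p).IsHomogeneous d := fun c =>
    (homogeneousSubmodule (Fin 4) ℂ d).sum_mem fun p hp =>
      Submodule.smul_mem _ _ (mono4_hom (hD' hp))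
  have hd : ∀ c : Cell → ℂ, dehom (∑ p ∈ D', c p • mono4 d p) = ∑ p ∈ D', c p • mono3 p := by
    intro c
    simp only [map_sum, map_smul, dehom_mono4]
  have he : dehom (X 3 * X 0 ^ d - X 1 * ∑ p ∈ D', a p • mono4 d p -
      X 2 * ∑ p ∈ D', b p • mono4 d p) =
      X 2 - X 0 * ∑ p ∈ D', a p • mono3 p - X 1 * ∑ p ∈ D', b p • mono3 p := by
    rw [map_sub, map_sub, map_mul, map_mul, map_mul, hd, hd]
    simp [dehom]
  refine ⟨_, _, _, φ, ?_, he, hφ, ?_, h⟩
  · rw [add_comm d 1]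
    exact (((isHomogeneous_X ℂ 3).mul (isHomogeneous_X_pow 0 d)).sub
      ((isHomogeneous_X ℂ 1).mul (hh a))).sub ((isHomogeneous_X ℂ 2).mul (hh b))
  · rw [he, map_sub, map_sub, map_mul, map_mul]
    have e0 : ev φ (X 0) = X 0 := by simp [ev]
    have e1 : ev φ (X 1) = X 1 := by simp [ev]
    have e2 : ev φ (X 2) = φ := by simp [ev]
    rw [e0, e1, e2]
    have hle : m2 * m2 ^ (m - 1) ≤ m2 ^ m := by
      rw [← pow_succ']
      exact Ideal.pow_le_pow_right (by omega)
    have := Ideal.add_mem _ (hle (Ideal.mul_mem_mul (X_mem _ 0) ha))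
      (hle (Ideal.mul_mem_mul (X_mem _ 1) hb))
    convert this using 1
    linear_combination hAB

lemma ev_sub_mem (φ η : P2) (F : P3) : ev (φ + η) F - ev φ F ∈ Ideal.span {η} := by
  induction F using MvPolynomial.induction_on with
  | C a => simp [ev]
  | add p q hp hq =>
    convert Ideal.add_mem _ hp hq using 1
    simp only [map_add]; ring
  | mul_X p i hp =>
    have hi : ev (φ + η) (X i) - ev φ (X i) ∈ Ideal.span {η} := by
      fin_cases i <;> simp [ev]
    convert Ideal.add_mem _ (Ideal.mul_mem_right (ev (φ + η) (X i)) _ hp)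
      (Ideal.mul_mem_left _ (ev φ p) hi) using 1
    simp only [map_mul]; ring

lemma ex_newton {d e : ℕ} (he : 2 ≤ e) (h : Ex d (2 * e) (adm e (2 * e))) :
    Ex d (2 * e + 1) (tet (e + 1)) := by
  classical
  obtain ⟨f, A, B, φ, hf, hfe, hφ, hev, hI⟩ := h
  set η := -ev φ (dehom f) with hη
  have hηm : η ∈ m2 ^ (2 * e) := neg_mem hev
  have hsp : Ideal.span {η} ≤ m2 ^ (2 * e) := by simpa [Ideal.span_le] using hηm
  have hφ' : φ + η ∈ m2 ^ 2 := Ideal.add_mem _ hφ (Ideal.pow_le_pow_right (by omega) hηm)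
  refine ⟨f, A, B, φ + η, hf, hfe, hφ', ?_, ?_⟩
  · have hA := hsp (ev_sub_mem φ η A)
    have hB := hsp (ev_sub_mem φ η B)
    have := neg_mem (Ideal.add_mem _ (Ideal.mul_mem_mul (X_mem _ 0) hA)
      (Ideal.mul_mem_mul (X_mem _ 1) hB))
    rw [← pow_succ'] at this
    convert this using 1
    have e1 : ev φ (dehom f) = φ - X 0 * ev φ A - X 1 * ev φ B := by
      rw [hfe]; simp [ev]
    have e2 : ev (φ + η) (dehom f) = φ + η - X 0 * ev (φ + η) A - X 1 * ev (φ + η) B := by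
      rw [hfe]; simp [ev]
    rw [e2]
    linear_combination hη - e1
  · rw [ind_iff] at hI ⊢
    intro c hc
    have hmem : ((0, 0, e) : Cell) ∈ tet (e + 1) := mem_tet.2 (by simp)
    rw [← add_sum_erase _ _ hmem, ← adm_two_mul, map_add, map_smul] at hc
    have e3 : ev (φ + η) (mono3 (0, 0, e)) = (φ + η) ^ e := by simp [mono3, mon, ev]
    rw [e3] at hc
    have hp : (φ + η) ^ e ∈ m2 ^ (2 * e) := by
      rw [pow_mul]; exact Ideal.pow_mem_pow hφ' e
    have h1 : ev (φ + η) (∑ p ∈ adm e (2 * e), c p • mono3 p) ∈ m2 ^ (2 * e) := by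
      have := Ideal.sub_mem _ (Ideal.pow_le_pow_right (Nat.le_succ _) hc)
        (Ideal.mul_mem_left _ (C (c (0, 0, e))) hp)
      rwa [smul_eq_C_mul, add_sub_cancel_left] at this
    have h2 := hI c (by
      have := Ideal.sub_mem _ h1 (hsp (ev_sub_mem φ η (∑ p ∈ adm e (2 * e), c p • mono3 p)))
      rwa [sub_sub_cancel] at this)
    have h3 : c (0, 0, e) = 0 := by
      by_contra hne
      rw [sum_eq_zero (fun p hp => by rw [h2 p hp, zero_smul]), map_zero, add_zero] at hc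
      have h4 : (φ + η) ^ e ∈ m2 ^ (2 * e + 1) := by
        have := Ideal.mul_mem_left _ (C (c (0, 0, e))⁻¹) hc
        rwa [← smul_eq_C_mul, smul_smul, inv_mul_cancel₀ hne, one_smul] at this
      have h5 : φ ∈ m2 ^ 3 := by
        simpa using Ideal.sub_mem _ (mem_three_of_pow h4)
          (Ideal.pow_le_pow_right (show 3 ≤ 2 * e by omega) hηm)
      have hm : ((1, 0, e - 1) : Cell) ∈ adm e (2 * e) := mem_adm.2 (by simp only; omega)
      have h6 := hI (fun p => if p = (1, 0, e - 1) then 1 else 0) ?_ _ hm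
      · simp at h6
      · simp only [ite_smul, one_smul, zero_smul, sum_ite_eq', if_pos hm]
        have e4 : ev φ (mono3 (1, 0, e - 1)) = X 0 * φ ^ (e - 1) := by simp [mono3, mon, ev]
        rw [e4]
        have := Ideal.mul_mem_mul (X_mem _ 0) (Ideal.pow_mem_pow h5 (e - 1))
        rw [← pow_mul, ← pow_succ'] at this
        exact Ideal.pow_le_pow_right (by omega) this
    intro p hp
    by_cases hp' : p = (0, 0, e)
    · rw [hp', h3]
    · exact h2 p (by rw [adm_two_mul]; exact mem_erase.2 ⟨hp', hp⟩)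

end Pool.Agent.Lib.MP_a430e8_ag
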