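import Pool.Agent.Lib.MP_a430e8_ag.Defs

/-! Linear series with several assigned fat points on a surface in projective 3-space. -/

namespace Pool.Agent.Lib.MP_a430e8_ag
open MvPolynomial

/-- The forms of degree `e` whose restriction to the surface `f = 0` vanishes to order at least
`m i` at the point `(1 : q i)` for every `i`. -/
noncomputable def multiSeries (f : MvPolynomial (Fin 4) ℂ) {r : ℕ} (q : Fin r → Fin 3 → ℂ) (e : ℕ)
    (m : Fin r → ℕ) : Submodule ℂ (MvPolynomial (Fin 4) ℂ) :=
  homogeneousSubmodule (Fin 4) ℂ e ⊓ ⨅ i, series f (q i) e (m i)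

/-- `P` holds on a nonempty Zariski-open set of `r`-tuples of points `(1 : q i)` of the surface
`f = 0`: off the zero set of a polynomial in the coordinates of the points which does not vanish
on all such tuples. -/
def GeneralPoints (f : MvPolynomial (Fin 4) ℂ) (r : ℕ) (P : (Fin r → Fin 3 → ℂ) → Prop) : Prop :=
  ∃ G : MvPolynomial (Fin r × Fin 3) ℂ,
    (∃ q : Fin r → Fin 3 → ℂ, (∀ i, eval (q i) (dehom f) = 0) ∧ eval (fun s => q s.1 s.2) G ≠ 0) ∧
    ∀ q : Fin r → Fin 3 → ℂ, (∀ i, eval (q i) (dehom f) = 0) → eval (fun s => q s.1 s.2) G ≠ 0 →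
      P q

end Pool.Agent.Lib.MP_a430e8_ag
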