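import Pool.Agent.Lib.MP_a430e8_ag.Gen
import Pool.Agent.Lib.MP_a430e8_ag.MDefs

/-! Shared definitions and interface statements for the theorem on several fat points. -/

namespace Pool.Agent.Lib.MP_a430e8_ag
open Finset MvPolynomial

/-- The monomials of `D` are independent at some triple of elements of `R`. -/
def GoodIn (R : Type) [CommRing R] [Algebra ℂ R] (D : Finset Cell) : Prop :=
  ∃ x y z : R, LinearIndependent ℂ (fun p : D => mon x y z p)

/-- Independence of `E` implies independence of `D`, in every algebra. -/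
def Dom (D E : Finset Cell) : Prop :=
  ∀ (R : Type) [CommRing R] [Algebra ℂ R], GoodIn R E → GoodIn R D

/-- Exchange of the second and third coordinates. -/
def sw (D : Finset Cell) : Finset Cell := D.image (fun p => (p.1, p.2.2, p.2.1))

/-- Compression of every level in every degree toward the first axis. -/
def borel (D : Finset Cell) : Finset Cell := sw (push (sw D) 1 0)

/-- One stage of the game. -/
def stage (D : Finset Cell) (M : ℕ) : Finset Cell := borel (push D 0 M)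

/-- The closure properties at the start of stage `M`. -/
structure Closed (D : Finset Cell) (M : ℕ) : Prop where
  x : ∀ a b j, (a + 1, b, j) ∈ D → (a, b, j) ∈ D
  y : ∀ a b j, (a, b + 1, j) ∈ D → (a, b, j) ∈ D
  bo : ∀ a b j, (a, b + 1, j) ∈ D → (a + 1, b, j) ∈ D
  w : ∀ a b j, (a, b, j + 1) ∈ D → (a, b + (M - 1), j) ∈ D

/-- The number of cells with first coordinate at least `s`. -/
def Qx (D : Finset Cell) (s : ℕ) : ℕ := (D.filter (fun p => s ≤ p.1)).card

/-- The invariant of the game. -/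
def HallX (D : Finset Cell) (m : ℕ) : Prop := ∀ s, Qx D s ≤ (m - s + 1).choose 2

/-- A plane staircase inside the triangle of degree less than `m`. -/
structure Flat (E : Finset Cell) (m : ℕ) : Prop where
  lt : ∀ p ∈ E, p.2.2 = 0 ∧ p.1 + p.2.1 < m
  x : ∀ a b j, (a + 1, b, j) ∈ E → (a, b, j) ∈ E
  y : ∀ a b j, (a, b + 1, j) ∈ E → (a, b, j) ∈ E

/-- The ideal spanned by the monomials of weight greater than `K`, for the weights `1, 1, 2`. -/
noncomputable def JW (K : ℕ) : Ideal P3 :=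
  Ideal.span (mono3 '' {p : Cell | K < p.1 + p.2.1 + 2 * p.2.2})

/-- The ideal of the fat point of multiplicity `m` in the plane `X 2 = 0`. -/
noncomputable def JS (m : ℕ) : Ideal P3 := Ideal.span {X 2} ⊔ m3 ^ m

/-- The polynomials which the substitution `u` sends into `J`. -/
noncomputable def kr (u : Fin 3 → P3) (J : Ideal P3) : Submodule ℂ P3 :=
  (J.comap (aeval u : P3 →ₐ[ℂ] P3)).restrictScalars ℂ

/-- The polynomials of degree at most `e`. -/
noncomputable def Vd (e : ℕ) : Submodule ℂ P3 := restrictTotalDegree (Fin 3) ℂ e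

/-- The dimension of the space of members of `V` satisfying all conditions. -/
noncomputable def kd (V : Submodule ℂ P3) {r : ℕ} (J : Fin r → Ideal P3)
    (u : Fin r → Fin 3 → P3) : ℕ :=
  Module.finrank ℂ ↥(V ⊓ ⨅ i, kr (u i) (J i))

/-- Admissible multiplicities which are not at most one. -/
def Big (e m : ℕ) : Prop := 2000 ≤ m ∨ 4 * e < m

lemma mem_sw {D : Finset Cell} {a b j : ℕ} : (a, b, j) ∈ sw D ↔ (a, j, b) ∈ D := by
  simp only [sw, mem_image, Prod.mk.injEq, Prod.exists]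
  constructor
  · rintro ⟨a', b', j', h, rfl, rfl, rfl⟩
    exact h
  · intro h
    exact ⟨a, j, b, h, rfl, rfl, rfl⟩

lemma card_sw (D : Finset Cell) : (sw D).card = D.card :=
  card_image_of_injective _ fun p q h => by
    obtain ⟨a, b, j⟩ := p
    obtain ⟨a', b', j'⟩ := q
    simp only [Prod.mk.injEq] at h ⊢
    omega

lemma card_borel (D : Finset Cell) : (borel D).card = D.card := by
  rw [borel, card_sw, card_push, card_sw]

lemma card_stage (D : Finset Cell) (M : ℕ) : (stage D M).card = D.card := by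
  rw [stage, card_borel, card_push]

lemma card_lev_sw (D : Finset Cell) (d j : ℕ) : (lev (sw D) 1 0 d j).card = cnt D j d := by
  unfold cnt
  refine card_bij (fun b _ => (d - b, b, j)) ?_ ?_ ?_
  · intro b hb
    obtain ⟨a, i, h, h1, h2⟩ := mem_lev.1 hb
    rw [mem_sw] at h
    obtain rfl : i = j := by omega
    obtain rfl : a = d - b := by omega
    exact mem_filter.2 ⟨h, by simp only [Prod.mk.injEq, true_and]; omega⟩
  · intro b _ b' _ h
    simp only [Prod.mk.injEq] at h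
    exact h.2.1
  · rintro ⟨a, b, i⟩ hp
    obtain ⟨h, h1⟩ := mem_filter.1 hp
    simp only [Prod.mk.injEq] at h1
    obtain ⟨rfl, rfl⟩ := h1
    exact ⟨b, mem_lev.2 ⟨a, i, mem_sw.2 h, by omega, by omega⟩, by simp⟩

lemma mem_borel {D : Finset Cell} {a b j : ℕ} : (a, b, j) ∈ borel D ↔ b < cnt D j (a + b) := by
  rw [borel, mem_sw, mem_push, mul_one, mul_zero, add_zero, card_lev_sw]

lemma mem_kr {u : Fin 3 → P3} {J : Ideal P3} {F : P3} : F ∈ kr u J ↔ aeval u F ∈ J := Iff.rfl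

instance (e : ℕ) : Module.Finite ℂ (Vd e) := by
  unfold Vd
  infer_instance

lemma mem_Vd {e : ℕ} {F : P3} : F ∈ Vd e ↔ F.totalDegree ≤ e := mem_restrictTotalDegree _ _ _

lemma eq_sum_mono3 (F : P3) :
    F = ∑ s ∈ F.support, F.coeff s • mono3 (s 0, s 1, s 2) := by
  conv_lhs => rw [F.as_sum]
  refine sum_congr rfl fun s _ => ?_
  rw [mono3_eq, ex3_surj, smul_monomial, smul_eq_mul, mul_one]

lemma mono3_mem_Vd {e : ℕ} {p : Cell} (hp : p ∈ tet (e + 1)) : mono3 p ∈ Vd e := by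
  rw [mem_Vd, mono3_eq]
  refine (totalDegree_monomial_le _ _).trans ?_
  have h1 := degree_ex3 p
  have h2 := mem_tet.1 hp
  rw [Finsupp.degree_apply] at h1
  simp only [Finsupp.sum, id]
  omega

lemma eq_sum_tet {e : ℕ} {F : P3} (hF : F ∈ Vd e) :
    F = ∑ p ∈ tet (e + 1), F.coeff (ex3 p) • mono3 p := by
  ext s
  rw [← ex3_surj s, coeff_sum_mono3 _ (fun κ => F.coeff (ex3 κ))]
  split_ifs with h
  · rfl
  · refine coeff_eq_zero_of_totalDegree_lt ((mem_Vd.1 hF).trans_lt ?_)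
    have h1 := degree_ex3 (s 0, s 1, s 2)
    rw [Finsupp.degree_apply] at h1
    rw [mem_tet] at h
    omega

lemma indep_mono3 (D : Finset Cell) : LinearIndependent ℂ (fun p : D => mono3 p) := by
  have h := (basisMonomials (Fin 3) ℂ).linearIndependent.comp (fun p : D => ex3 p)
    (ex3_inj.comp Subtype.val_injective)
  have e : (fun p : D => mono3 p) = (basisMonomials (Fin 3) ℂ) ∘ fun p : D => ex3 p := by
    funext p
    simp [mono3_eq]
  rw [e]
  exact h

lemma finrank_Vd (e : ℕ) : Module.finrank ℂ (Vd e) = (e + 3).choose 3 := by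
  have h : Vd e = Submodule.span ℂ (Set.range fun p : tet (e + 1) => mono3 p) := by
    refine le_antisymm (fun F hF => ?_) (Submodule.span_le.2 ?_)
    · rw [eq_sum_tet hF]
      exact Submodule.sum_mem _ fun p hp =>
        Submodule.smul_mem _ _ (Submodule.subset_span ⟨⟨p, hp⟩, rfl⟩)
    · rintro _ ⟨p, rfl⟩
      exact mono3_mem_Vd p.2
  rw [h, finrank_span_eq_card (indep_mono3 _), Fintype.card_coe, card_tet]

lemma quot_le {J : Ideal P3} {E : Finset Cell} (h : ∀ p ∉ E, mono3 p ∈ J) :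
    Module.Finite ℂ (P3 ⧸ J) ∧ Module.finrank ℂ (P3 ⧸ J) ≤ E.card := by
  classical
  have h1 : Submodule.span ℂ (Set.range fun p : E => Ideal.Quotient.mkₐ ℂ J (mono3 p)) = ⊤ := by
    rw [eq_top_iff]
    rintro x -
    obtain ⟨F, rfl⟩ := Ideal.Quotient.mkₐ_surjective ℂ J x
    rw [eq_sum_mono3 F, map_sum]
    refine Submodule.sum_mem _ fun s _ => ?_
    rw [map_smul]
    refine Submodule.smul_mem _ _ ?_
    by_cases hs : (s 0, s 1, s 2) ∈ E
    · exact Submodule.subset_span ⟨⟨_, hs⟩, rfl⟩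
    · have : Ideal.Quotient.mkₐ ℂ J (mono3 (s 0, s 1, s 2)) = 0 :=
        Ideal.Quotient.eq_zero_iff_mem.2 (h _ hs)
      rw [this]
      exact Submodule.zero_mem _
  refine ⟨⟨h1 ▸ Submodule.fg_span (Set.finite_range _)⟩, ?_⟩
  have h2 := finrank_range_le_card (R := ℂ) fun p : E => Ideal.Quotient.mkₐ ℂ J (mono3 p)
  rw [Set.finrank, h1, finrank_top, Fintype.card_coe] at h2
  exact h2

lemma mono3_mem_JS {m : ℕ} {p : Cell} (hp : p ∉ tri m) : mono3 p ∈ JS m := by
  obtain ⟨a, b, j⟩ := p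
  rcases Nat.eq_zero_or_pos j with rfl | hj
  · refine Ideal.mem_sup_right (mem_m3_pow.2 fun κ hκ => ?_)
    rw [mono3_eq, coeff_monomial, if_neg]
    intro h
    rw [← ex3_inj h, mem_tet] at hκ
    exact hp (mem_tri.2 ⟨by simpa using hκ, rfl⟩)
  · obtain ⟨j, rfl⟩ : ∃ j', j = j' + 1 := ⟨j - 1, by omega⟩
    refine Ideal.mem_sup_left (Ideal.mem_span_singleton.2 ?_)
    simp only [mono3, mon, pow_succ]
    exact ⟨X 0 ^ a * X 1 ^ b * X 2 ^ j, by ring⟩

lemma quot_JS (m : ℕ) :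
    Module.Finite ℂ (P3 ⧸ JS m) ∧ Module.finrank ℂ (P3 ⧸ JS m) ≤ (m + 1).choose 2 := by
  rw [← card_tri]
  exact quot_le fun p hp => mono3_mem_JS hp

/-- Interface: compression to a closed set. -/
def CompStmt : Prop := ∀ (D : Finset Cell) (K : ℕ), (∀ p ∈ D, p.1 + p.2.1 + 2 * p.2.2 ≤ K) →
  ∃ D' : Finset Cell, Dom D D' ∧ D'.card = D.card ∧ Closed D' 3 ∧ ∀ p ∈ D', p.1 ≤ K

/-- Interface: a stage keeps the closure properties. -/
def StageClosedStmt : Prop := ∀ (D : Finset Cell) (M : ℕ), 2 ≤ M → Closed D M →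
  Closed (stage D M) (M + 1)

/-- Interface: a stage keeps the invariant. -/
def StageHallStmt : Prop := ∀ (D : Finset Cell) (M m : ℕ), 3 ≤ M → Closed D M → HallX D m →
  HallX (stage D M) m

/-- Interface: the outcome of the game. -/
def GameStmt : Prop := ∀ (D : Finset Cell) (K m : ℕ), (∀ p ∈ D, p.1 + p.2.1 + 2 * p.2.2 ≤ K) →
  2 * K + 1 ≤ m → D.card ≤ (m + 1).choose 2 →
  ∃ E : Finset Cell, Dom D E ∧ E.card = D.card ∧ Flat E m

/-- Interface: degeneration of a subspace to its initial monomials. -/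
def InitStmt : Prop := ∀ (W : Submodule ℂ P3) [Module.Finite ℂ W] (K : ℕ),
  (∀ F ∈ W, F ∈ JW K → F = 0) →
  ∃ D : Finset Cell, D.card = Module.finrank ℂ W ∧ (∀ p ∈ D, p.1 + p.2.1 + 2 * p.2.2 ≤ K) ∧
    ∀ (R : Type) [CommRing R] [Algebra ℂ R], GoodIn R D →
      ∃ v : Fin 3 → R, ∀ F ∈ W, aeval v F = 0 → F = 0

/-- Interface: a fat point on a general surface germ against a weighted fat point of space. -/
def UStmt : Prop := ∀ (W : Submodule ℂ P3) [Module.Finite ℂ W] (K m : ℕ),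
  (∀ F ∈ W, F ∈ JW K → F = 0) → 2 * K + 1 ≤ m → Module.finrank ℂ W ≤ (m + 1).choose 2 →
  ∃ (J : Ideal P3) (u : Fin 3 → P3), JS m ≤ J ∧ Module.Finite ℂ (P3 ⧸ J) ∧
    Module.finrank ℂ (P3 ⧸ J) ≤ Module.finrank ℂ W ∧ ∀ F ∈ W, aeval u F ∈ J → F = 0

/-- Interface: two open conditions have a common solution. -/
def LineStmt : Prop := ∀ (V : Submodule ℂ P3) [Module.Finite ℂ V] (r : ℕ)
  (J J' : Fin r → Ideal P3) (u u' : Fin r → Fin 3 → P3),
  ∃ w : Fin r → Fin 3 → P3, kd V J w ≤ kd V J u ∧ kd V J' w ≤ kd V J' u'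

/-- Interface: weighted fat points of space impose enough conditions. -/
def BaseStmt : Prop := ∀ (e r : ℕ) (m : Fin r → ℕ) (A : Finset (Fin r)), (∀ i ∈ A, Big e (m i)) →
  ∃ u : Fin r → Fin 3 → P3,
    kd (Vd e) (fun i => if i ∈ A then JW ((m i - 1) / 2) else ⊤) u +
      min ((e + 3).choose 3) (∑ i ∈ A, (m i + 1).choose 2) ≤ (e + 3).choose 3

/-- Interface: the abstract configuration. -/
def ConfigStmt : Prop := ∀ (e r : ℕ) (m : Fin r → ℕ), (∀ i, m i ≤ 1 ∨ Big e (m i)) →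
  ∃ (J : Fin r → Ideal P3) (u : Fin r → Fin 3 → P3), (∀ i, JS (m i) ≤ J i) ∧
    (∀ g : Fin r → P3, ∃ F ∈ Vd e, ∀ i, aeval (u i) F - g i ∈ J i) ∧
    kd (Vd e) J u ≤ (e + 3).choose 3 - ∑ i, (m i + 1).choose 2

/-- Interface: a special surface with special points. -/
def SurfStmt : Prop := ∀ (d e r : ℕ) (m : Fin r → ℕ) (J : Fin r → Ideal P3)
  (u : Fin r → Fin 3 → P3), e < d → (∀ i, JS (m i) ≤ J i) →
  (∀ g : Fin r → P3, ∃ F ∈ Vd e, ∀ i, aeval (u i) F - g i ∈ J i) →
  ∃ (f : P4) (q : Fin r → Fin 3 → ℂ), f.IsHomogeneous d ∧ (∀ i, eval (q i) (dehom f) = 0) ∧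
    (∀ i, tau (q i) (dehom f) ∉ m3 ^ 2) ∧
    Module.finrank ℂ (multiSeries f q e m) ≤ kd (Vd e) J u

/-- Interface: from a special surface to the general one. -/
def GenStmt : Prop := ∀ (d e r : ℕ) (m : Fin r → ℕ) (f₀ : P4) (q₀ : Fin r → Fin 3 → ℂ),
  f₀.IsHomogeneous d → (∀ i, eval (q₀ i) (dehom f₀) = 0) →
  (∀ i, tau (q₀ i) (dehom f₀) ∉ m3 ^ 2) →
  GeneralForm d fun f => GeneralPoints f r fun q =>
    Module.finrank ℂ (multiSeries f q e m) ≤ Module.finrank ℂ (multiSeries f₀ q₀ e m) ∧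
    (e + 3).choose 3 ≤ Module.finrank ℂ (multiSeries f q e m) + ∑ i, (m i + 1).choose 2

theorem multi_of (hC : ConfigStmt) (hS : SurfStmt) (hG : GenStmt) (d e r : ℕ) (hed : e < d)
    (m : Fin r → ℕ) (hm : ∀ i, m i ≤ 1 ∨ 2000 ≤ m i ∨ 4 * e < m i) :
    GeneralForm d fun f => GeneralPoints f r fun q =>
      Module.finrank ℂ (multiSeries f q e m) = (e + 3).choose 3 - ∑ i, (m i + 1).choose 2 := by
  obtain ⟨J, u, h1, h2, h3⟩ := hC e r m hm
  obtain ⟨f₀, q₀, h4, h5, h6, h7⟩ := hS d e r m J u hed h1 h2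
  obtain ⟨Φ, h8, h9⟩ := hG d e r m f₀ q₀ h4 h5 h6
  refine ⟨Φ, h8, fun f hf hΦ => ?_⟩
  obtain ⟨G, h10, h11⟩ := h9 f hf hΦ
  refine ⟨G, h10, fun q hq hG => ?_⟩
  have := h11 q hq hG
  omega

end Pool.Agent.Lib.MP_a430e8_ag
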