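import Pool.Agent.Lib.MP_a430e8_ag.MBase

/-! Compression to a closed set, closure under a stage, and the outcome of the game. -/

namespace Pool.Agent.Lib.MP_a430e8_ag
open Finset

theorem Dom.refl (D : Finset Cell) : Dom D D := fun _ _ _ h => h

theorem Dom.trans {D E F : Finset Cell} (h : Dom D E) (h' : Dom E F) : Dom D F :=
  fun R _ _ g => h R (h' R g)

theorem dom_push (D : Finset Cell) (g c : ℕ) : Dom D (push D g c) := by
  rintro R _ _ ⟨x, y, z, h⟩
  obtain ⟨t, ht⟩ := (push_indep x y z D g c h).exists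
  exact ⟨x, y, _, ht⟩

namespace MComp

/-- Exchange of the first and third coordinates. -/
def s13 (D : Finset Cell) : Finset Cell := D.image (fun p => (p.2.2, p.2.1, p.1))

lemma mem_s13 {D : Finset Cell} {a b j : ℕ} : (a, b, j) ∈ s13 D ↔ (j, b, a) ∈ D := by
  simp only [s13, mem_image, Prod.mk.injEq, Prod.exists]
  constructor
  · rintro ⟨a', b', j', h, rfl, rfl, rfl⟩
    exact h
  · intro h
    exact ⟨j, b, a, h, rfl, rfl, rfl⟩

lemma inj_sw : Function.Injective (fun p : Cell => (p.1, p.2.2, p.2.1)) := by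
  rintro ⟨a, b, j⟩ ⟨a', b', j'⟩ h
  simp only [Prod.mk.injEq] at h ⊢
  omega

lemma inj_s13 : Function.Injective (fun p : Cell => (p.2.2, p.2.1, p.1)) := by
  rintro ⟨a, b, j⟩ ⟨a', b', j'⟩ h
  simp only [Prod.mk.injEq] at h ⊢
  omega

lemma card_s13 (D : Finset Cell) : (s13 D).card = D.card := card_image_of_injective _ inj_s13

lemma dom_sw (D : Finset Cell) : Dom D (sw D) := by
  rintro R _ _ ⟨x, y, z, h⟩
  refine ⟨x, z, y, ?_⟩
  have := h.comp (fun p : D => (⟨(p.1.1, p.1.2.2, p.1.2.1), mem_image_of_mem _ p.2⟩ : sw D))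
    (fun p q e => Subtype.ext (inj_sw (congrArg Subtype.val e)))
  have e : (fun p : D => mon x z y p) = (fun p : sw D => mon x y z p) ∘
      (fun p : D => (⟨(p.1.1, p.1.2.2, p.1.2.1), mem_image_of_mem _ p.2⟩ : sw D)) := by
    funext p
    simp only [mon, Function.comp]
    ring
  rw [e]
  exact this

lemma dom_s13 (D : Finset Cell) : Dom D (s13 D) := by
  rintro R _ _ ⟨x, y, z, h⟩
  refine ⟨z, y, x, ?_⟩
  have := h.comp (fun p : D => (⟨(p.1.2.2, p.1.2.1, p.1.1), mem_image_of_mem _ p.2⟩ : s13 D))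
    (fun p q e => Subtype.ext (inj_s13 (congrArg Subtype.val e)))
  have e : (fun p : D => mon z y x p) = (fun p : s13 D => mon x y z p) ∘
      (fun p : D => (⟨(p.1.2.2, p.1.2.1, p.1.1), mem_image_of_mem _ p.2⟩ : s13 D)) := by
    funext p
    simp only [mon, Function.comp]
    ring
  rw [e]
  exact this

/-- A linear potential. -/
def pot (α β γ : ℕ) (D : Finset Cell) : ℕ := ∑ p ∈ D, (α * p.1 + β * p.2.1 + γ * p.2.2)

lemma pot_sw (α β γ : ℕ) (D : Finset Cell) : pot α β γ (sw D) = pot α γ β D := by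
  rw [pot, sw, sum_image fun _ _ _ _ e => inj_sw e]
  exact sum_congr rfl fun p _ => by ring

lemma pot_s13 (α β γ : ℕ) (D : Finset Cell) : pot α β γ (s13 D) = pot γ β α D := by
  rw [pot, s13, sum_image fun _ _ _ _ e => inj_s13 e]
  exact sum_congr rfl fun p _ => by ring

lemma sum_range_le (S : Finset ℕ) : ∑ j ∈ range S.card, j ≤ ∑ j ∈ S, j ∧
    (∑ j ∈ S, j ≤ ∑ j ∈ range S.card, j → S = range S.card) := by
  induction S using Finset.induction_on_max with
  | empty => simp
  | insert a s ha ih =>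
    have h1 : a ∉ s := fun h => lt_irrefl _ (ha a h)
    have h2 : s.card ≤ a := by
      have := card_le_card (show s ⊆ range a from fun x hx => mem_range.2 (ha x hx))
      rwa [card_range] at this
    rw [card_insert_of_notMem h1, sum_range_succ, sum_insert h1]
    refine ⟨by omega, fun h => ?_⟩
    have h3 : a = s.card := by omega
    rw [range_add_one, ← ih.2 (by omega), h3]

lemma pot_eq (α β δ g c : ℕ) (D : Finset Cell) (T : Finset (ℕ × ℕ))
    (hT : ∀ p ∈ D, (p.1 + p.2.2 * g, p.2.1 + p.2.2 * c) ∈ T) :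
    pot α β (α * g + β * c + δ) D = ∑ t ∈ T, ((lev D g c t.1 t.2).card * (α * t.1 + β * t.2) +
      δ * ∑ j ∈ lev D g c t.1 t.2, j) := by
  rw [pot, ← sum_fiberwise_of_maps_to (g := fun p : Cell => (p.1 + p.2.2 * g, p.2.1 + p.2.2 * c)) hT]
  refine sum_congr rfl fun t _ => ?_
  rw [mul_sum, ← smul_eq_mul (lev D g c t.1 t.2).card, ← sum_const, ← sum_add_distrib]
  unfold lev
  rw [sum_image]
  · refine sum_congr (by ext p; simp [Prod.ext_iff]) fun p hp => ?_
    obtain ⟨-, h1, h2⟩ := mem_filter.1 hp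
    rw [← h1, ← h2]
    ring
  · rintro ⟨a, b, j⟩ h ⟨a', b', j'⟩ h' hj
    simp only [coe_filter, Set.mem_ofPred_eq] at h h' hj
    subst hj
    simp only [Prod.mk.injEq, and_true]
    omega

lemma rel_of_pot {α β γ g c : ℕ} (hγ : α * g + β * c < γ) {D : Finset Cell}
    (h : pot α β γ D ≤ pot α β γ (push D g c)) : Rel D g c 1 := by
  obtain ⟨δ, rfl⟩ : ∃ δ, γ = α * g + β * c + (δ + 1) := ⟨γ - (α * g + β * c) - 1, by omega⟩
  set T := D.image (fun p : Cell => (p.1 + p.2.2 * g, p.2.1 + p.2.2 * c))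
  rw [pot_eq α β _ g c D T (fun p hp => mem_image_of_mem _ hp), pot_eq α β _ g c (push D g c) T (by
    rintro ⟨a, b, i⟩ h
    obtain ⟨a', b', j, hD, h1, h2⟩ := foot_push h
    exact mem_image.2 ⟨_, hD, by simp [h1, h2]⟩)] at h
  simp only [lev_push, card_range] at h
  have hle : ∀ t ∈ T, (lev D g c t.1 t.2).card * (α * t.1 + β * t.2) +
      (δ + 1) * ∑ j ∈ range (lev D g c t.1 t.2).card, j ≤
      (lev D g c t.1 t.2).card * (α * t.1 + β * t.2) + (δ + 1) * ∑ j ∈ lev D g c t.1 t.2, j :=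
    fun t _ => Nat.add_le_add_left (Nat.mul_le_mul_left _ (sum_range_le _).1) _
  have heq := (sum_eq_sum_iff_of_le hle).1 (le_antisymm (sum_le_sum hle) h)
  intro a b j a' b' hD h1 h2
  have h3 := heq _ (mem_image_of_mem _ hD)
  have h4 := (sum_range_le _).2
    (Nat.eq_of_mul_eq_mul_left (Nat.succ_pos δ) (Nat.add_left_cancel h3)).ge
  have h5 : j + 1 ∈ lev D g c (a + (j + 1) * g) (b + (j + 1) * c) :=
    mem_lev.2 ⟨a, b, hD, rfl, rfl⟩
  have h6 : j ∈ lev D g c (a + (j + 1) * g) (b + (j + 1) * c) := by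
    simp only at h4
    rw [h4, mem_range] at h5 ⊢
    omega
  obtain ⟨a1, b1, h7, e1, e2⟩ := mem_lev.1 h6
  rw [add_mul] at e1 e2
  obtain rfl : a' = a1 := by omega
  obtain rfl : b' = b1 := by omega
  exact h7

/-- A bound on a weighted degree. -/
def Wt (u v w K : ℕ) (D : Finset Cell) : Prop := ∀ a b j, (a, b, j) ∈ D → u * a + v * b + w * j ≤ K

lemma Wt.push {u v w K g c : ℕ} {D : Finset Cell} (h : Wt u v w K D) (hw : u * g + v * c ≤ w) :
    Wt u v w K (push D g c) := by
  intro a b i hi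
  obtain ⟨j, hj, hij⟩ := exists_ge_of_lt_card (mem_push.1 hi)
  obtain ⟨a', b', hD, h1, h2⟩ := mem_lev.1 hj
  obtain ⟨k, rfl⟩ := Nat.exists_eq_add_of_le hij
  have h3 := h _ _ _ hD
  rw [add_mul] at h1 h2
  obtain rfl : a = a' + k * g := by omega
  obtain rfl : b = b' + k * c := by omega
  have h4 := Nat.mul_le_mul_left k hw
  nlinarith

lemma Wt.sw {u v w K : ℕ} {D : Finset Cell} (h : Wt u v w K D) : Wt u w v K (sw D) :=
  fun a b j hp => by have := h _ _ _ (mem_sw.1 hp); omega

lemma Wt.s13 {u v w K : ℕ} {D : Finset Cell} (h : Wt u v w K D) : Wt w v u K (s13 D) :=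
  fun a b j hp => by have := h _ _ _ (mem_s13.1 hp); omega

end MComp

open MComp

theorem dom_borel (D : Finset Cell) : Dom D (borel D) :=
  (dom_sw D).trans ((dom_push _ 1 0).trans (dom_sw _))

theorem dom_stage (D : Finset Cell) (M : ℕ) : Dom D (stage D M) :=
  (dom_push D 0 M).trans (dom_borel _)

theorem comp : CompStmt := by
  classical
  intro D K hK
  have hex : ∃ n, ∃ E : Finset Cell, (Dom D E ∧ E.card = D.card ∧ Wt 1 1 2 K E) ∧
      pot 1 2 5 E = n :=
    ⟨_, D, ⟨Dom.refl D, rfl, fun a b j h => by have := hK _ h; simp only at this; omega⟩, rfl⟩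
  obtain ⟨E, ⟨h1, h2, h3⟩, h4⟩ := Nat.find_spec hex
  have hmin : ∀ F : Finset Cell, Dom E F → F.card = E.card → Wt 1 1 2 K F →
      pot 1 2 5 E ≤ pot 1 2 5 F := fun F a b c =>
    h4 ▸ Nat.find_min' hex ⟨F, ⟨h1.trans a, b.trans h2, c⟩, rfl⟩
  have hx : Rel (s13 E) (0 : ℕ) (0 : ℕ) 1 := by
    refine rel_of_pot (α := 5) (β := 2) (γ := 1) (by norm_num) ?_
    rw [pot_s13, ← pot_s13 1 2 5 (push _ _ _)]
    exact hmin _ ((dom_s13 E).trans ((dom_push _ 0 0).trans (dom_s13 _)))
      (by rw [card_s13, card_push, card_s13]) (h3.s13.push (by norm_num)).s13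
  have hy : Rel (sw E) (0 : ℕ) (0 : ℕ) 1 := by
    refine rel_of_pot (α := 1) (β := 5) (γ := 2) (by norm_num) ?_
    rw [pot_sw, ← pot_sw 1 2 5 (push _ _ _)]
    exact hmin _ ((dom_sw E).trans ((dom_push _ 0 0).trans (dom_sw _)))
      (by rw [card_sw, card_push, card_sw]) (h3.sw.push (by norm_num)).sw
  have hb : Rel (sw E) (1 : ℕ) (0 : ℕ) 1 := by
    refine rel_of_pot (α := 1) (β := 5) (γ := 2) (by norm_num) ?_
    rw [pot_sw, ← pot_sw 1 2 5 (push _ _ _)]
    exact hmin _ (dom_borel E) (card_borel E) (h3.sw.push (by norm_num)).sw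
  have hw : Rel E (0 : ℕ) (2 : ℕ) 1 :=
    rel_of_pot (α := 1) (β := 2) (γ := 5) (by norm_num)
      (hmin _ (dom_push E 0 2) (card_push E 0 2) (h3.push (by norm_num)))
  refine ⟨E, h1, h2, ⟨fun a b j h => ?_, fun a b j h => ?_, fun a b j h => ?_,
    fun a b j h => hw a b j _ _ h (by omega) (by omega)⟩, ?_⟩
  · exact mem_s13.1 (hx j b a _ _ (mem_s13.2 h) (by omega) (by omega))
  · exact mem_sw.1 (hy a j b _ _ (mem_sw.2 h) (by omega) (by omega))
  · exact mem_sw.1 (hb a j b _ _ (mem_sw.2 h) (by omega) (by omega))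
  · rintro ⟨a, b, j⟩ h
    have := h3 a b j h
    simp only
    omega

namespace MComp

variable {D : Finset Cell} {M : ℕ}

lemma bo_iter (h : Closed D M) (r : ℕ) : ∀ a b j, (a, b + r, j) ∈ D → (a + r, b, j) ∈ D := by
  induction r with
  | zero => exact fun _ _ _ h => h
  | succ r ih =>
    intro a b j hp
    have := ih (a + 1) b j (h.bo a (b + r) j hp)
    rwa [show a + 1 + r = a + (r + 1) by omega] at this

lemma next_level (h : Closed D M) {a b j r b' : ℕ} (hr : r ≤ M) (hb : b' + r = b + M)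
    (hp : (a, b, j + 1) ∈ push D 0 M) : (a + r, b', j) ∈ push D 0 M := by
  rw [mem_push] at hp ⊢
  simp only [mul_zero, add_zero] at hp ⊢
  have key : (lev D 0 M a (b + (j + 1) * M)).erase ((b + (j + 1) * M) / M) ⊆
      lev D 0 M (a + r) (b' + j * M) := by
    intro i hi
    obtain ⟨hi0, hi⟩ := mem_erase.1 hi
    obtain ⟨a1, b1, hD, e1, e2⟩ := mem_lev.1 hi
    obtain rfl : a1 = a := by omega
    have h1 : M ≤ b1 := by
      by_contra hc
      refine hi0 ?_
      rw [← e2, Nat.add_mul_div_right _ _ (by omega), Nat.div_eq_of_lt (by omega), zero_add]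
    obtain ⟨b2, rfl⟩ : ∃ b2, b1 = b2 + r := ⟨b1 - r, by omega⟩
    rw [add_mul] at e2
    exact mem_lev.2 ⟨a1 + r, b2, bo_iter h r _ _ _ hD, by omega, by omega⟩
  have h1 := card_le_card key
  have h2 := pred_card_le_card_erase (s := lev D 0 M a (b + (j + 1) * M))
    (a := (b + (j + 1) * M) / M)
  omega

lemma cnt_next {S : Finset Cell}
    (hN : ∀ a b j r b', r ≤ M → b' + r = b + M → (a, b, j + 1) ∈ S → (a + r, b', j) ∈ S)
    {j d : ℕ} (h0 : 0 < cnt S (j + 1) d) : cnt S (j + 1) d + M ≤ cnt S j (d + M) := by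
  unfold cnt at h0 ⊢
  set T := S.filter (fun p => (p.2.2, p.1 + p.2.1) = (j + 1, d)) with hT
  obtain ⟨⟨a0, b0, j0⟩, hp0, hmin⟩ := exists_min_image T (fun p => p.2.1) (card_pos.1 h0)
  obtain ⟨h1, h2⟩ := mem_filter.1 hp0
  simp only [Prod.mk.injEq] at h2
  obtain ⟨rfl, h2⟩ := h2
  have c1 : (T.image fun p => (p.1, p.2.1 + M, j)).card = T.card := by
    refine card_image_of_injOn ?_
    rintro ⟨a, b, i⟩ h ⟨a', b', i'⟩ h' e
    have := (mem_filter.1 h).2
    have := (mem_filter.1 h').2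
    simp only [Prod.mk.injEq] at *
    omega
  have c2 : ((range M).image fun r => (a0 + (r + 1), b0 + M - (r + 1), j)).card = M := by
    rw [card_image_of_injective, card_range]
    intro r r' e
    simp only [Prod.mk.injEq] at e
    omega
  rw [← c1, ← c2, ← card_union_of_disjoint, c2]
  · refine card_le_card (union_subset ?_ ?_)
    · intro q hq
      obtain ⟨⟨a, b, i⟩, h, rfl⟩ := mem_image.1 hq
      obtain ⟨h3, h4⟩ := mem_filter.1 h
      simp only [Prod.mk.injEq] at h4
      obtain ⟨rfl, h4⟩ := h4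
      refine mem_filter.2 ⟨hN a b j 0 _ (Nat.zero_le _) rfl h3, ?_⟩
      simp only [Prod.mk.injEq, true_and]
      omega
    · intro q hq
      obtain ⟨r, h, rfl⟩ := mem_image.1 hq
      rw [mem_range] at h
      refine mem_filter.2 ⟨hN a0 b0 j (r + 1) _ h (by omega) h1, ?_⟩
      simp only [Prod.mk.injEq, true_and]
      omega
  · rw [disjoint_left]
    intro q hq hq'
    obtain ⟨p, h, rfl⟩ := mem_image.1 hq
    obtain ⟨r, h', e⟩ := mem_image.1 hq'
    have := hmin p h
    rw [mem_range] at h'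
    simp only [Prod.mk.injEq] at e this
    omega

end MComp

theorem stage_closed : StageClosedStmt := by
  intro D M hM h
  have hx : Rel (push D 0 M) (-1) 0 0 := by
    refine Rel.push_horiz (K := 0) (by omega) (fun k hk => ?_) (Or.inr rfl) (Or.inl (by simp))
    obtain rfl : k = 0 := by omega
    intro a b j a' b' hp e1 e2
    obtain rfl : a = a' + 1 := by omega
    obtain rfl : b = b' := by omega
    exact h.x _ _ _ hp
  have hy : Rel (push D 0 M) 0 (-1) 0 := by
    refine Rel.push_horiz (K := 1) (by omega) (fun k hk => ?_) (Or.inr rfl) (Or.inl (by omega))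
    intro a b j a' b' hp e1 e2
    obtain rfl | rfl : k = 0 ∨ k = 1 := by omega
    · obtain rfl : a = a' := by omega
      obtain rfl : b = b' + 1 := by omega
      exact h.y _ _ _ hp
    · obtain rfl : a = a' := by omega
      obtain rfl : b' = b + (M - 1) := by omega
      exact h.w _ _ _ hp
  have hy' : Rel (sw (push D 0 M)) (0 : ℕ) (0 : ℕ) 1 := by
    intro a j b a' j' hp e1 e2
    obtain rfl : j = j' := by omega
    exact mem_sw.2 (hy a (b + 1) j a' b (mem_sw.1 hp) (by omega) (by omega))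
  have hx' : Rel (push (sw (push D 0 M)) 1 0) (-1) 0 0 := by
    refine Rel.push_horiz (K := 1) (by omega) (fun k hk => ?_) (Or.inl (by omega)) (Or.inr rfl)
    obtain rfl | rfl : k = 0 ∨ k = 1 := by omega
    · intro a j b a' j' hp e1 e2
      obtain rfl : j = j' := by omega
      exact mem_sw.2 (hx a b j a' b (mem_sw.1 hp) (by omega) (by omega))
    · exact hy'.of_eq (by simp) (by simp) rfl
  refine ⟨fun a b j hp => ?_, fun a b j hp => ?_, fun a b j hp => ?_, fun a b j hp => ?_⟩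
  · exact mem_sw.2 (hx' (a + 1) j b a j (mem_sw.1 hp) (by omega) (by omega))
  · exact mem_sw.2 (hy'.push_vert (g := 1) (c := 0) a j b a j (mem_sw.1 hp) (by omega) (by omega))
  · exact mem_sw.2 (push_self _ 1 0 a j b (a + 1) j (mem_sw.1 hp) (by omega) (by omega))
  · rw [stage, mem_borel] at hp ⊢
    have := cnt_next (S := push D 0 M) (fun a b j r b' h1 h2 h3 => next_level h h1 h2 h3)
      (j := j) (d := a + b) (by omega)
    rw [Nat.add_sub_cancel, ← add_assoc]
    omega

namespace MComp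

variable {D : Finset Cell} {M K m : ℕ}

/-- The number of cells with given first coordinate. -/
def rw1 (D : Finset Cell) (a : ℕ) : ℕ := (D.filter (fun p => p.1 = a)).card

lemma Qx_succ (D : Finset Cell) (s : ℕ) : Qx D s = rw1 D s + Qx D (s + 1) := by
  rw [Qx, Qx, rw1, ← card_union_of_disjoint]
  · congr 1
    ext p
    simp only [mem_filter, mem_union]
    constructor
    · rintro ⟨h1, h2⟩
      by_cases h : p.1 = s
      · exact Or.inl ⟨h1, h⟩
      · exact Or.inr ⟨h1, by omega⟩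
    · rintro (⟨h1, h2⟩ | ⟨h1, h2⟩) <;> exact ⟨h1, by omega⟩
  · rw [disjoint_left]
    intro p h h'
    have := (mem_filter.1 h).2
    have := (mem_filter.1 h').2
    omega

lemma rw1_succ (h : Closed D M) (a : ℕ) : rw1 D (a + 1) ≤ rw1 D a := by
  refine card_le_card_of_injOn (fun p => (a, p.2)) ?_ ?_
  · rintro ⟨a', b, j⟩ hp
    obtain ⟨h1, h2⟩ := mem_filter.1 hp
    obtain rfl : a' = a + 1 := h2
    exact mem_filter.2 ⟨h.x _ _ _ h1, rfl⟩
  · intro p hp q hq e
    have h1 := (mem_filter.1 hp).2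
    have h2 := (mem_filter.1 hq).2
    exact Prod.ext (h1.trans h2.symm) (Prod.ext_iff.1 e).2

lemma Qx_zero (hK : ∀ p ∈ D, p.1 ≤ K) {s : ℕ} (hs : K < s) : Qx D s = 0 := by
  rw [Qx, card_eq_zero, filter_eq_empty_iff]
  intro p hp
  have := hK p hp
  omega

lemma Qx_le (h : Closed D M) (hK : ∀ p ∈ D, p.1 ≤ K) (n : ℕ) :
    ∀ s, s + n = K + 1 → Qx D s ≤ n * rw1 D s := by
  induction n with
  | zero => intro s hs; rw [Qx_zero hK (by omega)]; exact Nat.zero_le _
  | succ n ih =>
    intro s hs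
    have h1 := ih (s + 1) (by omega)
    have h2 := Nat.mul_le_mul_left n (rw1_succ h s)
    rw [Qx_succ, add_mul]
    omega

lemma hall_init (h : Closed D M) (hK : ∀ p ∈ D, p.1 ≤ K) (hm : 2 * K + 1 ≤ m)
    (hc : D.card ≤ (m + 1).choose 2) : HallX D m := by
  intro s
  induction s with
  | zero => exact (card_filter_le _ _).trans hc
  | succ s ih =>
    rcases lt_or_ge K (s + 1) with hs | hs
    · rw [Qx_zero hK hs]; exact Nat.zero_le _
    obtain ⟨g, hg⟩ : ∃ g, m = s + 1 + g := ⟨m - (s + 1), by omega⟩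
    rw [show m - s + 1 = g + 1 + 1 by omega] at ih
    rw [show m - (s + 1) + 1 = g + 1 by omega]
    have e1 := two_mul_choose g
    have e2 := two_mul_choose (g + 1)
    have e3 := Qx_succ D s
    rcases le_or_gt (rw1 D s) g with hr | hr
    · have h1 := Qx_le h hK (K - s) (s + 1) (by omega)
      have h2 : (K - s) * rw1 D (s + 1) ≤ (K - s) * g :=
        Nat.mul_le_mul_left _ ((rw1_succ h s).trans hr)
      have h3 : g * (2 * (K - s)) ≤ g * (g + 1) := Nat.mul_le_mul_left _ (by omega)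
      nlinarith
    · nlinarith

lemma to_axis (h : Closed D M) (j : ℕ) :
    ∀ a b, (a, b, j) ∈ D → (a + b + j * (M - 1), 0, 0) ∈ D := by
  induction j with
  | zero =>
    intro a b hp
    have := bo_iter h b a 0 0 (by rwa [zero_add])
    rwa [zero_mul, add_zero]
  | succ j ih =>
    intro a b hp
    have := ih a _ (h.w a b j hp)
    rwa [show a + (b + (M - 1)) + j * (M - 1) = a + b + (j + 1) * (M - 1) by ring] at this

end MComp

theorem game (h : StageHallStmt) : GameStmt := by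
  intro D K m hK hm hc
  obtain ⟨D', h1, h2, h3, h4⟩ := comp D K hK
  have key : ∀ n, ∃ E : Finset Cell, Dom D E ∧ E.card = D.card ∧ Closed E (3 + n) ∧ HallX E m := by
    intro n
    induction n with
    | zero => exact ⟨D', h1, h2, h3, hall_init h3 h4 hm (h2 ▸ hc)⟩
    | succ n ih =>
      obtain ⟨E, e1, e2, e3, e4⟩ := ih
      exact ⟨stage E (3 + n), e1.trans (dom_stage _ _), (card_stage _ _).trans e2,
        stage_closed E _ (by omega) e3, h E _ m (by omega) e3 e4⟩
  obtain ⟨E, e1, e2, e3, e4⟩ := key m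
  refine ⟨E, e1, e2, ?_, e3.x, e3.y⟩
  rintro ⟨a, b, j⟩ hp
  have h5 := e4 m
  rw [Nat.sub_self, show Nat.choose (0 + 1) 2 = 0 from rfl, Nat.le_zero, Qx, card_eq_zero,
    filter_eq_empty_iff] at h5
  have h6 := h5 (to_axis e3 j a b hp)
  simp only [not_le] at h6 ⊢
  rcases j with _ | j
  · exact ⟨rfl, by omega⟩
  · rw [add_mul] at h6
    omega

end Pool.Agent.Lib.MP_a430e8_ag
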