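import Pool.Agent.Lib.MP_a430e8_ag.MBase

/-! Covering by boxes: weighted fat points of space impose enough conditions. -/

namespace Pool.Agent.Lib.MP_a430e8_ag
open Finset MvPolynomial

namespace MCover

/-- Polynomials in `d` variables. -/
abbrev PD (d : ℕ) := MvPolynomial (Fin d) ℂ

/-- The ideal of the box of side `t` at the point `q`. -/
noncomputable def box {d : ℕ} (q : Fin d → ℂ) (t : ℕ) : Ideal (PD d) :=
  Ideal.span (Set.range fun k => (X k - C (q k)) ^ t)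

/-- Boxes of the sizes `t i`, `i ∈ L`, can be placed so as to kill all degrees below `n`. -/
def Cov {ι : Type} (t : ι → ℕ) (d n : ℕ) (L : Finset ι) : Prop :=
  ∃ q : ι → Fin d → ℂ, ∀ F : PD d, F.totalDegree < n → (∀ i ∈ L, F ∈ box (q i) (t i)) → F = 0

/-- Expansion in powers of `X 0 - x`. -/
noncomputable def phi (d : ℕ) (x : ℂ) : PD (d + 1) ≃+* Polynomial (PD d) :=
  (finSuccEquiv ℂ d).toRingEquiv.trans (Polynomial.taylorEquiv (C x : PD d)).toRingEquiv

lemma phi_apply (d : ℕ) (x : ℂ) (F : PD (d + 1)) :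
    phi d x F = Polynomial.taylor (C x : PD d) (finSuccEquiv ℂ d F) := rfl

lemma fin_C (d : ℕ) (c : ℂ) : finSuccEquiv ℂ d (C c) = Polynomial.C (C c) := by
  simp [finSuccEquiv_apply]

lemma phi_zero (d : ℕ) (x : ℂ) : phi d x (X 0 - C x) = Polynomial.X := by
  rw [phi_apply, map_sub, finSuccEquiv_X_zero, fin_C, map_sub, Polynomial.taylor_X,
    Polynomial.taylor_C, add_sub_cancel_right]

lemma phi_succ (d : ℕ) (x c : ℂ) (k : Fin d) :
    phi d x (X k.succ - C c) = Polynomial.C (X k - C c) := by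
  rw [phi_apply, map_sub, finSuccEquiv_X_succ, fin_C, map_sub, Polynomial.taylor_C,
    Polynomial.taylor_C, map_sub]

lemma phi_deg (d : ℕ) (x : ℂ) (F : PD (d + 1)) (k : ℕ) :
    ((phi d x F).coeff k).totalDegree ≤ F.totalDegree := by
  rw [← mem_restrictTotalDegree (Fin d), phi_apply, Polynomial.taylor_coeff,
    Polynomial.eval_eq_sum_range]
  refine Submodule.sum_mem _ fun i _ => ?_
  have h1 : (finSuccEquiv ℂ d F).coeff (i + k) ∈ restrictTotalDegree (Fin d) ℂ F.totalDegree := by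
    by_cases h : (finSuccEquiv ℂ d F).coeff (i + k) = 0
    · rw [h]
      exact Submodule.zero_mem _
    · rw [mem_restrictTotalDegree]
      have := totalDegree_coeff_finSuccEquiv_add_le F _ h
      omega
  have h2 : (Polynomial.hasseDeriv k (finSuccEquiv ℂ d F)).coeff i * (C x : PD d) ^ i =
      ((((i + k).choose k : ℕ) : ℂ) * x ^ i) • (finSuccEquiv ℂ d F).coeff (i + k) := by
    rw [Polynomial.hasseDeriv_coeff, smul_eq_C_mul, map_mul, map_pow, map_natCast]
    ring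
  rw [h2]
  exact Submodule.smul_mem _ _ h1

lemma phi_box {d : ℕ} {x : ℂ} {q : Fin d → ℂ} {t : ℕ} {F : PD (d + 1)}
    (hF : F ∈ box (Fin.cons x q : Fin (d + 1) → ℂ) t) {k : ℕ} (hk : k < t) :
    (phi d x F).coeff k ∈ box q t := by
  have h1 : box (Fin.cons x q : Fin (d + 1) → ℂ) t ≤ Ideal.comap (phi d x)
      ((box q t).map Polynomial.C ⊔ Ideal.span {Polynomial.X ^ t}) := by
    rw [box, Ideal.span_le]
    rintro _ ⟨j, rfl⟩
    rw [SetLike.mem_coe, Ideal.mem_comap, map_pow]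
    refine Fin.cases ?_ (fun j => ?_) j
    · rw [Fin.cons_zero, phi_zero]
      exact Ideal.mem_sup_right (Ideal.subset_span rfl)
    · rw [Fin.cons_succ, phi_succ, ← map_pow]
      exact Ideal.mem_sup_left (Ideal.mem_map_of_mem _ (Ideal.subset_span ⟨j, rfl⟩))
  obtain ⟨a, ha, b, hb, hab⟩ := Submodule.mem_sup.1 (Ideal.mem_comap.1 (h1 hF))
  rw [← hab, Polynomial.coeff_add,
    Polynomial.X_pow_dvd_iff.1 (Ideal.mem_span_singleton.1 hb) k hk, add_zero]
  exact Ideal.mem_map_C_iff.1 ha k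

lemma deg_lin (d : ℕ) (x : ℂ) : (X 0 - C x : PD (d + 1)).totalDegree = 1 := by
  rw [sub_eq_add_neg, ← map_neg, totalDegree_add_eq_left_of_totalDegree_lt, totalDegree_X]
  rw [totalDegree_C, totalDegree_X]
  exact one_pos

lemma deg_mul {d : ℕ} (x : ℂ) (w : ℕ) {G : PD (d + 1)} (hG : G ≠ 0) :
    ((X 0 - C x) ^ w * G).totalDegree = w + G.totalDegree := by
  have h0 : (X 0 - C x : PD (d + 1)) ≠ 0 := by
    intro h
    have := deg_lin d x
    rw [h, totalDegree_zero] at this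
    exact zero_ne_one this
  induction w with
  | zero => simp
  | succ w ih =>
    rw [pow_succ', mul_assoc,
      totalDegree_mul_of_isDomain h0 (mul_ne_zero (pow_ne_zero _ h0) hG), ih, deg_lin]
    ring

lemma coprime_lin (d : ℕ) {x y : ℂ} (h : x ≠ y) :
    IsCoprime (X 0 - C x : PD (d + 1)) (X 0 - C y) := by
  refine ⟨C (y - x)⁻¹, -C (y - x)⁻¹, ?_⟩
  have h1 : (C (y - x)⁻¹ : PD (d + 1)) * C (y - x) = 1 := by
    rw [← map_mul, inv_mul_cancel₀ (sub_ne_zero.2 h.symm), map_one]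
  rw [← h1, map_sub]
  ring

lemma cov_zero {ι : Type} (t : ι → ℕ) (d : ℕ) (L : Finset ι) : Cov t d 0 L :=
  ⟨fun _ _ => 0, fun _ h => absurd h (Nat.not_lt_zero _)⟩

/-- The Horace step. -/
theorem step {ι : Type} [DecidableEq ι] {t : ι → ℕ} {d n w : ℕ} {L1 L2 : Finset ι}
    (hd : Disjoint L1 L2) (h1 : Cov t d n L1) (hw : ∀ i ∈ L1, w ≤ t i)
    (h2 : Cov t (d + 1) (n - w) L2) : Cov t (d + 1) n (L1 ∪ L2) := by
  classical
  obtain ⟨q1, h1⟩ := h1
  obtain ⟨q2, h2⟩ := h2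
  obtain ⟨x, hx⟩ := Infinite.exists_notMem_finset (L2.image fun i => q2 i 0)
  refine ⟨fun i => if i ∈ L1 then Fin.cons x (q1 i) else q2 i, fun F hF hb => ?_⟩
  have h3 : Polynomial.X ^ w ∣ phi d x F := by
    refine Polynomial.X_pow_dvd_iff.2 fun k hk => h1 _ ((phi_deg d x F k).trans_lt hF) ?_
    intro i hi
    have h4 := hb i (mem_union_left _ hi)
    simp only [if_pos hi] at h4
    exact phi_box h4 (hk.trans_le (hw i hi))
  obtain ⟨G', hG'⟩ := h3
  obtain ⟨G, rfl⟩ := (phi d x).surjective G'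
  rw [← phi_zero d x, ← map_pow, ← map_mul] at hG'
  have h5 := (phi d x).injective hG'
  by_cases hG : G = 0
  · rw [h5, hG, mul_zero]
  refine absurd (h2 G ?_ fun i hi => ?_) hG
  · rw [h5, deg_mul x w hG] at hF
    omega
  · have h6 := hb i (mem_union_right _ hi)
    simp only [if_neg (Finset.disjoint_right.1 hd hi)] at h6
    have h7 : x ≠ q2 i 0 := fun h => hx (mem_image.2 ⟨i, hi, h.symm⟩)
    obtain ⟨a, b, hab⟩ := (coprime_lin d h7).pow (m := w) (n := t i)
    have h8 : G = a * F + (b * G) * (X 0 - C (q2 i 0)) ^ t i := by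
      rw [h5]
      linear_combination (-G) * hab
    rw [h8]
    exact Ideal.add_mem _ (Ideal.mul_mem_left _ _ h6)
      (Ideal.mul_mem_left _ _ (Ideal.subset_span ⟨0, rfl⟩))

lemma sum_pow_le {ι : Type} {t : ι → ℕ} {f : ℕ} {L : Finset ι} (h : ∀ i ∈ L, t i ≤ f) (d : ℕ) :
    (d + 1).factorial * ∑ i ∈ L, t i ^ (d + 1) ≤
      (d + 1) * f * (d.factorial * ∑ i ∈ L, t i ^ d) := by
  have h1 : ∑ i ∈ L, t i ^ (d + 1) ≤ f * ∑ i ∈ L, t i ^ d := by
    rw [mul_sum]
    refine sum_le_sum fun i hi => ?_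
    rw [pow_succ']
    exact Nat.mul_le_mul_right _ (h i hi)
  calc (d + 1).factorial * ∑ i ∈ L, t i ^ (d + 1)
      ≤ (d + 1).factorial * (f * ∑ i ∈ L, t i ^ d) := Nat.mul_le_mul_left _ h1
    _ = _ := by rw [Nat.factorial_succ]; ring

/-- Enough boxes cover. -/
theorem count {ι : Type} [DecidableEq ι] (t : ι → ℕ) (d : ℕ) :
    ∀ (n f : ℕ) (L : Finset ι), (∀ i ∈ L, 1 ≤ t i ∧ t i ≤ f) →
      ∏ k ∈ range d, (n + (k + 1) * f) ≤ d.factorial * ∑ i ∈ L, t i ^ d →
      ∃ L1 ⊆ L, Cov t d n L1 ∧ (∀ i ∈ L1, ∀ j ∈ L \ L1, t j ≤ t i) ∧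
        d.factorial * ∑ i ∈ L1, t i ^ d ≤ ∏ k ∈ range d, (n + (k + 1) * f) := by
  induction d with
  | zero =>
    intro n f L _ h
    have hne : L.Nonempty := by
      rw [nonempty_iff_ne_empty]
      rintro rfl
      simp at h
    obtain ⟨i, hi, hmax⟩ := exists_max_image L t hne
    refine ⟨{i}, singleton_subset_iff.2 hi, ⟨fun _ _ => 0, fun F _ hF => ?_⟩, ?_, by simp⟩
    · have h1 := hF i (mem_singleton_self i)
      rwa [box, Set.range_eq_empty, Ideal.span_empty, Ideal.mem_bot] at h1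
    · intro a ha j hj
      rw [mem_singleton.1 ha]
      exact hmax j (mem_sdiff.1 hj).1
  | succ d ihd =>
    intro n
    induction n using Nat.strong_induction_on with
    | _ n ihn =>
    intro f L hL h
    rcases Nat.eq_zero_or_pos n with rfl | hn
    · exact ⟨∅, empty_subset _, cov_zero t _ _, fun i hi => absurd hi (notMem_empty i), by simp⟩
    rw [prod_range_succ] at h ⊢
    set P := ∏ k ∈ range d, (n + (k + 1) * f) with hP
    have hP0 : 0 < P := prod_pos fun k _ => by omega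
    have hs := sum_pow_le (fun i hi => (hL i hi).2) d
    have hf : 0 < f := by
      rcases Nat.eq_zero_or_pos f with rfl | hf
      · have h1 : 0 < P * (n + (d + 1) * 0) := Nat.mul_pos hP0 (by omega)
        rw [mul_zero, zero_mul] at hs
        omega
      · exact hf
    have h1 : P ≤ d.factorial * ∑ i ∈ L, t i ^ d := by
      refine Nat.le_of_mul_le_mul_left ?_ (Nat.mul_pos (Nat.succ_pos d) hf)
      refine le_trans ?_ (h.trans hs)
      rw [mul_comm]
      exact Nat.mul_le_mul_left _ (Nat.le_add_left _ _)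
    obtain ⟨L1, s1, c1, u1, b1⟩ := ihd n f L hL h1
    have hne : L1.Nonempty := by
      rw [nonempty_iff_ne_empty]
      rintro rfl
      obtain ⟨q, hq⟩ := c1
      exact one_ne_zero (hq 1 (by rw [totalDegree_one]; exact hn)
        fun i hi => absurd hi (notMem_empty i))
    obtain ⟨i0, hi0, hmin⟩ := exists_min_image L1 t hne
    have hw := hL i0 (s1 hi0)
    have b2 : (d + 1).factorial * ∑ i ∈ L1, t i ^ (d + 1) ≤ (d + 1) * f * P :=
      (sum_pow_le (fun i hi => (hL i (s1 hi)).2) d).trans (Nat.mul_le_mul_left _ b1)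
    have key : ∃ L2 ⊆ L \ L1, Cov t (d + 1) (n - t i0) L2 ∧
        (∀ i ∈ L2, ∀ j ∈ (L \ L1) \ L2, t j ≤ t i) ∧
        (d + 1).factorial * ∑ i ∈ L2, t i ^ (d + 1) ≤ n * P := by
      rcases le_or_gt n (t i0) with h2 | h2
      · refine ⟨∅, empty_subset _, ?_, fun i hi => absurd hi (notMem_empty i), by simp⟩
        rw [Nat.sub_eq_zero_of_le h2]
        exact cov_zero t _ _
      have h3 : ∏ k ∈ range (d + 1), (n - t i0 + (k + 1) * t i0) ≤ n * P := by
        rw [prod_range_succ', mul_comm]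
        refine Nat.mul_le_mul (by omega) (prod_le_prod' fun k _ => ?_)
        have h4 := Nat.mul_le_mul_left (k + 1) hw.2
        have h5 : (k + 1 + 1) * t i0 = (k + 1) * t i0 + t i0 := by ring
        omega
      have h6 : n * P ≤ (d + 1).factorial * ∑ i ∈ L \ L1, t i ^ (d + 1) := by
        rw [← sum_sdiff s1, mul_add (d + 1).factorial] at h
        have h7 : P * (n + (d + 1) * f) = n * P + (d + 1) * f * P := by ring
        omega
      obtain ⟨L2, s2, c2, u2, b3⟩ := ihn (n - t i0) (by omega) (t i0) (L \ L1)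
        (fun i hi => ⟨(hL i (mem_sdiff.1 hi).1).1, u1 i0 hi0 i hi⟩) (h3.trans h6)
      exact ⟨L2, s2, c2, u2, b3.trans h3⟩
    obtain ⟨L2, s2, c2, u2, b3⟩ := key
    have hdis : Disjoint L1 L2 := Finset.disjoint_left.2 fun i hi hi2 =>
      (mem_sdiff.1 (s2 hi2)).2 hi
    refine ⟨L1 ∪ L2, union_subset s1 (s2.trans sdiff_subset), step hdis c1 hmin c2, ?_, ?_⟩
    · intro i hi j hj
      have hj1 := mem_sdiff.1 hj
      have hj2 : j ∈ L \ L1 := mem_sdiff.2 ⟨hj1.1, fun h => hj1.2 (mem_union_left _ h)⟩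
      rcases mem_union.1 hi with hi | hi
      · exact u1 i hi j hj2
      · exact u2 i hi j (mem_sdiff.2 ⟨hj2, fun h => hj1.2 (mem_union_right _ h)⟩)
    · rw [sum_union hdis, mul_add (d + 1).factorial]
      have h7 : P * (n + (d + 1) * f) = n * P + (d + 1) * f * P := by ring
      omega

lemma dim_le {e e' : ℕ} (h : e' ≤ e) (W : Submodule ℂ P3)
    (hW : ∀ F ∈ W, F.totalDegree ≤ e' → F = 0) :
    Module.finrank ℂ ↥(Vd e ⊓ W) + (e' + 3).choose 3 ≤ (e + 3).choose 3 := by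
  have : Module.Finite ℂ ↥(Vd e ⊓ W) := Submodule.finiteDimensional_inf_left _ _
  have h1 := Submodule.finrank_sup_add_finrank_inf_eq (Vd e ⊓ W) (Vd e')
  have h2 : (Vd e ⊓ W) ⊓ Vd e' = ⊥ := by
    rw [eq_bot_iff]
    intro F hF
    exact hW F hF.1.2 (mem_Vd.1 hF.2)
  have h3 : (Vd e ⊓ W) ⊔ Vd e' ≤ Vd e :=
    sup_le inf_le_left fun F hF => mem_Vd.2 ((mem_Vd.1 hF).trans h)
  have h4 := Submodule.finrank_mono h3
  rw [h2, finrank_bot, finrank_Vd] at h1
  rw [finrank_Vd] at h4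
  omega

lemma JW_zero {K e : ℕ} (h : 2 * e ≤ K) {F : P3} (hF : F ∈ JW K) (hd : F.totalDegree ≤ e) :
    F = 0 := by
  have h1 : mono3 '' {p : Cell | K < p.1 + p.2.1 + 2 * p.2.2} =
      (fun s => monomial s (1 : ℂ)) '' (ex3 '' {p : Cell | K < p.1 + p.2.1 + 2 * p.2.2}) := by
    rw [Set.image_image]
    exact Set.image_congr fun p _ => mono3_eq p
  rw [JW, h1, mem_ideal_span_monomial_image] at hF
  rw [← support_eq_empty, eq_empty_iff_forall_notMem]
  intro s hs
  obtain ⟨_, ⟨p, hp, rfl⟩, hle⟩ := hF s hs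
  have h2 : (ex3 p).degree ≤ s.degree := Finsupp.degree_mono hle
  have h3 : s.degree ≤ F.totalDegree := le_totalDegree hs
  rw [degree_ex3] at h2
  simp only [Set.mem_ofPred_eq] at hp
  omega

lemma mem_box_of_JW {K : ℕ} (q : Fin 3 → ℂ) {F : P3} (hF : tau q F ∈ JW K) :
    F ∈ box q (K / 4 + 1) := by
  have h1 : JW K ≤ Ideal.comap (tau (-q)) (box q (K / 4 + 1)) := by
    rw [JW, Ideal.span_le]
    rintro _ ⟨⟨a, b, j⟩, hp, rfl⟩
    simp only [Set.mem_ofPred_eq] at hp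
    have h2 : ∀ (k : Fin 3) (c : ℕ), K / 4 + 1 ≤ c →
        ((X k - C (q k)) ^ c : P3) ∈ box q (K / 4 + 1) := by
      intro k c hc
      obtain ⟨c, rfl⟩ := Nat.exists_eq_add_of_le hc
      rw [pow_add]
      exact Ideal.mul_mem_right _ _ (Ideal.subset_span ⟨k, rfl⟩)
    have h3 : tau (-q) (mono3 (a, b, j)) =
        (X 0 - C (q 0)) ^ a * (X 1 - C (q 1)) ^ b * (X 2 - C (q 2)) ^ j := by
      simp [mono3, mon, tau, sub_eq_add_neg]
    rw [SetLike.mem_coe, Ideal.mem_comap, h3]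
    by_cases ha : K / 4 + 1 ≤ a
    · exact Ideal.mul_mem_right _ _ (Ideal.mul_mem_right _ _ (h2 0 a ha))
    by_cases hb : K / 4 + 1 ≤ b
    · exact Ideal.mul_mem_right _ _ (Ideal.mul_mem_left _ _ (h2 1 b hb))
    · exact Ideal.mul_mem_left _ _ (h2 2 j (by omega))
  have h4 := Ideal.mem_comap.1 (h1 hF)
  rwa [tau_tau] at h4

lemma num_one {m t : ℕ} (h1 : m ≤ 8 * t) (h2 : 250 ≤ t) :
    15625 * (m + 1).choose 2 ≤ 2001 * t ^ 3 := by
  have h3 : 2 * (m + 1).choose 2 = (m + 1) * m := by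
    have := Nat.descFactorial_eq_factorial_mul_choose (m + 1) 2
    simp only [Nat.descFactorial_succ, Nat.descFactorial_zero, Nat.factorial_two,
      Nat.add_sub_cancel, Nat.sub_zero, mul_one] at this
    rw [← this]
    ring
  have h4 : (m + 1) * m ≤ (8 * t + 1) * (8 * t) := Nat.mul_le_mul (by omega) h1
  have h5 : 250 * t ≤ t ^ 2 := by nlinarith
  have h6 : 250 * t ^ 2 ≤ t ^ 3 := by nlinarith
  nlinarith

lemma num_two {s f c S : ℕ} (hs : 100 ≤ s) (hf : 2 * f ≤ s + 2) (h1 : (s + 3).choose 3 ≤ c)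
    (h2 : 15625 * c ≤ 2001 * S) :
    ∏ k ∈ range 3, (s + 2 + (k + 1) * f) ≤ Nat.factorial 3 * S := by
  have h3 : 6 * (s + 3).choose 3 = (s + 3) * (s + 2) * (s + 1) := by
    have := Nat.descFactorial_eq_factorial_mul_choose (s + 3) 3
    simp only [Nat.descFactorial_succ, Nat.descFactorial_zero, mul_one] at this
    rw [show Nat.factorial 3 = 6 from rfl, show s + 3 - 2 = s + 1 from rfl,
      show s + 3 - 1 = s + 2 from rfl, Nat.sub_zero] at this
    rw [← this]
    ring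
  have h4 : (2 * (s + 2 + (0 + 1) * f)) * (s + 2 + (1 + 1) * f) * (2 * (s + 2 + (2 + 1) * f)) ≤
      (3 * (s + 2)) * (2 * (s + 2)) * (5 * (s + 2)) :=
    Nat.mul_le_mul (Nat.mul_le_mul (by omega) (by omega)) (by omega)
  have h5 : 60030 * (s + 2) ^ 3 ≤ 62500 * ((s + 3) * (s + 2) * (s + 1)) := by
    have h6 : 60030 * (s + 2) ^ 2 ≤ 62500 * ((s + 3) * (s + 1)) := by nlinarith
    calc 60030 * (s + 2) ^ 3 = (60030 * (s + 2) ^ 2) * (s + 2) := by ring
      _ ≤ (62500 * ((s + 3) * (s + 1))) * (s + 2) := Nat.mul_le_mul_right _ h6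
      _ = _ := by ring
  rw [prod_range_succ, prod_range_succ, prod_range_succ, prod_range_zero, one_mul,
    show Nat.factorial 3 = 6 from rfl]
  have h7 : (2 * (s + 2 + (0 + 1) * f)) * (s + 2 + (1 + 1) * f) * (2 * (s + 2 + (2 + 1) * f)) =
      4 * ((s + 2 + (0 + 1) * f) * (s + 2 + (1 + 1) * f) * (s + 2 + (2 + 1) * f)) := by ring
  have h8 : (3 * (s + 2)) * (2 * (s + 2)) * (5 * (s + 2)) = 30 * (s + 2) ^ 3 := by ring
  rw [h7, h8] at h4
  omega

end MCover

open MCover in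
theorem base : BaseStmt := by
  intro e r m A hA
  set T := min ((e + 3).choose 3) (∑ i ∈ A, (m i + 1).choose 2) with hT
  have hex : ∃ e', T ≤ (e' + 3).choose 3 := ⟨e, min_le_left _ _⟩
  have he1 : Nat.find hex ≤ e := Nat.find_min' hex (min_le_left _ _)
  have he2 := Nat.find_spec hex
  have he3 : ∀ s < Nat.find hex, ¬ T ≤ (s + 3).choose 3 := fun s hs => Nat.find_min hex hs
  generalize Nat.find hex = e' at he1 he2 he3
  suffices h : T = 0 ∨ ∃ u : Fin r → Fin 3 → P3, ∀ F : P3,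
      (∀ i ∈ A, aeval (u i) F ∈ JW ((m i - 1) / 2)) → F.totalDegree ≤ e' → F = 0 by
    rcases h with h | ⟨u, hu⟩
    · refine ⟨fun _ => X, ?_⟩
      rw [h, add_zero, kd, ← finrank_Vd]
      exact Submodule.finrank_mono inf_le_left
    · refine ⟨u, le_trans (Nat.add_le_add_left he2 _) (dim_le he1 _ fun F hF => hu F ?_)⟩
      intro i hi
      have h1 := (Submodule.mem_iInf _).1 hF i
      simp only [mem_kr, if_pos hi] at h1
      exact h1
  rcases A.eq_empty_or_nonempty with rfl | ⟨i0, hi0⟩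
  · left
    rw [hT, sum_empty, Nat.min_zero]
  right
  by_cases hK : ∃ i ∈ A, 2 * e' ≤ (m i - 1) / 2
  · obtain ⟨i, hi, hK⟩ := hK
    refine ⟨fun _ => X, fun F hF hd => JW_zero hK ?_ hd⟩
    have h1 := hF i hi
    rwa [aeval_X_left_apply] at h1
  have hb : ∀ i ∈ A, 2000 ≤ m i ∧ (m i - 1) / 2 < 2 * e' := by
    intro i hi
    have h1 : ¬ 2 * e' ≤ (m i - 1) / 2 := fun h => hK ⟨i, hi, h⟩
    rcases hA i hi with h2 | h2 <;> omega
  obtain ⟨s, rfl⟩ : ∃ s, e' = s + 1 := ⟨e' - 1, by have := hb i0 hi0; omega⟩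
  have h1 : (s + 3).choose 3 ≤ ∑ i ∈ A, (m i + 1).choose 2 :=
    (not_le.1 (he3 s (Nat.lt_succ_self s))).le.trans (min_le_right _ _)
  have h2 : 15625 * ∑ i ∈ A, (m i + 1).choose 2 ≤
      2001 * ∑ i ∈ A, ((m i - 1) / 2 / 4 + 1) ^ 3 := by
    rw [mul_sum, mul_sum]
    refine sum_le_sum fun i hi => num_one ?_ ?_
    · omega
    · have := hb i hi
      omega
  obtain ⟨L, hL, ⟨q, hq⟩, -, -⟩ := count (fun i => (m i - 1) / 2 / 4 + 1) 3 (s + 2) ((s + 2) / 2) A
    (fun i hi => by have := hb i hi; constructor <;> omega)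
    (num_two (by have := hb i0 hi0; omega) (by omega) h1 h2)
  exact ⟨fun i k => X k + C (q i k), fun F hF hd =>
    hq F (by omega) fun i hi => mem_box_of_JW (q i) (hF i (hL hi))⟩

end Pool.Agent.Lib.MP_a430e8_ag
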