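import Pool.Agent.Lib.MP_a430e8_ag.MBase

/-! From one special surface with special points to the general surface with general points. -/

namespace Pool.Agent.Lib.MP_a430e8_ag
open Finset MvPolynomial

namespace MGen

/-- One elimination step. -/
lemma exists_step {A : Type*} [CommRing A] [Algebra ℂ A] (a b : Polynomial A)
    (ψ₀ : A →ₐ[ℂ] ℂ) (ha : a.map (ψ₀ : A →+* ℂ) ≠ 0) (ha0 : (a.map (ψ₀ : A →+* ℂ)).eval 0 = 0)
    (hb : (b.map (ψ₀ : A →+* ℂ)).eval 0 ≠ 0) :
    ∃ Φ : A, ψ₀ Φ ≠ 0 ∧ ∀ ψ : A →ₐ[ℂ] ℂ, ψ Φ ≠ 0 →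
      ∃ t, (a.map (ψ : A →+* ℂ)).eval t = 0 ∧ (b.map (ψ : A →+* ℂ)).eval t ≠ 0 := by
  classical
  obtain ⟨d, hd⟩ : ∃ d, d = a.natDegree := ⟨_, rfl⟩
  obtain ⟨K, hK⟩ : ∃ K, K = (b ^ d).natDegree := ⟨_, rfl⟩
  let u : Option (Fin (K + 1)) → Polynomial A := fun i =>
    Option.elim i (b ^ d) fun i => a * Polynomial.X ^ (i : ℕ)
  have hu : ∀ (ψ : A →ₐ[ℂ] ℂ) (w : Option (Fin (K + 1)) → ℂ) (k : Fin (K + d + 1)),
      (∑ i, w i • fun k : Fin (K + d + 1) => ψ ((u i).coeff k)) k =
      (w none • (b.map (ψ : A →+* ℂ)) ^ d + a.map (ψ : A →+* ℂ) * ∑ i : Fin (K + 1),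
        w (some i) • Polynomial.X ^ (i : ℕ)).coeff k := by
    intro ψ w k
    rw [Fintype.sum_option, mul_sum, Polynomial.coeff_add, Polynomial.finsetSum_coeff]
    simp only [Pi.add_apply, Pi.smul_apply, Finset.sum_apply, u, Option.elim, mul_smul_comm,
      Polynomial.coeff_smul]
    congr 1
    · rw [← Polynomial.map_pow, Polynomial.coeff_map]; rfl
    · refine sum_congr rfl fun i _ => ?_
      congr 1
      have : a.map (ψ : A →+* ℂ) * Polynomial.X ^ (i : ℕ) =
        (a * Polynomial.X ^ (i : ℕ)).map (ψ : A →+* ℂ) := by simp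
      rw [this, Polynomial.coeff_map]; rfl
  have hbd : ∀ ψ : A →ₐ[ℂ] ℂ, ((b.map (ψ : A →+* ℂ)) ^ d).natDegree ≤ K := by
    intro ψ
    rw [← Polynomial.map_pow, hK]
    exact Polynomial.natDegree_map_le
  have had : ∀ ψ : A →ₐ[ℂ] ℂ, (a.map (ψ : A →+* ℂ)).natDegree ≤ d := by
    intro ψ
    rw [hd]
    exact Polynomial.natDegree_map_le
  obtain ⟨Φ, h0, hΦ⟩ := open_indep (fun i (k : Fin (K + d + 1)) => (u i).coeff k) ψ₀ (by
    rw [Fintype.linearIndependent_iff]
    intro w hw
    have hh : (∑ i : Fin (K + 1), w (some i) • (Polynomial.X : Polynomial ℂ) ^ (i : ℕ)).natDegree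
        ≤ K := by
      refine Polynomial.natDegree_sum_le_of_forall_le _ _ fun i _ => ?_
      refine (Polynomial.natDegree_smul_le _ _).trans ?_
      rw [Polynomial.natDegree_X_pow]
      omega
    have h1 : w none • (b.map (ψ₀ : A →+* ℂ)) ^ d + a.map (ψ₀ : A →+* ℂ) * ∑ i : Fin (K + 1),
        w (some i) • Polynomial.X ^ (i : ℕ) = 0 := by
      ext k
      by_cases hk : k < K + d + 1
      · have := hu ψ₀ w ⟨k, hk⟩
        rw [hw] at this
        exact this.symm
      · refine Polynomial.coeff_eq_zero_of_natDegree_lt ?_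
        refine (Polynomial.natDegree_add_le _ _).trans_lt (max_lt ?_ ?_)
        · have := (Polynomial.natDegree_smul_le (w none) _).trans (hbd ψ₀)
          omega
        · have := Polynomial.natDegree_mul_le (p := a.map (ψ₀ : A →+* ℂ))
            (q := ∑ i : Fin (K + 1), w (some i) • (Polynomial.X : Polynomial ℂ) ^ (i : ℕ))
          have := had ψ₀
          omega
    have h2 : w none = 0 := by
      have := congrArg (Polynomial.eval 0) h1
      rw [Polynomial.eval_add, Polynomial.eval_mul, ha0, zero_mul, add_zero, Polynomial.eval_smul,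
        Polynomial.eval_pow, Polynomial.eval_zero, smul_eq_mul] at this
      exact (mul_eq_zero.1 this).resolve_right (pow_ne_zero _ hb)
    rw [h2, zero_smul, zero_add] at h1
    have h3 := (mul_eq_zero.1 h1).resolve_left ha
    rintro (_ | i)
    · exact h2
    · have := congrArg (fun p => Polynomial.coeff p i) h3
      simp only [Polynomial.finsetSum_coeff] at this
      rw [sum_eq_single i] at this
      · simpa using this
      · intro j _ hj
        simp [Polynomial.coeff_X_pow, Fin.val_inj, Ne.symm hj]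
      · simp)
  refine ⟨Φ, h0, fun ψ hψ => ?_⟩
  have h3 := Fintype.linearIndependent_iff.1 (hΦ ψ hψ)
  have hne : a.map (ψ : A →+* ℂ) ≠ 0 := by
    intro h0
    have := h3 (fun i => Option.elim i 0 fun _ => 1) (by
      funext k
      rw [hu, h0]
      simp) (some 0)
    simp at this
  refine exists_root (had ψ) ?_ hne
  rintro ⟨h, hh⟩
  have hdh : h.natDegree < K + 1 := by
    by_cases h0 : h = 0
    · rw [h0]
      simp
    · have e1 := Polynomial.natDegree_mul hne h0
      have e2 := hbd ψ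
      rw [hh] at e2
      omega
  have := h3 (fun i => Option.elim i (-1) fun i => h.coeff i) (by
    funext k
    rw [hu]
    have e3 : ∑ i : Fin (K + 1), h.coeff i • Polynomial.X ^ (i : ℕ) = h := by
      rw [Fin.sum_univ_eq_sum_range (fun i => h.coeff i • Polynomial.X ^ i) (K + 1)]
      conv_rhs => rw [h.as_sum_range_C_mul_X_pow' hdh]
      simp only [Polynomial.smul_eq_C_mul]
    simp only [Option.elim, e3, hh]
    simp) none
  simp at this

/-- Coefficients of the surface together with coordinates of the points. -/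
abbrev UM (r : ℕ) := MvPolynomial ((Fin 4 →₀ ℕ) ⊕ (Fin r × Fin 3)) ℂ

/-- Specialisation to a surface and points. -/
noncomputable def specM {r : ℕ} (f : P4) (q : Fin r → Fin 3 → ℂ) : UM r →ₐ[ℂ] ℂ :=
  aeval (Sum.elim (fun s => f.coeff s) fun s => q s.1 s.2)

/-- The universal value of the equation at one of the points. -/
noncomputable def aM (d : ℕ) {r : ℕ} (i : Fin r) : UM r :=
  ∑ p ∈ tet (d + 1), X (Sum.inl (ex4 d p)) *
    mon (X (Sum.inr (i, 0))) (X (Sum.inr (i, 1))) (X (Sum.inr (i, 2))) p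

lemma spec_aM {d r : ℕ} {f : P4} (hf : f.IsHomogeneous d) (q : Fin r → Fin 3 → ℂ) (i : Fin r) :
    specM f q (aM d i) = eval (q i) (dehom f) := by
  rw [dehom_eq_sum hf]
  simp [aM, map_sum, map_mon, specM, mono3, smul_eq_C_mul]

/-- Moving one point along a line. -/
noncomputable def mv {r : ℕ} (j : Fin r) (v : Fin 3 → ℂ) : UM r →ₐ[ℂ] Polynomial (UM r) :=
  aeval (Sum.elim (fun s => Polynomial.C (X (Sum.inl s))) fun s =>
    Polynomial.C (X (Sum.inr s)) +
      if s.1 = j then Polynomial.C (C (v s.2)) * Polynomial.X else 0)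

lemma eval_mv {r : ℕ} (j : Fin r) (v : Fin 3 → ℂ) (f : P4) (q : Fin r → Fin 3 → ℂ) (t : ℂ)
    (z : UM r) : ((mv j v z).map (specM f q : UM r →+* ℂ)).eval t =
      specM f (Function.update q j (q j + t • v)) z := by
  have : ((Polynomial.evalRingHom t).comp (Polynomial.mapRingHom
      (specM f q : UM r →+* ℂ))).comp (mv j v : UM r →+* _) =
      (specM f (Function.update q j (q j + t • v)) : UM r →+* ℂ) := by
    refine ringHom_ext (fun c => ?_) ?_
    · simp [mv, specM, Polynomial.algebraMap_apply]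
    · rintro (s | ⟨i, k⟩)
      · simp [mv, specM]
      · by_cases h : i = j
        · subst h
          simp [mv, specM]
          ring
        · simp [mv, specM, h]
  exact RingHom.congr_fun this z

lemma exists_move {d r : ℕ} {f₀ : P4} {q₀ : Fin r → Fin 3 → ℂ} (hf₀ : f₀.IsHomogeneous d)
    (j : Fin r) (h0 : eval (q₀ j) (dehom f₀) = 0) (hne : dehom f₀ ≠ 0) (P : UM r)
    (hP : specM f₀ q₀ P ≠ 0) :
    ∃ P' : UM r, specM f₀ q₀ P' ≠ 0 ∧ ∀ f : P4, f.IsHomogeneous d → ∀ q, specM f q P' ≠ 0 →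
      ∃ z, eval z (dehom f) = 0 ∧ specM f (Function.update q j z) P ≠ 0 := by
  obtain ⟨z, hz⟩ : ∃ z, eval z (dehom f₀) ≠ 0 := by
    by_contra hc
    push Not at hc
    exact hne (MvPolynomial.funext fun x => by rw [hc, map_zero])
  obtain ⟨P', h1, h2⟩ := exists_step (mv j (z - q₀ j) (aM d j)) (mv j (z - q₀ j) P)
    (specM f₀ q₀) (by
      intro h
      have := eval_mv j (z - q₀ j) f₀ q₀ 1 (aM d j)
      rw [h, spec_aM hf₀, Function.update_self, one_smul, add_sub_cancel,
        Polynomial.eval_zero] at this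
      exact hz this.symm)
    (by rw [eval_mv, spec_aM hf₀, Function.update_self, zero_smul, add_zero, h0])
    (by rwa [eval_mv, zero_smul, add_zero, Function.update_eq_self])
  refine ⟨P', h1, fun f hf q hq => ?_⟩
  obtain ⟨t, h3, h4⟩ := h2 _ hq
  rw [eval_mv] at h3 h4
  rw [spec_aM hf, Function.update_self] at h3
  exact ⟨_, h3, h4⟩

lemma exists_moves {d r : ℕ} {f₀ : P4} {q₀ : Fin r → Fin 3 → ℂ} (hf₀ : f₀.IsHomogeneous d)
    (h0 : ∀ j, eval (q₀ j) (dehom f₀) = 0) (hne : ∀ _ : Fin r, dehom f₀ ≠ 0) (P : UM r)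
    (hP : specM f₀ q₀ P ≠ 0) (I : Finset (Fin r)) :
    ∃ P' : UM r, specM f₀ q₀ P' ≠ 0 ∧ ∀ f : P4, f.IsHomogeneous d → ∀ q, specM f q P' ≠ 0 →
      ∃ q', (∀ i ∈ I, eval (q' i) (dehom f) = 0) ∧ (∀ i ∉ I, q' i = q i) ∧ specM f q' P ≠ 0 := by
  classical
  induction I using Finset.induction_on with
  | empty => exact ⟨P, hP, fun f _ q hq => ⟨q, by simp, fun _ _ => rfl, hq⟩⟩
  | insert j I hj ih =>
    obtain ⟨P₁, h1, h2⟩ := ih
    obtain ⟨P₂, h3, h4⟩ := exists_move hf₀ j (h0 j) (hne j) P₁ h1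
    refine ⟨P₂, h3, fun f hf q hq => ?_⟩
    obtain ⟨z, h5, h6⟩ := h4 f hf q hq
    obtain ⟨q', h7, h8, h9⟩ := h2 f hf _ h6
    refine ⟨q', fun i hi => ?_, fun i hi => ?_, h9⟩
    · rcases mem_insert.1 hi with rfl | hi
      · rw [h8 i hj, Function.update_self, h5]
      · exact h7 i hi
    · rw [mem_insert, not_or] at hi
      rw [h8 i hi.2, Function.update_of_ne hi.1]

/-- An open condition on pairs which holds at one pair holds for the general surface and general
points on it. -/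
lemma general_of_open {d r : ℕ} {f₀ : P4} {q₀ : Fin r → Fin 3 → ℂ} (hf₀ : f₀.IsHomogeneous d)
    (h0 : ∀ j, eval (q₀ j) (dehom f₀) = 0) (hne : ∀ _ : Fin r, dehom f₀ ≠ 0) (P : UM r)
    (hP : specM f₀ q₀ P ≠ 0) (Q : P4 → (Fin r → Fin 3 → ℂ) → Prop)
    (hQ : ∀ f : P4, f.IsHomogeneous d → ∀ q, (∀ i, eval (q i) (dehom f) = 0) →
      specM f q P ≠ 0 → Q f q) :
    GeneralForm d fun f => GeneralPoints f r (Q f) := by
  obtain ⟨P', h1, h2⟩ := exists_moves hf₀ h0 hne P hP univ
  let Φ : MvPolynomial (Fin 4 →₀ ℕ) ℂ := aeval (Sum.elim X fun s => C (q₀ s.1 s.2)) P'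
  have hΦ : ∀ f : P4, eval (fun s => f.coeff s) Φ = specM f q₀ P' := by
    intro f
    have : (eval (fun s => f.coeff s) : MvPolynomial (Fin 4 →₀ ℕ) ℂ →+* ℂ).comp
        (aeval (Sum.elim X fun s => C (q₀ s.1 s.2)) :
          UM r →ₐ[ℂ] MvPolynomial (Fin 4 →₀ ℕ) ℂ).toRingHom = (specM f q₀ : UM r →+* ℂ) := by
      refine ringHom_ext (fun c => ?_) ?_
      · simp [specM]
      · rintro (s | i) <;> simp [specM]
    exact RingHom.congr_fun this P'
  refine ⟨Φ, ⟨f₀, hf₀, by rwa [hΦ]⟩, fun f hf hfΦ => ?_⟩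
  rw [hΦ] at hfΦ
  obtain ⟨q', h3, -, h4⟩ := h2 f hf q₀ hfΦ
  let G : MvPolynomial (Fin r × Fin 3) ℂ := aeval (Sum.elim (fun s => C (f.coeff s)) X) P
  have hG : ∀ q : Fin r → Fin 3 → ℂ, eval (fun s => q s.1 s.2) G = specM f q P := by
    intro q
    have : (eval (fun s => q s.1 s.2) : MvPolynomial (Fin r × Fin 3) ℂ →+* ℂ).comp
        (aeval (Sum.elim (fun s => C (f.coeff s)) X) :
          UM r →ₐ[ℂ] MvPolynomial (Fin r × Fin 3) ℂ).toRingHom = (specM f q : UM r →+* ℂ) := by
      refine ringHom_ext (fun c => ?_) ?_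
      · simp [specM]
      · rintro (s | i) <;> simp [specM]
    exact RingHom.congr_fun this P
  refine ⟨G, ⟨q', fun i => h3 i (mem_univ i), by rwa [hG]⟩, fun q hq hq' => ?_⟩
  rw [hG] at hq'
  exact hQ f hf q hq hq'

/-- Truncated coefficient vectors at all points. -/
noncomputable def vecM {A : Type*} [CommRing A] {r : ℕ} (m : Fin r → ℕ) (D : Finset Cell)
    (x : Fin r → Fin 3 → A) (g : Fin r → MvPolynomial (Fin 3) A) :
    D ⊕ (Σ i, tet (m i - 1)) → (Σ i, tet (m i)) → A := fun a κ =>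
  (Sum.elim (fun p : D => mon (X 0 + C (x κ.1 0)) (X 1 + C (x κ.1 1)) (X 2 + C (x κ.1 2)) p)
    (fun β : (Σ i, tet (m i - 1)) =>
      if β.1 = κ.1 then g κ.1 * mon (X 0) (X 1) (X 2) β.2 else 0) a).coeff (ex3 κ.2)

lemma map_vecM {A B : Type*} [CommRing A] [CommRing B] (h : A →+* B) {r : ℕ} (m : Fin r → ℕ)
    (D : Finset Cell) (x : Fin r → Fin 3 → A) (g : Fin r → MvPolynomial (Fin 3) A)
    (a : D ⊕ (Σ i, tet (m i - 1))) (κ : Σ i, tet (m i)) :
    h (vecM m D x g a κ) =
      vecM m D (fun i k => h (x i k)) (fun i => MvPolynomial.map h (g i)) a κ := by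
  rcases a with p | β
  · simp [vecM, ← coeff_map, map_mon]
  · by_cases hβ : β.1 = κ.1
    · simp [vecM, ← coeff_map, map_mon, hβ]
    · simp [vecM, hβ]

lemma tau_mono3 (q : Fin 3 → ℂ) (p : Cell) :
    tau q (mono3 p) = mon (X 0 + C (q 0)) (X 1 + C (q 1)) (X 2 + C (q 2)) p := by
  simp [tau, mono3, map_mon]

lemma indM_iff {r : ℕ} {m : Fin r → ℕ} {D : Finset Cell} {q : Fin r → Fin 3 → ℂ}
    {g : Fin r → P3} :
    LinearIndependent ℂ (vecM m D q g) ↔ ∀ (c : Cell → ℂ) (c' : Fin r → Cell → ℂ),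
      (∀ i, tau (q i) (∑ p ∈ D, c p • mono3 p) +
        g i * ∑ p ∈ tet (m i - 1), c' i p • mono3 p ∈ m3 ^ m i) →
      (∀ p ∈ D, c p = 0) ∧ ∀ i, ∀ p ∈ tet (m i - 1), c' i p = 0 := by
  classical
  have key : ∀ (c : Cell → ℂ) (c' : Fin r → Cell → ℂ),
      (∀ i, tau (q i) (∑ p ∈ D, c p • mono3 p) +
        g i * ∑ p ∈ tet (m i - 1), c' i p • mono3 p ∈ m3 ^ m i) ↔
      ∑ a, Sum.elim (fun p : D => c p) (fun β : (Σ i, tet (m i - 1)) => c' β.1 β.2) a •
        vecM m D q g a = 0 := by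
    intro c c'
    rw [funext_iff, Sigma.forall]
    refine forall_congr' fun i => ?_
    rw [mem_m3_pow, Subtype.forall]
    refine forall₂_congr fun κ hκ => ?_
    rw [Fintype.sum_sum_type, Fintype.sum_sigma, mul_sum, map_sum, ← sum_coe_sort D,
      ← sum_coe_sort (tet (m i - 1)), Pi.add_apply, Finset.sum_apply, Finset.sum_apply,
      sum_eq_single i]
    · simp [vecM, coeff_sum, mono3, tau, map_mon]
    · intro j _ hj
      simp [vecM, hj]
    · simp
  rw [Fintype.linearIndependent_iff]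
  constructor
  · intro h c c' hc
    have := h _ ((key c c').1 hc)
    exact ⟨fun p hp => this (Sum.inl ⟨p, hp⟩), fun i p hp => this (Sum.inr ⟨i, p, hp⟩)⟩
  · intro h w hw
    have := h (fun p => if hp : p ∈ D then w (Sum.inl ⟨p, hp⟩) else 0)
      (fun i p => if hp : p ∈ tet (m i - 1) then w (Sum.inr ⟨i, p, hp⟩) else 0) ((key _ _).2 (by
        rw [← hw]
        refine sum_congr rfl ?_
        rintro (p | p) - <;> simp))
    rintro (p | ⟨i, p⟩)
    · simpa using this.1 p p.2
    · simpa using this.2 i p p.2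

lemma mem_multi {f F : P4} {r : ℕ} {q : Fin r → Fin 3 → ℂ} {e : ℕ} {m : Fin r → ℕ} :
    F ∈ multiSeries f q e m ↔ F.IsHomogeneous e ∧
      ∀ i, ∃ A, tau (q i) (dehom F) - tau (q i) (dehom f) * A ∈ m3 ^ m i := by
  simp only [multiSeries, Submodule.mem_inf, mem_homogeneousSubmodule, Submodule.mem_iInf,
    mem_series_iff, mem_ser0, dehom_sig]
  exact and_congr_right fun h => forall_congr' fun i => and_iff_right (sig_hom _ h)

instance (e : ℕ) : Module.Finite ℂ (homogeneousSubmodule (Fin 4) ℂ e) :=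
  Module.Finite.iff_fg.2 (homogeneousSubmodule_fg _ _ e)

instance (f : P4) {r : ℕ} (q : Fin r → Fin 3 → ℂ) (e : ℕ) (m : Fin r → ℕ) :
    Module.Finite ℂ (multiSeries f q e m) :=
  Submodule.finiteDimensional_of_le (S₂ := homogeneousSubmodule (Fin 4) ℂ e) inf_le_left

lemma hom_eq_span (e : ℕ) : homogeneousSubmodule (Fin 4) ℂ e =
    Submodule.span ℂ (Set.range fun p : tet (e + 1) => mono4 e p) := by
  refine le_antisymm (fun F hF => ?_) (Submodule.span_le.2 ?_)
  · rw [form_eq_sum hF]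
    exact Submodule.sum_mem _ fun p hp =>
      Submodule.smul_mem _ _ (Submodule.subset_span ⟨⟨p, hp⟩, rfl⟩)
  · rintro _ ⟨p, rfl⟩
    exact mono4_hom p.2

lemma finrank_hom (e : ℕ) :
    Module.finrank ℂ (homogeneousSubmodule (Fin 4) ℂ e) = (e + 3).choose 3 := by
  have h := (basisMonomials (Fin 4) ℂ).linearIndependent.comp (fun p : tet (e + 1) => ex4 e p)
    ((ex4_inj e).comp Subtype.val_injective)
  have h1 : (fun p : tet (e + 1) => mono4 e p) =
      (basisMonomials (Fin 4) ℂ) ∘ fun p : tet (e + 1) => ex4 e p := by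
    funext p
    simp [mono4_eq]
  rw [← h1] at h
  rw [hom_eq_span, finrank_span_eq_card h, Fintype.card_coe, card_tet]

lemma codim_iInf {V ι : Type*} [AddCommGroup V] [Module ℂ V] (H : Submodule ℂ V)
    [Module.Finite ℂ H] (W : ι → Submodule ℂ V) (c : ι → ℕ) (hW : ∀ i, W i ≤ H)
    (hc : ∀ i, Module.finrank ℂ H ≤ Module.finrank ℂ (W i) + c i) (s : Finset ι) :
    Module.finrank ℂ H ≤ Module.finrank ℂ ↥(H ⊓ ⨅ i ∈ s, W i) + ∑ i ∈ s, c i := by
  classical
  induction s using Finset.induction_on with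
  | empty =>
    have h1 : H ⊓ ⨅ i ∈ (∅ : Finset ι), W i = H := by simp
    rw [h1]
    exact Nat.le_add_right _ _
  | insert j s hj ih =>
    have : Module.Finite ℂ ↥(H ⊓ ⨅ i ∈ s, W i) := Submodule.finiteDimensional_of_le inf_le_left
    have : Module.Finite ℂ (W j) := Submodule.finiteDimensional_of_le (hW j)
    have h1 := Submodule.finrank_sup_add_finrank_inf_eq (H ⊓ ⨅ i ∈ s, W i) (W j)
    have h2 : Module.finrank ℂ ↥((H ⊓ ⨅ i ∈ s, W i) ⊔ W j) ≤ Module.finrank ℂ H :=
      Submodule.finrank_mono (sup_le inf_le_left (hW j))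
    have h3 : H ⊓ ⨅ i ∈ insert j s, W i = (H ⊓ ⨅ i ∈ s, W i) ⊓ W j := by
      rw [Finset.iInf_insert, inf_comm (W j), inf_assoc]
    have h4 := hc j
    rw [h3, sum_insert hj]
    omega

lemma lower {f : P4} {r : ℕ} {q : Fin r → Fin 3 → ℂ} (e : ℕ) {m : Fin r → ℕ} {D : Finset Cell}
    (h : LinearIndependent ℂ (vecM m D q fun i => tau (q i) (dehom f))) :
    (e + 3).choose 3 ≤ Module.finrank ℂ (multiSeries f q e m) + ∑ i, (m i + 1).choose 2 := by
  classical
  have h1 := codim_iInf (homogeneousSubmodule (Fin 4) ℂ e) (fun i => series f (q i) e (m i))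
    (fun i => (m i + 1).choose 2) (fun i => inf_le_left) (fun i => by
      rw [finrank_hom, finrank_series]
      refine le_finrank_ser0 e (m i) fun c' hc' p hp => ?_
      have := (indM_iff.1 h 0 (Function.update 0 i c') fun j => ?_).2 i p hp
      · rwa [Function.update_self] at this
      · by_cases hj : j = i
        · subst hj
          simpa using hc'
        · simp [Function.update_of_ne hj]) univ
  rw [finrank_hom] at h1
  have h2 : (homogeneousSubmodule (Fin 4) ℂ e ⊓ ⨅ i ∈ (univ : Finset (Fin r)),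
      series f (q i) e (m i)) = multiSeries f q e m := by
    simp [multiSeries]
  rwa [h2] at h1

lemma dehom_sum (e : ℕ) (D : Finset Cell) (c : Cell → ℂ) :
    dehom (∑ p ∈ D, c p • mono4 e p) = ∑ p ∈ D, c p • mono3 p := by
  simp only [map_sum, map_smul, dehom_mono4]

lemma upper {f : P4} {r : ℕ} {q : Fin r → Fin 3 → ℂ} {e : ℕ} {m : Fin r → ℕ} {D : Finset Cell}
    (hD : D ⊆ tet (e + 1)) (hq : ∀ i, eval (q i) (dehom f) = 0)
    (h : LinearIndependent ℂ (vecM m D q fun i => tau (q i) (dehom f))) :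
    Module.finrank ℂ (multiSeries f q e m) + D.card ≤ (e + 3).choose 3 := by
  classical
  let ρ : multiSeries f q e m →ₗ[ℂ] (↥(tet (e + 1) \ D) → ℂ) :=
    (LinearMap.pi fun p : ↥(tet (e + 1) \ D) => lcoeff ℂ (ex4 e p)) ∘ₗ Submodule.subtype _
  have hρ : Function.Injective ρ := by
    rw [← LinearMap.ker_eq_bot, LinearMap.ker_eq_bot']
    rintro ⟨F, hF⟩ h0
    obtain ⟨hF1, hA⟩ := mem_multi.1 hF
    choose A hA using hA
    have h1 : F = ∑ p ∈ D, F.coeff (ex4 e p) • mono4 e p := by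
      conv_lhs => rw [form_eq_sum hF1]
      refine (sum_subset hD fun p hp hp' => ?_).symm
      have : F.coeff (ex4 e p) = 0 := congrFun h0 ⟨p, mem_sdiff.2 ⟨hp, hp'⟩⟩
      rw [this, zero_smul]
    have h2 : dehom F = ∑ p ∈ D, F.coeff (ex4 e p) • mono3 p := by
      conv_lhs => rw [h1]
      exact dehom_sum _ _ _
    have h4 := (indM_iff.1 h (fun p => F.coeff (ex4 e p)) (fun i p => -(A i).coeff (ex3 p))
      fun i => by
        have hle : m3 * m3 ^ (m i - 1) ≤ m3 ^ m i := by
          rw [← pow_succ']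
          exact Ideal.pow_le_pow_right (by omega)
        have h3 := Ideal.add_mem _ (hA i)
          (hle (Ideal.mul_mem_mul (tau_mem_m3 (hq i)) (sub_trunc_mem (m i - 1) (A i))))
        rw [← h2]
        simp only [neg_smul, sum_neg_distrib]
        have e1 : ∀ a b c d : P3, a - b * c + b * (c - d) = a + b * -d := by
          intro a b c d
          ring
        rwa [e1] at h3).1
    ext1
    change F = 0
    rw [h1]
    exact sum_eq_zero fun p hp => by rw [h4 p hp, zero_smul]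
  have h5 := LinearMap.finrank_le_finrank_of_injective hρ
  rw [Module.finrank_fintype_fun_eq_card, Fintype.card_coe, card_sdiff_of_subset hD,
    card_tet] at h5
  have h6 := card_le_card hD
  rw [card_tet] at h6
  change _ ≤ (e + 1 + 2).choose 3
  omega

lemma exists_compl (e : ℕ) (W : Submodule ℂ P4) [Module.Finite ℂ W] :
    ∃ D ⊆ tet (e + 1), (e + 3).choose 3 ≤ Module.finrank ℂ W + D.card ∧
      ∀ c : Cell → ℂ, ∑ p ∈ D, c p • mono4 e p ∈ W → ∀ p ∈ D, c p = 0 := by
  classical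
  obtain ⟨b, hb, -, h1, h2⟩ := exists_linearIndepOn_extension (K := ℂ)
    (v := fun p => W.mkQ (mono4 e p)) (s := ∅) (t := (tet (e + 1) : Set Cell))
    (linearIndepOn_empty _ _) (Set.empty_subset _)
  have hfin : b.Finite := (tet (e + 1)).finite_toSet.subset hb
  lift b to Finset Cell using hfin
  refine ⟨b, by exact_mod_cast hb, ?_, fun c hc => ?_⟩
  · let U := Submodule.span ℂ (Set.range fun p : b => mono4 e p)
    have : Module.Finite ℂ U := Module.Finite.span_of_finite _ (Set.finite_range _)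
    have h3 : homogeneousSubmodule (Fin 4) ℂ e ≤ W ⊔ U := by
      rw [hom_eq_span, Submodule.span_le]
      rintro _ ⟨p, rfl⟩
      have h4 : W.mkQ (mono4 e p) ∈ U.map W.mkQ := by
        refine Submodule.span_le.2 ?_ (h1 ⟨p, p.2, rfl⟩)
        rintro _ ⟨p', hp', rfl⟩
        exact Submodule.mem_map_of_mem (Submodule.subset_span ⟨⟨p', hp'⟩, rfl⟩)
      have h5 : mono4 e p ∈ (U.map W.mkQ).comap W.mkQ := h4
      rwa [Submodule.comap_map_mkQ] at h5
    have h6 := Submodule.finrank_mono h3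
    have h7 := Submodule.finrank_add_le_finrank_add_finrank W U
    have h8 := finrank_range_le_card (R := ℂ) fun p : b => mono4 e p
    rw [Set.finrank, Fintype.card_coe] at h8
    rw [finrank_hom] at h6
    exact (h6.trans h7).trans (Nat.add_le_add_left h8 _)
  · refine linearIndepOn_finset_iff.1 h2 c ?_
    have := (Submodule.Quotient.mk_eq_zero W).2 hc
    rw [← Submodule.mkQ_apply, map_sum] at this
    simpa only [map_smul] using this

/-- The universal translated equation at one of the points. -/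
noncomputable def gM (d : ℕ) {r : ℕ} (i : Fin r) : MvPolynomial (Fin 3) (UM r) :=
  ∑ p ∈ tet (d + 1), (C (X (Sum.inl (ex4 d p))) : MvPolynomial (Fin 3) (UM r)) *
    mon (X 0 + C (X (Sum.inr (i, 0))) : MvPolynomial (Fin 3) (UM r)) (X 1 + C (X (Sum.inr (i, 1))))
      (X 2 + C (X (Sum.inr (i, 2)))) p

lemma map_gM {d r : ℕ} {f : P4} (hf : f.IsHomogeneous d) (q : Fin r → Fin 3 → ℂ) (i : Fin r) :
    MvPolynomial.map (specM f q : UM r →+* ℂ) (gM d i) = tau (q i) (dehom f) := by
  rw [dehom_eq_sum hf]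
  simp [gM, map_sum, map_mon, specM, tau, mono3, smul_eq_C_mul]

end MGen

open MGen in
theorem gen : GenStmt := by
  intro d e r m f₀ q₀ hf₀ h0 hs
  obtain ⟨D, hD, h1, h2⟩ := exists_compl e (multiSeries f₀ q₀ e m)
  have hspec : ∀ f : P4, f.IsHomogeneous d → ∀ q : Fin r → Fin 3 → ℂ,
      (fun a κ => specM f q (vecM m D (fun i k => X (Sum.inr (i, k))) (gM d) a κ)) =
        vecM m D q fun i => tau (q i) (dehom f) := by
    intro f hf q
    funext a κ
    have h3 := map_vecM (specM f q : UM r →+* ℂ) m D (fun i k => X (Sum.inr (i, k))) (gM d) a κ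
    have h4 : (fun i k => (specM f q : UM r →+* ℂ) (X (Sum.inr (i, k)))) = q := by
      funext i k
      simp [specM]
    rw [h4, funext (map_gM hf q)] at h3
    exact h3
  obtain ⟨P, hP0, hP⟩ := open_indep (vecM m D (fun i k => X (Sum.inr (i, k))) (gM d))
    (specM f₀ q₀) (by
      rw [hspec f₀ hf₀, indM_iff]
      intro c c' hc
      have h3 := h2 c (mem_multi.2 ⟨(homogeneousSubmodule (Fin 4) ℂ e).sum_mem fun p hp =>
        Submodule.smul_mem _ _ (mono4_hom (hD hp)), fun i =>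
          ⟨-∑ p ∈ tet (m i - 1), c' i p • mono3 p, by
            rw [dehom_sum, mul_neg, sub_neg_eq_add]
            exact hc i⟩⟩)
      refine ⟨h3, fun i => coeff_zero_of_mul (hs i) (c' i) ?_⟩
      have h4 := hc i
      rwa [sum_eq_zero (fun p hp => by rw [h3 p hp, zero_smul]), map_zero, zero_add] at h4)
  refine general_of_open hf₀ h0 (fun i h => hs i ?_) P hP0 _ fun f hf q hq hfq => ?_
  · rw [h, map_zero]
    exact Ideal.zero_mem _
  · have h3 := hP _ hfq
    rw [hspec f hf] at h3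
    have h4 := upper hD hq h3
    exact ⟨Nat.le_of_add_le_add_right (h4.trans h1), lower e h3⟩

end Pool.Agent.Lib.MP_a430e8_ag
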