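import Pool.Agent.Lib.MP_a430e8_ag.MHallC

/-! The invariant after compression, for an abstract configuration of levels. -/

namespace Pool.Agent.Lib.MP_a430e8_ag.MHall
open Finset
open scoped Classical

variable {M N : ℕ} {U : ℕ → ℕ → ℕ → Prop} {j a k s G z k' s' G' z' : ℕ}

lemma Lv.exists_far {P : ℕ → ℕ → Prop} (h : Lv M N P) (d : Dat N P a k s G z) (hG : 0 < G) :
    ∃ b, P b (a + k) ∧ k ≤ b := by
  refine ec_pos_iff (N := N) ?_
  have h0 := d.sum
  have h1 := h.dat_e0 d
  have h2 := h.ec_split (Nat.le_succ s) (a + k)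
  rw [Nat.Ico_succ_singleton, filter_singleton, if_neg d.gap.out, card_empty] at h2
  have h3 := h.ec_le_add (s := s + 1) (s' := k) (by omega) (a + k)
  simp only [Nat.succ_eq_add_one] at h2
  omega

lemma Sh.far (h : Sh M N U) (hM : 3 ≤ M) (d : Dat N (U j) a k s G z) (hG : 0 < G)
    (d' : Dat N (U (j + 1)) a k' s' G' z') {η : ℕ} (hη : k = k' + M + (η + 2)) :
    η * (M - 1) + 1 ≤ G' := by
  obtain ⟨b1, h1, h2⟩ := (h.lv j).exists_far d hG
  have h3 := d.sum
  have h4 := d'.sum
  by_cases hd : M ∣ b1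
  · obtain ⟨b, rfl⟩ : ∃ b, b1 = b + M + 2 := ⟨b1 - (M + 2), by omega⟩
    have e : a + k = a + k' + η + M + 2 := by omega
    have h5 := h.R2 j b (a + k' + η) s (e ▸ h1) (e ▸ d.gap.out) (by omega)
      ((Nat.dvd_add_right (dvd_refl M)).1 (by rwa [show M + (b + 2) = b + M + 2 by omega]))
    exact ((h.lv _).dat_cell (by omega) d' (by omega) h5).2
  · obtain ⟨b, rfl⟩ : ∃ b, b1 = b + M + 1 := ⟨b1 - (M + 1), by omega⟩
    have e : a + k = a + k' + (η + 1) + M + 1 := by omega
    have h5 := h.R j b (a + k' + (η + 1)) s (e ▸ h1) (e ▸ d.gap.out) (by omega)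
      (fun hh => hd (by
        rw [show b + M + 1 = M + (b + 1) by omega]
        exact Nat.dvd_add (dvd_refl M) hh))
    have h6 := ((h.lv _).dat_cell (by omega) d' (by omega) h5).2
    rw [add_mul] at h6
    omega

lemma Sh.second (h : Sh M N U) (hM : 3 ≤ M) (d : Dat N (U j) a k s G (z + 1))
    (d' : Dat N (U (j + 1)) a k' s' G' z') (hk : 0 < k') (hG : G' < z + 1) :
    s - M ≤ s' ∧ z + 1 ≤ k' - (s - M) ∧ 2 * (val N (U j) a k s + val N (U (j + 1)) a k' (s - M)) ≤
      (G + (k' - (s - M))) * (G + (k' - (s - M)) + 1) := by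
  obtain ⟨η, hη⟩ := Nat.exists_eq_add_of_le (h.thr_mono d.thr d'.thr hk)
  obtain ⟨c, b, e, h1, hb, he, hU, h2, -⟩ := h.cellR (by omega) d
  have h3 := d.sum
  have h4 := d'.sum
  have h5 : s < (c - z) * M := lt_mul_of_div (by omega) (by omega)
  have h0 := Nat.zero_le (s / M)
  obtain ⟨c, rfl⟩ : ∃ c', c = c' + 1 + z := ⟨c - z - 1, by omega⟩
  rw [Nat.add_sub_cancel, add_mul, one_mul] at h5
  rw [add_mul, add_mul, one_mul] at hb
  have h6 := ((h.lv j).dat_cell (s := s) (by omega) d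
    (by rw [add_mul, add_mul, add_mul]; omega) h2).2
  have h7 : z * 3 ≤ z * M := Nat.mul_le_mul_left z hM
  have h8 : z * 2 ≤ z * (M - 1) := Nat.mul_le_mul_left z (by omega)
  rw [add_mul] at h6
  have h9 : s - M ≤ s' ∧ z + 1 ≤ k' - (s - M) ∧
      (z + 1) * η ≤ (k' - (s - M) - (z + 1)) * (k' - (s - M) - (z + 1)) + (z + 1) := by
    rcases Nat.eq_zero_or_pos η with rfl | hη0
    · refine ⟨by omega, ?_, by omega⟩
      rcases Nat.eq_zero_or_pos z with rfl | hz
      · omega
      · have e1 : e = a + k' + (z - 1) := by omega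
        by_cases hbs : b < s'
        · omega
        · have h10 := ((h.lv _).dat_cell (by omega) d' (not_lt.1 hbs) (e1 ▸ hU)).2
          have h11 : (z - 1) * 2 ≤ (z - 1) * (M - 1) := Nat.mul_le_mul_left _ (by omega)
          obtain rfl : z = 1 := by omega
          obtain ⟨b, rfl⟩ : ∃ b', b = b' + 1 := ⟨b - 1, by omega⟩
          have h12 : U (j + 1) b e := (h.lv _).B _ _ hU fun hd => by
            have h13 : M ∣ b + 1 + 2 := by
              rw [hb]
              exact Nat.dvd_add (Nat.dvd_add (Dvd.intro_left c rfl) (dvd_refl M))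
                (Dvd.intro_left 1 rfl)
            have := Nat.le_of_dvd two_pos ((Nat.dvd_add_right hd).1 h13)
            omega
          have h13 := (h.lv (j + 1)).ec_split (Nat.zero_le b) e
          have h14 := (h.lv (j + 1)).ec_split (Nat.le_succ b) e
          rw [Nat.Ico_succ_singleton, filter_singleton, if_pos h12, card_singleton] at h14
          have h15 := (h.lv _).ec_pos (s := b.succ) hU le_rfl
          have h16 := d'.eq
          rw [show a + k' = e by omega] at h16
          omega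
    · have e1 : e = a + k' + (z + η - 1) := by omega
      have hbs : b < s' := by
        by_contra hc
        have h10 := ((h.lv _).dat_cell (by omega) d' (not_lt.1 hc) (e1 ▸ hU)).2
        have h11 : (z + η - 1) * 2 ≤ (z + η - 1) * (M - 1) := Nat.mul_le_mul_left _ (by omega)
        omega
      have h10 : 3 * z + 2 ≤ k' - (s - M) := by omega
      refine ⟨by omega, by omega, ?_⟩
      have h11 : η ≤ z + 2 := by
        by_contra hc
        have h12 := h.far hM d (by omega) d' (η := η - 2) (by omega)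
        have h13 : (η - 2) * 2 ≤ (η - 2) * (M - 1) := Nat.mul_le_mul_left _ (by omega)
        omega
      have h12 : 2 * z + 1 ≤ k' - (s - M) - (z + 1) := by omega
      have h13 := Nat.mul_le_mul h12 h12
      have h14 := Nat.mul_le_mul_left (z + 1) h11
      nlinarith
  refine ⟨h9.1, h9.2.1, ?_⟩
  have h10 := tl_le_of (N := N) (P := U (j + 1)) (s := s - M) (δ := a + k') (z := z + 1 + η)
    (G := k' - (s - M)) (fun _ => 0) (fun l _ => by
      have := (h.lv (j + 1)).ec_le_add h9.1 (a + k' + l)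
      have := (h.lv (j + 1)).dat_le (by omega) d' l
      omega) (fun l hl => by
      by_contra hc
      obtain ⟨b1, hb1, hb2⟩ := ec_pos_iff (Nat.pos_of_ne_zero hc)
      have h11 := h.Nn j b1 _ M hb1 le_rfl
      rw [show a + k' + l + M = a + k + (l - η) by omega] at h11
      have := ((h.lv j).dat_cell (by omega) d (by omega) h11).1
      omega)
  have h11 := (h.lv j).dat_val (by omega) d
  have h12 := two_choose (k' - (s - M))
  refine pair_ineq (z' := z + 1 + η) (w' := 0) h11 ?_ h9.2.1 (by omega) ?_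
  · unfold val
    rw [sum_const_zero] at h10
    nlinarith
  · have h13 : 2 * ((z + 1) * (z + 1 + 1)) ≤ (M - 1) * ((z + 1) * (z + 1 + 1)) :=
      Nat.mul_le_mul_right _ (by omega)
    nlinarith [h9.2.2]

lemma sum_val (T : Finset ℕ) (hT : T ⊆ range N) (v Γ : ℕ → ℕ)
    (h1 : 2 * ∑ l ∈ T, v l ≤ (∑ l ∈ T, Γ l) * (∑ l ∈ T, Γ l + 1))
    (h2 : ∀ l < N, l ∉ T → v l ≤ Γ l * ∑ l ∈ T, Γ l) :
    2 * ∑ l ∈ range N, v l ≤ (∑ l ∈ range N, Γ l) * (∑ l ∈ range N, Γ l + 1) := by
  rw [← sum_sdiff hT, ← sum_sdiff hT]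
  have h3 : ∑ l ∈ range N \ T, v l ≤ ∑ l ∈ range N \ T, Γ l * ∑ l ∈ T, Γ l :=
    sum_le_sum fun l hl => h2 l (mem_range.1 (mem_sdiff.1 hl).1) (mem_sdiff.1 hl).2
  rw [← sum_mul] at h3
  nlinarith [Nat.zero_le ((∑ l ∈ range N \ T, Γ l) * (∑ l ∈ range N \ T, Γ l))]

lemma Lv.val_le {P : ℕ → ℕ → Prop} (h : Lv M N P) (hM : 0 < M) (d : Dat N P a k s G z) {x : ℕ}
    (hx : G + z ≤ x) : val N P a k s ≤ G * x := by
  have h1 := h.dat_val hM d
  have h2 := Nat.mul_le_mul_left G hx
  have h3 := Nat.le_mul_self G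
  nlinarith [Nat.zero_le ((M - 1) * (z * (z + 1)))]

lemma Lv.dat_le_N {P : ℕ → ℕ → Prop} (h : Lv M N P) (d : Dat N P a k s G z) : s ≤ N := by
  have h1 := d.sum
  rcases Nat.eq_zero_or_pos k with h0 | h0
  · omega
  · have := h.thr_lt d.thr h0
    omega

section Main
variable {κ σ Γ ζ : ℕ → ℕ} {m : ℕ}

lemma Sh.split (h : Sh M N U) (d : ∀ j < N, Dat N (U j) a (κ j) (σ j) (Γ j) (ζ j))
    (τ : ℕ → ℕ) (hτ : ∀ j < N, τ j ≤ σ j) :
    ∑ j ∈ range N, qq N (U j) (a + 1) = ∑ j ∈ range N, ∑ b ∈ range (τ j), row N (U j) b (a + 1) +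
      ∑ j ∈ range N, val N (U j) a (κ j) (τ j) := by
  rw [← sum_add_distrib]
  refine sum_congr rfl fun j hj => ?_
  have hj := mem_range.1 hj
  have h1 := hτ j hj
  have h2 := (d j hj).sum
  rw [(h.lv j).qq_one (d j hj).thr,
    (h.lv j).rows_val (τ j) (by omega) fun b hb => (d j hj).gap.bef b (by omega)]

lemma Sh.maj (h : Sh M N U) (d : ∀ j < N, Dat N (U j) a (κ j) (σ j) (Γ j) (ζ j))
    (hm : a + 1 + ∑ j ∈ range N, κ j = m)
    (H : ∀ c, ∑ j ∈ range N, ∑ b ∈ range N, row N (U j) b c ≤ (m - c + 1).choose 2)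
    (τ : ℕ → ℕ) (hτ : ∀ j < N, τ j ≤ σ j)
    (hv : 2 * ∑ j ∈ range N, val N (U j) a (κ j) (τ j) ≤
      (∑ j ∈ range N, (κ j - τ j)) * (∑ j ∈ range N, (κ j - τ j) + 1)) :
    ∑ j ∈ range N, qq N (U j) (a + 1) ≤ (m - (a + 1) + 1).choose 2 := by
  have h1 : ∑ j ∈ range N, κ j = ∑ j ∈ range N, τ j + ∑ j ∈ range N, (κ j - τ j) := by
    rw [← sum_add_distrib]
    refine sum_congr rfl fun j hj => ?_
    have := hτ j (mem_range.1 hj)
    have := (d j (mem_range.1 hj)).sum
    omega
  rw [h.split d τ hτ]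
  generalize ∑ j ∈ range N, (κ j - τ j) = n at h1 hv
  have h2 : ∑ j ∈ range N, ∑ b ∈ range (τ j), row N (U j) b (a + 1) ≤
      ∑ j ∈ range N, (τ j * n + ∑ b ∈ range N, row N (U j) b (a + 1 + n)) := by
    refine sum_le_sum fun j hj => ?_
    have h3 := hτ j (mem_range.1 hj)
    have h4 := (h.lv j).dat_le_N (d j (mem_range.1 hj))
    have h5 := sum_row_le (N := N) (U j) (n := τ j) (by omega) (a + 1 + n)
    have h6 := sum_le_sum (s := range (τ j)) fun b _ => row_le (N := N) (P := U j) b (a + 1) n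
    rw [sum_add_distrib, sum_const, card_range, smul_eq_mul] at h6
    omega
  rw [sum_add_distrib, ← sum_mul] at h2
  have h3 := H (a + 1 + n)
  generalize ∑ j ∈ range N, τ j = β at h1 h2
  rw [show m - (a + 1 + n) = β by omega] at h3
  rw [show m - (a + 1) = β + n by omega]
  have h4 := two_choose' β
  have h5 := two_choose' (β + n)
  nlinarith

lemma Sh.key (h : Sh M N U) (hM : 3 ≤ M) (d : ∀ j < N, Dat N (U j) a (κ j) (σ j) (Γ j) (ζ j))
    (hm : a + 1 + ∑ j ∈ range N, κ j = m)
    (H : ∀ c, ∑ j ∈ range N, ∑ b ∈ range N, row N (U j) b c ≤ (m - c + 1).choose 2) :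
    ∑ j ∈ range N, qq N (U j) (a + 1) ≤ (m - (a + 1) + 1).choose 2 := by
  rcases Nat.eq_zero_or_pos N with rfl | hN
  · simp
  obtain ⟨j, hj, hmax⟩ := exists_max_image (range N) (fun j => Γ j + ζ j) ⟨0, mem_range.2 hN⟩
  have hj := mem_range.1 hj
  have hΓ : ∀ l < N, κ l - σ l = Γ l := fun l hl => by have := (d l hl).sum; omega
  have hS : ∑ l ∈ range N, (κ l - σ l) = ∑ l ∈ range N, Γ l :=
    sum_congr rfl fun l hl => hΓ l (mem_range.1 hl)
  have hO : ∀ l < N, ∀ x, Γ j + ζ j ≤ x → val N (U l) a (κ l) (σ l) ≤ Γ l * x := fun l hl x hx =>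
    (h.lv l).val_le (by omega) (d l hl) ((hmax l (mem_range.2 hl)).trans hx)
  have hvj := (h.lv j).dat_val (by omega) (d j hj)
  rcases Nat.eq_zero_or_pos (ζ j) with hz | hz
  · refine h.maj d hm H σ (fun _ _ => le_rfl) ?_
    rw [hS]
    refine sum_val {j} (by simpa using hj) _ _ ?_ fun l hl _ => hO l hl _ (by simp [hz])
    rw [hz] at hvj
    simp only [sum_singleton]
    nlinarith
  by_cases hi : ∃ i < N, i ≠ j ∧ ζ j ≤ Γ i
  · obtain ⟨i, hi, hij, hzi⟩ := hi
    refine h.maj d hm H σ (fun _ _ => le_rfl) ?_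
    rw [hS]
    refine sum_val {j, i} (by simp [insert_subset_iff, hi, hj]) _ _ ?_ fun l hl _ => hO l hl _ ?_
    · rw [sum_pair hij.symm, sum_pair hij.symm]
      refine pair_ineq hvj ((h.lv i).dat_val (by omega) (d i hi)) hzi (hmax i (mem_range.2 hi)) ?_
      have h1 : 1 * (ζ j * (ζ j + 1)) ≤ (M - 1) * (ζ j * (ζ j + 1)) :=
        Nat.mul_le_mul_right _ (by omega)
      have h2 : 1 * (ζ i * (ζ i + 1)) ≤ (M - 1) * (ζ i * (ζ i + 1)) :=
        Nat.mul_le_mul_right _ (by omega)
      have h3 : 2 * (ζ j * ζ i) ≤ ζ j * ζ j + ζ i * ζ i := by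
        nlinarith [sq_nonneg ((ζ j : ℤ) - ζ i)]
      nlinarith [Nat.zero_le ((Γ i - ζ j) * (Γ i - ζ j))]
    · rw [sum_pair hij.symm]
      omega
  push Not at hi
  obtain ⟨z, hz⟩ : ∃ z, ζ j = z + 1 := ⟨ζ j - 1, by omega⟩
  have dj := d j hj
  rw [hz] at dj hi hvj
  have hj1 : j + 1 < N := by
    obtain ⟨c, b, e, -, -, -, hU, -⟩ := h.cellR (by omega) dj
    exact h.lev _ _ _ hU
  have hsub : {j, j + 1} ⊆ range N := by simp [insert_subset_iff, hj, hj1]
  have hne : j ≠ j + 1 := by omega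
  rcases Nat.eq_zero_or_pos (κ (j + 1)) with hk | hk
  · have t' := (d _ hj1).thr
    rw [hk] at t'
    obtain ⟨rfl, h1, h2, h3⟩ := h.tip hM dj t'
    have h4 := dj.sum
    have h5 := (d _ hj1).sum
    rw [h.split d σ (fun _ _ => le_rfl)]
    have h6 : ∑ l ∈ range N, val N (U l) a (κ l) (σ l) = val N (U j) a (κ j) (σ j) := by
      refine sum_eq_single_of_mem j (mem_range.2 hj) fun l hl hlj => ?_
      have h7 := hO l (mem_range.1 hl) _ le_rfl
      have h8 := hi l (mem_range.1 hl) hlj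
      rw [show Γ l = 0 by omega] at h7
      omega
    have h7 : ∑ l ∈ range N, Γ l = Γ j := by
      refine sum_eq_single_of_mem j (mem_range.2 hj) fun l hl hlj => ?_
      have h8 := hi l (mem_range.1 hl) hlj
      omega
    have h8 : ∑ l ∈ range N, κ l = ∑ l ∈ range N, σ l + ∑ l ∈ range N, Γ l := by
      rw [← sum_add_distrib]
      exact sum_congr rfl fun l hl => (d l (mem_range.1 hl)).sum.symm
    have h9 : ∀ l ∈ range N, ∑ b ∈ range (σ l), row N (U l) b (a + 1) + σ l * (a + 1) ≤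
        ∑ b ∈ range N, row N (U l) b 0 := by
      intro l hl
      have dl := d l (mem_range.1 hl)
      refine le_trans (le_of_eq ?_) (sum_row_le (U l) ((h.lv l).dat_le_N dl) 0)
      have : ∀ b ∈ range (σ l), row N (U l) b 0 = row N (U l) b (a + 1) + (a + 1) := by
        intro b hb
        have hb := mem_range.1 hb
        have := dl.sum
        rw [(h.lv l).row_eq (dl.gap.bef b hb) (by omega),
          (h.lv l).row_eq (dl.gap.bef b hb) (by omega)]
        omega
      rw [sum_congr rfl this, sum_add_distrib, sum_const, card_range, smul_eq_mul]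
    have h10 := sum_le_sum fun l (hl : l ∈ range N \ {j, j + 1}) => h9 l (mem_sdiff.1 hl).1
    have h11 := sum_sdiff hsub
      (f := fun l => ∑ b ∈ range (σ l), row N (U l) b (a + 1) + σ l * (a + 1))
    have h12 := sum_sdiff hsub (f := fun l => ∑ b ∈ range N, row N (U l) b 0)
    rw [sum_pair hne] at h11 h12
    rw [h2, show σ (j + 1) = 0 by omega, sum_add_distrib (s := range N), ← sum_mul] at h11
    simp only [range_zero, sum_empty, zero_mul, add_zero] at h11
    have h13 := H 0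
    have h14 := two_choose' m
    rw [Nat.sub_zero] at h13
    rw [h6]
    generalize ∑ l ∈ range N, σ l = β at h8 h11
    rw [show m - (a + 1) = β + M by omega]
    have h15 := two_choose' (β + M)
    rw [show Γ j = M by omega] at hvj
    obtain rfl : m = a + 1 + M + β := by omega
    obtain ⟨M, rfl⟩ : ∃ M', M = M' + 1 := ⟨M - 1, by omega⟩
    rw [Nat.add_sub_cancel] at hvj
    nlinarith
  · obtain ⟨h1, h2, h3⟩ := h.second hM dj (d _ hj1) hk (hi _ hj1 hne.symm)
    refine h.maj d hm H (Function.update σ (j + 1) (σ j - M)) (fun l _ => ?_) ?_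
    · rcases eq_or_ne l (j + 1) with rfl | hl
      · rwa [Function.update_self]
      · rw [Function.update_of_ne hl]
    · refine sum_val {j, j + 1} hsub _ _ ?_ fun l hl hl' => ?_
      · rw [sum_pair hne, sum_pair hne, Function.update_self, Function.update_of_ne hne, hΓ j hj]
        exact h3
      · have hl1 : l ≠ j + 1 := fun e => hl' (by simp [e])
        rw [sum_pair hne, Function.update_self, Function.update_of_ne hne,
          Function.update_of_ne hl1, hΓ j hj, hΓ l hl]
        exact hO l hl _ (by omega)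

theorem Sh.hall (h : Sh M N U) (hM : 3 ≤ M)
    (H : ∀ c, ∑ j ∈ range N, ∑ b ∈ range N, row N (U j) b c ≤ (m - c + 1).choose 2)
    (H0 : ∑ j ∈ range N, qq N (U j) 0 ≤ (m + 1).choose 2) (t : ℕ) :
    ∑ j ∈ range N, qq N (U j) t ≤ (m - t + 1).choose 2 := by
  set Q : ℕ → ℕ := fun t => ∑ j ∈ range N, qq N (U j) t with hQ
  have hanti : ∀ t n, Q (t + n) ≤ Q t := fun t n =>
    sum_le_sum fun j _ => sum_le_sum fun d _ => by omega
  set f : ℕ → ℤ := fun t => (Q t : ℤ) - ((m - t + 1).choose 2 : ℕ) with hf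
  have hex : ∃ t, t ≤ m ∧ ∀ t' ≤ m, f t' ≤ f t := by
    obtain ⟨t, h1, h2⟩ := exists_max_image (range (m + 1)) f ⟨0, by simp⟩
    exact ⟨t, by simpa [Nat.lt_succ_iff] using h1, fun t' ht' => h2 t' (mem_range.2 (by omega))⟩
  obtain ⟨h1, h2⟩ := Nat.find_spec hex
  have h3 : ∀ t < Nat.find hex, ¬ (t ≤ m ∧ ∀ t' ≤ m, f t' ≤ f t) := fun t ht => Nat.find_min hex ht
  generalize Nat.find hex = α at h1 h2 h3
  have h4 : f α ≤ 0 := by
    rcases Nat.eq_zero_or_pos α with rfl | hα
    · simp only [hf, Nat.sub_zero]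
      have : Q 0 ≤ (m + 1).choose 2 := H0
      omega
    obtain ⟨a, rfl⟩ : ∃ a, α = a + 1 := ⟨α - 1, by omega⟩
    choose κ hκ using fun j => (h.lv j).exists_thr a
    have h5 : Q a = Q (a + 1) + ∑ j ∈ range N, κ j := by
      simp only [hQ]
      rw [← sum_add_distrib]
      exact sum_congr rfl fun j _ => (h.lv j).qq_pred (hκ j)
    have h6 : Q (a + 1) + ∑ j ∈ range N, (if ec N (U j) 0 (a + κ j) = κ j then 0 else 1) ≤
        Q (a + 2) + ∑ j ∈ range N, κ j := by
      simp only [hQ]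
      rw [← sum_add_distrib, ← sum_add_distrib]
      exact sum_le_sum fun j _ => (h.lv j).qq_next (hκ j)
    have h7 : f a < f (a + 1) := by
      by_contra hc
      exact h3 a (by omega) ⟨by omega, fun t' ht' => (h2 t' ht').trans (not_lt.1 hc)⟩
    obtain ⟨g, rfl⟩ : ∃ g, m = a + 1 + g := ⟨m - (a + 1), by omega⟩
    have e1 : (g + 1 + 1).choose 2 = (g + 1).choose 2 + (g + 1) := by
      rw [Nat.choose_succ_succ' (g + 1) 1, Nat.choose_one_right, add_comm]
    simp only [hf] at h7 ⊢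
    rw [show a + 1 + g - a = g + 1 by omega, show a + 1 + g - (a + 1) = g by omega, e1] at h7
    have h8 : g + ∑ j ∈ range N, (if ec N (U j) 0 (a + κ j) = κ j then 0 else 1) ≤
        ∑ j ∈ range N, κ j := by
      rcases Nat.eq_zero_or_pos g with rfl | hg
      · have h9 : ∑ j ∈ range N, κ j = 0 := by omega
        rw [sum_eq_zero]
        · omega
        intro j hj
        have h10 := sum_eq_zero_iff.1 h9 j hj
        have h11 := (hκ j).stop
        exact if_pos (by omega)
      · obtain ⟨g, rfl⟩ : ∃ g', g = g' + 1 := ⟨g - 1, by omega⟩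
        have h9 := h2 (a + 2) (by omega)
        have e2 : (g + 1 + 1).choose 2 = (g + 1).choose 2 + (g + 1) := by
          rw [Nat.choose_succ_succ' (g + 1) 1, Nat.choose_one_right, add_comm]
        simp only [hf] at h9
        rw [show a + 1 + (g + 1) - (a + 2) = g by omega,
          show a + 1 + (g + 1) - (a + 1) = g + 1 by omega, e2] at h9
        omega
    have h9 : ∀ j, ∃ s G z, j < N → Dat N (U j) a (κ j) s G z := by
      intro j
      by_cases hj : j < N
      · have h10 := sum_eq_zero_iff.1 (show ∑ j ∈ range N,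
          (if ec N (U j) 0 (a + κ j) = κ j then 0 else 1) = 0 by omega) j (mem_range.2 hj)
        obtain ⟨s, G, z, hd⟩ := (h.lv j).exists_dat (hκ j) (by
          by_contra hc
          rw [if_neg hc] at h10
          omega)
        exact ⟨s, G, z, fun _ => hd⟩
      · exact ⟨0, 0, 0, fun hh => absurd hh hj⟩
    choose σ Γ ζ hd using h9
    have h10 : Q (a + 1) ≤ _ := h.key hM hd (by omega) H
    omega
  rcases le_or_gt t m with ht | ht
  · have h5 := (h2 t ht).trans h4
    simp only [hf] at h5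
    have : Q t ≤ (m - t + 1).choose 2 := by omega
    exact this
  · obtain ⟨n, rfl⟩ := Nat.exists_eq_add_of_le ht.le
    have h5 := (h2 m le_rfl).trans h4
    simp only [hf, Nat.sub_self, zero_add] at h5
    have h6 := hanti m n
    have : Q (m + n) ≤ (m - (m + n) + 1).choose 2 := by
      have e : Nat.choose 1 2 = 0 := rfl
      omega
    exact this

end Main

end Pool.Agent.Lib.MP_a430e8_ag.MHall
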