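import Pool.Agent.Lib.MP_a430e8_ag.MBase
import Pool.Agent.Lib.MP_a430e8_ag.MHallD

/-! A stage of the game keeps the invariant. -/

namespace Pool.Agent.Lib.MP_a430e8_ag
open Finset
open scoped Classical

namespace MHall

variable {D : Finset Cell} {M : ℕ}

lemma mem_I {a s i : ℕ} : i ∈ lev D 0 M a s ↔ ∃ b, (a, b, i) ∈ D ∧ b + i * M = s := by
  rw [mem_lev]
  constructor
  · rintro ⟨a', b, h, h1, h2⟩
    obtain rfl : a' = a := by omega
    exact ⟨b, h, h2⟩
  · rintro ⟨b, h, h2⟩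
    exact ⟨a, b, h, by omega, h2⟩

lemma mem_S {a b j : ℕ} : (a, b, j) ∈ push D 0 M ↔ j < (lev D 0 M a (b + j * M)).card := by
  rw [mem_push, mul_zero, add_zero]

lemma bo_iter (h : Closed D M) (j n : ℕ) : ∀ a b, (a, b + n, j) ∈ D → (a + n, b, j) ∈ D := by
  induction n with
  | zero => exact fun a b hh => hh
  | succ n ih =>
    intro a b hh
    have := ih (a + 1) b (h.bo a (b + n) j hh)
    rwa [add_assoc, add_comm 1 n] at this

lemma I_bo (h : Closed D M) {a s n i : ℕ} (hi : i ∈ lev D 0 M a (s + n)) (hs : i * M ≤ s) :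
    i ∈ lev D 0 M (a + n) s := by
  obtain ⟨b, h1, h2⟩ := mem_I.1 hi
  obtain ⟨b, rfl⟩ : ∃ b', b = b' + n := ⟨b - n, by omega⟩
  exact mem_I.2 ⟨b, bo_iter h i n a b h1, by omega⟩

lemma I_y (h : Closed D M) {a s i : ℕ} (hi : i ∈ lev D 0 M a (s + 1)) (hs : i * M ≤ s) :
    i ∈ lev D 0 M a s := by
  obtain ⟨b, h1, h2⟩ := mem_I.1 hi
  obtain ⟨b, rfl⟩ : ∃ b', b = b' + 1 := ⟨b - 1, by omega⟩
  exact mem_I.2 ⟨b, h.y _ _ _ h1, by omega⟩

lemma I_w (h : Closed D M) (hM : 0 < M) {a s i : ℕ} (hi : i + 1 ∈ lev D 0 M a (s + 1)) :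
    i ∈ lev D 0 M a s := by
  obtain ⟨b, h1, h2⟩ := mem_I.1 hi
  rw [add_mul] at h2
  exact mem_I.2 ⟨b + (M - 1), h.w _ _ _ h1, by omega⟩

lemma I_le {a s i : ℕ} (hi : i ∈ lev D 0 M a (s + 1)) (hs : ¬ M ∣ s + 1) : i * M ≤ s := by
  obtain ⟨b, -, h2⟩ := mem_I.1 hi
  by_contra hc
  exact hs ⟨i, by rw [mul_comm]; omega⟩

lemma I_grow (h : Closed D M) (hM : 0 < M) {a s j i : ℕ} (hs : ¬ M ∣ s + 1)
    (hj : j < (lev D 0 M a (s + 1)).card) (hi : i ∈ lev D 0 M a (s + 1)) (hij : j < i) :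
    j + 1 < (lev D 0 M a s).card := by
  have h1 : lev D 0 M a (s + 1) ⊆ lev D 0 M a s := fun i hi => I_y h hi (I_le hi hs)
  by_cases hall : ∀ i, i + 1 ∈ lev D 0 M a (s + 1) → i ∈ lev D 0 M a (s + 1)
  · have h2 : ∀ n l, l + n ∈ lev D 0 M a (s + 1) → l ∈ lev D 0 M a (s + 1) := by
      intro n
      induction n with
      | zero => exact fun l hl => hl
      | succ n ih => exact fun l hl => ih l (hall _ hl)
    have h3 : range (j + 2) ⊆ lev D 0 M a s := fun l hl => h1 (h2 (i - l) l (by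
      have := mem_range.1 hl
      rwa [show l + (i - l) = i by omega]))
    have := card_le_card h3
    rw [card_range] at this
    omega
  · push Not at hall
    obtain ⟨l, hl1, hl2⟩ := hall
    have := card_le_card (insert_subset (I_w h hM hl1) h1)
    rw [card_insert_of_notMem hl2] at this
    omega

lemma I_gap (h : Closed D M) {a b n j : ℕ} (h1 : (a, b + n, j) ∈ push D 0 M)
    (h2 : (a + n, b, j) ∉ push D 0 M) : ∃ i ∈ lev D 0 M a (b + n + j * M), j < i := by
  by_contra hc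
  push Not at hc
  refine h2 (mem_S.2 ((mem_S.1 h1).trans_le (card_le_card fun i hi => ?_)))
  have := Nat.mul_le_mul_right M (hc i hi)
  exact I_bo h (by rwa [show b + j * M + n = b + n + j * M by omega]) (by omega)

lemma S_y (h : Closed D M) (hM : 0 < M) {a b j : ℕ} (h1 : (a, b + 1, j) ∈ push D 0 M) :
    (a, b, j) ∈ push D 0 M := by
  refine Rel.push_horiz (D := D) (g := 0) (c := M) (K := 1) (u := 0) (v := -1) (by omega) ?_
    (Or.inr rfl) (Or.inl (by omega)) a (b + 1) j a b h1 (by simp) (by simp)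
  intro k hk a b j a' b' hD e1 e2
  obtain rfl : a' = a := by omega
  rcases Nat.eq_zero_or_pos k with rfl | h0
  · obtain rfl : b = b' + 1 := by omega
    exact h.y _ _ _ hD
  · obtain rfl : k = 1 := by omega
    obtain rfl : b' = b + (M - 1) := by omega
    exact h.w _ _ _ hD

lemma not_dvd {b j : ℕ} (hb : ¬ M ∣ b + 1) : ¬ M ∣ b + j * M + 1 := fun hd => hb (by
  rw [add_right_comm] at hd
  exact (Nat.dvd_add_left (Dvd.intro_left j rfl)).1 hd)

/-- The levels of a configuration in row and degree coordinates. -/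
def lvl (S : Finset Cell) (j b d : ℕ) : Prop := b ≤ d ∧ (d - b, b, j) ∈ S

lemma sh (h : Closed D M) (hM : 2 ≤ M) {N : ℕ}
    (hN : ∀ a b j, (a, b, j) ∈ push D 0 M → a + b + j < N) : Sh M N (lvl (push D 0 M)) := by
  refine ⟨fun j => ⟨fun b d hh => hh.1, fun b d hh => ?_, fun b d hh hb => ⟨hb, ?_⟩,
    fun b d hh => ⟨?_, ?_⟩, fun b d hh hb => ⟨?_, ?_⟩⟩, fun j b d hh => ?_,
    fun j b d r hh hr => ⟨?_, ?_⟩, fun j b d b0 h1 h2 h3 h4 => ?_, fun j b d b0 h1 h2 h3 h4 => ?_⟩
  · have := hN _ _ _ hh.2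
    have := hh.1
    omega
  · refine mem_S.2 ((mem_S.1 hh.2).trans_le (card_le_card fun i hi => ?_))
    obtain ⟨b', h1, h2⟩ := mem_I.1 hi
    rw [show d + 1 - b = d - b + 1 by omega] at h1
    exact mem_I.2 ⟨b', h.x _ _ _ h1, h2⟩
  · have := hh.1
    omega
  · have h1 := hh.2
    rw [Nat.add_sub_add_right] at h1
    exact S_y h (by omega) h1
  · have := hh.1
    omega
  · refine mem_S.2 ((mem_S.1 hh.2).trans_le (card_le_card fun i hi => ?_))
    have h1 := hh.1
    rw [add_right_comm] at hi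
    rw [show d - b = d - (b + 1) + 1 by omega]
    exact I_bo h hi (I_le hi (not_dvd hb))
  · have := hN _ _ _ hh.2
    omega
  · have := hh.1
    omega
  · have h1 := hh.1
    have h2 := mem_S.1 hh.2
    have h3 : (lev D 0 M (d - b) (b + (j + 1) * M)).erase ((b + (j + 1) * M) / M) ⊆
        lev D 0 M (d + M - (b + r)) (b + r + j * M) := by
      intro i hi
      obtain ⟨h4, h5⟩ := mem_erase.1 hi
      obtain ⟨b', -, h6⟩ := mem_I.1 h5
      rw [show d + M - (b + r) = d - b + (M - r) by omega]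
      refine I_bo h (by
        rwa [show b + r + j * M + (M - r) = b + (j + 1) * M by rw [add_mul]; omega]) ?_
      by_contra hc
      refine h4 ?_
      rw [← h6, add_comm, div_block]
      rw [add_mul] at h6
      omega
    have h4 := card_le_card h3
    have h5 := pred_card_le_card_erase (s := lev D 0 M (d - b) (b + (j + 1) * M))
      (a := (b + (j + 1) * M) / M)
    exact mem_S.2 (by omega)
  · obtain ⟨h5, h6⟩ := h1
    obtain ⟨n, hn⟩ : ∃ n, b + M + 1 = b0 + n := ⟨b + M + 1 - b0, by omega⟩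
    rw [show d + M + 1 - (b + M + 1) = d - b by omega] at h6
    obtain ⟨i, hi, hij⟩ := I_gap h (hn ▸ h6) fun hh => h2 ⟨by omega, by
      rwa [show d + M + 1 - b0 = d - b + n by omega]⟩
    have e : b + M + 1 + j * M = b + (j + 1) * M + 1 := by ring
    have h7 := mem_S.1 h6
    rw [← hn] at hi
    rw [e] at hi h7
    exact ⟨by omega, mem_S.2 (I_grow h (by omega) (not_dvd h4) h7 hi hij)⟩
  · obtain ⟨h5, h6⟩ := h1
    obtain ⟨n, hn⟩ : ∃ n, b + M + 2 = b0 + n := ⟨b + M + 2 - b0, by omega⟩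
    rw [show d + M + 2 - (b + M + 2) = d - b by omega] at h6
    obtain ⟨i, hi, hij⟩ := I_gap h (hn ▸ h6) fun hh => h2 ⟨by omega, by
      rwa [show d + M + 2 - b0 = d - b + n by omega]⟩
    have e : b + M + 1 + j * M = b + (j + 1) * M + 1 := by ring
    have e' : b + M + 2 + j * M = b + (j + 1) * M + 1 + 1 := by ring
    have h7 := mem_S.1 (S_y h (by omega) h6)
    rw [← hn, e'] at hi
    rw [e] at h7
    have h8 : ¬ M ∣ b + 1 := fun hd => by
      have := Nat.le_of_dvd one_pos ((Nat.dvd_add_right hd).1 h4)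
      omega
    have h9 := Nat.le_of_dvd (by omega) h4
    refine ⟨by omega, mem_S.2 ?_⟩
    by_cases h10 : i * M ≤ b + (j + 1) * M + 1
    · exact I_grow h (by omega) (not_dvd h8) h7 (I_y h hi h10) hij
    · have h11 : (j + 1) * M < i * M := by omega
      have h12 := Nat.lt_of_mul_lt_mul_right h11
      obtain ⟨i, rfl⟩ : ∃ i', i = i' + 1 := ⟨i - 1, by omega⟩
      exact I_grow h (by omega) (not_dvd h8) h7 (I_w h (by omega) hi) (by omega)

lemma Qx_push (D : Finset Cell) (M c : ℕ) : Qx (push D 0 M) c = Qx D c := by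
  unfold Qx
  rw [← card_push (D.filter fun p => c ≤ p.1) 0 M]
  congr 1
  ext ⟨a, b, j⟩
  rw [mem_filter, mem_S, mem_S]
  by_cases hc : c ≤ a
  · have : lev (D.filter fun p => c ≤ p.1) 0 M a (b + j * M) = lev D 0 M a (b + j * M) := by
      ext i
      simp only [mem_I, mem_filter, hc, and_true]
    simp only [this, hc, and_true]
  · have : lev (D.filter fun p => c ≤ p.1) 0 M a (b + j * M) = ∅ := by
      ext i
      simp [mem_I, hc]
    simp [this, hc]

lemma rows_le (S : Finset Cell) (N c : ℕ) :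
    ∑ j ∈ range N, ∑ b ∈ range N, row N (lvl S j) b c ≤ Qx S c := by
  rw [← sum_product' (f := fun j b => row N (lvl S j) b c)]
  refine le_trans (sum_le_sum fun β _ => ?_) (le_trans (le_of_eq (sum_card_fiberwise_eq_card_filter
    (S.filter fun p => c ≤ p.1) _ (fun p => (p.2.2, p.2.1)))) (card_filter_le _ _))
  refine card_le_card_of_injOn (fun d => (d - β.2, β.2, β.1)) ?_ ?_
  · intro d hd
    obtain ⟨-, h1, h2⟩ := mem_filter.1 (mem_coe.1 hd)
    exact mem_coe.2 (mem_filter.2 ⟨mem_filter.2 ⟨h1.2, by simp only; omega⟩, rfl⟩)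
  · intro d hd d' hd' e
    have h1 := (mem_filter.1 (mem_coe.1 hd)).2.2
    have h2 := (mem_filter.1 (mem_coe.1 hd')).2.2
    simp only [Prod.mk.injEq, and_true] at e
    omega

lemma cnt_eq {S : Finset Cell} {N : ℕ} (hN : ∀ a b j, (a, b, j) ∈ S → a + b + j < N) (j d : ℕ) :
    ec N (lvl S j) 0 d = cnt S j d := by
  unfold ec cnt
  refine card_bij (fun b _ => (d - b, b, j)) ?_ ?_ ?_
  · intro b hb
    obtain ⟨-, ⟨h1, h2⟩, -⟩ := mem_filter.1 hb
    exact mem_filter.2 ⟨h2, by simp only [Prod.mk.injEq, true_and]; omega⟩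
  · intro b _ b' _ e
    simp only [Prod.mk.injEq] at e
    exact e.2.1
  · rintro ⟨a, b, i⟩ hp
    obtain ⟨h1, h2⟩ := mem_filter.1 hp
    simp only [Prod.mk.injEq] at h2
    obtain ⟨rfl, rfl⟩ := h2
    have := hN _ _ _ h1
    exact ⟨b, mem_filter.2 ⟨mem_range.2 (by omega), ⟨by omega, by simpa using h1⟩, Nat.zero_le _⟩,
      by simp⟩

lemma Qx_borel {S : Finset Cell} {N : ℕ} (hN : ∀ a b j, (a, b, j) ∈ S → a + b + j < N) (t : ℕ) :
    Qx (borel S) t = ∑ j ∈ range N, qq N (lvl S j) t := by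
  unfold Qx qq
  rw [← sum_product' (f := fun j d => min (ec N (lvl S j) 0 d) (d + 1 - t)),
    card_eq_sum_card_fiberwise (f := fun p : Cell => (p.2.2, p.1 + p.2.1))
      (t := range N ×ˢ range N)]
  · refine sum_congr rfl ?_
    rintro ⟨j, d⟩ -
    rw [cnt_eq hN, ← card_range (min _ _)]
    refine card_bij (fun p _ => p.2.1) ?_ ?_ ?_
    · rintro ⟨a, b, i⟩ hp
      simp only [mem_filter, Prod.mk.injEq, mem_borel] at hp
      obtain ⟨⟨h1, h2⟩, rfl, rfl⟩ := hp
      simp only [mem_range]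
      omega
    · rintro ⟨a, b, i⟩ hp ⟨a', b', i'⟩ hp' e
      simp only [mem_filter, Prod.mk.injEq] at hp hp' e ⊢
      omega
    · intro b hb
      have hb := mem_range.1 hb
      simp only at hb
      refine ⟨(d - b, b, j), ?_, rfl⟩
      simp only [mem_filter, Prod.mk.injEq, mem_borel, true_and]
      rw [show d - b + b = d by omega]
      omega
  · rintro ⟨a, b, j⟩ hp
    have h1 := mem_borel.1 (mem_filter.1 (mem_coe.1 hp)).1
    obtain ⟨⟨a', b', j'⟩, hq⟩ := card_pos.1 (lt_of_le_of_lt (Nat.zero_le b) h1)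
    obtain ⟨h2, h3⟩ := mem_filter.1 hq
    have := hN _ _ _ h2
    simp only [Prod.mk.injEq] at h3
    simp only [coe_product, coe_range, Set.mem_prod, Set.mem_Iio]
    omega

end MHall

theorem stage_hall : StageHallStmt := by
  intro D M m hM hC hH t
  have hN : ∀ a b j, (a, b, j) ∈ push D 0 M →
      a + b + j < (push D 0 M).sup (fun p => p.1 + p.2.1 + p.2.2) + 1 := fun a b j h =>
    Nat.lt_succ_of_le (le_sup (f := fun p : Cell => p.1 + p.2.1 + p.2.2) h)
  rw [stage, MHall.Qx_borel hN]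
  refine (MHall.sh hC (by omega) hN).hall hM (fun c => ?_) ?_ t
  · exact (MHall.rows_le _ _ c).trans ((MHall.Qx_push D M c).trans_le (hH c))
  · rw [← MHall.Qx_borel hN]
    have h1 : ∀ S : Finset Cell, Qx S 0 = S.card := fun S => by simp [Qx]
    have h2 := hH 0
    rw [h1, Nat.sub_zero] at h2
    rwa [h1, card_borel, card_push]

end Pool.Agent.Lib.MP_a430e8_ag
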