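import Mathlib

/-! One level of the pushed configuration: counting lemmas. -/

namespace Pool.Agent.Lib.MP_a430e8_ag.MHall
open Finset
open scoped Classical

/-- One level: `P b d` says that the cell of row `b` and degree `d` is present. -/
structure Lv (M N : ℕ) (P : ℕ → ℕ → Prop) : Prop where
  lo : ∀ b d, P b d → b ≤ d
  bd : ∀ b d, P b d → d < N
  X : ∀ b d, P b (d + 1) → b ≤ d → P b d
  Y : ∀ b d, P (b + 1) (d + 1) → P b d
  B : ∀ b d, P (b + 1) d → ¬ M ∣ b + 1 → P b d

/-- Cells of degree `d` in rows at least `s`. -/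
noncomputable def ec (N : ℕ) (P : ℕ → ℕ → Prop) (s d : ℕ) : ℕ :=
  ((range N).filter (fun b => P b d ∧ s ≤ b)).card

/-- Cells of row `b` with first coordinate at least `a`. -/
noncomputable def row (N : ℕ) (P : ℕ → ℕ → Prop) (b a : ℕ) : ℕ :=
  ((range N).filter (fun d => P b d ∧ b + a ≤ d)).card

/-- Cells with first coordinate at least `a` after compression. -/
noncomputable def qq (N : ℕ) (P : ℕ → ℕ → Prop) (a : ℕ) : ℕ :=
  ∑ d ∈ range N, min (ec N P 0 d) (d + 1 - a)

/-- Cells of degree at least `δ` in rows at least `s`. -/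
noncomputable def tl (N : ℕ) (P : ℕ → ℕ → Prop) (s δ : ℕ) : ℕ :=
  ∑ l ∈ range N, ec N P s (δ + l)

variable {M N : ℕ} {P : ℕ → ℕ → Prop}

lemma Lv.down (h : Lv M N P) {b d d' : ℕ} (hP : P b d) (h1 : b ≤ d') (h2 : d' ≤ d) : P b d' := by
  obtain ⟨n, rfl⟩ := Nat.exists_eq_add_of_le h2
  induction n with
  | zero => exact hP
  | succ n ih => exact ih (h.X b (d' + n) hP (by omega)) (by omega)

lemma Lv.asc (h : Lv M N P) (b n : ℕ) :
    ∀ d, P (b + n) d → ∃ d', P b d' ∧ d + b / M = d' + (b + n) / M := by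
  induction n with
  | zero => exact fun d hd => ⟨d, hd, rfl⟩
  | succ n ih =>
    intro d hd
    have e : (b + (n + 1)) / M = (b + n) / M + if M ∣ b + n + 1 then 1 else 0 :=
      Nat.succ_div
    by_cases hM : M ∣ b + n + 1
    · have := h.lo _ _ hd
      obtain ⟨d, rfl⟩ : ∃ d0, d = d0 + 1 := ⟨d - 1, by omega⟩
      obtain ⟨d', h1, h2⟩ := ih d (h.Y _ _ hd)
      rw [if_pos hM] at e
      exact ⟨d', h1, by omega⟩
    · obtain ⟨d', h1, h2⟩ := ih d (h.B _ _ hd hM)
      rw [if_neg hM] at e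
      exact ⟨d', h1, by omega⟩

lemma Lv.mem (h : Lv M N P) {s d b : ℕ} :
    b ∈ (range N).filter (fun b => P b d ∧ s ≤ b) ↔ P b d ∧ s ≤ b := by
  rw [mem_filter, mem_range]
  refine ⟨fun hh => hh.2, fun hh => ⟨?_, hh⟩⟩
  have := h.lo _ _ hh.1
  have := h.bd _ _ hh.1
  omega

lemma Lv.ec_zero (h : Lv M N P) {s d : ℕ} (hd : N ≤ d) : ec N P s d = 0 := by
  unfold ec
  rw [card_eq_zero, filter_eq_empty_iff]
  intro b _ hb
  have := h.bd _ _ hb.1
  omega

lemma Lv.ec_pos (h : Lv M N P) {s d b : ℕ} (hb : P b d) (hs : s ≤ b) : 0 < ec N P s d :=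
  card_pos.2 ⟨b, h.mem.2 ⟨hb, hs⟩⟩

lemma ec_pos_iff {s d : ℕ} (hp : 0 < ec N P s d) : ∃ b, P b d ∧ s ≤ b := by
  obtain ⟨b, hb⟩ := card_pos.1 hp
  exact ⟨b, (mem_filter.1 hb).2⟩

lemma Lv.ec_split (h : Lv M N P) {s s' : ℕ} (hs : s ≤ s') (d : ℕ) :
    ec N P s d = ((Ico s s').filter (fun b => P b d)).card + ec N P s' d := by
  unfold ec
  rw [← card_union_of_disjoint]
  · congr 1
    ext b
    rw [mem_union, h.mem, h.mem, mem_filter, mem_Ico]
    constructor
    · rintro ⟨h1, h2⟩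
      by_cases hb : b < s'
      · exact Or.inl ⟨⟨h2, hb⟩, h1⟩
      · exact Or.inr ⟨h1, by omega⟩
    · rintro (⟨⟨h1, -⟩, h2⟩ | ⟨h1, h2⟩)
      · exact ⟨h2, h1⟩
      · exact ⟨h1, by omega⟩
  · rw [disjoint_left]
    intro b hb hb'
    have := (mem_Ico.1 (mem_filter.1 hb).1).2
    have := (h.mem.1 hb').2
    omega

lemma Lv.ec_le_add (h : Lv M N P) {s s' : ℕ} (hs : s ≤ s') (d : ℕ) :
    ec N P s d ≤ (s' - s) + ec N P s' d := by
  rw [h.ec_split hs]
  have := card_filter_le (Ico s s') (fun b => P b d)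
  rw [Nat.card_Ico] at this
  omega

lemma Lv.ec_eq_add (h : Lv M N P) {s s' d : ℕ} (hs : s ≤ s') (hP : ∀ b < s', P b d) :
    ec N P s d = (s' - s) + ec N P s' d := by
  rw [h.ec_split hs, filter_true_of_mem (fun b hb => hP b (mem_Ico.1 hb).2), Nat.card_Ico]

/-- A degree which is not full bounds the next one. -/
lemma Lv.ec_succ (h : Lv M N P) {d : ℕ} (hd : ec N P 0 d ≤ d) : ec N P 0 (d + 1) ≤ ec N P 0 d := by
  have hne : ((range (d + 1)).filter (fun b => ¬ P b d)).Nonempty := by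
    by_contra hc
    rw [not_nonempty_iff_eq_empty, filter_eq_empty_iff] at hc
    have := h.ec_eq_add (s := 0) (s' := d + 1) (d := d) (by omega)
      (fun b hb => not_not.1 (hc (mem_range.2 hb)))
    omega
  obtain ⟨t, ht, hmax⟩ := exists_max_image _ id hne
  obtain ⟨ht1, ht2⟩ := mem_filter.1 ht
  have ht1 := mem_range.1 ht1
  refine card_le_card_of_injOn (fun b => if b < t then b else b - 1) ?_ ?_
  · intro b hb
    have hb := (h.mem.1 (mem_coe.1 hb)).1
    refine mem_coe.2 (h.mem.2 ⟨?_, Nat.zero_le _⟩)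
    by_cases h1 : b < t
    · simp only [if_pos h1]
      exact h.X _ _ hb (by omega)
    · simp only [if_neg h1]
      rcases Nat.eq_zero_or_pos b with rfl | h2
      · exact h.X _ _ hb (by omega)
      · obtain ⟨b, rfl⟩ : ∃ b', b = b' + 1 := ⟨b - 1, by omega⟩
        exact h.Y _ _ hb
  · intro b hb b' hb' e
    have hb := (h.mem.1 (mem_coe.1 hb)).1
    have hb' := (h.mem.1 (mem_coe.1 hb')).1
    have h1 : b ≠ t := fun e => ht2 (h.X _ _ (e ▸ hb) (by omega))
    have h2 : b' ≠ t := fun e => ht2 (h.X _ _ (e ▸ hb') (by omega))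
    simp only at e
    split_ifs at e <;> omega

lemma Lv.ec_anti (h : Lv M N P) {d : ℕ} (hd : ec N P 0 d ≤ d) (l : ℕ) :
    ec N P 0 (d + l) ≤ ec N P 0 d := by
  induction l with
  | zero => exact le_rfl
  | succ l ih => exact (h.ec_succ (d := d + l) (by omega)).trans ih

/-- The threshold degree of a level: `k` rows have length at least `a`. -/
structure Thr (N : ℕ) (P : ℕ → ℕ → Prop) (a k : ℕ) : Prop where
  full : ∀ i < k, i < ec N P 0 (a + i)
  stop : ec N P 0 (a + k) ≤ k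

lemma Lv.exists_thr (h : Lv M N P) (a : ℕ) : ∃ k, Thr N P a k := by
  have hex : ∃ k, ec N P 0 (a + k) ≤ k := ⟨N, by rw [h.ec_zero (by omega)]; omega⟩
  exact ⟨Nat.find hex, fun i hi => not_le.1 (Nat.find_min hex hi), Nat.find_spec hex⟩

lemma Lv.thr_le (h : Lv M N P) {a k : ℕ} (t : Thr N P a k) (l : ℕ) :
    ec N P 0 (a + k + l) ≤ ec N P 0 (a + k) :=
  h.ec_anti (t.stop.trans (by omega)) l

lemma Lv.thr_lt (h : Lv M N P) {a k : ℕ} (t : Thr N P a k) (hk : 0 < k) : a + k ≤ N := by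
  have := t.full (k - 1) (by omega)
  by_contra hc
  rw [h.ec_zero (by omega)] at this
  omega

lemma Lv.sum_shift (h : Lv M N P) (s δ : ℕ) (hδ : δ ≤ N) :
    ∑ l ∈ range (N - δ), ec N P s (δ + l) = tl N P s δ := by
  unfold tl
  refine sum_subset (range_subset_range.2 (by omega)) fun l _ hl => h.ec_zero ?_
  rw [mem_range] at hl
  omega

lemma Lv.qq_zero (h : Lv M N P) {a : ℕ} (t : Thr N P a 0) (c : ℕ) :
    qq N P (a + c) = 0 ∧ tl N P 0 a = 0 := by
  have h1 : ∀ l, ec N P 0 (a + l) = 0 := fun l => by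
    have := h.thr_le t l
    have := t.stop
    simp only [add_zero] at *
    omega
  refine ⟨sum_eq_zero fun d _ => ?_, sum_eq_zero fun l _ => h1 l⟩
  rcases lt_or_ge d a with hd | hd
  · omega
  · obtain ⟨l, rfl⟩ := Nat.exists_eq_add_of_le hd
    rw [h1]
    omega

lemma Lv.qq_split (h : Lv M N P) {a k : ℕ} (t : Thr N P a k) (hk : 0 < k) (c : ℕ) :
    qq N P (a + c) = ∑ i ∈ range k, (i + 1 - c) +
      ∑ l ∈ range (N - (a + k)), min (ec N P 0 (a + k + l)) (k + l + 1 - c) := by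
  have h1 := h.thr_lt t hk
  unfold qq
  conv_lhs => rw [show N = a + k + (N - (a + k)) by omega]
  rw [sum_range_add, sum_range_add, sum_eq_zero (s := range a), zero_add]
  · have e : a + k + (N - (a + k)) = N := by omega
    rw [e]
    congr 1
    · refine sum_congr rfl fun i hi => ?_
      have := t.full i (mem_range.1 hi)
      omega
    · refine sum_congr rfl fun l _ => ?_
      congr 1
      omega
  · intro d hd
    have := mem_range.1 hd
    omega

lemma sum_range_choose (k : ℕ) : ∑ i ∈ range k, i = k.choose 2 := by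
  rw [sum_range_id, Nat.choose_two_right]

lemma Lv.qq_one (h : Lv M N P) {a k : ℕ} (t : Thr N P a k) :
    qq N P (a + 1) = k.choose 2 + tl N P 0 (a + k) := by
  rcases Nat.eq_zero_or_pos k with rfl | hk
  · have := h.qq_zero t 1
    simp only [add_zero, this.1, this.2]
    rfl
  · rw [h.qq_split t hk, ← h.sum_shift 0 _ (h.thr_lt t hk), ← sum_range_choose]
    congr 1
    refine sum_congr rfl fun l _ => ?_
    have := h.thr_le t l
    have := t.stop
    omega

lemma Lv.qq_pred (h : Lv M N P) {a k : ℕ} (t : Thr N P a k) :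
    qq N P a = qq N P (a + 1) + k := by
  rcases Nat.eq_zero_or_pos k with rfl | hk
  · have h1 := (h.qq_zero t 0).1
    have h2 := (h.qq_zero t 1).1
    rw [add_zero] at h1
    omega
  · have h0 := h.qq_split t hk 0
    rw [add_zero] at h0
    rw [h0, h.qq_split t hk 1]
    have e1 : ∑ i ∈ range k, (i + 1 - 0) = ∑ i ∈ range k, (i + 1 - 1) + k := by
      simp [sum_add_distrib]
    have e2 : ∑ l ∈ range (N - (a + k)), min (ec N P 0 (a + k + l)) (k + l + 1 - 0) =
        ∑ l ∈ range (N - (a + k)), min (ec N P 0 (a + k + l)) (k + l + 1 - 1) := by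
      refine sum_congr rfl fun l _ => ?_
      have := h.thr_le t l
      have := t.stop
      omega
    omega

lemma Lv.qq_next (h : Lv M N P) {a k : ℕ} (t : Thr N P a k) :
    qq N P (a + 1) + (if ec N P 0 (a + k) = k then 0 else 1) ≤ qq N P (a + 2) + k := by
  rcases Nat.eq_zero_or_pos k with rfl | hk
  · have h1 := (h.qq_zero t 1).1
    have h2 := t.stop
    rw [if_pos (by omega)]
    omega
  · rw [h.qq_split t hk 1, h.qq_split t hk 2]
    obtain ⟨k, rfl⟩ : ∃ k', k = k' + 1 := ⟨k - 1, by omega⟩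
    have e1 : ∑ i ∈ range (k + 1), (i + 1 - 1) = ∑ i ∈ range (k + 1), (i + 1 - 2) + k := by
      rw [sum_range_succ', sum_range_succ']
      simp [sum_add_distrib]
    have h3 := t.stop
    rcases Nat.eq_zero_or_pos (N - (a + (k + 1))) with h0 | h0
    · rw [h0, h.ec_zero (by omega), if_neg (by omega)]
      simp only [range_zero, sum_empty]
      omega
    · obtain ⟨n, hn⟩ : ∃ n, N - (a + (k + 1)) = n + 1 := ⟨N - (a + (k + 1)) - 1, by omega⟩
      rw [hn, sum_range_succ' _ n, sum_range_succ' _ n]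
      have e2 : ∑ l ∈ range n, min (ec N P 0 (a + (k + 1) + (l + 1))) (k + 1 + (l + 1) + 1 - 1) =
          ∑ l ∈ range n, min (ec N P 0 (a + (k + 1) + (l + 1))) (k + 1 + (l + 1) + 1 - 2) := by
        refine sum_congr rfl fun l _ => ?_
        have := h.thr_le t (l + 1)
        omega
      rw [e2, add_zero]
      split_ifs <;> omega

end Pool.Agent.Lib.MP_a430e8_ag.MHall
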