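import Pool.Agent.Lib.MP_a430e8_ag.MHallA

/-! One level of the pushed configuration: rows, gaps and blocks. -/

namespace Pool.Agent.Lib.MP_a430e8_ag.MHall
open Finset
open scoped Classical

variable {M N : ℕ} {P : ℕ → ℕ → Prop}

/-- Cells of row `b` of degree at least `δ`. -/
noncomputable def up (N : ℕ) (P : ℕ → ℕ → Prop) (b δ : ℕ) : ℕ :=
  ∑ l ∈ range N, if P b (δ + l) then 1 else 0

lemma Lv.tl_succ (h : Lv M N P) (s δ : ℕ) : tl N P s δ = up N P s δ + tl N P (s + 1) δ := by
  unfold tl up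
  rw [← sum_add_distrib]
  refine sum_congr rfl fun l _ => ?_
  rw [h.ec_split (Nat.le_succ s), Nat.Ico_succ_singleton, filter_singleton]
  split_ifs <;> simp

lemma Lv.row_eq (h : Lv M N P) {b c δ : ℕ} (hP : P b δ) (hc : b + c ≤ δ) :
    row N P b c = (δ - (b + c)) + up N P b δ := by
  have hδ := h.bd _ _ hP
  have e1 : up N P b δ = ∑ l ∈ range (N - δ), if P b (δ + l) then 1 else 0 := by
    refine (sum_subset (range_subset_range.2 (by omega)) fun l _ hl => if_neg fun hh => ?_).symm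
    have := h.bd _ _ hh
    rw [mem_range] at hl
    omega
  have e2 : ∀ n, ((range n).filter (fun d => P b d ∧ b + c ≤ d)).card =
      ∑ d ∈ range n, if P b d ∧ b + c ≤ d then 1 else 0 := fun n => card_filter _ _
  have e3 : N = b + c + (δ - (b + c)) + (N - δ) := by omega
  unfold row
  rw [e2, e1]
  conv_lhs => rw [e3]
  rw [sum_range_add, sum_range_add, sum_eq_zero (s := range (b + c)), zero_add]
  · congr 1
    · rw [sum_congr rfl (g := fun _ => 1)]
      · simp
      · intro i hi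
        have := mem_range.1 hi
        exact if_pos ⟨h.down hP (by omega) (by omega), by omega⟩
    · refine sum_congr rfl fun l _ => ?_
      have e4 : b + c + (δ - (b + c)) + l = δ + l := by omega
      rw [e4]
      exact if_congr (and_iff_left (by omega)) rfl rfl
  · intro d hd
    have := mem_range.1 hd
    exact if_neg fun hh => by omega

lemma Lv.row_ge (h : Lv M N P) {b d : ℕ} (hP : P b d) : d + 1 ≤ row N P b 0 + b := by
  have h1 := h.lo _ _ hP
  have h2 := h.bd _ _ hP
  have h3 : 1 ≤ up N P b d := by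
    have := single_le_sum (f := fun l => if P b (d + l) then 1 else 0) (s := range N)
      (fun _ _ => Nat.zero_le _) (mem_range.2 (show 0 < N by omega))
    simp only [add_zero, if_pos hP] at this
    exact this
  rw [h.row_eq hP (by omega)]
  omega

lemma row_le (b c n : ℕ) : row N P b c ≤ n + row N P b (c + n) := by
  unfold row
  have : (range N).filter (fun d => P b d ∧ b + c ≤ d) ⊆
      Ico (b + c) (b + c + n) ∪ (range N).filter (fun d => P b d ∧ b + (c + n) ≤ d) := by
    intro d hd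
    obtain ⟨h1, h2, h3⟩ := mem_filter.1 hd
    rw [mem_union, mem_Ico, mem_filter]
    by_cases h4 : d < b + c + n
    · exact Or.inl ⟨h3, h4⟩
    · exact Or.inr ⟨h1, h2, by omega⟩
  have h2 := (card_le_card this).trans (card_union_le _ _)
  rw [Nat.card_Ico] at h2
  omega

/-- The part of the count not carried by the first `s` rows. -/
noncomputable def val (N : ℕ) (P : ℕ → ℕ → Prop) (a k s : ℕ) : ℕ :=
  (k - s).choose 2 + tl N P s (a + k)

lemma Lv.rows_val (h : Lv M N P) {a k : ℕ} (s : ℕ) (hs : s ≤ k) (hP : ∀ b < s, P b (a + k)) :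
    k.choose 2 + tl N P 0 (a + k) = ∑ b ∈ range s, row N P b (a + 1) + val N P a k s := by
  induction s with
  | zero => simp [val]
  | succ s ih =>
    rw [ih (by omega) (fun b hb => hP b (by omega)), sum_range_succ,
      h.row_eq (hP s (by omega)) (by omega)]
    unfold val
    rw [h.tl_succ s]
    obtain ⟨n, rfl⟩ : ∃ n, k = s + 1 + n := ⟨k - (s + 1), by omega⟩
    have e1 : s + 1 + n - s = n + 1 := by omega
    have e2 : s + 1 + n - (s + 1) = n := by omega
    have e3 : (n + 1).choose 2 = n + n.choose 2 := by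
      rw [Nat.choose_succ_succ' n 1, Nat.choose_one_right]
    rw [e1, e2, e3]
    omega

/-- The first row missing in degree `δ`. -/
structure Gap (P : ℕ → ℕ → Prop) (δ s : ℕ) : Prop where
  bef : ∀ b < s, P b δ
  out : ¬ P s δ

lemma Lv.exists_gap (h : Lv M N P) (δ : ℕ) : ∃ s, Gap P δ s := by
  have hex : ∃ s, ¬ P s δ := ⟨δ + 1, fun hh => by have := h.lo _ _ hh; omega⟩
  exact ⟨Nat.find hex, fun b hb => not_not.1 (Nat.find_min hex hb), Nat.find_spec hex⟩

lemma Lv.gap_out (h : Lv M N P) {δ s : ℕ} (g : Gap P δ s) (hs : s ≤ δ) (l : ℕ) :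
    ¬ P s (δ + l) := fun hh => g.out (h.down hh hs (by omega))

lemma Lv.jump (h : Lv M N P) {δ s b l : ℕ} (g : Gap P δ s) (hs : s ≤ δ)
    (hb : s ≤ b) (hP : P b (δ + l)) : s / M + l + 1 ≤ b / M := by
  obtain ⟨n, rfl⟩ := Nat.exists_eq_add_of_le hb
  obtain ⟨d', h1, h2⟩ := h.asc s n _ hP
  by_contra hc
  obtain ⟨t, rfl⟩ : ∃ t, d' = δ + t := ⟨d' - δ, by omega⟩
  exact h.gap_out g hs t h1

lemma Lv.block (h : Lv M N P) {δ s l : ℕ} (hM : 0 < M) (g : Gap P δ s) (hs : s ≤ δ)
    (hp : 0 < ec N P s (δ + (l + 1))) :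
    ∃ c, s / M + l + 1 ≤ c ∧ P ((c + 1) * M) (δ + (l + 1)) ∧
      (∀ b, s ≤ b → b < (c + 1) * M → ¬ P b (δ + (l + 1))) ∧
      ∀ r < M, P (c * M + r) (δ + l) := by
  have hex := ec_pos_iff hp
  obtain ⟨h1, h2⟩ := Nat.find_spec hex
  have hmin : ∀ b < Nat.find hex, ¬ (P b (δ + (l + 1)) ∧ s ≤ b) := fun b hb => Nat.find_min hex hb
  generalize Nat.find hex = b1 at h1 h2 hmin
  have h3 : s ≠ b1 := fun e => h.gap_out g hs _ (e ▸ h1)
  obtain ⟨b0, rfl⟩ : ∃ b0, b1 = b0 + 1 := ⟨b1 - 1, by omega⟩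
  have h4 : M ∣ b0 + 1 := by
    by_contra hc
    exact hmin b0 (by omega) ⟨h.B _ _ h1 hc, by omega⟩
  obtain ⟨c, hc⟩ := h4
  have h5 := h.jump g hs h2 h1
  rw [hc, Nat.mul_div_cancel_left _ hM] at h5
  have h0 := Nat.zero_le (s / M)
  obtain ⟨c, rfl⟩ : ∃ c', c = c' + 1 := ⟨c - 1, by omega⟩
  rw [mul_comm] at hc
  refine ⟨c, by omega, hc ▸ h1, fun b hb hb' hP => hmin b (by omega) ⟨hP, hb⟩, ?_⟩
  have h6 : P b0 (δ + l) := h.Y _ _ h1
  have key : ∀ n r, r + n + 1 = M → P (c * M + r) (δ + l) := by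
    intro n
    induction n with
    | zero =>
      intro r hr
      have : c * M + r = b0 := by rw [add_mul] at hc; omega
      rwa [this]
    | succ n ih =>
      intro r hr
      refine h.B _ _ (ih (r + 1) (by omega)) fun hd => ?_
      rw [add_assoc] at hd
      have := Nat.le_of_dvd (by omega) ((Nat.dvd_add_right (Dvd.intro_left c rfl)).1 hd)
      omega
  exact fun r hr => key (M - 1 - r) r (by omega)

lemma lt_mul_of_div {s c : ℕ} (hM : 0 < M) (hc : s / M + 1 ≤ c) : s < c * M := by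
  have h1 := Nat.lt_mul_div_succ s hM
  have h2 := Nat.mul_le_mul_left M hc
  rw [mul_comm c]
  omega

lemma Lv.ec_step (h : Lv M N P) {δ s l : ℕ} (hM : 0 < M) (g : Gap P δ s) (hs : s ≤ δ)
    (hp : 0 < ec N P s (δ + (l + 1))) : ec N P s (δ + (l + 1)) + M ≤ ec N P s (δ + l) + 1 := by
  obtain ⟨c, h1, h2, h3, h4⟩ := h.block hM g hs hp
  have h5 : s < c * M := lt_mul_of_div hM (by omega)
  have hsub : ((range N).filter (fun b => P b (δ + (l + 1)) ∧ s ≤ b)).erase (δ + (l + 1)) ∪
      Ico (c * M) ((c + 1) * M) ⊆ (range N).filter (fun b => P b (δ + l) ∧ s ≤ b) := by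
    intro b hb
    rw [h.mem]
    rcases mem_union.1 hb with hb | hb
    · obtain ⟨hb1, hb2⟩ := mem_erase.1 hb
      obtain ⟨hb2, hb3⟩ := h.mem.1 hb2
      have := h.lo _ _ hb2
      exact ⟨h.X _ _ hb2 (by omega), hb3⟩
    · obtain ⟨hb1, hb2⟩ := mem_Ico.1 hb
      obtain ⟨r, rfl⟩ := Nat.exists_eq_add_of_le hb1
      rw [add_mul] at hb2
      exact ⟨h4 r (by omega), by omega⟩
  have h6 := card_le_card hsub
  rw [card_union_of_disjoint, Nat.card_Ico] at h6
  · have h7 := pred_card_le_card_erase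
      (s := (range N).filter (fun b => P b (δ + (l + 1)) ∧ s ≤ b)) (a := δ + (l + 1))
    unfold ec at hp ⊢
    rw [add_mul] at h6
    omega
  · rw [disjoint_left]
    intro b hb hb'
    obtain ⟨hb1, hb2⟩ := mem_Ico.1 hb'
    exact h3 b (by omega) hb2 (h.mem.1 (mem_erase.1 hb).2).1

/-- The largest excess of a cell after the gap. -/
structure Top (N : ℕ) (P : ℕ → ℕ → Prop) (δ s z : ℕ) : Prop where
  pos : z = 0 ∨ 0 < ec N P s (δ + z)
  zero : ∀ l, z < l → ec N P s (δ + l) = 0

lemma Lv.exists_top (h : Lv M N P) (δ s : ℕ) : ∃ z, Top N P δ s z := by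
  have hex : ∃ z, ∀ l, z < l → ec N P s (δ + l) = 0 := ⟨N, fun l hl => h.ec_zero (by omega)⟩
  refine ⟨Nat.find hex, ?_, Nat.find_spec hex⟩
  rcases Nat.eq_zero_or_pos (Nat.find hex) with h0 | h0
  · exact Or.inl h0
  · right
    by_contra hc
    refine Nat.find_min hex (show Nat.find hex - 1 < Nat.find hex by omega) fun l hl => ?_
    rcases Nat.lt_or_ge (Nat.find hex) l with h1 | h1
    · exact Nat.find_spec hex l h1
    · obtain rfl : l = Nat.find hex := by omega
      omega

lemma Lv.ec_chain (h : Lv M N P) {δ s : ℕ} (hM : 0 < M) (g : Gap P δ s) (hs : s ≤ δ) (n : ℕ) :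
    ∀ l, (n = 0 ∨ 0 < ec N P s (δ + (l + n))) →
      ec N P s (δ + (l + n)) + n * (M - 1) ≤ ec N P s (δ + l) := by
  induction n with
  | zero => intro l _; simp
  | succ n ih =>
    intro l hl
    have hp : 0 < ec N P s (δ + (l + n + 1)) := hl.resolve_left (by omega)
    have h1 := h.ec_step hM g hs hp
    have h2 := ih l (Or.inr (by omega))
    have e : l + (n + 1) = l + n + 1 := rfl
    rw [e, add_mul]
    omega

lemma tl_le_of {s δ z G : ℕ} (w : ℕ → ℕ) (h1 : ∀ l ≤ z, ec N P s (δ + l) + w l ≤ G)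
    (h2 : ∀ l, z < l → ec N P s (δ + l) = 0) :
    tl N P s δ + ∑ l ∈ range (z + 1), w l ≤ (z + 1) * G := by
  have h3 : tl N P s δ ≤ ∑ l ∈ range (z + 1), ec N P s (δ + l) := by
    refine sum_le_sum_of_ne_zero fun l _ hl => mem_range.2 ?_
    by_contra hc
    exact hl (h2 l (by omega))
  have h4 : ∑ l ∈ range (z + 1), (ec N P s (δ + l) + w l) ≤ ∑ _l ∈ range (z + 1), G :=
    sum_le_sum fun l hl => h1 l (by have := mem_range.1 hl; omega)
  rw [sum_add_distrib, sum_const, card_range, smul_eq_mul] at h4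
  omega

lemma two_choose (n : ℕ) : 2 * n.choose 2 + n = n * n := by
  induction n with
  | zero => rfl
  | succ n ih =>
    rw [Nat.choose_succ_succ' n 1, Nat.choose_one_right]
    nlinarith

lemma two_choose' (n : ℕ) : 2 * (n + 1).choose 2 = n * (n + 1) := by
  have := two_choose (n + 1)
  nlinarith

/-- All the data attached to one level. -/
structure Dat (N : ℕ) (P : ℕ → ℕ → Prop) (a k s G z : ℕ) : Prop where
  thr : Thr N P a k
  eq : ec N P 0 (a + k) = k
  gap : Gap P (a + k) s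
  sum : s + G = k
  top : Top N P (a + k) s z

lemma Lv.exists_dat (h : Lv M N P) {a k : ℕ} (t : Thr N P a k) (e : ec N P 0 (a + k) = k) :
    ∃ s G z, Dat N P a k s G z := by
  obtain ⟨s, g⟩ := h.exists_gap (a + k)
  obtain ⟨z, hz⟩ := h.exists_top (a + k) s
  have := h.ec_eq_add (Nat.zero_le s) g.bef
  exact ⟨s, k - s, z, t, e, g, by omega, hz⟩

variable {a k s G z : ℕ}

lemma Lv.dat_e0 (h : Lv M N P) (d : Dat N P a k s G z) : ec N P s (a + k) = G := by
  have h1 := h.ec_eq_add (Nat.zero_le s) d.gap.bef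
  have h2 := d.eq
  have h3 := d.sum
  omega

lemma Lv.dat_chain (h : Lv M N P) (hM : 0 < M) (d : Dat N P a k s G z) (l : ℕ) (hl : l ≤ z) :
    ec N P s (a + k + l) + l * (M - 1) ≤ G ∧ (l = 0 ∨ 0 < ec N P s (a + k + l)) := by
  have hs : s ≤ a + k := by have := d.sum; omega
  have h1 : l = 0 ∨ 0 < ec N P s (a + k + l) := by
    rcases d.top.pos with h0 | h0
    · exact Or.inl (by omega)
    · obtain ⟨n, rfl⟩ := Nat.exists_eq_add_of_le hl
      have := h.ec_chain hM d.gap hs n l (Or.inr h0)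
      exact Or.inr (by omega)
  have h2 := h.ec_chain hM d.gap hs l 0 (by rwa [zero_add])
  rw [zero_add, add_zero, h.dat_e0 d] at h2
  exact ⟨h2, h1⟩

lemma Lv.dat_le (h : Lv M N P) (hM : 0 < M) (d : Dat N P a k s G z) (l : ℕ) :
    ec N P s (a + k + l) ≤ G := by
  rcases Nat.lt_or_ge z l with hl | hl
  · rw [d.top.zero l hl]
    omega
  · have := (h.dat_chain hM d l hl).1
    omega

lemma Lv.dat_cell (h : Lv M N P) (hM : 0 < M) (d : Dat N P a k s G z) {b l : ℕ} (hb : s ≤ b)
    (hP : P b (a + k + l)) : l ≤ z ∧ l * (M - 1) + 1 ≤ G := by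
  have h1 := h.ec_pos hP hb
  have h2 : l ≤ z := by
    by_contra hc
    rw [d.top.zero l (by omega)] at h1
    omega
  have := (h.dat_chain hM d l h2).1
  exact ⟨h2, by omega⟩

lemma Lv.dat_val (h : Lv M N P) (hM : 0 < M) (d : Dat N P a k s G z) :
    2 * val N P a k s + (M - 1) * (z * (z + 1)) ≤ G * G + G + 2 * z * G := by
  have h1 := tl_le_of (fun l => l * (M - 1)) (fun l hl => (h.dat_chain hM d l hl).1) d.top.zero
  rw [← sum_mul, sum_range_choose] at h1
  have h2 := two_choose' z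
  have h3 := two_choose G
  have e : k - s = G := by have := d.sum; omega
  unfold val
  rw [e, ← h2]
  nlinarith

end Pool.Agent.Lib.MP_a430e8_ag.MHall
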