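import Pool.Agent.Lib.MP_a430e8_ag.MHallB

/-! Two adjacent levels of the pushed configuration. -/

namespace Pool.Agent.Lib.MP_a430e8_ag.MHall
open Finset
open scoped Classical

/-- All levels: `U j b d` says that the cell of level `j`, row `b` and degree `d` is present. -/
structure Sh (M N : ℕ) (U : ℕ → ℕ → ℕ → Prop) : Prop where
  lv : ∀ j, Lv M N (U j)
  lev : ∀ j b d, U j b d → j < N
  Nn : ∀ j b d r, U (j + 1) b d → r ≤ M → U j (b + r) (d + M)
  R : ∀ j b d b0, U j (b + M + 1) (d + M + 1) → ¬ U j b0 (d + M + 1) → b0 ≤ b + M →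
    ¬ M ∣ b + 1 → U (j + 1) b d
  R2 : ∀ j b d b0, U j (b + M + 2) (d + M + 2) → ¬ U j b0 (d + M + 2) → b0 ≤ b + M + 1 →
    M ∣ b + 2 → U (j + 1) b d

variable {M N : ℕ} {U : ℕ → ℕ → ℕ → Prop} {j a k s G z k' s' G' z' : ℕ}

lemma Sh.ec_ge (h : Sh M N U) (j d : ℕ) (hp : 0 < ec N (U (j + 1)) 0 d) :
    ec N (U (j + 1)) 0 d + M ≤ ec N (U j) 0 (d + M) := by
  have hex := ec_pos_iff hp
  obtain ⟨h1, -⟩ := Nat.find_spec hex
  have hmin : ∀ b < Nat.find hex, ¬ (U (j + 1) b d ∧ 0 ≤ b) := fun b hb => Nat.find_min hex hb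
  generalize Nat.find hex = b0 at h1 hmin
  have hsub : ((range N).filter (fun b => U (j + 1) b d ∧ 0 ≤ b)).image (· + M) ∪
      Ico b0 (b0 + M) ⊆ (range N).filter (fun b => U j b (d + M) ∧ 0 ≤ b) := by
    intro b hb
    rw [(h.lv j).mem]
    refine ⟨?_, Nat.zero_le _⟩
    rcases mem_union.1 hb with hb | hb
    · obtain ⟨b', hb', rfl⟩ := mem_image.1 hb
      exact h.Nn _ _ _ M ((h.lv _).mem.1 hb').1 le_rfl
    · obtain ⟨hb1, hb2⟩ := mem_Ico.1 hb
      obtain ⟨r, rfl⟩ := Nat.exists_eq_add_of_le hb1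
      exact h.Nn _ _ _ r h1 (by omega)
  have h6 := card_le_card hsub
  rw [card_union_of_disjoint, Nat.card_Ico, card_image_of_injective _ (add_left_injective M)] at h6
  · unfold ec
    omega
  · rw [disjoint_left]
    intro b hb hb'
    obtain ⟨b', hb1, rfl⟩ := mem_image.1 hb
    have := (mem_Ico.1 hb').2
    exact hmin b' (by omega) ((h.lv _).mem.1 hb1)

lemma Sh.thr_mono (h : Sh M N U) (t : Thr N (U j) a k) (t' : Thr N (U (j + 1)) a k')
    (hk : 0 < k') : k' + M ≤ k := by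
  by_contra hc
  have h1 := t'.full (k' - 1) (by omega)
  have h2 := h.ec_ge j (a + (k' - 1)) (by omega)
  have h3 := (h.lv j).thr_le t (k' - 1 + M - k)
  have h4 := t.stop
  have e : a + k + (k' - 1 + M - k) = a + (k' - 1) + M := by omega
  rw [e] at h3
  omega

lemma Sh.cellR (h : Sh M N U) (hM : 2 ≤ M) (d : Dat N (U j) a k s G (z + 1)) :
    ∃ c b e, s / M + z + 1 ≤ c ∧ b + 2 = c * M ∧ e + M + 1 = a + k + z ∧ U (j + 1) b e ∧
      U j ((c + 1) * M) (a + k + (z + 1)) ∧ ∀ r < M, U j (c * M + r) (a + k + z) := by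
  have hs : s ≤ a + k := by have := d.sum; omega
  obtain ⟨c, h1, h2, -, h4⟩ := (h.lv j).block (by omega) d.gap hs
    (d.top.pos.resolve_left (by omega))
  have h0 := Nat.zero_le (s / M)
  have h5 : s < c * M := lt_mul_of_div (by omega) (by omega)
  have h6 : 1 * M ≤ c * M := Nat.mul_le_mul_right M (by omega)
  have h7 := h4 (M - 1) (by omega)
  have h8 := (h.lv j).lo _ _ h7
  obtain ⟨b, hb⟩ : ∃ b, b + 2 = c * M := ⟨c * M - 2, by omega⟩
  obtain ⟨e, he⟩ : ∃ e, e + M + 1 = a + k + z := ⟨a + k + z - (M + 1), by omega⟩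
  refine ⟨c, b, e, h1, hb, he, h.R j b e s ?_ ?_ (by omega) fun hd => ?_, h2, h4⟩
  · rw [he, show b + M + 1 = c * M + (M - 1) by omega]
    exact h7
  · rw [he]
    exact (h.lv j).gap_out d.gap hs z
  · have h9 : M ∣ b + 1 + 1 := by rw [add_assoc, show 1 + 1 = 2 from rfl, hb]; exact Dvd.intro_left c rfl
    have := Nat.le_of_dvd one_pos ((Nat.dvd_add_right hd).1 h9)
    omega

lemma pair_ineq {v v' G G' z z' w w' : ℕ} (h1 : 2 * v + w ≤ G * G + G + 2 * z * G)
    (h2 : 2 * v' + w' ≤ G' * G' + G' + 2 * z' * G') (h3 : z ≤ G') (h4 : G' + z' ≤ G + z)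
    (h5 : 2 * (z * z') ≤ 2 * ((G' - z) * (G' - z)) + w + w') :
    2 * (v + v') ≤ (G + G') * (G + G' + 1) := by
  obtain ⟨t, rfl⟩ := Nat.exists_eq_add_of_le h3
  obtain ⟨u, rfl⟩ : ∃ u, G = t + z' + u := ⟨G - (t + z'), by omega⟩
  rw [Nat.add_sub_cancel_left] at h5
  nlinarith [Nat.zero_le (u * t)]

lemma blocks (c M : ℕ) (φ : ℕ → ℕ) :
    ∑ f ∈ range (c * M), φ f = ∑ q ∈ range c, ∑ r ∈ range M, φ (q * M + r) := by
  induction c with
  | zero => simp
  | succ c ih => rw [add_mul, one_mul, sum_range_add, ih, sum_range_succ]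

lemma tri_sum (n : ℕ) : 2 * ∑ q ∈ range n, (n - q) = n * (n + 1) := by
  induction n with
  | zero => simp
  | succ n ih =>
    rw [sum_range_succ']
    simp only [Nat.add_sub_add_right, Nat.sub_zero]
    nlinarith

lemma blocks_ge (c M u : ℕ) (φ : ℕ → ℕ)
    (h : ∀ q < c, ∀ r < M, (c - q) * (M - 1) + u ≤ φ (q * M + r) + r) :
    c * (c + 1) * ((M - 1) * M) + 2 * (c * (M * u)) + c * M ≤
      2 * ∑ f ∈ range (c * M), φ f + c * (M * M) := by
  have h1 : ∀ q ∈ range c, M * ((c - q) * (M - 1) + u) ≤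
      ∑ r ∈ range M, φ (q * M + r) + M.choose 2 := by
    intro q hq
    rw [← sum_range_choose, ← sum_add_distrib]
    have := sum_le_sum (s := range M) (f := fun _ => (c - q) * (M - 1) + u)
      fun r hr => h q (mem_range.1 hq) r (mem_range.1 hr)
    rwa [sum_const, card_range, smul_eq_mul] at this
  have h2 := sum_le_sum h1
  rw [sum_add_distrib, ← blocks, sum_const, card_range, smul_eq_mul, ← mul_sum, sum_add_distrib,
    ← sum_mul, sum_const, card_range, smul_eq_mul] at h2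
  rw [← tri_sum c, ← two_choose M]
  nlinarith

lemma div_block {M q r : ℕ} (hr : r < M) : (q * M + r) / M = q := by
  rw [add_comm, Nat.add_mul_div_right _ _ (by omega), Nat.div_eq_of_lt hr, zero_add]

lemma sum_row_le (P : ℕ → ℕ → Prop) {n : ℕ} (hn : n ≤ N) (c : ℕ) :
    ∑ b ∈ range n, row N P b c ≤ ∑ b ∈ range N, row N P b c :=
  sum_le_sum_of_subset (range_subset_range.2 hn)

lemma Sh.tip (h : Sh M N U) (hM : 3 ≤ M) (d : Dat N (U j) a k s G (z + 1))
    (t' : Thr N (U (j + 1)) a 0) :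
    z = 0 ∧ k = M ∧ s = 0 ∧ (a + 1 + M) * (a + 1 + M + 1) + 2 ≤
      2 * (∑ b ∈ range N, row N (U j) b 0 + ∑ b ∈ range N, row N (U (j + 1)) b 0) := by
  obtain ⟨c, b, e, h1, hb, he, hU, h2, h4⟩ := h.cellR (by omega) d
  have h0 := Nat.zero_le (s / M)
  have h5 : e < a := by
    by_contra hc
    obtain ⟨l, rfl⟩ := Nat.exists_eq_add_of_le (not_lt.1 hc)
    have h6 := (h.lv _).thr_le t' l
    have h7 := t'.stop
    have h8 := (h.lv _).ec_pos hU (Nat.zero_le b)
    rw [add_zero] at h6 h7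
    omega
  have h5' : s < c * M := lt_mul_of_div (by omega) (by omega)
  have h6 := ((h.lv j).dat_cell (by omega) d (by rw [add_mul]; omega) h2).2
  have h7 := d.sum
  have h8 : z * 2 ≤ z * (M - 1) := Nat.mul_le_mul_left z (by omega)
  rw [add_mul] at h6
  obtain rfl : z = 0 := by omega
  obtain rfl : k = M := by omega
  obtain rfl : s = 0 := by omega
  refine ⟨rfl, rfl, rfl, ?_⟩
  have h9 : (c + 1) * k = a + k + 1 := by
    have h10 := (h.lv j).lo _ _ h2
    by_contra hc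
    have h11 : U j ((c + 1) * k) (a + k) := (h.lv j).X _ _ h2 (by omega)
    have h12 := (h.lv j).ec_split (Nat.zero_le (c * k)) (a + k)
    have h13 := (h.lv j).ec_split (s := c * k) (s' := c * k + k) (by omega) (a + k)
    rw [filter_true_of_mem, Nat.card_Ico] at h13
    · have h14 := (h.lv j).ec_pos (s := c * k + k) h11 (by rw [add_mul]; omega)
      have h15 := d.eq
      omega
    · intro x hx
      obtain ⟨hx1, hx2⟩ := mem_Ico.1 hx
      obtain ⟨r, rfl⟩ := Nat.exists_eq_add_of_le hx1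
      exact h4 r (by omega)
  have h10 : c * k = a + 1 := by rw [add_mul] at h9; omega
  have h11 := (h.lv j).bd _ _ h2
  have hA := blocks_ge (c + 1) k 1 (fun b => row N (U j) b 0) (by
    intro q hq r hr
    have hq1 : q * k ≤ c * k := Nat.mul_le_mul_right k (by omega)
    obtain ⟨n, hn⟩ : ∃ n, (c + 1) * k = q * k + r + n := ⟨(c + 1) * k - (q * k + r), by omega⟩
    obtain ⟨d', h12, h13⟩ := (h.lv j).asc (q * k + r) n _ (hn ▸ h2)
    rw [← hn, div_block hr, Nat.mul_div_cancel _ (by omega)] at h13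
    have h14 := (h.lv j).row_ge h12
    obtain ⟨p, rfl⟩ : ∃ p, c = q + p := ⟨c - q, by omega⟩
    obtain ⟨k, rfl⟩ : ∃ k', k = k' + 1 := ⟨k - 1, by omega⟩
    rw [show q + p + 1 - q = p + 1 by omega, Nat.add_sub_cancel]
    nlinarith)
  have hB := blocks_ge c k 0 (fun b => row N (U (j + 1)) b 0) (by
    intro q hq r hr
    have hq1 : (q + 1) * k ≤ c * k := Nat.mul_le_mul_right k (by omega)
    rw [add_mul] at hq1
    obtain ⟨p, rfl⟩ : ∃ p, c = q + p + 1 := ⟨c - q - 1, by omega⟩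
    rw [show q + p + 1 - q = p + 1 by omega]
    by_cases hbq : q * k + r ≤ b
    · obtain ⟨n, hn⟩ := Nat.exists_eq_add_of_le hbq
      obtain ⟨d', h12, h13⟩ := (h.lv _).asc (q * k + r) n _ (hn ▸ hU)
      have h15 : b = (q + p) * k + (k - 2) := by rw [add_mul (q + p)] at hb; omega
      rw [← hn, div_block hr, h15, div_block (by omega)] at h13
      have h14 := (h.lv _).row_ge h12
      obtain ⟨k, rfl⟩ : ∃ k', k = k' + 1 := ⟨k - 1, by omega⟩
      rw [Nat.add_sub_cancel]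
      nlinarith
    · have h15 : p * k < 1 * k := by
        rw [add_mul, add_mul] at hb
        omega
      obtain rfl : p = 0 := by have := Nat.lt_of_mul_lt_mul_right h15; omega
      rw [add_zero, add_mul] at hb
      omega)
  have hC := sum_row_le (N := N) (U j) (n := (c + 1) * k + 1) (by omega) 0
  have hD := sum_row_le (N := N) (U (j + 1)) (n := c * k) (by omega) 0
  have hE := (h.lv j).row_ge h2
  rw [sum_range_succ] at hC
  obtain ⟨c, rfl⟩ : ∃ c', c = c' + 1 := ⟨c - 1, by omega⟩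
  obtain ⟨k, rfl⟩ : ∃ k', k = k' + 3 := ⟨k - 3, by omega⟩
  rw [← h10]
  rw [show k + 3 - 1 = k + 2 from rfl] at hA hB
  generalize ∑ f ∈ range ((c + 1 + 1) * (k + 3)), row N (U j) f 0 = SA at hA hC
  generalize ∑ f ∈ range ((c + 1) * (k + 3)), row N (U (j + 1)) f 0 = SB at hB hD
  have hF : 1 ≤ row N (U j) ((c + 1 + 1) * (k + 3)) 0 := by omega
  nlinarith [Nat.zero_le (c * k), Nat.zero_le (c * c * k), Nat.zero_le (c * k * k),
    Nat.zero_le (c * c * k * k), Nat.zero_le (k * k), Nat.zero_le (c * c)]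

end Pool.Agent.Lib.MP_a430e8_ag.MHall
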