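import Pool.Agent.Lib.MP_a430e8_ag.MBase

/-! Initial monomials of a subspace, the torus limit and the monomial quotient. -/

namespace Pool.Agent.Lib.MP_a430e8_ag
open Finset MvPolynomial Filter Topology

namespace MInit

/-- An additive weight refining the weights `1, 1, 2`. -/
def ww (L : ℕ) (p : Cell) : ℕ := L * L * (p.1 + p.2.1 + 2 * p.2.2) + (L * p.2.2 + p.2.1)

lemma lex {L x y r s : ℕ} (hr : r < L) (h : L * y + s ≤ L * x + r) : y ≤ x := by
  by_contra h1
  have := Nat.mul_le_mul_left L (Nat.succ_le_of_lt (not_le.1 h1))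
  rw [Nat.mul_succ] at this
  omega

lemma ww_le {L : ℕ} {p q : Cell} (hq : q ∈ tet L) (h : ww L p ≤ ww L q) :
    p.1 + p.2.1 + 2 * p.2.2 ≤ q.1 + q.2.1 + 2 * q.2.2 := by
  rw [mem_tet] at hq
  refine lex ?_ h
  have := Nat.mul_le_mul_left L (show q.2.2 + 1 ≤ L by omega)
  rw [Nat.mul_succ] at this
  omega

lemma ww_inj {L : ℕ} {p q : Cell} (hp : p ∈ tet L) (hq : q ∈ tet L) (h : ww L p = ww L q) :
    p = q := by
  have h1 := le_antisymm (ww_le hq h.le) (ww_le hp h.ge)
  rw [ww, ww, h1, add_right_inj] at h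
  rw [mem_tet] at hp hq
  have h2 := le_antisymm (lex (by omega) h.le) (lex (by omega) h.ge)
  rw [h2, add_right_inj] at h
  exact Prod.ext (by omega) (Prod.ext h h2)

lemma torus {R : Type} [CommRing R] [Algebra ℂ R] (L : ℕ) {D : Finset Cell} (hD : D ⊆ tet L)
    (c : D → Cell → ℂ) (h1 : ∀ p, c p p = 1) (h2 : ∀ p q, c p q ≠ 0 → q = p ∨ ww L p < ww L q)
    (h : GoodIn R D) : ∃ v : Fin 3 → R,
      LinearIndependent ℂ fun p : D => aeval v (∑ q ∈ tet L, c p q • mono3 q) := by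
  classical
  obtain ⟨x, y, z, h⟩ := h
  obtain ⟨Λ, hΛ⟩ := LinearMap.exists_leftInverse_of_injective
    (Fintype.linearCombination ℂ (fun p : D => mon x y z p))
    (LinearMap.ker_eq_bot.2 (linearIndependent_iff_injective_fintypeLinearCombination.1 h))
  let G : ℂ → D → D → ℂ := fun t p =>
    ∑ q ∈ tet L, (c p q * t ^ (ww L q - ww L p)) • Λ (mon x y z q)
  have hc : Continuous G := by
    refine continuous_pi fun p => ?_
    simp only [G]
    fun_prop
  have h0 : LinearIndependent ℂ (G 0) := by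
    have : G 0 = fun p => Pi.single p 1 := by
      funext p
      have := LinearMap.congr_fun hΛ (Pi.single p 1)
      simp only [LinearMap.comp_apply, LinearMap.id_apply,
        Fintype.linearCombination_apply_single, one_smul] at this
      simp only [G]
      rw [sum_eq_single_of_mem p.1 (hD p.2) fun q _ hq => ?_]
      · simp [h1, this]
      · by_cases h3 : c p q = 0
        · simp [h3]
        · rw [zero_pow (Nat.sub_ne_zero_of_lt ((h2 p q h3).resolve_left hq)), mul_zero, zero_smul]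
    rw [this]
    exact Pi.linearIndependent_single_one _ ℂ
  have h3 : ∀ᶠ t in 𝓝[≠] (0 : ℂ), LinearIndependent ℂ (G t) ∧ t ≠ 0 :=
    ((hc.continuousAt.eventually h0.eventually).filter_mono nhdsWithin_le_nhds).and
      self_mem_nhdsWithin
  obtain ⟨t, ht, ht0⟩ := h3.exists
  refine ⟨![t ^ (L * L) • x, t ^ (L * L + 1) • y, t ^ (L * L * 2 + L) • z],
    LinearIndependent.of_comp Λ ?_⟩
  refine cast (congrArg (LinearIndependent ℂ ·) (_root_.funext fun p => Eq.symm ?_))
    (ht.units_smul fun p => Units.mk0 (t ^ ww L p) (pow_ne_zero _ ht0))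
  simp only [Function.comp_apply, map_sum, map_smul, Pi.smul_apply', G, smul_sum, Units.smul_def,
    Units.val_mk0, smul_smul]
  refine sum_congr rfl fun q _ => ?_
  have e : aeval ![t ^ (L * L) • x, t ^ (L * L + 1) • y, t ^ (L * L * 2 + L) • z] (mono3 q) =
      t ^ ww L q • mon x y z q := by
    simp only [mono3, mon, map_mul, map_pow, aeval_X, Matrix.cons_val, smul_pow, smul_mul_smul_comm,
      ← pow_mul, ← pow_add]
    congr 2
    rw [ww]
    ring
  rw [e, map_smul, smul_smul]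
  by_cases h3 : c p q = 0
  · simp [h3]
  · have : ww L p ≤ ww L q := (h2 p q h3).elim (fun h => h ▸ le_rfl) le_of_lt
    rw [mul_left_comm, ← pow_add, Nat.add_sub_cancel' this]

lemma Flat_down {E : Finset Cell} {m : ℕ} (h : Flat E m) {p q : Cell} (hp : p ∈ E)
    (hq : ex3 q ≤ ex3 p) : q ∈ E := by
  obtain ⟨a, b, j⟩ := p
  obtain ⟨a', b', j'⟩ := q
  have h0 := hq 0
  have h1 := hq 1
  have h2 := hq 2
  have h3 := (h.lt _ hp).1
  simp [ex3] at h0 h1 h2 h3
  obtain rfl : j' = j := by omega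
  have h4 : (a', b, j') ∈ E := Nat.decreasingInduction (motive := fun a _ => (a, b, j') ∈ E)
    (fun k _ hk => h.x _ _ _ hk) hp h0
  exact Nat.decreasingInduction (motive := fun b _ => (a', b, j') ∈ E)
    (fun k _ hk => h.y _ _ _ hk) h4 h1

end MInit

open MInit

theorem init : InitStmt := by
  classical
  intro W _ K hW
  obtain ⟨e, he⟩ : ∃ e, W ≤ Vd e := by
    obtain ⟨T, rfl⟩ := Module.Finite.iff_fg.1 ‹Module.Finite ℂ W›
    exact ⟨T.sup totalDegree, Submodule.span_le.2 fun F hF => mem_Vd.2 (le_sup hF)⟩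
  have hs : ∀ F ∈ W, ∀ q, F.coeff (ex3 q) ≠ 0 → q ∈ tet (e + 1) := fun F hF q hq => by
    rw [eq_sum_tet (he hF), coeff_sum_mono3 _ (fun κ => F.coeff (ex3 κ))] at hq
    exact (ite_ne_right_iff.1 hq).1
  let D := (tet (e + 1)).filter fun p => ∃ F ∈ W, F.coeff (ex3 p) = 1 ∧
    ∀ q, F.coeff (ex3 q) ≠ 0 → q = p ∨ ww (e + 1) p < ww (e + 1) q
  choose h h1 h2 h3 using fun p : D => (mem_filter.1 p.2).2
  have key : ∀ (R : Type) [CommRing R] [Algebra ℂ R], GoodIn R D →
      ∃ v : Fin 3 → R, LinearIndependent ℂ fun p => aeval v (h p) := fun R _ _ hR => by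
    simpa only [← eq_sum_tet (he (h1 _))] using
      torus (e + 1) (filter_subset _ _) (fun p q => (h p).coeff (ex3 q)) h2 h3 hR
  have h4 : LinearIndependent ℂ fun p => (⟨h p, h1 p⟩ : W) := by
    obtain ⟨v, hv⟩ := key P3 ⟨_, _, _, indep_mono3 D⟩
    exact LinearIndependent.of_comp ((aeval v).toLinearMap.comp W.subtype) hv
  have h5 : Fintype.card D = Module.finrank ℂ W := by
    refine le_antisymm h4.fintype_card_le_finrank ?_
    rw [← Module.finrank_fintype_fun_eq_card ℂ]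
    refine LinearMap.finrank_le_finrank_of_injective (f := LinearMap.pi fun p : D =>
      (lcoeff ℂ (ex3 p)).comp W.subtype) (LinearMap.ker_eq_bot.1 (LinearMap.ker_eq_bot'.2 ?_))
    rintro ⟨F, hF⟩ h0
    by_contra h6
    obtain ⟨s, h7⟩ := ne_zero_iff.1 fun h => h6 (Subtype.ext h)
    rw [← ex3_surj s] at h7
    obtain ⟨p, hp, h8⟩ := ((tet (e + 1)).filter fun q => F.coeff (ex3 q) ≠ 0).exists_min_image
      (ww (e + 1)) ⟨_, mem_filter.2 ⟨hs F hF _ h7, h7⟩⟩
    obtain ⟨h9, hp⟩ := mem_filter.1 hp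
    refine hp (congrFun h0 ⟨p, mem_filter.2 ⟨h9, (F.coeff (ex3 p))⁻¹ • F, W.smul_mem _ hF,
      by simp [hp], fun q hq => ?_⟩⟩)
    have a1 : F.coeff (ex3 q) ≠ 0 := fun h => hq (by simp [h])
    exact (h8 q (mem_filter.2 ⟨hs F hF q a1, a1⟩)).eq_or_lt.imp_left fun h =>
      (ww_inj h9 (hs F hF q a1) h).symm
  refine ⟨D, by rw [← h5, Fintype.card_coe], fun p hp => ?_, fun R _ _ hR => ?_⟩
  · by_contra h6
    have h7 := hW _ (h1 ⟨p, hp⟩) (by
      rw [eq_sum_tet (he (h1 ⟨p, hp⟩))]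
      refine sum_mem fun q hq => ?_
      by_cases a1 : (h ⟨p, hp⟩).coeff (ex3 q) = 0
      · simp [a1]
      · refine Submodule.smul_of_tower_mem _ _ (Ideal.subset_span ⟨q, ?_, rfl⟩)
        exact (not_le.1 h6).trans_le
          (ww_le hq ((h3 _ q a1).elim (fun h => h ▸ le_rfl) le_of_lt)))
    simpa [h7] using h2 ⟨p, hp⟩
  · obtain ⟨v, hv⟩ := key R hR
    refine ⟨v, fun F hF h0 => ?_⟩
    obtain ⟨c, hc⟩ := (Submodule.mem_span_range_iff_exists_fun ℂ).1
      ((h4.span_eq_top_of_card_eq_finrank' h5).ge (Submodule.mem_top (x := ⟨F, hF⟩)))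
    obtain rfl : ∑ p, c p • h p = F := by simpa using congrArg W.subtype hc
    simp [Fintype.linearIndependent_iff.1 hv c (by simpa using h0)]

theorem lemmaU (hI : InitStmt) (hG : GameStmt) : UStmt := by
  classical
  intro W _ K m hW hK hm
  obtain ⟨D, h1, h2, h3⟩ := hI W K hW
  obtain ⟨E, h4, h5, h6⟩ := hG D K m h2 hK (h1 ▸ hm)
  let J : Ideal P3 := Ideal.span ((fun s => monomial s (1 : ℂ)) '' (ex3 '' {p | p ∉ E}))
  have hJ : ∀ p ∉ E, mono3 p ∈ J := fun p hp =>
    Ideal.subset_span ⟨_, ⟨p, hp, rfl⟩, (mono3_eq p).symm⟩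
  have h7 : GoodIn (P3 ⧸ J) E := by
    refine ⟨Ideal.Quotient.mkₐ ℂ J (X 0), Ideal.Quotient.mkₐ ℂ J (X 1),
      Ideal.Quotient.mkₐ ℂ J (X 2), Fintype.linearIndependent_iff.2 fun g hg p => ?_⟩
    have h7 : ∑ q : E, g q • mono3 q ∈ J := by
      rw [← Ideal.Quotient.eq_zero_iff_mem, ← Ideal.Quotient.mkₐ_eq_mk ℂ, ← hg, map_sum]
      exact sum_congr rfl fun q _ => by rw [map_smul, mono3, map_mon]
    by_contra h8
    obtain ⟨_, ⟨q, hq, rfl⟩, h9⟩ := mem_ideal_span_monomial_image.1 h7 (ex3 p) (by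
      rw [mem_support_iff, coeff_sum, sum_eq_single p fun q _ hq => by
        rw [coeff_smul, mono3_eq, coeff_monomial, if_neg fun h => hq (Subtype.ext (ex3_inj h)),
          smul_zero]] <;> simp [mono3_eq, h8])
    exact hq (Flat_down h6 p.2 h9)
  obtain ⟨v, hv⟩ := h3 _ (h4 _ h7)
  choose u hu using fun i => Ideal.Quotient.mkₐ_surjective ℂ J (v i)
  refine ⟨J, u, sup_le ?_ fun F hF => ?_, (quot_le hJ).1, by rw [← h1, ← h5]; exact (quot_le hJ).2,
    fun F hF h => hv F hF ?_⟩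
  · rw [Ideal.span_le, Set.singleton_subset_iff]
    simpa [mono3, mon] using hJ (0, 0, 1) fun h => by simpa using (h6.lt _ h).1
  · rw [eq_sum_mono3 F]
    refine sum_mem fun s hs => Submodule.smul_of_tower_mem _ _ (hJ _ fun h => ?_)
    have := h6.lt _ h
    exact mem_support_iff.1 hs (by
      simpa only [ex3_surj] using mem_m3_pow.1 hF (s 0, s 1, s 2) (mem_tet.2 (by omega)))
  · rw [← _root_.funext hu, ← comp_aeval_apply]
    exact Ideal.Quotient.eq_zero_iff_mem.2 h

end Pool.Agent.Lib.MP_a430e8_ag
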