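import Pool.Agent.Lib.MP_a430e8_ag.MBase

/-! Mixing of open conditions and the abstract configuration of several fat points. -/

namespace Pool.Agent.Lib.MP_a430e8_ag
open Finset MvPolynomial Module

namespace MMix

section Lin
variable {P Q : Type} [AddCommGroup P] [Module ℂ P] [AddCommGroup Q] [Module ℂ Q]

lemma add_le {V A B : Submodule ℂ P} [Module.Finite ℂ V] (hA : A ≤ V) (hB : B ≤ V)
    (h : Disjoint A B) : finrank ℂ A + finrank ℂ B ≤ finrank ℂ V := by
  have := Submodule.finiteDimensional_of_le hA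
  have := Submodule.finiteDimensional_of_le hB
  have h1 := Submodule.finrank_sup_add_finrank_inf_eq A B
  rw [h.eq_bot, finrank_bot, add_zero] at h1
  rw [← h1]
  exact Submodule.finrank_mono (sup_le hA hB)

lemma exists_disj {V K : Submodule ℂ P} [Module.Finite ℂ V] (hK : K ≤ V) (n : ℕ) :
    n + finrank ℂ K ≤ finrank ℂ V →
      ∃ A : Submodule ℂ P, A ≤ V ∧ finrank ℂ A = n ∧ Disjoint A K := by
  intro hn
  obtain ⟨C, hC⟩ := Submodule.exists_isCompl (K.comap V.subtype)
  have h1 := Submodule.finrank_add_eq_of_isCompl hC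
  rw [(Submodule.comapSubtypeEquivOfLe hK).finrank_eq] at h1
  obtain ⟨f, hf⟩ := exists_linearIndependent_of_le_finrank (R := ℂ) (M := C) (n := n) (by omega)
  have hinj : LinearMap.ker (V.subtype ∘ₗ C.subtype) = ⊥ :=
    LinearMap.ker_eq_bot.2 (V.injective_subtype.comp C.injective_subtype)
  have hf' := hf.map' _ hinj
  refine ⟨Submodule.span ℂ (Set.range ((V.subtype ∘ₗ C.subtype) ∘ f)), ?_, ?_, ?_⟩
  · rw [Submodule.span_le]
    rintro _ ⟨a, rfl⟩
    exact (f a).1.2
  · rw [finrank_span_eq_card hf', Fintype.card_fin]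
  · have h2 : Submodule.span ℂ (Set.range ((V.subtype ∘ₗ C.subtype) ∘ f)) ≤ C.map V.subtype := by
      rw [Submodule.span_le]
      rintro _ ⟨a, rfl⟩
      exact ⟨(f a).1, (f a).2, rfl⟩
    refine Disjoint.mono_left h2 (Submodule.disjoint_def.2 ?_)
    rintro _ ⟨x, hx, rfl⟩ hxK
    rw [Submodule.disjoint_def.1 hC.disjoint x hxK hx, map_zero]

/-- The kernel of a polynomial family of linear maps does not grow outside a finite set. -/
lemma semi (V : Submodule ℂ P) [Module.Finite ℂ V] (T : ℂ → P →ₗ[ℂ] Q)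
    (hT : ∀ (l : Q →ₗ[ℂ] ℂ) (F : P), ∃ p : Polynomial ℂ, ∀ t, p.eval t = l (T t F)) (t₀ : ℂ) :
    ∃ D : Polynomial ℂ, D ≠ 0 ∧ ∀ t, D.eval t ≠ 0 →
      finrank ℂ ↥(V ⊓ LinearMap.ker (T t)) ≤ finrank ℂ ↥(V ⊓ LinearMap.ker (T t₀)) := by
  classical
  have h0 : finrank ℂ ↥(V ⊓ LinearMap.ker (T t₀)) ≤ finrank ℂ V :=
    Submodule.finrank_mono inf_le_left
  obtain ⟨A, hA, hn, hd⟩ := exists_disj (V := V) (K := V ⊓ LinearMap.ker (T t₀)) inf_le_left
    (finrank ℂ V - finrank ℂ ↥(V ⊓ LinearMap.ker (T t₀))) (by omega)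
  have := Submodule.finiteDimensional_of_le hA
  let b := Module.finBasis ℂ A
  obtain ⟨L, hL⟩ := LinearMap.exists_leftInverse_of_injective (T t₀ ∘ₗ A.subtype) (by
    rw [LinearMap.ker_eq_bot']
    intro x hx
    exact Subtype.ext (Submodule.disjoint_def.1 hd x x.2 ⟨hA x.2, hx⟩))
  choose p hp using fun i j => hT (b.coord i ∘ₗ L) (b j)
  have key : ∀ t, (Matrix.of p).det.eval t = LinearMap.det (L ∘ₗ T t ∘ₗ A.subtype) := by
    intro t
    rw [← LinearMap.det_toMatrix b, ← Polynomial.coe_evalRingHom, RingHom.map_det]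
    congr 1
    ext i j
    rw [LinearMap.toMatrix_apply]
    exact hp i j t
  refine ⟨(Matrix.of p).det, fun h => ?_, fun t ht => ?_⟩
  · have h1 := key t₀
    rw [h, hL, LinearMap.det_id, Polynomial.eval_zero] at h1
    exact zero_ne_one h1
  · rw [key] at ht
    have h1 : LinearMap.ker (L ∘ₗ T t ∘ₗ A.subtype) = ⊥ := by
      by_contra h
      exact ht (LinearMap.det_eq_zero_iff_ker_ne_bot.2 h)
    have h2 : Disjoint A (V ⊓ LinearMap.ker (T t)) := by
      refine Submodule.disjoint_def.2 fun x hx hx' => ?_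
      have h3 : (⟨x, hx⟩ : A) = 0 := by
        refine LinearMap.ker_eq_bot'.1 h1 _ ?_
        have h4 : T t x = 0 := hx'.2
        simp [h4]
      exact congrArg Subtype.val h3
    have h3 := add_le hA (inf_le_left (b := LinearMap.ker (T t))) h2
    omega

end Lin

/-- The evaluation map to the product of the quotients. -/
noncomputable def evq {r : ℕ} (J : Fin r → Ideal P3) (u : Fin r → Fin 3 → P3) :
    P3 →ₗ[ℂ] ∀ i, P3 ⧸ J i :=
  LinearMap.pi fun i => (Ideal.Quotient.mkₐ ℂ (J i)).toLinearMap ∘ₗ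
    (aeval (u i) : P3 →ₐ[ℂ] P3).toLinearMap

lemma ev_apply {r : ℕ} (J : Fin r → Ideal P3) (u : Fin r → Fin 3 → P3) (F : P3) (i : Fin r) :
    evq J u F i = Ideal.Quotient.mk (J i) (aeval (u i) F) := rfl

lemma mem_inf {r : ℕ} {J : Fin r → Ideal P3} {u : Fin r → Fin 3 → P3} {F : P3} :
    F ∈ ⨅ i, kr (u i) (J i) ↔ ∀ i, aeval (u i) F ∈ J i := by
  simp only [Submodule.mem_iInf, mem_kr]

lemma ker_ev {r : ℕ} (J : Fin r → Ideal P3) (u : Fin r → Fin 3 → P3) :
    LinearMap.ker (evq J u) = ⨅ i, kr (u i) (J i) := by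
  ext F
  rw [mem_inf, LinearMap.mem_ker, funext_iff]
  exact forall_congr' fun i => Ideal.Quotient.eq_zero_iff_mem

lemma poly_one (u d : Fin 3 → P3) (l : P3 →ₗ[ℂ] ℂ) (F : P3) :
    ∃ p : Polynomial ℂ, ∀ t, p.eval t = l (aeval (fun k => u k + t • d k) F) := by
  have h : ∃ G : Polynomial P3, ∀ t : ℂ, G.eval (C t) = aeval (fun k => u k + t • d k) F := by
    induction F using MvPolynomial.induction_on with
    | C a => exact ⟨Polynomial.C (C a), fun t => by simp⟩
    | add F F' h h' =>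
      obtain ⟨G, h⟩ := h
      obtain ⟨G', h'⟩ := h'
      exact ⟨G + G', fun t => by rw [Polynomial.eval_add, h, h', map_add]⟩
    | mul_X F k h =>
      obtain ⟨G, h⟩ := h
      refine ⟨G * (Polynomial.C (u k) + Polynomial.X * Polynomial.C (d k)), fun t => ?_⟩
      rw [Polynomial.eval_mul, h, map_mul, aeval_X, Polynomial.eval_add, Polynomial.eval_mul,
        Polynomial.eval_C, Polynomial.eval_C, Polynomial.eval_X, smul_eq_C_mul]
  obtain ⟨G, h⟩ := h
  refine ⟨∑ n ∈ range (G.natDegree + 1), Polynomial.monomial n (l (G.coeff n)), fun t => ?_⟩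
  rw [← h, Polynomial.eval_eq_sum_range (p := G), map_sum, Polynomial.eval_finsetSum]
  refine sum_congr rfl fun n _ => ?_
  rw [Polynomial.eval_monomial, ← map_pow, mul_comm (G.coeff n), ← smul_eq_C_mul, map_smul,
    smul_eq_mul, mul_comm]

lemma poly_ev {r : ℕ} (J : Fin r → Ideal P3) (u d : Fin r → Fin 3 → P3)
    (l : (∀ i, P3 ⧸ J i) →ₗ[ℂ] ℂ) (F : P3) :
    ∃ p : Polynomial ℂ, ∀ t, p.eval t = l (evq J (fun i k => u i k + t • d i k) F) := by
  classical
  choose p hp using fun i => poly_one (u i) (d i)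
    (l ∘ₗ LinearMap.single ℂ (fun i => P3 ⧸ J i) i ∘ₗ (Ideal.Quotient.mkₐ ℂ (J i)).toLinearMap) F
  refine ⟨∑ i, p i, fun t => ?_⟩
  rw [Polynomial.eval_finsetSum,
    ← Finset.univ_sum_single (evq J (fun i k => u i k + t • d i k) F), map_sum]
  exact sum_congr rfl fun i _ => hp i t

end MMix

open MMix

theorem line : LineStmt := by
  intro V _ r J J' u u'
  obtain ⟨D, hD, h⟩ := semi V (fun t => evq J fun i k => u i k + t • (u' i k - u i k))
    (poly_ev J u fun i k => u' i k - u i k) 0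
  obtain ⟨D', hD', h'⟩ := semi V (fun t => evq J' fun i k => u i k + t • (u' i k - u i k))
    (poly_ev J' u fun i k => u' i k - u i k) 1
  obtain ⟨t, ht⟩ : ∃ t, (D * D').eval t ≠ 0 := by
    by_contra hc
    push Not at hc
    exact mul_ne_zero hD hD' (Polynomial.funext fun t => by rw [hc, Polynomial.eval_zero])
  rw [Polynomial.eval_mul] at ht
  have h1 := h t (left_ne_zero_of_mul ht)
  have h2 := h' t (right_ne_zero_of_mul ht)
  have e0 : (fun i k => u i k + (0 : ℂ) • (u' i k - u i k)) = u := by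
    funext i k
    rw [zero_smul, add_zero]
  have e1 : (fun i k => u i k + (1 : ℂ) • (u' i k - u i k)) = u' := by
    funext i k
    rw [one_smul, add_sub_cancel]
  beta_reduce at h1 h2
  rw [e0, ker_ev, ker_ev] at h1
  rw [e1, ker_ev, ker_ev] at h2
  exact ⟨_, h1, h2⟩

namespace MMix

lemma kd_mono (V : Submodule ℂ P3) [Module.Finite ℂ V] {r : ℕ} {J J' : Fin r → Ideal P3}
    (h : ∀ i, J i ≤ J' i) (u : Fin r → Fin 3 → P3) : kd V J u ≤ kd V J' u := by
  have := Submodule.finiteDimensional_of_le (inf_le_left (a := V) (b := ⨅ i, kr (u i) (J' i)))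
  exact Submodule.finrank_mono
    (inf_le_inf_left _ fun F hF => mem_inf.2 fun i => h i (mem_inf.1 hF i))

lemma upd_le {r : ℕ} {J : Fin r → Ideal P3} {i : Fin r} (hi : J i = ⊤) (I : Ideal P3)
    (u : Fin r → Fin 3 → P3) (v : Fin 3 → P3) :
    ⨅ k, kr (Function.update u i v k) (Function.update J i I k) ≤ ⨅ k, kr (u k) (J k) := by
  intro F hF
  refine mem_inf.2 fun k => ?_
  by_cases hk : k = i
  · rw [hk, hi]
    exact Submodule.mem_top
  · have := mem_inf.1 hF k
    rwa [Function.update_of_ne hk, Function.update_of_ne hk] at this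

/-- A weighted fat point is traded for a fat point on a surface germ. -/
lemma step (hU : UStmt) (hL : LineStmt) (V : Submodule ℂ P3) [Module.Finite ℂ V] {r : ℕ}
    {J : Fin r → Ideal P3} {i : Fin r} (hi : J i = ⊤) {K m cap : ℕ} (hK : 2 * K + 1 ≤ m)
    (hc : cap ≤ (m + 1).choose 2) (u₀ u₁ : Fin r → Fin 3 → P3) :
    ∃ (I : Ideal P3) (u : Fin r → Fin 3 → P3), JS m ≤ I ∧ Module.Finite ℂ (P3 ⧸ I) ∧
      finrank ℂ (P3 ⧸ I) ≤ cap ∧ kd V (Function.update J i I) u ≤
        max (kd V (Function.update J i (JW K)) u₁) (kd V J u₀ - cap) := by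
  obtain ⟨w, h0, h1⟩ := hL V r J (Function.update J i (JW K)) u₀ u₁
  have fV := Submodule.finiteDimensional_of_le (inf_le_left (a := V) (b := ⨅ k, kr (w k) (J k)))
  have hle : V ⊓ ⨅ k, kr (w k) (Function.update J i (JW K) k) ≤ V ⊓ ⨅ k, kr (w k) (J k) := by
    have := upd_le hi (JW K) w (w i)
    rw [Function.update_eq_self] at this
    exact inf_le_inf_left _ this
  have hle' : kd V (Function.update J i (JW K)) w ≤ kd V J w := Submodule.finrank_mono hle
  obtain ⟨A, hA, hn, hd⟩ := exists_disj hle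
    (min cap (kd V J w - kd V (Function.update J i (JW K)) w)) (by
      change _ + kd V (Function.update J i (JW K)) w ≤ kd V J w
      omega)
  have fA := Submodule.finiteDimensional_of_le hA
  have hz : ∀ G ∈ A, aeval (w i) G ∈ JW K → G = 0 := by
    intro G hG h
    refine Submodule.disjoint_def.1 hd G hG ⟨(hA hG).1, mem_inf.2 fun k => ?_⟩
    by_cases hk : k = i
    · rw [hk, Function.update_self]
      exact h
    · rw [Function.update_of_ne hk]
      exact mem_inf.1 (hA hG).2 k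
  have hW : finrank ℂ (A.map (aeval (w i) : P3 →ₐ[ℂ] P3).toLinearMap) ≤ cap :=
    (Submodule.finrank_map_le _ _).trans (hn ▸ min_le_left _ _)
  obtain ⟨I, v, h2, h3, h4, h5⟩ := hU (A.map (aeval (w i) : P3 →ₐ[ℂ] P3).toLinearMap) K m (by
    rintro _ ⟨G, hG, rfl⟩ h
    rw [hz G hG h, map_zero]) hK (hW.trans hc)
  refine ⟨I, Function.update w i fun k => aeval v (w i k), h2, h3, h4.trans hW, ?_⟩
  have h6 : Disjoint A (V ⊓ ⨅ k, kr (Function.update w i (fun k => aeval v (w i k)) k)
      (Function.update J i I k)) := by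
    refine Submodule.disjoint_def.2 fun G hG h => hz G hG ?_
    have h7 := mem_inf.1 h.2 i
    rw [Function.update_self, Function.update_self, ← comp_aeval, AlgHom.comp_apply] at h7
    have h8 : aeval (w i) G = 0 := h5 _ ⟨G, hG, rfl⟩ h7
    rw [h8]
    exact zero_mem _
  have h7 := add_le hA (inf_le_inf_left V (upd_le hi I w fun k => aeval v (w i k))) h6
  change _ + kd V (Function.update J i I) (Function.update w i fun k => aeval v (w i k)) ≤
    kd V J w at h7
  omega

lemma JS_ne {m : ℕ} (hm : 1 ≤ m) {c : ℂ} (h : C c ∈ JS m) : c = 0 := by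
  have h1 : m3 ≤ RingHom.ker (constantCoeff : P3 →+* ℂ) := by
    refine Ideal.span_le.2 ?_
    rintro _ ⟨k, rfl⟩
    exact constantCoeff_X ℂ k
  have h2 : JS m ≤ RingHom.ker (constantCoeff : P3 →+* ℂ) :=
    sup_le ((Ideal.span_singleton_le_iff_mem _).2 (constantCoeff_X ℂ 2))
      ((Ideal.pow_le_self (by omega)).trans h1)
  have h3 := h2 h
  rwa [RingHom.mem_ker, constantCoeff_C] at h3

lemma aeval_C_pt (q : Fin 3 → ℂ) (F : P3) :
    aeval (fun k => (C (q k) : P3)) F = C (eval q F) := by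
  induction F using MvPolynomial.induction_on with
  | C a => simp
  | add F F' h h' => rw [map_add, h, h', map_add, map_add]
  | mul_X F k h => rw [map_mul, h, aeval_X, map_mul, eval_X, map_mul]

/-- A point of multiplicity at most one. -/
lemma small (V : Submodule ℂ P3) [Module.Finite ℂ V] {r : ℕ} {J : Fin r → Ideal P3} {i : Fin r}
    (hi : J i = ⊤) {m : ℕ} (hm : m ≤ 1) (u₀ : Fin r → Fin 3 → P3) :
    ∃ u, kd V (Function.update J i (JS m)) u ≤ kd V J u₀ - (m + 1).choose 2 := by
  have fV := Submodule.finiteDimensional_of_le (inf_le_left (a := V) (b := ⨅ k, kr (u₀ k) (J k)))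
  have h0 : ∀ v, kd V (Function.update J i (JS m)) (Function.update u₀ i v) ≤ kd V J u₀ :=
    fun v => Submodule.finrank_mono (inf_le_inf_left V (upd_le hi (JS m) u₀ v))
  rcases Nat.le_one_iff_eq_zero_or_eq_one.1 hm with rfl | rfl
  · exact ⟨_, h0 (u₀ i)⟩
  · by_cases hb : V ⊓ ⨅ k, kr (u₀ k) (J k) = ⊥
    · have h1 : kd V J u₀ = 0 := by
        unfold kd
        rw [hb, finrank_bot]
      exact ⟨_, ((h0 (u₀ i)).trans h1.le).trans (Nat.zero_le _)⟩
    · obtain ⟨F, hF, hF0⟩ := Submodule.exists_mem_ne_zero_of_ne_bot hb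
      obtain ⟨q, hq⟩ : ∃ q : Fin 3 → ℂ, eval q F ≠ 0 := by
        by_contra hc
        push Not at hc
        exact hF0 (MvPolynomial.funext fun q => by rw [hc, map_zero])
      refine ⟨Function.update u₀ i fun k => C (q k), ?_⟩
      have h1 : kd V (Function.update J i (JS 1)) (Function.update u₀ i fun k => C (q k)) <
          kd V J u₀ := by
        refine Submodule.finrank_lt_finrank_of_lt
          (lt_of_le_of_ne (inf_le_inf_left V (upd_le hi _ u₀ _)) fun h => hq ?_)
        rw [← h] at hF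
        have h2 := mem_inf.1 hF.2 i
        rw [Function.update_self, Function.update_self] at h2
        rw [aeval_C_pt] at h2
        exact JS_ne le_rfl h2
      have h2 : (1 + 1).choose 2 = 1 := rfl
      omega

/-- Fat points on surface germs at `I`, weighted fat points at `A`. -/
noncomputable def JJ {r : ℕ} (m : Fin r → ℕ) (I A : Finset (Fin r)) (i : Fin r) : Ideal P3 :=
  if i ∈ I then JS (m i) else if i ∈ A then JW ((m i - 1) / 2) else ⊤

lemma JJ_top {r : ℕ} (m : Fin r → ℕ) {I A : Finset (Fin r)} {i : Fin r} (hI : i ∉ I)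
    (hA : i ∉ A) : JJ m I A i = ⊤ := by
  rw [JJ, if_neg hI, if_neg hA]

lemma JJ_left {r : ℕ} (m : Fin r → ℕ) (I A : Finset (Fin r)) (i : Fin r) :
    JJ m (insert i I) A = Function.update (JJ m I A) i (JS (m i)) := by
  funext k
  by_cases hk : k = i
  · rw [hk, Function.update_self, JJ, if_pos (mem_insert_self _ _)]
  · rw [Function.update_of_ne hk]
    simp only [JJ, mem_insert, hk, false_or]

lemma JJ_right {r : ℕ} (m : Fin r → ℕ) {I : Finset (Fin r)} (A : Finset (Fin r)) {i : Fin r}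
    (hI : i ∉ I) :
    JJ m I (insert i A) = Function.update (JJ m I A) i (JW ((m i - 1) / 2)) := by
  funext k
  by_cases hk : k = i
  · rw [hk, Function.update_self, JJ, if_neg hI, if_pos (mem_insert_self _ _)]
  · rw [Function.update_of_ne hk]
    simp only [JJ, mem_insert, hk, false_or]

lemma big_le {e m : ℕ} (h : Big e m) : 2 * ((m - 1) / 2) + 1 ≤ m := by
  unfold Big at h
  omega

lemma mixed (hU : UStmt) (hL : LineStmt) (hB : BaseStmt) {e r : ℕ} {m : Fin r → ℕ}
    (hm : ∀ i, m i ≤ 1 ∨ Big e (m i)) (I : Finset (Fin r)) :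
    ∀ A : Finset (Fin r), Disjoint I A → (∀ i ∈ A, Big e (m i)) →
      ∃ u, kd (Vd e) (JJ m I A) u ≤ (e + 3).choose 3 -
        (∑ i ∈ I, (m i + 1).choose 2 + ∑ i ∈ A, (m i + 1).choose 2) := by
  induction I using Finset.induction_on with
  | empty =>
    intro A _ hA
    obtain ⟨u, hu⟩ := hB e r m A hA
    have h1 : JJ m ∅ A = fun i => if i ∈ A then JW ((m i - 1) / 2) else ⊤ := by
      funext k
      rw [JJ, if_neg (notMem_empty _)]
    refine ⟨u, ?_⟩
    rw [h1, sum_empty]
    omega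
  | insert i I hi ih =>
    intro A hd hA
    obtain ⟨hiA, hd'⟩ := disjoint_insert_left.1 hd
    obtain ⟨u₀, h0⟩ := ih A hd' hA
    rw [JJ_left, sum_insert hi]
    rcases hm i with h | h
    · obtain ⟨u, hu⟩ := small (Vd e) (JJ_top m hi hiA) h u₀
      exact ⟨u, by omega⟩
    · obtain ⟨u₁, h1⟩ := ih (insert i A) (disjoint_insert_right.2 ⟨hi, hd'⟩)
        (fun k hk => (mem_insert.1 hk).elim (fun e => e ▸ h) (hA k))
      rw [JJ_right m A hi, sum_insert hiA] at h1
      obtain ⟨I', u, h2, -, -, h3⟩ := step hU hL (Vd e) (JJ_top m hi hiA) (big_le h) le_rfl u₀ u₁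
      refine ⟨u, (kd_mono (Vd e) (fun k => ?_) u).trans (h3.trans (by omega))⟩
      by_cases hk : k = i
      · rw [hk, Function.update_self, Function.update_self]
        exact h2
      · rw [Function.update_of_ne hk, Function.update_of_ne hk]

lemma surj (V : Submodule ℂ P3) [Module.Finite ℂ V] {r : ℕ} {J : Fin r → Ideal P3}
    {u : Fin r → Fin 3 → P3} {c : Fin r → ℕ} (hf : ∀ i, Module.Finite ℂ (P3 ⧸ J i))
    (hc : ∀ i, finrank ℂ (P3 ⧸ J i) ≤ c i) (h : ∑ i, c i + kd V J u ≤ finrank ℂ V)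
    (g : Fin r → P3) : ∃ F ∈ V, ∀ i, aeval (u i) F - g i ∈ J i := by
  have h1 := LinearMap.finrank_range_add_finrank_ker (evq J u ∘ₗ V.subtype)
  have h2 : finrank ℂ (LinearMap.ker (evq J u ∘ₗ V.subtype)) = kd V J u := by
    have h0 : (⨅ i, kr (u i) (J i)).comap V.subtype =
        (V ⊓ ⨅ i, kr (u i) (J i)).comap V.subtype :=
      Submodule.ext fun x => ⟨fun h => ⟨x.2, h⟩, fun h => h.2⟩
    rw [LinearMap.ker_comp, ker_ev, h0]
    exact (Submodule.comapSubtypeEquivOfLe inf_le_left).finrank_eq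
  have h3 : finrank ℂ (∀ i, P3 ⧸ J i) ≤ ∑ i, c i := by
    rw [Module.finrank_pi_fintype]
    exact sum_le_sum fun i _ => hc i
  have h4 : LinearMap.range (evq J u ∘ₗ V.subtype) = ⊤ :=
    Submodule.eq_top_of_finrank_eq (le_antisymm (Submodule.finrank_le _) (by omega))
  obtain ⟨F, hF⟩ := LinearMap.range_eq_top.1 h4 fun i => Ideal.Quotient.mk (J i) (g i)
  exact ⟨F.1, F.2, fun i => Ideal.Quotient.eq.1 (congrFun hF i)⟩

lemma quot_JJ {r : ℕ} (m : Fin r → ℕ) (I : Finset (Fin r)) (i : Fin r) :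
    JS (m i) ≤ JJ m I ∅ i ∧ Module.Finite ℂ (P3 ⧸ JJ m I ∅ i) ∧
      finrank ℂ (P3 ⧸ JJ m I ∅ i) ≤ if i ∈ I then (m i + 1).choose 2 else 0 := by
  by_cases h : i ∈ I
  · rw [if_pos h, show JJ m I ∅ i = JS (m i) from if_pos h]
    exact ⟨le_rfl, quot_JS _⟩
  · rw [if_neg h, JJ_top m h (notMem_empty _)]
    exact ⟨le_top, quot_le (E := ∅) fun _ _ => Submodule.mem_top⟩

end MMix

theorem config (hU : UStmt) (hL : LineStmt) (hB : BaseStmt) : ConfigStmt := by
  intro e r m hm
  obtain ⟨I, hI, hmax⟩ := exists_max_image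
    ((univ : Finset (Finset (Fin r))).filter
      fun I => ∑ i ∈ I, (m i + 1).choose 2 ≤ (e + 3).choose 3) card
    ⟨∅, mem_filter.2 ⟨mem_univ _, by simp⟩⟩
  have hI' := (mem_filter.1 hI).2
  have hout : ∀ j ∉ I, (e + 3).choose 3 < (m j + 1).choose 2 + ∑ i ∈ I, (m i + 1).choose 2 := by
    intro j hj
    by_contra hc
    have := hmax (insert j I) (mem_filter.2 ⟨mem_univ _, by rw [sum_insert hj]; omega⟩)
    rw [card_insert_of_notMem hj] at this
    omega
  have hall : ∀ j ∉ I, (e + 3).choose 3 < ∑ i, (m i + 1).choose 2 := fun j hj =>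
    (hout j hj).trans_le (by
      rw [← sum_insert (f := fun i => (m i + 1).choose 2) hj]
      exact sum_le_sum_of_subset (subset_univ _))
  have hsum : ∑ i, (if i ∈ I then (m i + 1).choose 2 else 0) = ∑ i ∈ I, (m i + 1).choose 2 := by
    rw [sum_ite_mem, univ_inter]
  obtain ⟨u₀, h0⟩ := mixed hU hL hB hm I ∅ (disjoint_empty_right _) (by simp)
  rw [sum_empty, add_zero] at h0
  by_cases hc : I = univ ∨ ∑ i ∈ I, (m i + 1).choose 2 = (e + 3).choose 3
  · refine ⟨JJ m I ∅, u₀, fun i => (quot_JJ m I i).1,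
      surj (Vd e) (fun i => (quot_JJ m I i).2.1) (fun i => (quot_JJ m I i).2.2) ?_, ?_⟩
    · rw [hsum, finrank_Vd]
      omega
    · rcases hc with rfl | hc
      · exact h0
      · omega
  · push Not at hc
    obtain ⟨j, hj⟩ : ∃ j, j ∉ I := by
      by_contra h
      push Not at h
      exact hc.1 (eq_univ_iff_forall.2 h)
    have h1 := hout j hj
    have h2 := hc.2
    have hb : Big e (m j) := by
      refine (hm j).resolve_left fun h => ?_
      have : (m j + 1).choose 2 ≤ (1 + 1).choose 2 := Nat.choose_le_choose 2 (by omega)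
      have h3 : (1 + 1).choose 2 = 1 := rfl
      omega
    obtain ⟨u₁, h3⟩ := mixed hU hL hB hm I {j} (disjoint_singleton_right.2 hj)
      (fun k hk => mem_singleton.1 hk ▸ hb)
    rw [← insert_empty_eq, JJ_right m ∅ hj, insert_empty_eq, sum_singleton] at h3
    obtain ⟨I', u, h4, h5, h6, h7⟩ := step hU hL (Vd e) (JJ_top m hj (notMem_empty _)) (big_le hb)
      (cap := (e + 3).choose 3 - ∑ i ∈ I, (m i + 1).choose 2) (by omega) u₀ u₁
    have h8 : kd (Vd e) (Function.update (JJ m I ∅) j I') u = 0 := by omega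
    refine ⟨Function.update (JJ m I ∅) j I', u, fun i => ?_, surj (Vd e)
      (c := fun i => (if i ∈ I then (m i + 1).choose 2 else 0) +
        if i = j then (e + 3).choose 3 - ∑ i ∈ I, (m i + 1).choose 2 else 0)
      (fun i => ?_) (fun i => ?_) ?_, by omega⟩
    · by_cases hi : i = j
      · rw [hi, Function.update_self]
        exact h4
      · rw [Function.update_of_ne hi]
        exact (quot_JJ m I i).1
    · by_cases hi : i = j
      · rw [hi, Function.update_self]
        exact h5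
      · rw [Function.update_of_ne hi]
        exact (quot_JJ m I i).2.1
    · by_cases hi : i = j
      · rw [if_pos hi, hi, Function.update_self]
        omega
      · rw [if_neg hi, Function.update_of_ne hi]
        exact (quot_JJ m I i).2.2
    · rw [sum_add_distrib, hsum, sum_ite_eq', if_pos (mem_univ _), finrank_Vd]
      omega

end Pool.Agent.Lib.MP_a430e8_ag
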