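import Pool.Agent.Lib.MP_a430e8_ag.MBase

/-! A special surface through the configuration, smooth at the points. -/

namespace Pool.Agent.Lib.MP_a430e8_ag
open Finset MvPolynomial

namespace MSurf

lemma mem_m3 {F : P3} : F ∈ m3 ↔ constantCoeff F = 0 := by
  rw [← pow_one m3, mem_pow_idealOfVars_iff']
  constructor
  · intro h
    exact h 0 (by simp)
  · intro h x hx
    obtain rfl : x = 0 := (Finsupp.degree_eq_zero_iff x).1 (by omega)
    exact h

lemma cc_aeval (u : Fin 3 → P3) (F : P3) :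
    constantCoeff (aeval u F) = eval (fun k => constantCoeff (u k)) F := by
  have : (constantCoeff : P3 →+* ℂ).comp (aeval u : P3 →ₐ[ℂ] P3).toRingHom =
      eval (fun k => constantCoeff (u k)) := by
    refine ringHom_ext (fun r => ?_) (fun i => ?_) <;> simp
  exact RingHom.congr_fun this F

lemma cc_tau (q : Fin 3 → ℂ) (F : P3) : constantCoeff (tau q F) = eval q F := by
  rw [tau, cc_aeval]
  simp

lemma le_m3 {J : Ideal P3} {m : ℕ} (h : m3 ^ m ≤ J) (hJ : J ≠ ⊤) : J ≤ m3 := by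
  obtain ⟨M, hM, hJM⟩ := Ideal.exists_le_maximal J hJ
  have h1 : m3 ≤ M := hM.isPrime.le_of_pow_le (h.trans hJM)
  intro F hF
  by_contra hc
  rw [mem_m3] at hc
  have h2 : F - C (constantCoeff F) ∈ m3 := mem_m3.2 (by simp)
  have h3 := M.sub_mem (hJM hF) (h1 h2)
  rw [sub_sub_cancel] at h3
  exact hM.ne_top (M.eq_top_of_isUnit_mem h3 ((IsUnit.mk0 _ hc).map C))

/-- The local step: an element of the pulled back ideal with nonzero linear part. -/
lemma loc {J : Ideal P3} (h2 : X 2 ∈ J) (hJ : J ≤ m3) {v : Fin 3 → P3} (hv : ∀ k, v k ∈ m3)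
    (hs : ∀ g, ∃ F : P3, aeval v F - g ∈ J) : ∃ G : P3, aeval v G ∈ J ∧ G ∈ m3 ∧ G ∉ m3 ^ 2 := by
  have hm : ∀ F : P3, aeval v F ∈ m3 ↔ F ∈ m3 := fun F => by
    rw [mem_m3, mem_m3, cc_aeval]
    simp only [fun k => mem_m3.1 (hv k)]
    rw [eval_zero']
  have h1 : ∀ g ∈ m3, ∃ F ∈ m3, aeval v F - g ∈ J := fun g hg => by
    obtain ⟨F, hF⟩ := hs g
    exact ⟨F, (hm F).1 (by simpa using m3.add_mem (hJ hF) hg), hF⟩
  have h3 : ∀ g ∈ m3 ^ 2, ∃ F ∈ m3 ^ 2, aeval v F - g ∈ J := fun g hg => by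
    rw [sq] at hg ⊢
    refine Submodule.mul_induction_on hg (fun a ha b hb => ?_) ?_
    · obtain ⟨A, hA, hA'⟩ := h1 a ha
      obtain ⟨B, hB, hB'⟩ := h1 b hb
      refine ⟨A * B, Ideal.mul_mem_mul hA hB, ?_⟩
      convert J.add_mem (J.mul_mem_left (aeval v A) hB') (J.mul_mem_left b hA') using 1
      rw [map_mul]
      ring
    · rintro a b ⟨A, hA, hA'⟩ ⟨B, hB, hB'⟩
      refine ⟨A + B, Ideal.add_mem _ hA hB, ?_⟩
      convert J.add_mem hA' hB' using 1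
      rw [map_add]
      ring
  let l : (Fin 3 → ℂ) →ₗ[ℂ] P3 := Fintype.linearCombination ℂ X
  let ρ : (Fin 3 → ℂ) →ₗ[ℂ] (Fin 2 → ℂ) :=
    (LinearMap.pi ![lcoeff ℂ (ex3 (1, 0, 0)), lcoeff ℂ (ex3 (0, 1, 0))]) ∘ₗ
      (aeval v : P3 →ₐ[ℂ] P3).toLinearMap ∘ₗ l
  obtain ⟨a, ha, ha0⟩ := Submodule.exists_mem_ne_zero_of_ne_bot
    (ρ.ker_ne_bot_of_finrank_lt (by simp))
  have hl : l a ∈ m3 := by
    rw [Fintype.linearCombination_apply]
    exact Ideal.sum_mem _ fun k _ => Submodule.smul_of_tower_mem _ _ (X_mem _ k)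
  have h4 : aeval v (l a) - (aeval v (l a)).coeff (ex3 (0, 0, 1)) • X 2 ∈ m3 ^ 2 := by
    rw [mem_m3_pow]
    rintro ⟨x, y, z⟩ hκ
    rw [mem_tet] at hκ
    have e : (X 2 : P3) = mono3 (0, 0, 1) := by simp [mono3, mon]
    rw [coeff_sub, coeff_smul, e, mono3_eq, coeff_monomial]
    have h0 : (aeval v (l a)).coeff (ex3 (0, 0, 0)) = 0 :=
      mem_m3_pow.1 ((pow_one m3).symm ▸ (hm _).2 hl) _ (mem_tet.2 (by simp))
    have hx : (aeval v (l a)).coeff (ex3 (1, 0, 0)) = 0 := congrFun ha 0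
    have hy : (aeval v (l a)).coeff (ex3 (0, 1, 0)) = 0 := congrFun ha 1
    generalize aeval v (l a) = w at h0 hx hy
    have : (x = 0 ∧ y = 0 ∧ z = 0) ∨ (x = 1 ∧ y = 0 ∧ z = 0) ∨ (x = 0 ∧ y = 1 ∧ z = 0) ∨
      (x = 0 ∧ y = 0 ∧ z = 1) := by simp only at hκ; omega
    rcases this with ⟨rfl, rfl, rfl⟩ | ⟨rfl, rfl, rfl⟩ | ⟨rfl, rfl, rfl⟩ | ⟨rfl, rfl, rfl⟩ <;>
      simp [ex3_inj.eq_iff, h0, hx, hy]
  obtain ⟨H, hH, hH'⟩ := h3 _ h4
  refine ⟨l a - H, ?_, m3.sub_mem hl (Ideal.pow_le_self two_ne_zero hH), fun hc => ha0 ?_⟩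
  · convert J.sub_mem (Submodule.smul_of_tower_mem J
      ((aeval v (l a)).coeff (ex3 (0, 0, 1))) h2) hH' using 1
    rw [map_sub]
    ring
  · have h5 : l a ∈ m3 ^ 2 := by simpa using Ideal.add_mem _ hc hH
    rw [mem_pow_idealOfVars_iff'] at h5
    funext k
    simpa [l, Fintype.linearCombination_apply, coeff_sum, coeff_X, Finsupp.single_left_inj]
      using h5 (Finsupp.single k 1) (by simp)

variable {e r : ℕ} {J : Fin r → Ideal P3} {u : Fin r → Fin 3 → P3}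

/-- The ideal of the configuration is generated in degree at most `e + 1`. -/
lemma gen (hs : ∀ g : Fin r → P3, ∃ F ∈ Vd e, ∀ i, aeval (u i) F - g i ∈ J i) {K : Ideal P3}
    (hK : ∀ F ∈ Vd (e + 1), (∀ i, aeval (u i) F ∈ J i) → F ∈ K) {F : P3}
    (hF : ∀ i, aeval (u i) F ∈ J i) : F ∈ K := by
  have hle : ∀ v ∈ Vd e, v ∈ Vd (e + 1) := fun v hv => mem_Vd.2 ((mem_Vd.1 hv).trans e.le_succ)
  have key : ∀ F : P3, ∃ v ∈ Vd e, F - v ∈ K ∧ ∀ i, aeval (u i) (F - v) ∈ J i := fun F => by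
    induction F using MvPolynomial.induction_on with
    | C a => exact ⟨C a, mem_Vd.2 (by simp), by simp, by simp⟩
    | add p q hp hq =>
      obtain ⟨v, hv, h1, h2⟩ := hp
      obtain ⟨w, hw, h3, h4⟩ := hq
      have e1 : p + q - (v + w) = p - v + (q - w) := by ring
      exact ⟨v + w, add_mem hv hw, e1 ▸ K.add_mem h1 h3, fun i => by
        rw [e1, map_add]; exact add_mem (h2 i) (h4 i)⟩
    | mul_X p k hp =>
      obtain ⟨v, hv, h1, h2⟩ := hp
      obtain ⟨w, hw, h3⟩ := hs fun i => aeval (u i) (v * X k)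
      have h4 : v * X k ∈ Vd (e + 1) := mem_Vd.2 ((totalDegree_mul _ _).trans (by
        rw [totalDegree_X]; exact Nat.succ_le_succ (mem_Vd.1 hv)))
      have h5 : ∀ i, aeval (u i) (v * X k - w) ∈ J i := fun i => by
        rw [map_sub, ← neg_sub]; exact neg_mem (h3 i)
      have e1 : p * X k - w = (p - v) * X k + (v * X k - w) := by ring
      exact ⟨w, hw, e1 ▸ K.add_mem (K.mul_mem_right _ h1) (hK _ (sub_mem h4 (hle w hw)) h5),
        fun i => by
          rw [e1, map_add, map_mul]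
          exact add_mem (Ideal.mul_mem_right _ _ (h2 i)) (h5 i)⟩
  obtain ⟨v, hv, h1, h2⟩ := key F
  have h3 := hK v (hle v hv) fun i => by simpa using sub_mem (hF i) (h2 i)
  simpa using K.add_mem h1 h3

lemma smooth_one (hs : ∀ g : Fin r → P3, ∃ F ∈ Vd e, ∀ i, aeval (u i) F - g i ∈ J i) {i : Fin r}
    (h2 : X 2 ∈ J i) (hJ : J i ≤ m3) : ∃ F ∈ Vd (e + 1), (∀ k, aeval (u k) F ∈ J k) ∧
      tau (fun k => constantCoeff (u i k)) F ∉ m3 ^ 2 := by
  classical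
  set q : Fin 3 → ℂ := fun k => constantCoeff (u i k) with hq
  have hψ : ∀ F, aeval (fun k => u i k - C (q k)) F = aeval (u i) (tau (-q) F) := fun F => by
    have : (aeval (fun k => u i k - C (q k)) : P3 →ₐ[ℂ] P3) = (aeval (u i)).comp (tau (-q)) :=
      algHom_ext fun k => by simp [tau, sub_eq_add_neg]
    exact AlgHom.congr_fun this F
  obtain ⟨G, hG, hG1, hG2⟩ := loc h2 hJ (v := fun k => u i k - C (q k))
    (fun k => mem_m3.2 (by simp [hq])) fun g => by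
      obtain ⟨F, -, hF⟩ := hs fun _ => g
      exact ⟨tau q F, by rw [hψ, tau_tau]; exact hF i⟩
  obtain ⟨h, -, hh⟩ := hs (Pi.single i 1)
  by_contra! hc
  have h3 : tau q (tau (-q) G * h) ∈ m3 ^ 2 := by
    refine gen hs (K := (m3 ^ 2).comap (tau q)) (fun F h1 h2 => Ideal.mem_comap.2 (hc F h1 h2))
      fun k => ?_
    rw [map_mul]
    by_cases hk : k = i
    · subst hk
      exact Ideal.mul_mem_right _ _ (hψ G ▸ hG)
    · exact Ideal.mul_mem_left _ _ (by simpa [hk] using hh k)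
  have e1 : tau q (tau (-q) G) = G := by simpa using tau_tau (-q) G
  have h4 : tau q h - 1 ∈ m3 := by
    have := mem_m3.1 (hJ (hh i))
    rw [map_sub, cc_aeval, Pi.single_eq_same] at this
    rwa [mem_m3, map_sub, cc_tau]
  rw [map_mul, e1] at h3
  refine hG2 ?_
  convert Ideal.sub_mem _ h3 (sq m3 ▸ Ideal.mul_mem_mul hG1 h4) using 1
  ring

lemma exists_eqn {m : Fin r → ℕ} (hJ : ∀ i, JS (m i) ≤ J i)
    (hs : ∀ g : Fin r → P3, ∃ F ∈ Vd e, ∀ i, aeval (u i) F - g i ∈ J i) :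
    ∃ g ∈ Vd (e + 1), ∃ q : Fin r → Fin 3 → ℂ, (∀ i, eval (q i) g = 0) ∧
      (∀ i, tau (q i) g ∉ m3 ^ 2) ∧
      ∀ i, Ideal.span {g} ⊔ maxId (q i) ^ m i ≤ (J i).comap (aeval (u i) : P3 →ₐ[ℂ] P3) := by
  classical
  by_cases hA : ∀ i, J i = ⊤
  · refine ⟨X 0, mem_Vd.2 (by simp), 0, by simp, fun i h => ?_, fun i => by simp [hA i]⟩
    simpa [tau] using (mem_pow_idealOfVars_iff' 2 _).1 h (Finsupp.single 0 1) (by simp)
  obtain ⟨i₀, hi₀⟩ := not_forall.1 hA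
  have hm : ∀ i, J i ≠ ⊤ → J i ≤ m3 := fun i => le_m3 (le_sup_right.trans (hJ i))
  let W : Submodule ℂ P3 := Vd (e + 1) ⊓ ⨅ i, kr (u i) (J i)
  let q : Fin r → Fin 3 → ℂ := fun i k => constantCoeff (u i k)
  obtain ⟨⟨g, hg⟩, h1⟩ := Submodule.exists_forall_notMem_of_forall_ne_top
    (fun i : {i // J i ≠ ⊤} =>
      (((m3 ^ 2).comap (tau (q i))).restrictScalars ℂ).comap W.subtype) fun i hi => by
      obtain ⟨F, h1, h2, h3⟩ := smooth_one hs
        (hJ i (Ideal.mem_sup_left (Ideal.mem_span_singleton_self _))) (hm i i.2)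
      exact h3 (Submodule.eq_top_iff'.1 hi ⟨F, h1, (Submodule.mem_iInf _).2 h2⟩)
  have h2 : ∀ i, aeval (u i) g ∈ J i := (Submodule.mem_iInf _).1 hg.2
  have h3 : ∀ i, J i ≠ ⊤ → eval (q i) g = 0 := fun i hi => by
    rw [← cc_aeval, ← mem_m3]
    exact hm i hi (h2 i)
  refine ⟨g, hg.1, fun i => if J i = ⊤ then q i₀ else q i, fun i => ?_, fun i => ?_, fun i => ?_⟩ <;>
    beta_reduce <;> split_ifs with hi
  · exact h3 i₀ hi₀
  · exact h3 i hi
  · exact h1 ⟨i₀, hi₀⟩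
  · exact h1 ⟨i, hi⟩
  · simp [hi]
  · refine sup_le ((Ideal.span_singleton_le_iff_mem _).2 (h2 i)) ?_
    have h4 : maxId (q i) ≤ m3.comap (aeval (u i) : P3 →ₐ[ℂ] P3) := by
      rw [maxId, Ideal.span_le]
      rintro _ ⟨k, rfl⟩
      exact mem_m3.2 (by simp [q])
    exact (Ideal.pow_right_mono h4 _).trans ((Ideal.le_comap_pow _ _).trans
      (Ideal.comap_mono (le_sup_right.trans (hJ i))))

end MSurf

theorem surf : SurfStmt := by
  intro d e r m J u hed hJ hs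
  obtain ⟨g, hg, q, h1, h2, h3⟩ := MSurf.exists_eqn hJ hs
  have hd : dehom (∑ p ∈ tet (d + 1), g.coeff (ex3 p) • mono4 d p) = g := by
    simp only [map_sum, map_smul, dehom_mono4]
    exact (eq_sum_tet (mem_Vd.2 ((mem_Vd.1 hg).trans hed))).symm
  refine ⟨∑ p ∈ tet (d + 1), g.coeff (ex3 p) • mono4 d p, q,
    (homogeneousSubmodule (Fin 4) ℂ d).sum_mem fun p hp => Submodule.smul_mem _ _ (mono4_hom hp),
    by rwa [hd], by rwa [hd], ?_⟩
  generalize (∑ p ∈ tet (d + 1), g.coeff (ex3 p) • mono4 d p) = f at hd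
  refine LinearMap.finrank_le_finrank_of_injective (f := (dehom.toLinearMap.domRestrict
    (multiSeries f q e m)).codRestrict (Vd e ⊓ ⨅ i, kr (u i) (J i)) fun F => ⟨?_, ?_⟩) ?_
  · change dehom F.1 ∈ Vd e
    rw [dehom_eq_sum F.2.1]
    exact Submodule.sum_mem _ fun p hp => Submodule.smul_mem _ _ (mono3_mem_Vd hp)
  · exact (Submodule.mem_iInf _).2 fun i => h3 i (hd ▸ ((Submodule.mem_iInf _).1 F.2.2 i).2)
  · rw [← LinearMap.ker_eq_bot, LinearMap.ker_eq_bot']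
    intro F hF
    have h4 : dehom F.1 = 0 := congrArg Subtype.val hF
    ext1
    rw [form_eq_sum F.2.1]
    refine sum_eq_zero fun p hp => ?_
    have h5 := coeff_sum_mono3 (tet (e + 1)) (fun p => F.1.coeff (ex4 e p)) p
    rw [← dehom_eq_sum F.2.1, h4, if_pos hp] at h5
    rw [← h5]
    simp

end Pool.Agent.Lib.MP_a430e8_ag
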