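import Pool.Agent.Lib.MP_a430e8_ag.Gen

/-! The three cases of the one-point theorem. -/

namespace Pool.Agent.Lib.MP_a430e8_ag
open Finset MvPolynomial

lemma ex_base {d e m n : ℕ} (hed : e ≤ d) (hn : n ≤ (adm e m).card) (hn' : n ≤ (m + 1).choose 2)
    (h' : (m - 1 + 1).choose 2 ≤ (adm e (m - 1)).card) :
    ∃ D ⊆ adm e m, D.card = n ∧ Ex (d + 1) m D := by
  obtain ⟨D, hD, D', hD', hc, hc', φ, hφ, h1, h2⟩ := exists_pair e m n e (m - 1) hn hn' h'
  exact ⟨D, hD, hc,
    ex_of_pair (hD'.trans ((adm_mono hed _).trans (adm_subset _ _))) hc' hφ h1 h2⟩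

lemma ex_small {d e m : ℕ} (hed : e ≤ d) (h1 : (m + 1).choose 2 ≤ (e + 3).choose 3)
    (h2 : ¬ (m = 2 * e ∧ 2 ≤ e ∧ e ≤ 4)) :
    ∃ D ⊆ tet (e + 1), D.card = (m + 1).choose 2 ∧ Ex (d + 1) m D := by
  obtain ⟨D, hD, h⟩ := ex_base (m := m) hed (choose_le_card_adm (Or.inl h1) h2) le_rfl
    (choose_le_card_adm (Or.inl ((Nat.choose_le_choose 2 (by omega)).trans h1)) (by
      rintro ⟨h3, h4, h5⟩
      obtain rfl : m = 2 * e + 1 := by omega
      revert h1
      interval_cases e <;> decide))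
  exact ⟨D, hD.trans (adm_subset _ _), h⟩

lemma ex_exc {d e : ℕ} (hed : e ≤ d) (h2 : 2 ≤ e) (h4 : e ≤ 4) :
    Ex (d + 1) (2 * e) (adm e (2 * e)) := by
  have h5 := card_adm_two_mul e
  obtain ⟨D, hD, hc, h⟩ := ex_base (m := 2 * e) hed le_rfl (by
      have : (e + 3).choose 3 ≤ (2 * e + 1).choose 2 + 1 := by interval_cases e <;> decide
      omega)
    (choose_le_card_adm (Or.inr (by omega)) (by omega))
  rwa [eq_of_subset_of_card_le hD hc.ge] at h

lemma ex_big {d e m : ℕ} (hed : e ≤ d) (h1 : (e + 3).choose 3 < (m + 1).choose 2)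
    (h2 : ¬ (m = 2 * e ∧ 2 ≤ e ∧ e ≤ 4)) : ∃ k ≤ m, Ex (d + 1) k (tet (e + 1)) := by
  classical
  by_cases he : 2 ≤ e ∧ e ≤ 4
  · refine ⟨2 * e + 1, ?_, ex_newton he.1 (ex_exc hed he.1 he.2)⟩
    by_contra hc
    have h3 : (m + 1).choose 2 ≤ (2 * e).choose 2 := Nat.choose_le_choose 2 (by omega)
    have : (2 * e).choose 2 ≤ (e + 3).choose 3 := by
      obtain ⟨h4, h5⟩ := he
      interval_cases e <;> decide
    omega
  · have hex : ∃ k, (e + 3).choose 3 < (k + 1).choose 2 := ⟨m, h1⟩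
    have h3 := Nat.find_spec hex
    have h4 := Nat.find_min' hex h1
    have h5 : ∀ k < Nat.find hex, (k + 1).choose 2 ≤ (e + 3).choose 3 := fun k hk =>
      not_lt.1 (Nat.find_min hex hk)
    generalize Nat.find hex = k at h3 h4 h5
    have h6 : 2 * e < k := by
      by_contra hc
      have h7 := choose_le_card_adm (e := e) (m := k) (Or.inr (by omega)) (by omega)
      have h8 := card_le_card (adm_subset e k)
      rw [card_tet] at h8
      change _ ≤ (e + 3).choose 3 at h8
      omega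
    have h7 : (adm e k).card = (e + 3).choose 3 := by rw [adm_eq_tet h6, card_tet]
    obtain ⟨D, hD, hc, h⟩ := ex_base (m := k) hed le_rfl (by omega)
      (choose_le_card_adm (Or.inl (h5 _ (by omega))) (by omega))
    rw [eq_of_subset_of_card_le hD hc.ge, adm_eq_tet h6] at h
    exact ⟨k, h4, h⟩

instance (f : P4) (q : Fin 3 → ℂ) (e m : ℕ) : Module.Finite ℂ (series f q e m) := by
  have : Module.Finite ℂ (homogeneousSubmodule (Fin 4) ℂ e) :=
    Module.Finite.iff_fg.2 (homogeneousSubmodule_fg _ _ e)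
  exact Submodule.finiteDimensional_of_le (S₂ := homogeneousSubmodule (Fin 4) ℂ e) inf_le_left

lemma series_anti (f : P4) (q : Fin 3 → ℂ) (e : ℕ) {k m : ℕ} (h : k ≤ m) :
    series f q e m ≤ series f q e k :=
  inf_le_inf_left _ (Submodule.comap_mono fun _ hx =>
    (sup_le_sup_left (Ideal.pow_le_pow_right h) _ : _ ≤ Ideal.span {dehom f} ⊔ maxId q ^ k) hx)

lemma pow_mem_series {f T : P4} {q : Fin 3 → ℂ} (h : T ∈ series f q 1 2) (e : ℕ) :
    T ^ e ∈ series f q e (2 * e) := by
  rw [mem_series_iff, mem_ser0] at h ⊢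
  obtain ⟨h1, A, hA⟩ := h
  rw [map_pow]
  refine ⟨by simpa using h1.pow e, ?_⟩
  obtain ⟨B, hB⟩ := sub_dvd_pow_sub_pow (dehom (sig q T))
    (dehom (sig q T) - tau q (dehom f) * A) e
  refine ⟨A * B, ?_⟩
  have h2 := Ideal.pow_mem_pow hA e
  rw [← pow_mul] at h2
  convert h2 using 1
  rw [map_pow]
  linear_combination hB

theorem one_point (d e m : ℕ) (hed : e < d) :
    GeneralForm d fun f => GeneralPoint f fun q =>
      if m = 2 * e ∧ 2 ≤ e ∧ e ≤ 4 then
        ∃ T ∈ series f q 1 2, T ≠ 0 ∧ series f q e m = Submodule.span ℂ {T ^ e}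
      else Module.finrank ℂ (series f q e m) = (e + 3).choose 3 - (m + 1).choose 2 := by
  obtain ⟨d, rfl⟩ : ∃ d', d = d' + 1 := ⟨d - 1, by omega⟩
  have hed : e ≤ d := by omega
  by_cases h2 : m = 2 * e ∧ 2 ≤ e ∧ e ≤ 4
  · simp only [if_pos h2]
    obtain ⟨rfl, h3, h4⟩ := h2
    refine GeneralForm.mono (generic (by omega) (ex_exc hed h3 h4)) fun f q hq h => ?_
    have h5 := finrank_ser0_le (adm_subset _ _) (tau_mem_m3 hq) h
    have h6 := card_adm_two_mul e
    have h7 := le_finrank_ser0 1 2 (coeff_zero_of_mul (h.not_mem (by omega)))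
    rw [← finrank_series] at h5 h7
    have h8 : series f q 1 2 ≠ ⊥ := by
      intro h0
      rw [h0, finrank_bot] at h7
      revert h7
      decide
    obtain ⟨T, hT, hT0⟩ := Submodule.exists_mem_ne_zero_of_ne_bot h8
    refine ⟨T, hT, hT0, (Submodule.eq_of_le_of_finrank_le ?_ ?_).symm⟩
    · rw [Submodule.span_le, Set.singleton_subset_iff]
      exact pow_mem_series hT e
    · rw [finrank_span_singleton (pow_ne_zero e hT0)]
      omega
  · simp only [if_neg h2]
    rcases le_or_gt ((m + 1).choose 2) ((e + 3).choose 3) with h1 | h1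
    · obtain ⟨D, hD, hc, hE⟩ := ex_small hed h1 h2
      refine GeneralForm.mono (generic (by omega) hE) fun f q hq h => ?_
      have h5 := finrank_ser0_le hD (tau_mem_m3 hq) h
      have h7 := le_finrank_ser0 e m (g := tau q (dehom f)) fun c' hc' =>
        (ind3_iff.1 h 0 c' (by simpa using hc')).2
      rw [finrank_series]
      omega
    · obtain ⟨k, hk, hE⟩ := ex_big hed h1 h2
      refine GeneralForm.mono (generic (by omega) hE) fun f q hq h => ?_
      have h5 := finrank_ser0_le (Subset.refl _) (tau_mem_m3 hq) h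
      rw [card_tet, ← finrank_series] at h5
      change _ + (e + 3).choose 3 ≤ _ at h5
      have h6 := Submodule.finrank_mono (series_anti f q e hk)
      omega

end Pool.Agent.Lib.MP_a430e8_ag
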