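import Pool.Agent.Lib.MP_a430e8_ag.MComp
import Pool.Agent.Lib.MP_a430e8_ag.MInit
import Pool.Agent.Lib.MP_a430e8_ag.MMix
import Pool.Agent.Lib.MP_a430e8_ag.MCover

/-! Shared definitions and interface statements for arbitrary multiplicities in large degree. -/

namespace Pool.Agent.Lib.MP_a430e8_ag
open Finset MvPolynomial Filter Topology

/-- The number of conditions imposed by a point of multiplicity `m` on a surface. -/
def cc (m : ℕ) : ℕ := (m + 1).choose 2

/-- An additive weight on cells. -/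
def wt (α β γ : ℕ) (p : Cell) : ℕ := α * p.1 + β * p.2.1 + γ * p.2.2

/-- All cells lie in the cube of side `L`. -/
def InCube (L : ℕ) (D : Finset Cell) : Prop := ∀ p ∈ D, p.1 < L ∧ p.2.1 < L ∧ p.2.2 < L

/-- The staircase of a plane fat point together with the normal direction. -/
def triP (m : ℕ) : Finset Cell := insert (0, 0, 1) (tri m)

/-- The ideal of a plane fat point together with the normal direction. -/
noncomputable def JP (m : ℕ) : Ideal P3 := Ideal.span (mono3 '' {p : Cell | p ∉ triP m})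

/-- Every small space which injects modulo `I` injects modulo a subscheme of a fat point of
multiplicity `m` on a surface germ. -/
def Universal (m : ℕ) (I : Ideal P3) : Prop := ∀ (W : Submodule ℂ P3) [Module.Finite ℂ W],
  (∀ F ∈ W, F ∈ I → F = 0) → Module.finrank ℂ W ≤ (m + 1).choose 2 →
  ∃ (J : Ideal P3) (u : Fin 3 → P3), JS m ≤ J ∧ Module.Finite ℂ (P3 ⧸ J) ∧
    Module.finrank ℂ (P3 ⧸ J) ≤ Module.finrank ℂ W ∧ ∀ F ∈ W, aeval u F ∈ J → F = 0

/-- The schemes `Y i`, `i ∈ S`, can be placed so as to kill the span of the monomials of `D`. -/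
def Kil {r : ℕ} (Y : Fin r → Ideal P3) (S : Finset (Fin r)) (D : Finset Cell) : Prop :=
  ∃ u : Fin r → Fin 3 → P3, ∀ g : Cell → ℂ,
    (∀ i ∈ S, aeval (u i) (∑ p ∈ D, g p • mono3 p) ∈ Y i) → ∀ p ∈ D, g p = 0

/-- Compression along the first axis. -/
def xpush (D : Finset Cell) : Finset Cell := MComp.s13 (push (MComp.s13 D) 0 0)

/-- Compression along the second axis. -/
def ypush (D : Finset Cell) : Finset Cell := sw (push (sw D) 0 0)

lemma card_lev_zero (D : Finset Cell) (a b : ℕ) :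
    (lev D 0 0 a b).card = (D.filter fun p => p.1 = a ∧ p.2.1 = b).card := by
  unfold lev
  simp only [mul_zero, add_zero]
  refine card_image_of_injOn ?_
  rintro ⟨a1, b1, j1⟩ h ⟨a2, b2, j2⟩ h' hj
  simp only [coe_filter, Set.mem_ofPred_eq] at h h' hj
  simp only [Prod.mk.injEq]
  omega

lemma mem_zpush {D : Finset Cell} {a b j : ℕ} :
    (a, b, j) ∈ push D 0 0 ↔ j < (D.filter fun p => p.1 = a ∧ p.2.1 = b).card := by
  rw [mem_push, mul_zero, add_zero, add_zero, card_lev_zero]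

lemma mem_ypush {D : Finset Cell} {a b j : ℕ} :
    (a, b, j) ∈ ypush D ↔ b < (D.filter fun p => p.1 = a ∧ p.2.2 = j).card := by
  rw [ypush, mem_sw, mem_zpush, sw, filter_image, card_image_of_injective _ MComp.inj_sw]

lemma mem_xpush {D : Finset Cell} {a b j : ℕ} :
    (a, b, j) ∈ xpush D ↔ a < (D.filter fun p => p.2 = (b, j)).card := by
  rw [xpush, MComp.mem_s13, mem_zpush, MComp.s13, filter_image,
    card_image_of_injective _ MComp.inj_s13]
  have : (D.filter fun p => (p.2.2, p.2.1, p.1).1 = j ∧ (p.2.2, p.2.1, p.1).2.1 = b) =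
      D.filter fun p => p.2 = (b, j) :=
    filter_congr fun p _ => by simp only [Prod.ext_iff]; exact and_comm
  rw [this]

lemma card_xpush (D : Finset Cell) : (xpush D).card = D.card := by
  rw [xpush, MComp.card_s13, card_push, MComp.card_s13]

lemma card_ypush (D : Finset Cell) : (ypush D).card = D.card := by
  rw [ypush, card_sw, card_push, card_sw]

lemma dom_xpush (D : Finset Cell) : Dom D (xpush D) :=
  ((MComp.dom_s13 D).trans (dom_push _ 0 0)).trans (MComp.dom_s13 _)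

lemma dom_ypush (D : Finset Cell) : Dom D (ypush D) :=
  ((MComp.dom_sw D).trans (dom_push _ 0 0)).trans (MComp.dom_sw _)

lemma dom_of_subset {D E : Finset Cell} (h : D ⊆ E) : Dom D E := by
  rintro R _ _ ⟨x, y, z, hE⟩
  exact ⟨x, y, z, hE.comp (fun p : D => (⟨p.1, h p.2⟩ : E))
    fun p q e => Subtype.ext (congrArg (fun t : E => t.1) e)⟩

lemma mem_triP {m : ℕ} {p : Cell} :
    p ∈ triP m ↔ p = (0, 0, 1) ∨ (p.1 + p.2.1 < m ∧ p.2.2 = 0) := by
  rw [triP, mem_insert, mem_tri]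

lemma card_triP (m : ℕ) : (triP m).card = cc m + 1 := by
  rw [triP, card_insert_of_notMem (by simp [mem_tri]), card_tri, cc]

lemma quot_JP (m : ℕ) :
    Module.Finite ℂ (P3 ⧸ JP m) ∧ Module.finrank ℂ (P3 ⧸ JP m) ≤ cc m + 1 := by
  rw [← card_triP]
  exact quot_le fun p hp => Ideal.subset_span ⟨p, hp, rfl⟩

lemma cc_le {m : ℕ} (h : m ≤ 2000) : cc m ≤ 2001000 :=
  (Nat.choose_le_choose 2 (show m + 1 ≤ 2001 by omega)).trans (by
    rw [Nat.choose_two_right])

/-- The monomials of a down-closed set are independent modulo the monomials outside it. -/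
lemma good_down {E : Finset Cell} (hE : ∀ p ∈ E, ∀ q : Cell, ex3 q ≤ ex3 p → q ∈ E) :
    GoodIn (P3 ⧸ Ideal.span (mono3 '' {p : Cell | p ∉ E})) E := by
  classical
  have h1 : mono3 '' {p : Cell | p ∉ E} =
      (fun s => monomial s (1 : ℂ)) '' (ex3 '' {p : Cell | p ∉ E}) := by
    rw [Set.image_image]
    exact Set.image_congr fun p _ => mono3_eq p
  rw [h1]
  set J : Ideal P3 := Ideal.span ((fun s => monomial s (1 : ℂ)) '' (ex3 '' {p | p ∉ E}))
  refine ⟨Ideal.Quotient.mkₐ ℂ J (X 0), Ideal.Quotient.mkₐ ℂ J (X 1),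
    Ideal.Quotient.mkₐ ℂ J (X 2), Fintype.linearIndependent_iff.2 fun g hg p => ?_⟩
  have h7 : ∑ q : E, g q • mono3 q ∈ J := by
    rw [← Ideal.Quotient.eq_zero_iff_mem, ← Ideal.Quotient.mkₐ_eq_mk ℂ, ← hg, map_sum]
    exact sum_congr rfl fun q _ => by rw [map_smul, mono3, map_mon]
  by_contra h8
  obtain ⟨_, ⟨q, hq, rfl⟩, h9⟩ := mem_ideal_span_monomial_image.1 h7 (ex3 p) (by
    rw [mem_support_iff, coeff_sum, sum_eq_single p fun q _ hq => by
      rw [coeff_smul, mono3_eq, coeff_monomial, if_neg fun h => hq (Subtype.ext (ex3_inj h)),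
        smul_zero]] <;> simp [mono3_eq, h8])
  exact hq (hE _ p.2 q h9)

lemma good_JP {m : ℕ} (hm : 1 ≤ m) : GoodIn (P3 ⧸ JP m) (triP m) := by
  refine good_down ?_
  rintro ⟨a, b, j⟩ hp ⟨a', b', j'⟩ hq
  have h0 := hq 0
  have h1 := hq 1
  have h2 := hq 2
  simp [ex3] at h0 h1 h2
  simp only [mem_triP, Prod.mk.injEq] at hp ⊢
  omega

/-- The torus limit for an arbitrary additive weight. -/
lemma torusG {R : Type} [CommRing R] [Algebra ℂ R] (α β γ : ℕ) {D T : Finset Cell} (hD : D ⊆ T)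
    (c : D → Cell → ℂ) (h1 : ∀ p, c p p = 1)
    (h2 : ∀ p q, c p q ≠ 0 → q = p ∨ wt α β γ p < wt α β γ q)
    (h : GoodIn R D) : ∃ v : Fin 3 → R,
      LinearIndependent ℂ fun p : D => aeval v (∑ q ∈ T, c p q • mono3 q) := by
  classical
  obtain ⟨x, y, z, h⟩ := h
  obtain ⟨Λ, hΛ⟩ := LinearMap.exists_leftInverse_of_injective
    (Fintype.linearCombination ℂ (fun p : D => mon x y z p))
    (LinearMap.ker_eq_bot.2 (linearIndependent_iff_injective_fintypeLinearCombination.1 h))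
  let G : ℂ → D → D → ℂ := fun t p =>
    ∑ q ∈ T, (c p q * t ^ (wt α β γ q - wt α β γ p)) • Λ (mon x y z q)
  have hc : Continuous G := by
    refine continuous_pi fun p => ?_
    simp only [G]
    fun_prop
  have h0 : LinearIndependent ℂ (G 0) := by
    have : G 0 = fun p => Pi.single p 1 := by
      funext p
      have := LinearMap.congr_fun hΛ (Pi.single p 1)
      simp only [LinearMap.comp_apply, LinearMap.id_apply,
        Fintype.linearCombination_apply_single, one_smul] at this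
      simp only [G]
      rw [sum_eq_single_of_mem p.1 (hD p.2) fun q _ hq => ?_]
      · simp [h1, this]
      · by_cases h3 : c p q = 0
        · simp [h3]
        · rw [zero_pow (Nat.sub_ne_zero_of_lt ((h2 p q h3).resolve_left hq)), mul_zero, zero_smul]
    rw [this]
    exact Pi.linearIndependent_single_one _ ℂ
  have h3 : ∀ᶠ t in 𝓝[≠] (0 : ℂ), LinearIndependent ℂ (G t) ∧ t ≠ 0 :=
    ((hc.continuousAt.eventually h0.eventually).filter_mono nhdsWithin_le_nhds).and
      self_mem_nhdsWithin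
  obtain ⟨t, ht, ht0⟩ := h3.exists
  refine ⟨![t ^ α • x, t ^ β • y, t ^ γ • z], LinearIndependent.of_comp Λ ?_⟩
  refine cast (congrArg (LinearIndependent ℂ ·) (_root_.funext fun p => Eq.symm ?_))
    (ht.units_smul fun p => Units.mk0 (t ^ wt α β γ p) (pow_ne_zero _ ht0))
  simp only [Function.comp_apply, map_sum, map_smul, Pi.smul_apply', G, smul_sum, Units.smul_def,
    Units.val_mk0, smul_smul]
  refine sum_congr rfl fun q _ => ?_
  have e : aeval ![t ^ α • x, t ^ β • y, t ^ γ • z] (mono3 q) =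
      t ^ wt α β γ q • mon x y z q := by
    simp only [mono3, mon, map_mul, map_pow, aeval_X, Matrix.cons_val, smul_pow, smul_mul_smul_comm,
      ← pow_mul, ← pow_add]
    rfl
  rw [e, map_smul, smul_smul]
  by_cases h3 : c p q = 0
  · simp [h3]
  · have : wt α β γ p ≤ wt α β γ q := (h2 p q h3).elim (fun h => h ▸ le_rfl) le_of_lt
    rw [mul_left_comm, ← pow_add, Nat.add_sub_cancel' this]

lemma kil_empty {r : ℕ} (Y : Fin r → Ideal P3) (S : Finset (Fin r)) : Kil Y S ∅ :=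
  ⟨fun _ => X, fun _ _ _ hp => absurd hp (notMem_empty _)⟩

lemma Kil.mono {r : ℕ} {Y : Fin r → Ideal P3} {S S' : Finset (Fin r)} {D : Finset Cell}
    (h : Kil Y S D) (hS : S ⊆ S') : Kil Y S' D := by
  obtain ⟨u, hu⟩ := h
  exact ⟨u, fun g hg => hu g fun i hi => hg i (hS hi)⟩

lemma aeval_mono3 {R : Type} [CommRing R] [Algebra ℂ R] (v : Fin 3 → R) (p : Cell) :
    aeval v (mono3 p) = mon (v 0) (v 1) (v 2) p := by
  simp only [mono3, map_mon, aeval_X]

lemma kil_of_good {r : ℕ} {Y : Fin r → Ideal P3} {i : Fin r} {D : Finset Cell}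
    (h : GoodIn (P3 ⧸ Y i) D) : Kil Y {i} D := by
  obtain ⟨x, y, z, h⟩ := h
  obtain ⟨x, rfl⟩ := Ideal.Quotient.mkₐ_surjective ℂ (Y i) x
  obtain ⟨y, rfl⟩ := Ideal.Quotient.mkₐ_surjective ℂ (Y i) y
  obtain ⟨z, rfl⟩ := Ideal.Quotient.mkₐ_surjective ℂ (Y i) z
  refine ⟨fun _ => ![x, y, z], fun g hg p hp => ?_⟩
  refine Fintype.linearIndependent_iff.1 h (fun q => g q) ?_ ⟨p, hp⟩
  have h1 := Ideal.Quotient.eq_zero_iff_mem.2 (hg i (mem_singleton_self i))
  rw [← Ideal.Quotient.mkₐ_eq_mk ℂ, map_sum, map_sum, ← sum_coe_sort] at h1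
  rw [← h1]
  refine sum_congr rfl fun q _ => ?_
  rw [map_smul, map_smul, aeval_mono3, map_mon]
  rfl

lemma card_of_kil {r : ℕ} {Y : Fin r → Ideal P3} {i : Fin r} {D : Finset Cell}
    [Module.Finite ℂ (P3 ⧸ Y i)] (h : Kil Y {i} D) : D.card ≤ Module.finrank ℂ (P3 ⧸ Y i) := by
  classical
  obtain ⟨u, hu⟩ := h
  have h1 : LinearIndependent ℂ fun p : D =>
      Ideal.Quotient.mkₐ ℂ (Y i) (aeval (u i) (mono3 p)) := by
    refine Fintype.linearIndependent_iff.2 fun g hg p => ?_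
    have := hu (fun q => if hq : q ∈ D then g ⟨q, hq⟩ else 0) (fun k hk => ?_) p p.2
    · simpa using this
    · rw [mem_singleton.1 hk, ← Ideal.Quotient.eq_zero_iff_mem, ← Ideal.Quotient.mkₐ_eq_mk ℂ,
        ← hg, map_sum, map_sum, ← sum_coe_sort]
      exact sum_congr rfl fun q _ => by rw [map_smul, map_smul, dif_pos q.2]
  simpa using h1.fintype_card_le_finrank

lemma kd_of_kil {r e : ℕ} {Y : Fin r → Ideal P3} {S : Finset (Fin r)} {D : Finset Cell}
    (hD : D ⊆ tet (e + 1)) (h : Kil Y S D) :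
    ∃ u, kd (Vd e) (fun i => if i ∈ S then Y i else ⊤) u + D.card ≤ (e + 3).choose 3 := by
  classical
  obtain ⟨u, hu⟩ := h
  refine ⟨u, ?_⟩
  have h1 : Submodule.span ℂ (Set.range fun p : D => mono3 p) ≤ Vd e := by
    rw [Submodule.span_le]
    rintro _ ⟨p, rfl⟩
    exact mono3_mem_Vd (hD p.2)
  have h2 := MMix.add_le (inf_le_left (a := Vd e)
    (b := ⨅ i, kr (u i) (if i ∈ S then Y i else ⊤))) h1 (by
      refine Submodule.disjoint_def.2 fun F hF hF' => ?_
      obtain ⟨g, rfl⟩ := (Submodule.mem_span_range_iff_exists_fun ℂ).1 hF'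
      have e1 : ∑ p : D, g p • mono3 p =
          ∑ p ∈ D, (if hq : p ∈ D then g ⟨p, hq⟩ else 0) • mono3 p := by
        rw [← sum_coe_sort D]
        exact sum_congr rfl fun q _ => by rw [dif_pos q.2]
      have h3 := hu (fun q => if hq : q ∈ D then g ⟨q, hq⟩ else 0) fun i hi => by
        have := MMix.mem_inf.1 hF.2 i
        rwa [if_pos hi, e1] at this
      rw [e1]
      exact sum_eq_zero fun p hp => by rw [h3 p hp, zero_smul])
  rwa [finrank_span_eq_card (indep_mono3 _), Fintype.card_coe, finrank_Vd] at h2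

/-- Interface: removal of a greedy basis. -/
def CutStmt : Prop := ∀ (r : ℕ) (Y : Fin r → Ideal P3) (S : Finset (Fin r)) (D U : Finset Cell)
  (α β γ : ℕ), U ⊆ D → Set.InjOn (wt α β γ) D → Kil Y S U →
  ∃ P ⊆ D, (∀ θ, (U.filter fun p => θ ≤ wt α β γ p).card ≤ (P.filter fun p => θ ≤ wt α β γ p).card) ∧
    ∀ (S' : Finset (Fin r)) (E : Finset Cell), Disjoint S S' → E ⊆ D \ P → Kil Y S' E →
      Kil Y (S ∪ S') (P ∪ E)

/-- Interface: a large set contains a good shape. -/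
def PickStmt : Prop := ∀ (D : Finset Cell) (m L : ℕ), InCube L D → 1 ≤ m → 2 * m * L ^ 2 < D.card →
  ∃ U ⊆ D, U.card = cc m + 1 ∧ Dom U (triP m)

/-- Interface: the fat point with its normal direction is universal. -/
def UnivStmt : Prop := ∀ m : ℕ, 2 ≤ m → Universal m (JP m)

/-- Interface: the abstract configuration from universal schemes. -/
def ConfGStmt : Prop := ∀ (e r : ℕ) (m : Fin r → ℕ) (Y : Fin r → Ideal P3),
  (∀ i, 2 ≤ m i → Universal (m i) (Y i)) →
  (∀ A : Finset (Fin r), (∀ i ∈ A, 2 ≤ m i) → ∃ u : Fin r → Fin 3 → P3,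
    kd (Vd e) (fun i => if i ∈ A then Y i else ⊤) u +
      min ((e + 3).choose 3) (∑ i ∈ A, (m i + 1).choose 2) ≤ (e + 3).choose 3) →
  ∃ (J : Fin r → Ideal P3) (u : Fin r → Fin 3 → P3), (∀ i, JS (m i) ≤ J i) ∧
    (∀ g : Fin r → P3, ∃ F ∈ Vd e, ∀ i, aeval (u i) F - g i ∈ J i) ∧
    kd (Vd e) J u ≤ (e + 3).choose 3 - ∑ i, (m i + 1).choose 2

/-- Interface: many points of small multiplicity impose enough conditions on any set. -/
def CountStmt : Prop := ∀ (r : ℕ) (m : Fin r → ℕ) (Y : Fin r → Ideal P3) (S : Finset (Fin r))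
  (D : Finset Cell) (L : ℕ), InCube L D → (∀ i ∈ S, 2 ≤ m i ∧ m i ≤ 2000 ∧ Y i = JP (m i)) →
  2001001 * (4000 * L ^ 2) ≤ S.card →
  ∃ E ⊆ D, min D.card (∑ i ∈ S, cc (m i)) ≤ E.card ∧ Kil Y S E

/-- Interface: few points of small multiplicity only use cells of large weight. -/
def ShaveStmt : Prop := ∀ (r : ℕ) (m : Fin r → ℕ) (Y : Fin r → Ideal P3) (S : Finset (Fin r))
  (D : Finset Cell) (L α β γ θ : ℕ), InCube L D → Set.InjOn (wt α β γ) D →
  (∀ i ∈ S, 2 ≤ m i ∧ m i ≤ 2000 ∧ Y i = JP (m i)) →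
  ∑ i ∈ S, (cc (m i) + 1) + 4000 * L ^ 2 < (D.filter fun p => θ ≤ wt α β γ p).card →
  ∃ P ⊆ D.filter fun p => θ ≤ wt α β γ p, P.card = ∑ i ∈ S, (cc (m i) + 1) ∧
    ∀ (S' : Finset (Fin r)) (E : Finset Cell), Disjoint S S' → E ⊆ D \ P → Kil Y S' E →
      Kil Y (S ∪ S') (P ∪ E)

/-- Interface: weighted fat points impose enough conditions on a set between two simplices. -/
def BigStmt : Prop := ∀ (e r : ℕ) (m : Fin r → ℕ) (Y : Fin r → Ideal P3) (S : Finset (Fin r))
  (D : Finset Cell) (s : ℕ), (∀ i ∈ S, Big e (m i) ∧ Y i = JW ((m i - 1) / 2)) →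
  s ≤ e + 1 → tet s ⊆ D → D ⊆ tet (e + 1) → 97 * (e + 3).choose 3 ≤ 100 * (s + 2).choose 3 →
  ∃ E ⊆ D, min D.card (∑ i ∈ S, cc (m i)) ≤ E.card ∧ Kil Y S E

/-- Interface: the universal schemes impose enough conditions in large degree. -/
def LargeStmt : Prop := ∀ (e r : ℕ) (m : Fin r → ℕ) (Y : Fin r → Ideal P3) (A : Finset (Fin r)),
  10 ^ 20 ≤ e → (∀ i ∈ A, 2 ≤ m i ∧ (Big e (m i) → Y i = JW ((m i - 1) / 2)) ∧
    (¬ Big e (m i) → Y i = JP (m i))) →
  ∃ E ⊆ tet (e + 1), min ((e + 3).choose 3) (∑ i ∈ A, cc (m i)) ≤ E.card ∧ Kil Y A E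

theorem large_of (hU : UStmt) (hP : UnivStmt) (hC : ConfGStmt) (hL : LargeStmt) (hS : SurfStmt)
    (hG : GenStmt) (d e r : ℕ) (hed : e < d) (he : 10 ^ 20 ≤ e) (m : Fin r → ℕ) :
    GeneralForm d fun f => GeneralPoints f r fun q =>
      Module.finrank ℂ (multiSeries f q e m) = (e + 3).choose 3 - ∑ i, (m i + 1).choose 2 := by
  classical
  obtain ⟨J, u, h1, h2, h3⟩ := hC e r m
    (fun i => if Big e (m i) then JW ((m i - 1) / 2) else JP (m i))
    (fun i hi => by
      split_ifs with h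
      · exact fun W _ hW hc => hU W _ _ hW (MMix.big_le h) hc
      · exact hP _ hi)
    (fun A hA => by
      obtain ⟨E, hE, h1, h2⟩ := hL e r m
        (fun i => if Big e (m i) then JW ((m i - 1) / 2) else JP (m i)) A he
        fun i hi => ⟨hA i hi, fun h => if_pos h, fun h => if_neg h⟩
      obtain ⟨u, hu⟩ := kd_of_kil hE h2
      exact ⟨u, (Nat.add_le_add_left h1 _).trans hu⟩)
  obtain ⟨f₀, q₀, h4, h5, h6, h7⟩ := hS d e r m J u hed h1 h2
  obtain ⟨Φ, h8, h9⟩ := hG d e r m f₀ q₀ h4 h5 h6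
  refine ⟨Φ, h8, fun f hf hΦ => ?_⟩
  obtain ⟨G, h10, h11⟩ := h9 f hf hΦ
  refine ⟨G, h10, fun q hq hG => ?_⟩
  have := h11 q hq hG
  omega

end Pool.Agent.Lib.MP_a430e8_ag
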