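import Pool.Agent.Lib.MP_a430e8_ag.NBase

/-! Weighted fat points impose enough conditions on a set between two simplices. -/

namespace Pool.Agent.Lib.MP_a430e8_ag
open Finset MvPolynomial

namespace NBig

lemma six_choose (n : ℕ) : 6 * (n + 3).choose 3 = (n + 3) * (n + 2) * (n + 1) := by
  have := Nat.descFactorial_eq_factorial_mul_choose (n + 3) 3
  simp only [Nat.descFactorial_succ, Nat.descFactorial_zero, mul_one] at this
  rw [show Nat.factorial 3 = 6 from rfl, show n + 3 - 2 = n + 1 from rfl,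
    show n + 3 - 1 = n + 2 from rfl, Nat.sub_zero] at this
  rw [← this]
  ring

lemma num {n f c S : ℕ} (hf : 2 * f ≤ n + 1) (h1 : 97 * (n + 3).choose 3 ≤ 100 * c)
    (h2 : 15625 * c ≤ 2001 * S) :
    ∏ k ∈ range 3, (n + 1 + (k + 1) * f) ≤ Nat.factorial 3 * S := by
  have h3 := six_choose n
  have h4 : (2 * (n + 1 + (0 + 1) * f)) * (n + 1 + (1 + 1) * f) * (2 * (n + 1 + (2 + 1) * f)) ≤
      (3 * (n + 1)) * (2 * (n + 1)) * (5 * (n + 1)) :=
    Nat.mul_le_mul (Nat.mul_le_mul (by omega) (by omega)) (by omega)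
  have h5 : (n + 1) * (n + 1) * (n + 1) ≤ (n + 3) * (n + 2) * (n + 1) :=
    Nat.mul_le_mul (Nat.mul_le_mul (by omega) (by omega)) le_rfl
  rw [prod_range_succ, prod_range_succ, prod_range_succ, prod_range_zero, one_mul,
    show Nat.factorial 3 = 6 from rfl]
  have h7 : (2 * (n + 1 + (0 + 1) * f)) * (n + 1 + (1 + 1) * f) * (2 * (n + 1 + (2 + 1) * f)) =
      4 * ((n + 1 + (0 + 1) * f) * (n + 1 + (1 + 1) * f) * (n + 1 + (2 + 1) * f)) := by ring
  have h8 : (3 * (n + 1)) * (2 * (n + 1)) * (5 * (n + 1)) =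
      30 * ((n + 1) * (n + 1) * (n + 1)) := by ring
  rw [h7, h8] at h4
  omega

open MCover in
/-- Weighted fat points which nearly fill the simplex kill all polynomials of degree at most `n`. -/
lemma kill {e r n : ℕ} {m : Fin r → ℕ} {S : Finset (Fin r)} (hS : S.Nonempty)
    (hA : ∀ i ∈ S, Big e (m i)) (hn : n ≤ e)
    (h1 : 97 ≤ n → 97 * (n + 3).choose 3 ≤ 100 * ∑ i ∈ S, cc (m i)) :
    ∃ u : Fin r → Fin 3 → P3, ∀ F : P3,
      (∀ i ∈ S, aeval (u i) F ∈ JW ((m i - 1) / 2)) → F.totalDegree ≤ n → F = 0 := by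
  obtain ⟨i0, hi0⟩ := hS
  by_cases hK : ∃ i ∈ S, 2 * n ≤ (m i - 1) / 2
  · obtain ⟨i, hi, hK⟩ := hK
    refine ⟨fun _ => X, fun F hF hd => JW_zero hK ?_ hd⟩
    have h1 := hF i hi
    rwa [aeval_X_left_apply] at h1
  have hb : ∀ i ∈ S, 2000 ≤ m i ∧ (m i - 1) / 2 < 2 * n := by
    intro i hi
    have h1 : ¬ 2 * n ≤ (m i - 1) / 2 := fun h => hK ⟨i, hi, h⟩
    rcases hA i hi with h2 | h2 <;> omega
  have h2 : 15625 * ∑ i ∈ S, cc (m i) ≤ 2001 * ∑ i ∈ S, ((m i - 1) / 2 / 4 + 1) ^ 3 := by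
    rw [mul_sum, mul_sum]
    refine sum_le_sum fun i hi => num_one ?_ ?_
    · omega
    · have := hb i hi
      omega
  obtain ⟨L, hL, ⟨q, hq⟩, -, -⟩ := count (fun i => (m i - 1) / 2 / 4 + 1) 3 (n + 1) ((n + 1) / 2) S
    (fun i hi => by have := hb i hi; constructor <;> omega)
    (num (by omega) (h1 (by have := hb i0 hi0; omega)) h2)
  exact ⟨fun i k => X k + C (q i k), fun F hF hd =>
    hq F (by omega) fun i hi => mem_box_of_JW (q i) (hF i (hL hi))⟩

lemma kil_of {r n : ℕ} {Y : Fin r → Ideal P3} {S : Finset (Fin r)} {E : Finset Cell}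
    (hE : E ⊆ tet (n + 1)) {u : Fin r → Fin 3 → P3}
    (hu : ∀ F : P3, (∀ i ∈ S, aeval (u i) F ∈ Y i) → F.totalDegree ≤ n → F = 0) : Kil Y S E := by
  refine ⟨u, fun g hg p hp => ?_⟩
  have h1 : ∑ q ∈ E, g q • mono3 q ∈ Vd n :=
    Submodule.sum_mem _ fun q hq => Submodule.smul_mem _ _ (mono3_mem_Vd (hE hq))
  have h2 := coeff_sum_mono3 E g p
  rw [hu _ hg (mem_Vd.1 h1), if_pos hp, coeff_zero] at h2
  exact h2.symm

lemma ratio {k T : ℕ} (hk : 96 ≤ k) (h : (k + 3).choose 3 ≤ T) :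
    97 * (k + 1 + 3).choose 3 ≤ 100 * T := by
  have h1 := six_choose k
  have h2 := six_choose (k + 1)
  have h3 : 97 * (k + 4) * ((k + 3) * (k + 2)) ≤ 100 * (k + 1) * ((k + 3) * (k + 2)) :=
    Nat.mul_le_mul_right _ (by omega)
  have h4 : 97 * (k + 4) * ((k + 3) * (k + 2)) =
      97 * ((k + 1 + 3) * (k + 1 + 2) * (k + 1 + 1)) := by ring
  have h5 : 100 * (k + 1) * ((k + 3) * (k + 2)) = 100 * ((k + 3) * (k + 2) * (k + 1)) := by ring
  omega

lemma one_le_cc {e m : ℕ} (h : Big e m) : 1 ≤ cc m :=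
  Nat.choose_pos (by rcases h with h | h <;> omega)

end NBig

open NBig in
theorem big : BigStmt := by
  intro e r m Y S D s hA hs h1 h2 h3
  rcases S.eq_empty_or_nonempty with rfl | hS
  · exact ⟨∅, empty_subset _, by rw [sum_empty, Nat.min_zero]; exact Nat.zero_le _,
      kil_empty Y ∅⟩
  have key : ∀ (n : ℕ) (E : Finset Cell), n ≤ e → E ⊆ tet (n + 1) →
      (97 ≤ n → 97 * (n + 3).choose 3 ≤ 100 * ∑ i ∈ S, cc (m i)) → Kil Y S E := by
    intro n E hn hE h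
    obtain ⟨u, hu⟩ := kill hS (fun i hi => (hA i hi).1) hn h
    exact kil_of hE (u := u) fun F hF => hu F fun i hi => (hA i hi).2 ▸ hF i hi
  have hT : 1 ≤ ∑ i ∈ S, cc (m i) := by
    obtain ⟨i, hi⟩ := hS
    exact (one_le_cc (hA i hi).1).trans
      (single_le_sum (f := fun i => cc (m i)) (fun _ _ => Nat.zero_le _) hi)
  generalize ∑ i ∈ S, cc (m i) = T at key hT ⊢
  rcases le_or_gt T ((s + 2).choose 3) with h | h
  · obtain ⟨s, rfl⟩ : ∃ s', s = s' + 1 := by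
      rcases s with _ | s
      · exact absurd (hT.trans h) (by decide)
      · exact ⟨s, rfl⟩
    have hex : ∃ n, T ≤ (n + 3).choose 3 := ⟨s, h⟩
    have he1 : Nat.find hex ≤ s := Nat.find_min' hex h
    have he2 := Nat.find_spec hex
    have he3 : ∀ k < Nat.find hex, ¬ T ≤ (k + 3).choose 3 := fun k hk => Nat.find_min hex hk
    generalize Nat.find hex = n at he1 he2 he3
    refine ⟨tet (n + 1), fun p hp => h1 (mem_tet.2 ((mem_tet.1 hp).trans_le (by omega))), ?_,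
      key n _ (by omega) Subset.rfl fun hn => ?_⟩
    · rw [card_tet]
      exact (min_le_right _ _).trans he2
    · obtain ⟨k, rfl⟩ : ∃ k, n = k + 1 := ⟨n - 1, by omega⟩
      exact ratio (by omega) (not_le.1 (he3 k (Nat.lt_succ_self k))).le
  · exact ⟨D, Subset.rfl, min_le_left _ _, key e D le_rfl h2 fun _ => by omega⟩

end Pool.Agent.Lib.MP_a430e8_ag
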