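import Pool.Agent.Lib.MP_a430e8_ag.NBase

/-! Counting arguments for points of small multiplicity. -/

namespace Pool.Agent.Lib.MP_a430e8_ag
open Finset MvPolynomial

namespace NCount

/-- The points of `S` remove the cells of `P` from `D`. -/
def Cut {r : ℕ} (Y : Fin r → Ideal P3) (S : Finset (Fin r)) (D P : Finset Cell) : Prop :=
  ∀ (S' : Finset (Fin r)) (E : Finset Cell), Disjoint S S' → E ⊆ D \ P → Kil Y S' E →
    Kil Y (S ∪ S') (P ∪ E)

lemma cut_empty {r : ℕ} (Y : Fin r → Ideal P3) (D : Finset Cell) : Cut Y ∅ D ∅ :=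
  fun _ _ _ _ h => by rwa [empty_union, empty_union]

lemma Cut.comp {r : ℕ} {Y : Fin r → Ideal P3} {S T : Finset (Fin r)} {D P Q : Finset Cell}
    (h1 : Cut Y S D P) (h2 : Cut Y T (D \ P) Q) (hS : Disjoint S T) (hQ : Q ⊆ D \ P) :
    Cut Y (S ∪ T) D (P ∪ Q) := by
  intro S' E hd hE hK
  rw [disjoint_union_left] at hd
  rw [union_assoc, union_assoc]
  have h3 : E ⊆ (D \ P) \ Q := by rwa [sdiff_sdiff_left, sup_eq_union]
  exact h1 _ _ (disjoint_union_right.2 ⟨hS, hd.1⟩) (union_subset hQ (h3.trans sdiff_subset))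
    (h2 _ _ hd.2 h3 hK)

lemma digit {L a a' t t' : ℕ} (h : a < L) (h' : a' < L) (e : a + L * t = a' + L * t') :
    a = a' ∧ t = t' := by
  have h1 := congrArg (· % L) e
  simp only [Nat.add_mul_mod_self_left, Nat.mod_eq_of_lt h, Nat.mod_eq_of_lt h'] at h1
  subst h1
  exact ⟨rfl, Nat.eq_of_mul_eq_mul_left (by omega) (Nat.add_left_cancel e)⟩

lemma inj_wt {L : ℕ} {D : Finset Cell} (h : InCube L D) : Set.InjOn (wt 1 L (L * L)) D := by
  rintro ⟨a, b, c⟩ hp ⟨a', b', c'⟩ hq e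
  obtain ⟨h1, h2, -⟩ := h _ hp
  obtain ⟨h3, h4, -⟩ := h _ hq
  simp only [wt] at e h1 h2 h3 h4
  obtain ⟨rfl, h5⟩ := digit (t := b + L * c) (t' := b' + L * c') h1 h3 (by linear_combination e)
  obtain ⟨rfl, rfl⟩ := digit h2 h4 h5
  rfl

lemma step (hC : CutStmt) (hP : PickStmt) {r : ℕ} {Y : Fin r → Ideal P3} {i : Fin r}
    {m L α β γ θ : ℕ} {D : Finset Cell} (hD : InCube L D) (hw : Set.InjOn (wt α β γ) D)
    (h1 : 1 ≤ m) (h2 : m ≤ 2000) (hY : Y i = JP m)
    (hc : 4000 * L ^ 2 < (D.filter fun p => θ ≤ wt α β γ p).card) :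
    ∃ P ⊆ D.filter fun p => θ ≤ wt α β γ p, P.card = cc m + 1 ∧ Cut Y {i} D P := by
  obtain ⟨U, hU, hn, hdom⟩ := hP (D.filter fun p => θ ≤ wt α β γ p) m L
    (fun p hp => hD p (filter_subset _ _ hp)) h1
    (lt_of_le_of_lt (Nat.mul_le_mul_right _ (by omega)) hc)
  have hK : Kil Y {i} U := kil_of_good (by rw [hY]; exact hdom _ (good_JP h1))
  obtain ⟨P, hPD, hge, hcut⟩ := hC r Y {i} D U α β γ (hU.trans (filter_subset _ _)) hw hK
  have h3 : P.card ≤ cc m + 1 := by
    have h4 := hcut ∅ ∅ (disjoint_empty_right _) (empty_subset _) (kil_empty _ _)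
    rw [union_empty, union_empty] at h4
    have h5 : Module.Finite ℂ (P3 ⧸ Y i) := by rw [hY]; exact (quot_JP m).1
    refine (card_of_kil h4).trans ?_
    rw [hY]
    exact (quot_JP m).2
  have h6 := hge θ
  rw [filter_true_of_mem fun p hp => (mem_filter.1 (hU hp)).2, hn] at h6
  have h7 : (P.filter fun p => θ ≤ wt α β γ p) = P :=
    eq_of_subset_of_card_le (filter_subset _ _) (h3.trans h6)
  refine ⟨P, ?_, le_antisymm h3 (h7 ▸ h6), hcut⟩
  rw [← h7]
  exact filter_subset_filter _ hPD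

lemma greedy (hC : CutStmt) (hP : PickStmt) {r : ℕ} {m : Fin r → ℕ} {Y : Fin r → Ideal P3}
    {L α β γ θ : ℕ} (S : Finset (Fin r)) : ∀ D : Finset Cell, InCube L D →
    Set.InjOn (wt α β γ) D → (∀ i ∈ S, 2 ≤ m i ∧ m i ≤ 2000 ∧ Y i = JP (m i)) →
    ∃ T ⊆ S, ∃ P ⊆ D.filter fun p => θ ≤ wt α β γ p, P.card = ∑ i ∈ T, (cc (m i) + 1) ∧
      Cut Y T D P ∧
        (T = S ∨ (D.filter fun p => θ ≤ wt α β γ p).card ≤ P.card + 4000 * L ^ 2) := by
  induction S using Finset.induction_on with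
  | empty => exact fun D _ _ _ => ⟨∅, Subset.rfl, ∅, empty_subset _, rfl, cut_empty _ _, Or.inl rfl⟩
  | insert i S hi ih =>
    intro D hD hw hm
    by_cases hc : 4000 * L ^ 2 < (D.filter fun p => θ ≤ wt α β γ p).card
    swap
    · exact ⟨∅, empty_subset _, ∅, empty_subset _, rfl, cut_empty _ _, Or.inr (by omega)⟩
    obtain ⟨h1, h2, h3⟩ := hm i (mem_insert_self _ _)
    obtain ⟨P, hPD, hn, hcut⟩ := step hC hP hD hw (by omega) h2 h3 hc
    obtain ⟨T, hT, Q, hQ, hn', hcut', hor⟩ := ih (D \ P) (fun p hp => hD p (sdiff_subset hp))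
      (hw.mono (coe_subset.2 sdiff_subset)) fun j hj => hm j (mem_insert_of_mem hj)
    have hiT : i ∉ T := fun h => hi (hT h)
    have hQ' : Q ⊆ D \ P := hQ.trans (filter_subset _ _)
    have hd : (P ∪ Q).card = P.card + Q.card :=
      card_union_of_disjoint (disjoint_sdiff.mono_right hQ')
    refine ⟨insert i T, insert_subset_insert _ hT, P ∪ Q,
      union_subset hPD (hQ.trans (filter_subset_filter _ sdiff_subset)), ?_, ?_, ?_⟩
    · rw [hd, sum_insert hiT, hn, hn']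
    · rw [insert_eq]
      exact hcut.comp hcut' (disjoint_singleton_left.2 hiT) hQ'
    · refine hor.imp (fun h => by rw [h]) fun h => ?_
      have h4 : (D.filter fun p => θ ≤ wt α β γ p) ⊆
          P ∪ (D \ P).filter fun p => θ ≤ wt α β γ p := by
        intro p hp
        simp only [mem_union, mem_filter, mem_sdiff] at hp ⊢
        tauto
      have h5 := (card_le_card h4).trans (card_union_le _ _)
      omega

lemma dom_single (p : Cell) (m : ℕ) : Dom {p} (triP m) := by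
  rintro R _ _ ⟨x, y, z, h⟩
  have h1 : Nontrivial R := nontrivial_of_ne _ _ (h.ne_zero ⟨(0, 0, 1), mem_insert_self _ _⟩)
  refine ⟨1, 1, 1, linearIndependent_unique_iff.2 ?_⟩
  simp [mon]

lemma single (hC : CutStmt) {r : ℕ} {m : Fin r → ℕ} {Y : Fin r → Ideal P3} {α β γ : ℕ}
    (S : Finset (Fin r)) : ∀ D : Finset Cell, Set.InjOn (wt α β γ) D →
    (∀ i ∈ S, 1 ≤ m i ∧ Y i = JP (m i)) → ∃ E ⊆ D, min D.card S.card ≤ E.card ∧ Kil Y S E := by
  induction S using Finset.induction_on with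
  | empty => exact fun D _ _ => ⟨∅, empty_subset _, by simp, kil_empty _ _⟩
  | insert i S hi ih =>
    intro D hw hm
    rcases D.eq_empty_or_nonempty with rfl | ⟨p, hp⟩
    · exact ⟨∅, Subset.rfl, by simp, kil_empty _ _⟩
    obtain ⟨h1, h2⟩ := hm i (mem_insert_self _ _)
    obtain ⟨P, hPD, hge, hcut⟩ := hC r Y {i} D {p} α β γ (singleton_subset_iff.2 hp) hw
      (kil_of_good (by rw [h2]; exact dom_single p _ _ (good_JP h1)))
    have h3 := (hge 0).trans (card_filter_le _ _)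
    rw [filter_true_of_mem fun _ _ => Nat.zero_le _, card_singleton] at h3
    obtain ⟨E, hE, h4, h5⟩ := ih (D \ P) (hw.mono (coe_subset.2 sdiff_subset))
      fun j hj => hm j (mem_insert_of_mem hj)
    refine ⟨P ∪ E, union_subset hPD (hE.trans sdiff_subset), ?_, ?_⟩
    · rw [card_union_of_disjoint (disjoint_sdiff.mono_right hE), card_insert_of_notMem hi]
      have := card_sdiff_add_card_eq_card hPD
      omega
    · rw [insert_eq]
      exact hcut _ _ (disjoint_singleton_left.2 hi) hE h5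

end NCount

theorem shave (hC : CutStmt) (hP : PickStmt) : ShaveStmt := by
  intro r m Y S D L α β γ θ hD hw hm hc
  obtain ⟨T, hT, P, h1, h2, h3, h4⟩ := NCount.greedy hC hP (θ := θ) S D hD hw hm
  have h5 : ∑ i ∈ T, (cc (m i) + 1) ≤ ∑ i ∈ S, (cc (m i) + 1) := sum_le_sum_of_subset hT
  obtain rfl : T = S := h4.resolve_right (by omega)
  exact ⟨P, h1, h2, h3⟩

theorem countP (hC : CutStmt) (hP : PickStmt) : CountStmt := by
  intro r m Y S D L hD hm hc
  have hw := NCount.inj_wt hD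
  obtain ⟨T, hT, P, h1, h2, h3, h4⟩ := NCount.greedy hC hP (θ := 0) S D hD hw hm
  rw [filter_true_of_mem fun _ _ => Nat.zero_le _] at h1 h4
  obtain ⟨E, hE, h5, h6⟩ := NCount.single hC (m := m) (Y := Y) (S \ T) (D \ P)
    (hw.mono (coe_subset.2 sdiff_subset)) fun i hi =>
      ⟨(by decide : 1 ≤ 2).trans (hm i (sdiff_subset hi)).1, (hm i (sdiff_subset hi)).2.2⟩
  have h7 := h3 _ _ disjoint_sdiff hE h6
  rw [union_sdiff_of_subset hT] at h7
  refine ⟨P ∪ E, union_subset h1 (hE.trans sdiff_subset), ?_, h7⟩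
  rw [card_union_of_disjoint (disjoint_sdiff.mono_right hE), ← sum_sdiff hT]
  rw [sum_add_distrib, sum_const, smul_eq_mul, mul_one] at h2
  have h8 := card_sdiff_add_card_eq_card h1
  have h9 := card_sdiff_add_card_eq_card hT
  have h10 : ∑ i ∈ S \ T, cc (m i) ≤ (S \ T).card * 2001000 :=
    sum_le_card_nsmul _ _ _ fun i hi => cc_le (hm i (sdiff_subset hi)).2.1
  rcases h4 with rfl | h4
  · rw [sdiff_self, bot_eq_empty, sum_empty]
    omega
  · omega

end Pool.Agent.Lib.MP_a430e8_ag
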