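import Pool.Agent.Lib.MP_a430e8_ag.NBase

/-! Removal of a greedy basis. -/

namespace Pool.Agent.Lib.MP_a430e8_ag
open Finset MvPolynomial

namespace NCut

/-- The greedy basis with respect to an injective weight. -/
lemma greedy {V : Type} [AddCommGroup V] [Module ℂ V] (D : Finset Cell) (w : Cell → ℕ)
    (hw : Set.InjOn w D) (v : Cell → V) : ∃ P ⊆ D,
      (∀ g : Cell → ℂ, ∑ p ∈ P, g p • v p = 0 → ∀ p ∈ P, g p = 0) ∧
      ∀ p ∈ D, v p ∈ Submodule.span ℂ (v '' (P.filter fun q => w p ≤ w q)) := by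
  classical
  let sp : ℕ → Submodule ℂ V := fun θ => Submodule.span ℂ (v '' {q | q ∈ D ∧ θ < w q})
  refine ⟨D.filter fun p => v p ∉ sp (w p), filter_subset _ _, fun g hg => ?_, ?_⟩
  · by_contra hh
    push Not at hh
    obtain ⟨p1, hp1, hp2⟩ := hh
    obtain ⟨p, hp, hmin⟩ := exists_min_image
      ((D.filter fun p => v p ∉ sp (w p)).filter fun p => g p ≠ 0) w
      ⟨p1, mem_filter.2 ⟨hp1, hp2⟩⟩
    obtain ⟨hpP, hg0⟩ := mem_filter.1 hp
    obtain ⟨hpD, hpn⟩ := mem_filter.1 hpP
    rw [← add_sum_erase _ _ hpP, add_eq_zero_iff_eq_neg] at hg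
    refine hpn ((Submodule.smul_mem_iff _ hg0).1 ?_)
    rw [hg]
    refine Submodule.neg_mem _ (Submodule.sum_mem _ fun q hq => ?_)
    obtain ⟨hq1, hq2⟩ := mem_erase.1 hq
    by_cases e : g q = 0
    · rw [e, zero_smul]
      exact Submodule.zero_mem _
    · have hqD := (mem_filter.1 hq2).1
      refine Submodule.smul_mem _ _ (Submodule.subset_span ⟨q, ⟨hqD, ?_⟩, rfl⟩)
      exact lt_of_le_of_ne (hmin q (mem_filter.2 ⟨hq2, e⟩)) fun e' => hq1 (hw hpD hqD e').symm
  · have key : ∀ n, ∀ p ∈ D, D.sup w < w p + n → v p ∈ Submodule.span ℂ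
        (v '' ((D.filter fun p => v p ∉ sp (w p)).filter fun q => w p ≤ w q)) := by
      intro n
      induction n with
      | zero => exact fun p hp h => absurd (le_sup (f := w) hp) (not_le.2 h)
      | succ n ih =>
        intro p hp h
        by_cases e : v p ∈ sp (w p)
        · refine (Submodule.span_le.2 ?_ : sp (w p) ≤ _) e
          rintro _ ⟨q, ⟨hq, hlt⟩, rfl⟩
          refine Submodule.span_mono (Set.image_mono ?_) (ih q hq (by omega))
          intro z hz
          obtain ⟨h1, h2⟩ := mem_filter.1 hz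
          exact mem_filter.2 ⟨h1, by omega⟩
        · exact Submodule.subset_span ⟨p, mem_filter.2 ⟨mem_filter.2 ⟨hp, e⟩, le_rfl⟩, rfl⟩
    exact fun p hp => key (D.sup w + 1) p hp (by omega)

lemma coef {V : Type} [AddCommGroup V] [Module ℂ V] {P : Finset Cell} {w : Cell → ℕ}
    {v : Cell → V} {θ : ℕ} {x : V} (h : x ∈ Submodule.span ℂ (v '' (P.filter fun q => θ ≤ w q))) :
    ∃ a : Cell → ℂ, (∀ q, a q ≠ 0 → θ ≤ w q) ∧ ∑ q ∈ P, a q • v q = x := by
  obtain ⟨a, ha⟩ := (Submodule.mem_span_image_finset_iff_exists_fun' ℂ).1 h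
  refine ⟨fun q => if θ ≤ w q then a q else 0, fun q h4 => ?_, ?_⟩
  · by_contra h5
    exact h4 (if_neg h5)
  · rw [← ha, sum_filter]
    exact sum_congr rfl fun q _ => by rw [ite_smul, zero_smul]

/-- The coordinates of a placement in the product of the quotients. -/
noncomputable def vv {r : ℕ} (Y : Fin r → Ideal P3) (S : Finset (Fin r)) (u : Fin r → Fin 3 → P3) :
    Fin 3 → (i : S) → P3 ⧸ Y i := fun k i => Ideal.Quotient.mkₐ ℂ (Y i) (u i k)

lemma vv_zero {r : ℕ} {Y : Fin r → Ideal P3} {S : Finset (Fin r)} {u : Fin r → Fin 3 → P3}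
    {F : P3} : aeval (vv Y S u) F = 0 ↔ ∀ i ∈ S, aeval (u i) F ∈ Y i := by
  have h : ∀ i : S, aeval (vv Y S u) F i = Ideal.Quotient.mk (Y i) (aeval (u i) F) := fun i => by
    have : (Pi.evalAlgHom ℂ (fun i : S => P3 ⧸ Y i) i).comp (aeval (vv Y S u)) =
        (Ideal.Quotient.mkₐ ℂ (Y i)).comp (aeval (u i)) := algHom_ext fun k => by
      simp only [AlgHom.comp_apply, aeval_X]
      rfl
    exact DFunLike.congr_fun this F
  constructor
  · intro e i hi
    rw [← Ideal.Quotient.eq_zero_iff_mem, ← h ⟨i, hi⟩, e]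
    rfl
  · intro e
    funext i
    rw [h, Ideal.Quotient.eq_zero_iff_mem.2 (e i i.2)]
    rfl

lemma indep {r : ℕ} {Y : Fin r → Ideal P3} {S : Finset (Fin r)} {u : Fin r → Fin 3 → P3}
    {U U' : Finset Cell} (hU : U' ⊆ U) (hu : ∀ g : Cell → ℂ,
      (∀ i ∈ S, aeval (u i) (∑ p ∈ U, g p • mono3 p) ∈ Y i) → ∀ p ∈ U, g p = 0) :
    LinearIndependent ℂ fun p : U' => aeval (vv Y S u) (mono3 p) := by
  classical
  refine Fintype.linearIndependent_iff.2 fun g hg p => ?_
  have := hu (fun q => if hq : q ∈ U' then g ⟨q, hq⟩ else 0) (vv_zero.1 ?_) p (hU p.2)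
  · simpa using this
  · rw [← sum_subset hU fun q _ hq => by rw [dif_neg hq, zero_smul], ← hg, map_sum,
      ← sum_coe_sort]
    exact sum_congr rfl fun q _ => by rw [map_smul, dif_pos q.2]

end NCut

open NCut in
theorem cut : CutStmt := by
  classical
  rintro r Y S D U α β γ hU hw ⟨u, hu⟩
  obtain ⟨P, hP, h1, h2⟩ := greedy D (wt α β γ) hw fun p => aeval (vv Y S u) (mono3 p)
  refine ⟨P, hP, fun θ => ?_, ?_⟩
  · have h3 := linearIndependent_le_span_aux' _
      (indep (filter_subset (fun p => θ ≤ wt α β γ p) U) hu)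
      ((P.filter fun p => θ ≤ wt α β γ p).image fun p => aeval (vv Y S u) (mono3 p) : Finset _)
      (by
        rintro _ ⟨p, rfl⟩
        obtain ⟨hp, hθ⟩ := mem_filter.1 p.2
        rw [coe_image]
        refine Submodule.span_mono (Set.image_mono ?_) (h2 p (hU hp))
        intro z hz
        obtain ⟨h4, h5⟩ := mem_filter.1 hz
        exact mem_filter.2 ⟨h4, hθ.trans h5⟩)
    simp only [coe_sort_coe, Fintype.card_coe] at h3
    exact h3.trans card_image_le
  rintro S' E hS hE ⟨u', hu'⟩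
  have hEP : ∀ p ∈ E, p ∉ P := fun p hp => (mem_sdiff.1 (hE hp)).2
  have hd : Disjoint P E := disjoint_right.2 hEP
  have h3 : ∀ p : E, ∃ a : Cell → ℂ, (∀ q ∈ P, a q ≠ 0 → wt α β γ p < wt α β γ q) ∧
      ∑ q ∈ P, a q • aeval (vv Y S u) (mono3 q) = aeval (vv Y S u) (mono3 p) := by
    intro p
    have hpD := (mem_sdiff.1 (hE p.2)).1
    obtain ⟨a, h4, h5⟩ := coef (h2 p hpD)
    exact ⟨a, fun q hq h6 => lt_of_le_of_ne (h4 q h6)
      fun e => hEP p p.2 (hw hpD (hP hq) e ▸ hq), h5⟩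
  choose a ha1 ha2 using h3
  obtain ⟨v, hv⟩ := torusG (R := (i : S') → P3 ⧸ Y i) α β γ (subset_union_right (s₁ := P) (s₂ := E))
    (fun p q => if q = p then 1 else if q ∈ P then -a p q else 0) (fun p => if_pos rfl)
    (fun p q h4 => by
      by_cases e : q = p
      · exact Or.inl e
      · rw [if_neg e] at h4
        by_cases e' : q ∈ P
        · rw [if_pos e'] at h4
          exact Or.inr (ha1 p q e' (neg_ne_zero.1 h4))
        · exact absurd (if_neg e') h4)
    ⟨vv Y S' u' 0, vv Y S' u' 1, vv Y S' u' 2, by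
      simpa only [aeval_mono3] using indep (Subset.refl E) hu'⟩
  have h4 : ∀ p : E, ∑ q ∈ P ∪ E, (if q = p then 1 else if q ∈ P then -a p q else 0) • mono3 q =
      mono3 p - ∑ q ∈ P, a p q • mono3 q := by
    intro p
    rw [sum_union hd, add_comm, sub_eq_add_neg, ← sum_neg_distrib,
      sum_eq_single_of_mem p.1 p.2 fun q hq e => by rw [if_neg e, if_neg (hEP q hq), zero_smul],
      if_pos rfl, one_smul]
    refine congrArg _ (sum_congr rfl fun q hq => ?_)
    rw [if_neg fun e : q = p => hEP p p.2 (e ▸ hq), if_pos hq, neg_smul]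
  simp only [h4] at hv
  choose u'' hu'' using fun (k : Fin 3) (i : S') => Ideal.Quotient.mkₐ_surjective ℂ (Y i) (v k i)
  refine ⟨fun i k => if hi : i ∈ S' then u'' k ⟨i, hi⟩ else u i k, fun g hg => ?_⟩
  have e1 : vv Y S (fun i k => if hi : i ∈ S' then u'' k ⟨i, hi⟩ else u i k) = vv Y S u := by
    funext k i
    simp only [vv, dif_neg (disjoint_left.1 hS i.2)]
  have e2 : vv Y S' (fun i k => if hi : i ∈ S' then u'' k ⟨i, hi⟩ else u i k) = v := by
    funext k i
    simp only [vv, dif_pos i.2, hu'']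
  have g1 := vv_zero.2 fun i hi => hg i (mem_union_left S' hi)
  have g2 := vv_zero.2 fun i hi => hg i (mem_union_right S hi)
  rw [e1] at g1
  rw [e2] at g2
  have h5 : ∑ p ∈ P ∪ E, g p • mono3 p =
      ∑ p : E, g p • (mono3 p - ∑ q ∈ P, a p q • mono3 q) +
        ∑ q ∈ P, (g q + ∑ p : E, g p * a p q) • mono3 q := by
    simp only [smul_sub, sum_sub_distrib, add_smul, sum_add_distrib, sum_smul, smul_sum,
      smul_smul]
    rw [sum_union hd, sum_comm (s := P), ← sum_coe_sort E]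
    abel
  have h6 : ∀ q ∈ P, g q + ∑ p : E, g p * a p q = 0 := by
    refine h1 _ ?_
    rw [h5, map_add, map_sum, sum_eq_zero fun p _ => by
      rw [map_smul, map_sub, map_sum, ← ha2 p]
      simp only [map_smul, sub_self, smul_zero], zero_add, map_sum] at g1
    simpa only [map_smul] using g1
  have h7 : ∀ p : E, g p = 0 := by
    refine Fintype.linearIndependent_iff.1 hv (fun p => g p) ?_
    rw [h5, sum_eq_zero (s := P) fun q hq => by rw [h6 q hq, zero_smul], add_zero, map_sum] at g2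
    simpa only [map_smul] using g2
  intro p hp
  rcases mem_union.1 hp with hp | hp
  · have := h6 p hp
    simpa only [h7, zero_mul, sum_const_zero, add_zero] using this
  · exact h7 ⟨p, hp⟩

end Pool.Agent.Lib.MP_a430e8_ag
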