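import Pool.Agent.Lib.MP_a430e8_ag.NBase

/-! The universal schemes impose enough conditions in large degree. -/

namespace Pool.Agent.Lib.MP_a430e8_ag
open Finset MvPolynomial

namespace NLarge

lemma six_choose (n : ℕ) : 6 * (n + 2).choose 3 = n * (n + 1) * (n + 2) := by
  have h1 := Nat.add_one_mul_choose_eq (n + 1) 2
  have h2 := Nat.add_one_mul_choose_eq n 1
  rw [Nat.choose_one_right] at h2
  calc 6 * (n + 2).choose 3 = 2 * ((n + 1 + 1).choose (2 + 1) * (2 + 1)) := by ring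
    _ = (n + 1 + 1) * ((n + 1).choose (1 + 1) * (1 + 1)) := by rw [← h1]; ring
    _ = _ := by rw [← h2]; ring

lemma wt_eq (L : ℕ) (p : Cell) : wt (L * L) (L * L + 1) (L * L + L) p =
    L * L * (p.1 + p.2.1 + p.2.2) + (L * p.2.2 + p.2.1) := by
  rw [wt]
  ring

lemma rem_lt {L : ℕ} {p : Cell} (hp : p ∈ tet L) : L * p.2.2 + p.2.1 < L * L := by
  rw [mem_tet] at hp
  have := Nat.mul_le_mul_left L (show p.2.2 + 1 ≤ L by omega)
  rw [Nat.mul_succ] at this
  omega

lemma le_of {L x y r s : ℕ} (hr : r < L) (h : L * y + s ≤ L * x + r) : y ≤ x := by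
  by_contra h1
  have := Nat.mul_le_mul_left L (Nat.succ_le_of_lt (not_le.1 h1))
  rw [Nat.mul_succ] at this
  omega

lemma wt_inj (L : ℕ) : Set.InjOn (wt (L * L) (L * L + 1) (L * L + L)) (tet L) := by
  intro p hp q hq h
  have hp' := mem_coe.1 hp
  have hq' := mem_coe.1 hq
  rw [wt_eq, wt_eq] at h
  have h1 := le_antisymm (le_of (rem_lt hq') h.le) (le_of (rem_lt hp') h.ge)
  rw [h1, add_right_inj] at h
  rw [mem_tet] at hp' hq'
  have h2 := le_antisymm (le_of (show q.2.1 < L by omega) h.le)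
    (le_of (show p.2.1 < L by omega) h.ge)
  rw [h2, add_right_inj] at h
  exact Prod.ext (by omega) (Prod.ext h h2)

lemma filter_eq (L g : ℕ) :
    ((tet L).filter fun p => L * L * g ≤ wt (L * L) (L * L + 1) (L * L + L) p) = tet L \ tet g := by
  ext p
  rw [mem_filter, mem_sdiff, wt_eq]
  refine and_congr_right fun hp => ?_
  rw [mem_tet, not_lt]
  exact ⟨fun h => le_of (s := 0) (rem_lt hp) h,
    fun h => (Nat.mul_le_mul_left _ h).trans (Nat.le_add_right _ _)⟩

lemma inCube {L : ℕ} {D : Finset Cell} (h : D ⊆ tet L) : InCube L D := fun p hp => by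
  have := mem_tet.1 (h hp)
  omega

lemma room {g h T : ℕ} (h1 : h ≤ g) (h2 : 5 * 10 ^ 17 ≤ h)
    (hT : T ≤ 2001001 * (2001001 * (4000 * (g + h) ^ 2))) :
    T + 4000 * (g + h) ^ 2 < (g + h + 2).choose 3 - (g + 2).choose 3 := by
  have e1 := six_choose (g + h)
  have e2 := six_choose g
  have h3 : (g + h) ^ 2 ≤ 4 * g ^ 2 := by nlinarith
  have h4 : 5 * 10 ^ 17 * g ^ 2 ≤ h * g ^ 2 := Nat.mul_le_mul_right _ h2
  have h5 : 0 < g ^ 2 := pow_pos (by omega) 2
  have h6 : g * (g + 1) * (g + 2) + 3 * (h * g ^ 2) ≤ (g + h) * (g + h + 1) * (g + h + 2) :=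
    Nat.le.intro (k := 3 * g * h ^ 2 + h ^ 3 + 6 * g * h + 3 * h ^ 2 + 2 * h) (by ring)
  omega

lemma ratio {g L : ℕ} (h : 199 * L ≤ 200 * g) :
    97 * (L + 2).choose 3 ≤ 100 * (g + 2).choose 3 := by
  have e1 := six_choose L
  have e2 := six_choose g
  have h1 := Nat.mul_le_mul (Nat.mul_le_mul h (show 199 * (L + 1) ≤ 200 * (g + 1) by omega))
    (show 199 * (L + 2) ≤ 200 * (g + 2) by omega)
  rw [show 199 * L * (199 * (L + 1)) * (199 * (L + 2)) = 7880599 * (L * (L + 1) * (L + 2)) by ring,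
    show 200 * g * (200 * (g + 1)) * (200 * (g + 2)) = 8000000 * (g * (g + 1) * (g + 2)) by ring]
    at h1
  omega

lemma card_join {D P E : Finset Cell} (hP : P ⊆ D) (hE : E ⊆ D \ P) :
    P ∪ E ⊆ D ∧ (P ∪ E).card = P.card + E.card ∧ (D \ P).card + P.card = D.card :=
  ⟨union_subset hP (hE.trans sdiff_subset),
    card_union_of_disjoint (disjoint_sdiff.mono_right hE), card_sdiff_add_card_eq_card hP⟩

end NLarge

open NLarge in
theorem largeP (hC : CutStmt) (hN : CountStmt) (hS : ShaveStmt) (hB : BigStmt) : LargeStmt := by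
  classical
  intro e r m Y A he hA
  have hb : ∀ i ∈ A.filter fun i => Big e (m i), Big e (m i) ∧ Y i = JW ((m i - 1) / 2) :=
    fun i hi => ⟨(mem_filter.1 hi).2, (hA i (mem_filter.1 hi).1).2.1 (mem_filter.1 hi).2⟩
  have hs : ∀ i ∈ A.filter fun i => ¬ Big e (m i), 2 ≤ m i ∧ m i ≤ 2000 ∧ Y i = JP (m i) :=
    fun i hi => ⟨(hA i (mem_filter.1 hi).1).1,
      (not_le.1 fun h => (mem_filter.1 hi).2 (Or.inl h)).le,
      (hA i (mem_filter.1 hi).1).2.2 (mem_filter.1 hi).2⟩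
  have hd := disjoint_filter_filter_not A A fun i => Big e (m i)
  have hu := filter_union_filter_not_eq (fun i => Big e (m i)) A
  have hsum := sum_filter_add_sum_filter_not A (fun i => Big e (m i)) fun i => cc (m i)
  generalize (A.filter fun i => Big e (m i)) = B at hb hd hu hsum
  generalize (A.filter fun i => ¬ Big e (m i)) = S at hs hd hu hsum
  have hD : (tet (e + 1)).card = (e + 3).choose 3 := card_tet _
  by_cases hc : 2001001 * (4000 * (e + 1) ^ 2) ≤ S.card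
  · obtain ⟨E1, h1, h2, h3⟩ := hB e r m Y B _ (e + 1) hb le_rfl Subset.rfl Subset.rfl
      (Nat.mul_le_mul_right _ (by norm_num))
    obtain ⟨P, h4, h5, h6⟩ := hC r Y B _ E1 _ _ _ h1 (wt_inj (e + 1)) h3
    obtain ⟨E2, h7, h8, h9⟩ := hN r m Y S (tet (e + 1) \ P) (e + 1) (inCube sdiff_subset) hs hc
    obtain ⟨a1, a2, a3⟩ := card_join h4 h7
    have h10 := h5 0
    rw [filter_true_of_mem fun _ _ => Nat.zero_le _, filter_true_of_mem fun _ _ => Nat.zero_le _]
      at h10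
    exact ⟨P ∪ E2, a1, by omega, hu ▸ h6 S E2 hd h7 h9⟩
  · obtain ⟨g, hg⟩ : ∃ g, e + 1 = g + e / 200 := ⟨e + 1 - e / 200, by omega⟩
    have ht : tet g ⊆ tet (e + 1) := fun p hp => by
      rw [mem_tet] at hp ⊢
      omega
    have h0 : ∑ i ∈ S, (cc (m i) + 1) ≤ S.card * 2001001 :=
      sum_le_card_nsmul S _ _ fun i hi => Nat.succ_le_succ (cc_le (hs i hi).2.1)
    obtain ⟨P, h4, h5, h6⟩ := hS r m Y S (tet (e + 1)) (e + 1) _ _ _ ((e + 1) * (e + 1) * g)
      (inCube Subset.rfl) (wt_inj (e + 1)) hs (by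
        rw [filter_eq, card_sdiff_of_subset ht, card_tet, card_tet, hg]
        refine room (by omega) (by omega) ?_
        rw [← hg]
        omega)
    rw [filter_eq] at h4
    obtain ⟨E, h7, h8, h9⟩ := hB e r m Y B (tet (e + 1) \ P) g hb (by omega)
      (fun p hp => mem_sdiff.2 ⟨ht hp, fun h => (mem_sdiff.1 (h4 h)).2 hp⟩) sdiff_subset
      (ratio (L := e + 1) (by omega))
    obtain ⟨a1, a2, a3⟩ := card_join (h4.trans sdiff_subset) h7
    have h10 : ∑ i ∈ S, cc (m i) ≤ P.card := h5 ▸ sum_le_sum fun _ _ => Nat.le_succ _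
    exact ⟨P ∪ E, a1, by omega, hu ▸ union_comm S B ▸ h6 B E hd.symm h7 h9⟩

end Pool.Agent.Lib.MP_a430e8_ag
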