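import Pool.Agent.Lib.MP_a430e8_ag.NBase

/-! The abstract configuration of several fat points from universal schemes. -/

namespace Pool.Agent.Lib.MP_a430e8_ag
open Finset MvPolynomial Module

namespace NMix

/-- A universal scheme is traded for a fat point on a surface germ. -/
lemma step (V : Submodule ℂ P3) [Module.Finite ℂ V] {r : ℕ}
    {J : Fin r → Ideal P3} {i : Fin r} (hi : J i = ⊤) {K : Ideal P3} {m cap : ℕ} (hU : Universal m K)
    (hc : cap ≤ (m + 1).choose 2) (u₀ u₁ : Fin r → Fin 3 → P3) :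
    ∃ (I : Ideal P3) (u : Fin r → Fin 3 → P3), JS m ≤ I ∧ Module.Finite ℂ (P3 ⧸ I) ∧
      finrank ℂ (P3 ⧸ I) ≤ cap ∧ kd V (Function.update J i I) u ≤
        max (kd V (Function.update J i K) u₁) (kd V J u₀ - cap) := by
  obtain ⟨w, h0, h1⟩ := line V r J (Function.update J i K) u₀ u₁
  have fV := Submodule.finiteDimensional_of_le (inf_le_left (a := V) (b := ⨅ k, kr (w k) (J k)))
  have hle : V ⊓ ⨅ k, kr (w k) (Function.update J i K k) ≤ V ⊓ ⨅ k, kr (w k) (J k) := by
    have := MMix.upd_le hi K w (w i)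
    rw [Function.update_eq_self] at this
    exact inf_le_inf_left _ this
  have hle' : kd V (Function.update J i K) w ≤ kd V J w := Submodule.finrank_mono hle
  obtain ⟨A, hA, hn, hd⟩ := MMix.exists_disj hle
    (min cap (kd V J w - kd V (Function.update J i K) w)) (by
      change _ + kd V (Function.update J i K) w ≤ kd V J w
      omega)
  have fA := Submodule.finiteDimensional_of_le hA
  have hz : ∀ G ∈ A, aeval (w i) G ∈ K → G = 0 := by
    intro G hG h
    refine Submodule.disjoint_def.1 hd G hG ⟨(hA hG).1, MMix.mem_inf.2 fun k => ?_⟩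
    by_cases hk : k = i
    · rw [hk, Function.update_self]
      exact h
    · rw [Function.update_of_ne hk]
      exact MMix.mem_inf.1 (hA hG).2 k
  have hW : finrank ℂ (A.map (aeval (w i) : P3 →ₐ[ℂ] P3).toLinearMap) ≤ cap :=
    (Submodule.finrank_map_le _ _).trans (hn ▸ min_le_left _ _)
  obtain ⟨I, v, h2, h3, h4, h5⟩ := hU (A.map (aeval (w i) : P3 →ₐ[ℂ] P3).toLinearMap) (by
    rintro _ ⟨G, hG, rfl⟩ h
    rw [hz G hG h, map_zero]) (hW.trans hc)
  refine ⟨I, Function.update w i fun k => aeval v (w i k), h2, h3, h4.trans hW, ?_⟩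
  have h6 : Disjoint A (V ⊓ ⨅ k, kr (Function.update w i (fun k => aeval v (w i k)) k)
      (Function.update J i I k)) := by
    refine Submodule.disjoint_def.2 fun G hG h => hz G hG ?_
    have h7 := MMix.mem_inf.1 h.2 i
    rw [Function.update_self, Function.update_self, ← comp_aeval, AlgHom.comp_apply] at h7
    have h8 : aeval (w i) G = 0 := h5 _ ⟨G, hG, rfl⟩ h7
    rw [h8]
    exact zero_mem _
  have h7 := MMix.add_le hA (inf_le_inf_left V (MMix.upd_le hi I w fun k => aeval v (w i k))) h6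
  change _ + kd V (Function.update J i I) (Function.update w i fun k => aeval v (w i k)) ≤
    kd V J w at h7
  omega

/-- Fat points on surface germs at `I`, universal schemes at `A`. -/
noncomputable def JJ {r : ℕ} (m : Fin r → ℕ) (Y : Fin r → Ideal P3) (I A : Finset (Fin r)) (i : Fin r) : Ideal P3 :=
  if i ∈ I then JS (m i) else if i ∈ A then Y i else ⊤

lemma JJ_top {r : ℕ} (m : Fin r → ℕ) (Y : Fin r → Ideal P3) {I A : Finset (Fin r)} {i : Fin r} (hI : i ∉ I)
    (hA : i ∉ A) : JJ m Y I A i = ⊤ := by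
  rw [JJ, if_neg hI, if_neg hA]

lemma JJ_left {r : ℕ} (m : Fin r → ℕ) (Y : Fin r → Ideal P3) (I A : Finset (Fin r)) (i : Fin r) :
    JJ m Y (insert i I) A = Function.update (JJ m Y I A) i (JS (m i)) := by
  funext k
  by_cases hk : k = i
  · rw [hk, Function.update_self, JJ, if_pos (mem_insert_self _ _)]
  · rw [Function.update_of_ne hk]
    simp only [JJ, mem_insert, hk, false_or]

lemma JJ_right {r : ℕ} (m : Fin r → ℕ) (Y : Fin r → Ideal P3) {I : Finset (Fin r)} (A : Finset (Fin r)) {i : Fin r}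
    (hI : i ∉ I) :
    JJ m Y I (insert i A) = Function.update (JJ m Y I A) i (Y i) := by
  funext k
  by_cases hk : k = i
  · rw [hk, Function.update_self, JJ, if_neg hI, if_pos (mem_insert_self _ _)]
  · rw [Function.update_of_ne hk]
    simp only [JJ, mem_insert, hk, false_or]

lemma mixed {e r : ℕ} {m : Fin r → ℕ} {Y : Fin r → Ideal P3}
    (hU : ∀ i, 2 ≤ m i → Universal (m i) (Y i))
    (hB : ∀ A : Finset (Fin r), (∀ i ∈ A, 2 ≤ m i) → ∃ u : Fin r → Fin 3 → P3,
      kd (Vd e) (fun i => if i ∈ A then Y i else ⊤) u +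
        min ((e + 3).choose 3) (∑ i ∈ A, (m i + 1).choose 2) ≤ (e + 3).choose 3)
    (I : Finset (Fin r)) :
    ∀ A : Finset (Fin r), Disjoint I A → (∀ i ∈ A, 2 ≤ m i) →
      ∃ u, kd (Vd e) (JJ m Y I A) u ≤ (e + 3).choose 3 -
        (∑ i ∈ I, (m i + 1).choose 2 + ∑ i ∈ A, (m i + 1).choose 2) := by
  induction I using Finset.induction_on with
  | empty =>
    intro A _ hA
    obtain ⟨u, hu⟩ := hB A hA
    have h1 : JJ m Y ∅ A = fun i => if i ∈ A then Y i else ⊤ := by
      funext k
      rw [JJ, if_neg (notMem_empty _)]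
    refine ⟨u, ?_⟩
    rw [h1, sum_empty]
    omega
  | insert i I hi ih =>
    intro A hd hA
    obtain ⟨hiA, hd'⟩ := disjoint_insert_left.1 hd
    obtain ⟨u₀, h0⟩ := ih A hd' hA
    rw [JJ_left, sum_insert hi]
    rcases (show m i ≤ 1 ∨ 2 ≤ m i by omega) with h | h
    · obtain ⟨u, hu⟩ := MMix.small (Vd e) (JJ_top m Y hi hiA) h u₀
      exact ⟨u, by omega⟩
    · obtain ⟨u₁, h1⟩ := ih (insert i A) (disjoint_insert_right.2 ⟨hi, hd'⟩)
        (fun k hk => (mem_insert.1 hk).elim (fun e => e ▸ h) (hA k))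
      rw [JJ_right m Y A hi, sum_insert hiA] at h1
      obtain ⟨I', u, h2, -, -, h3⟩ := step (Vd e) (JJ_top m Y hi hiA) (hU i h) le_rfl u₀ u₁
      refine ⟨u, (MMix.kd_mono (Vd e) (fun k => ?_) u).trans (h3.trans (by omega))⟩
      by_cases hk : k = i
      · rw [hk, Function.update_self, Function.update_self]
        exact h2
      · rw [Function.update_of_ne hk, Function.update_of_ne hk]

lemma quot_JJ {r : ℕ} (m : Fin r → ℕ) (Y : Fin r → Ideal P3) (I : Finset (Fin r)) (i : Fin r) :
    JS (m i) ≤ JJ m Y I ∅ i ∧ Module.Finite ℂ (P3 ⧸ JJ m Y I ∅ i) ∧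
      finrank ℂ (P3 ⧸ JJ m Y I ∅ i) ≤ if i ∈ I then (m i + 1).choose 2 else 0 := by
  by_cases h : i ∈ I
  · rw [if_pos h, show JJ m Y I ∅ i = JS (m i) from if_pos h]
    exact ⟨le_rfl, quot_JS _⟩
  · rw [if_neg h, JJ_top m Y h (notMem_empty _)]
    exact ⟨le_top, quot_le (E := ∅) fun _ _ => Submodule.mem_top⟩

end NMix

theorem confG : ConfGStmt := by
  intro e r m Y hU hB
  obtain ⟨I, hI, hmax⟩ := exists_max_image
    ((univ : Finset (Finset (Fin r))).filter
      fun I => ∑ i ∈ I, (m i + 1).choose 2 ≤ (e + 3).choose 3) card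
    ⟨∅, mem_filter.2 ⟨mem_univ _, by simp⟩⟩
  have hI' := (mem_filter.1 hI).2
  have hout : ∀ j ∉ I, (e + 3).choose 3 < (m j + 1).choose 2 + ∑ i ∈ I, (m i + 1).choose 2 := by
    intro j hj
    by_contra hc
    have := hmax (insert j I) (mem_filter.2 ⟨mem_univ _, by rw [sum_insert hj]; omega⟩)
    rw [card_insert_of_notMem hj] at this
    omega
  have hall : ∀ j ∉ I, (e + 3).choose 3 < ∑ i, (m i + 1).choose 2 := fun j hj =>
    (hout j hj).trans_le (by
      rw [← sum_insert (f := fun i => (m i + 1).choose 2) hj]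
      exact sum_le_sum_of_subset (subset_univ _))
  have hsum : ∑ i, (if i ∈ I then (m i + 1).choose 2 else 0) = ∑ i ∈ I, (m i + 1).choose 2 := by
    rw [sum_ite_mem, univ_inter]
  obtain ⟨u₀, h0⟩ := NMix.mixed hU hB I ∅ (disjoint_empty_right _) (by simp)
  rw [sum_empty, add_zero] at h0
  by_cases hc : I = univ ∨ ∑ i ∈ I, (m i + 1).choose 2 = (e + 3).choose 3
  · refine ⟨NMix.JJ m Y I ∅, u₀, fun i => (NMix.quot_JJ m Y I i).1,
      MMix.surj (Vd e) (fun i => (NMix.quot_JJ m Y I i).2.1) (fun i => (NMix.quot_JJ m Y I i).2.2) ?_, ?_⟩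
    · rw [hsum, finrank_Vd]
      omega
    · rcases hc with rfl | hc
      · exact h0
      · omega
  · push Not at hc
    obtain ⟨j, hj⟩ : ∃ j, j ∉ I := by
      by_contra h
      push Not at h
      exact hc.1 (eq_univ_iff_forall.2 h)
    have h1 := hout j hj
    have h2 := hc.2
    have hb : 2 ≤ m j := by
      by_contra h
      have : (m j + 1).choose 2 ≤ (1 + 1).choose 2 := Nat.choose_le_choose 2 (by omega)
      have h3 : (1 + 1).choose 2 = 1 := rfl
      omega
    obtain ⟨u₁, h3⟩ := NMix.mixed hU hB I {j} (disjoint_singleton_right.2 hj)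
      (fun k hk => mem_singleton.1 hk ▸ hb)
    rw [← insert_empty_eq, NMix.JJ_right m Y ∅ hj, insert_empty_eq, sum_singleton] at h3
    obtain ⟨I', u, h4, h5, h6, h7⟩ := NMix.step (Vd e) (NMix.JJ_top m Y hj (notMem_empty _))
      (hU j hb)
      (cap := (e + 3).choose 3 - ∑ i ∈ I, (m i + 1).choose 2) (by omega) u₀ u₁
    have h8 : kd (Vd e) (Function.update (NMix.JJ m Y I ∅) j I') u = 0 := by omega
    refine ⟨Function.update (NMix.JJ m Y I ∅) j I', u, fun i => ?_, MMix.surj (Vd e)
      (c := fun i => (if i ∈ I then (m i + 1).choose 2 else 0) +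
        if i = j then (e + 3).choose 3 - ∑ i ∈ I, (m i + 1).choose 2 else 0)
      (fun i => ?_) (fun i => ?_) ?_, by omega⟩
    · by_cases hi : i = j
      · rw [hi, Function.update_self]
        exact h4
      · rw [Function.update_of_ne hi]
        exact (NMix.quot_JJ m Y I i).1
    · by_cases hi : i = j
      · rw [hi, Function.update_self]
        exact h5
      · rw [Function.update_of_ne hi]
        exact (NMix.quot_JJ m Y I i).2.1
    · by_cases hi : i = j
      · rw [if_pos hi, hi, Function.update_self]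
        omega
      · rw [if_neg hi, Function.update_of_ne hi]
        exact (NMix.quot_JJ m Y I i).2.2
    · rw [sum_add_distrib, hsum, sum_ite_eq', if_pos (mem_univ _), finrank_Vd]
      omega

end Pool.Agent.Lib.MP_a430e8_ag
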