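import Pool.Agent.Lib.MP_a430e8_ag.NBase

/-! A large set of cells contains a good shape. -/

namespace Pool.Agent.Lib.MP_a430e8_ag
open Finset

namespace NPick

/-- The cells of a row. -/
def row (D : Finset Cell) (b j : ℕ) : Finset Cell := D.filter fun p => p.2 = (b, j)

/-- Two long rows share the second coordinate `b`. -/
def Rich (D : Finset Cell) (m b : ℕ) : Prop :=
  ∃ j j', j ≠ j' ∧ m ≤ (row D b j).card ∧ m ≤ (row D b j').card

lemma row_le {D : Finset Cell} {L : ℕ} (h : InCube L D) (b j : ℕ) : (row D b j).card ≤ L := by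
  refine (card_le_card_of_injOn (t := range L) Prod.fst ?_ ?_).trans (card_range L).le
  · intro p hp
    exact mem_coe.2 (mem_range.2 (h p (mem_filter.1 hp).1).1)
  · intro p hp q hq e
    exact Prod.ext e ((mem_filter.1 hp).2.trans (mem_filter.1 hq).2.symm)

lemma slab_eq {D : Finset Cell} {L : ℕ} (h : InCube L D) (b : ℕ) :
    (D.filter fun p => p.2.1 = b).card = ∑ j ∈ range L, (row D b j).card := by
  rw [card_eq_sum_card_fiberwise (t := range L) (f := fun p : Cell => p.2.2)
    fun p hp => mem_coe.2 (mem_range.2 (h p (mem_filter.1 hp).1).2.2)]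
  refine sum_congr rfl fun j _ => ?_
  rw [filter_filter, row]
  exact congrArg card (filter_congr fun p _ => by rw [Prod.ext_iff])

lemma slab_le {D : Finset Cell} {L : ℕ} (h : InCube L D) (b : ℕ) :
    (D.filter fun p => p.2.1 = b).card ≤ L * L := by
  rw [slab_eq h]
  refine (sum_le_card_nsmul _ _ L fun j _ => row_le h b j).trans ?_
  rw [card_range, smul_eq_mul]

lemma slab_poor {D : Finset Cell} {L m b : ℕ} (h : InCube L D) (hm : 1 ≤ m) (hb : ¬ Rich D m b) :
    (D.filter fun p => p.2.1 = b).card ≤ m * L := by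
  have h1 : ∃ j0, ∀ j, j ≠ j0 → (row D b j).card ≤ m - 1 := by
    by_cases h2 : ∃ j0, m ≤ (row D b j0).card
    · obtain ⟨j0, h2⟩ := h2
      refine ⟨j0, fun j hj => ?_⟩
      by_contra h3
      exact hb ⟨j, j0, hj, by omega, h2⟩
    · refine ⟨0, fun j _ => ?_⟩
      by_contra h3
      exact h2 ⟨j, by omega⟩
  obtain ⟨j0, h1⟩ := h1
  rw [slab_eq h]
  have h2 : ∑ j ∈ range L, (row D b j).card ≤
      ∑ j ∈ range L, ((m - 1) + if j = j0 then L else 0) := by
    refine sum_le_sum fun j _ => ?_
    split_ifs with h3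
    · have := row_le h b j
      omega
    · have := h1 j h3
      omega
  refine h2.trans ?_
  rw [sum_add_distrib, sum_const, card_range, smul_eq_mul, sum_ite_eq']
  obtain ⟨k, rfl⟩ : ∃ k, m = k + 1 := ⟨m - 1, by omega⟩
  rw [Nat.add_sub_cancel, add_mul, one_mul, mul_comm L k]
  split_ifs <;> omega

open Classical in
lemma many {D : Finset Cell} {L m : ℕ} (h : InCube L D) (hm : 1 ≤ m)
    (hD : 2 * m * L ^ 2 < D.card) : m ≤ ((range L).filter (Rich D m)).card := by
  by_contra h1
  rw [card_eq_sum_card_fiberwise (t := range L) (f := fun p : Cell => p.2.1)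
    fun p hp => mem_coe.2 (mem_range.2 (h p hp).2.1), ← sum_filter_add_sum_filter_not _ (Rich D m)]
    at hD
  have h2 := sum_le_card_nsmul ((range L).filter (Rich D m))
    (fun b => (D.filter fun p => p.2.1 = b).card) (L * L) fun b _ => slab_le h b
  have h3 := sum_le_card_nsmul ((range L).filter fun b => ¬ Rich D m b)
    (fun b => (D.filter fun p => p.2.1 = b).card) (m * L)
    fun b hb => slab_poor h hm (mem_filter.1 hb).2
  have h4 : ((range L).filter fun b => ¬ Rich D m b).card ≤ L :=
    (card_filter_le _ _).trans (card_range L).le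
  rw [smul_eq_mul] at h2 h3
  have h5 := Nat.mul_le_mul_right (L * L) (not_le.1 h1).le
  have h6 := Nat.mul_le_mul_right (m * L) h4
  have h7 : 2 * m * L ^ 2 = m * (L * L) + L * (m * L) := by ring
  exact absurd (hD.trans_le (add_le_add (h2.trans h5) (h3.trans h6))) (by omega)

lemma sum_cc (m : ℕ) : ∑ i : Fin m, (i.1 + 1) = cc m := by
  rw [Fin.sum_univ_eq_sum_range (fun i => i + 1)]
  induction m with
  | zero => simp [cc]
  | succ k ih =>
    rw [sum_range_succ, ih, cc, cc, Nat.choose_succ_succ' (k + 1) 1, Nat.choose_one_right,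
      add_comm]

/-- The staircase placed on given rows. -/
def stair {m : ℕ} (β γ : Fin m → ℕ) : Finset Cell :=
  univ.biUnion fun i => (range (i.1 + 1)).image fun a => (a, β i, γ i)

lemma mem_stair {m : ℕ} {β γ : Fin m → ℕ} {p : Cell} :
    p ∈ stair β γ ↔ ∃ i, p.1 ≤ i.1 ∧ p.2.1 = β i ∧ p.2.2 = γ i := by
  obtain ⟨a, b, j⟩ := p
  simp only [stair, mem_biUnion, mem_univ, true_and, mem_image, mem_range, Prod.mk.injEq]
  constructor
  · rintro ⟨i, a', h1, rfl, rfl, rfl⟩
    exact ⟨i, by omega, rfl, rfl⟩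
  · rintro ⟨i, h1, rfl, rfl⟩
    exact ⟨i, a, by omega, rfl, rfl, rfl⟩

lemma zstep {m : ℕ} {β γ : Fin m → ℕ} (hβ : Function.Injective β) (o : Fin m) (g : ℕ) :
    push (insert (0, β o, g) (stair β γ)) 0 0 ⊆ insert (0, β o, 1) (stair β fun _ => 0) := by
  rintro ⟨a, b, j⟩ hp
  rw [mem_zpush] at hp
  obtain ⟨q, hq⟩ := card_pos.1 (Nat.zero_lt_of_lt hp)
  have h1 : ∃ i, a ≤ i.1 ∧ b = β i := by
    obtain ⟨h2, h3, h4⟩ := mem_filter.1 hq
    rcases mem_insert.1 h2 with rfl | h2
    · exact ⟨o, by simp only at h3; omega, h4.symm⟩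
    · obtain ⟨i, h5, h6, -⟩ := mem_stair.1 h2
      exact ⟨i, h3 ▸ h5, h4 ▸ h6⟩
  obtain ⟨i, h1, rfl⟩ := h1
  by_cases h2 : a = 0 ∧ i = o
  · obtain ⟨rfl, rfl⟩ := h2
    have h3 : ((insert (0, β i, g) (stair β γ)).filter fun p => p.1 = 0 ∧ p.2.1 = β i) ⊆
        {(0, β i, g), (0, β i, γ i)} := by
      rintro ⟨a', b', j'⟩ h3
      obtain ⟨h3, h4, h5⟩ := mem_filter.1 h3
      rcases mem_insert.1 h3 with h3 | h3
      · rw [h3]
        exact mem_insert_self _ _
      · obtain ⟨k, -, h6, h7⟩ := mem_stair.1 h3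
        simp only at h4 h5 h6 h7
        obtain rfl : k = i := hβ (h6.symm.trans h5)
        rw [h4, h5, h7]
        exact mem_insert_of_mem (mem_singleton_self _)
    have h4 := (card_le_card h3).trans card_le_two
    rcases Nat.eq_zero_or_pos j with rfl | h5
    · exact mem_insert_of_mem (mem_stair.2 ⟨i, h1, rfl, rfl⟩)
    · obtain rfl : j = 1 := by omega
      exact mem_insert_self _ _
  · have h3 : ((insert (0, β o, g) (stair β γ)).filter fun p => p.1 = a ∧ p.2.1 = β i) ⊆
        {(a, β i, γ i)} := by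
      rintro ⟨a', b', j'⟩ h3
      obtain ⟨h3, h4, h5⟩ := mem_filter.1 h3
      simp only at h4 h5
      rcases mem_insert.1 h3 with h3 | h3
      · simp only [Prod.mk.injEq] at h3
        exact absurd ⟨h4.symm.trans h3.1, hβ (h5.symm.trans h3.2.1)⟩ h2
      · obtain ⟨k, -, h6, h7⟩ := mem_stair.1 h3
        simp only at h6 h7
        obtain rfl : k = i := hβ (h6.symm.trans h5)
        rw [h4, h5, h7]
        exact mem_singleton_self _
    have h4 := (card_le_card h3).trans (card_singleton _).le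
    obtain rfl : j = 0 := by omega
    exact mem_insert_of_mem (mem_stair.2 ⟨i, h1, rfl, rfl⟩)

lemma ystep {m : ℕ} (β : Fin m → ℕ) (b0 : ℕ) :
    ypush (insert (0, b0, 1) (stair β fun _ => 0)) ⊆ triP m := by
  rintro ⟨a, b, j⟩ hp
  rw [mem_ypush] at hp
  rw [mem_triP]
  rcases Nat.eq_zero_or_pos j with rfl | hj
  · have h1 : ((insert (0, b0, 1) (stair β fun _ => 0)).filter fun p => p.1 = a ∧ p.2.2 = 0) ⊆
        (univ.filter fun i : Fin m => a ≤ i.1).image fun i => (a, β i, 0) := by
      rintro ⟨a', b', j'⟩ h1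
      obtain ⟨h1, h2, h3⟩ := mem_filter.1 h1
      simp only at h2 h3
      rcases mem_insert.1 h1 with h1 | h1
      · simp only [Prod.mk.injEq] at h1
        omega
      · obtain ⟨k, h4, h5, -⟩ := mem_stair.1 h1
        simp only at h4 h5
        exact mem_image.2 ⟨k, mem_filter.2 ⟨mem_univ _, h2 ▸ h4⟩, by rw [h2, h3, h5]⟩
    have h2 : (univ.filter fun i : Fin m => a ≤ i.1).card ≤ (Ico a m).card :=
      card_le_card_of_injOn (fun i => i.1)
        (fun i hi => mem_coe.2 (mem_Ico.2 ⟨(mem_filter.1 hi).2, i.2⟩))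
        fun i _ k _ e => Fin.ext e
    have h3 := (card_le_card h1).trans (card_image_le.trans h2)
    rw [Nat.card_Ico] at h3
    exact Or.inr ⟨by simp only; omega, rfl⟩
  · have h1 : ∀ q ∈ (insert (0, b0, 1) (stair β fun _ => 0)).filter
        fun p => p.1 = a ∧ p.2.2 = j, q = (0, b0, 1) := by
      intro q h1
      obtain ⟨h1, -, h3⟩ := mem_filter.1 h1
      rcases mem_insert.1 h1 with h1 | h1
      · exact h1
      · obtain ⟨k, -, -, h5⟩ := mem_stair.1 h1
        omega
    obtain ⟨q, hq⟩ := card_pos.1 (Nat.zero_lt_of_lt hp)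
    have h2 := (card_le_card fun q hq => mem_singleton.2 (h1 q hq)).trans (card_singleton _).le
    obtain rfl := h1 q hq
    obtain ⟨-, h3, h4⟩ := mem_filter.1 hq
    simp only at h3 h4
    refine Or.inl ?_
    simp only [Prod.mk.injEq]
    omega

end NPick

open NPick in
theorem pick : PickStmt := by
  classical
  intro D m L hL hm hD
  have h1 := many hL hm hD
  let β := orderEmbOfCardLe _ h1
  have hβ : Function.Injective β := β.injective
  have h2 : ∀ i, Rich D m (β i) := fun i => (mem_filter.1 (orderEmbOfCardLe_mem _ h1 i)).2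
  choose γ γ' h3 h4 h5 using h2
  have h6 : ∀ i : Fin m, ∃ R ⊆ row D (β i) (γ i), R.card = i.1 + 1 := fun i =>
    exists_subset_card_eq ((Nat.succ_le_of_lt i.2).trans (h4 i))
  choose R hR hR' using h6
  let o : Fin m := ⟨0, hm⟩
  obtain ⟨c, hc⟩ := card_pos.1 (hm.trans (h5 o))
  have hc2 : c.2 = (β o, γ' o) := (mem_filter.1 hc).2
  have hR2 : ∀ i, ∀ p ∈ R i, p.2 = (β i, γ i) := fun i p hp => (mem_filter.1 (hR i hp)).2
  have hcn : ∀ i, c.2 ≠ (β i, γ i) := by
    intro i e
    rw [hc2, Prod.mk.injEq] at e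
    obtain rfl := hβ e.1
    exact h3 _ e.2.symm
  refine ⟨insert c (univ.biUnion R), ?_, ?_, ?_⟩
  · refine insert_subset (mem_filter.1 hc).1 (biUnion_subset.2 fun i _ p hp => ?_)
    exact (mem_filter.1 (hR i hp)).1
  · rw [card_insert_of_notMem, card_biUnion, ← sum_cc, sum_congr rfl fun i _ => hR' i]
    · intro i _ k _ hik
      refine disjoint_left.2 fun p hp hq => hik (hβ ?_)
      exact (Prod.mk.inj ((hR2 i p hp).symm.trans (hR2 k p hq))).1
    · intro h
      obtain ⟨i, -, h⟩ := mem_biUnion.1 h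
      exact hcn i (hR2 i c h)
  · have h7 : xpush (insert c (univ.biUnion R)) ⊆ insert (0, β o, γ' o) (stair β γ) := by
      rintro ⟨a, b, j⟩ hp
      rw [mem_xpush] at hp
      obtain ⟨q, hq⟩ := card_pos.1 (Nat.zero_lt_of_lt hp)
      obtain ⟨h8, h9⟩ := mem_filter.1 hq
      rcases mem_insert.1 h8 with rfl | h8
      · have h10 : ((insert q (univ.biUnion R)).filter fun p => p.2 = (b, j)) ⊆ {q} := by
          intro p hp
          obtain ⟨h10, h11⟩ := mem_filter.1 hp
          rcases mem_insert.1 h10 with h10 | h10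
          · exact mem_singleton.2 h10
          · obtain ⟨i, -, h10⟩ := mem_biUnion.1 h10
            exact absurd (h9.trans (h11.symm.trans (hR2 i p h10))) (hcn i)
        have h11 := (card_le_card h10).trans (card_singleton _).le
        obtain rfl : a = 0 := by omega
        rw [← h9, hc2]
        exact mem_insert_self _ _
      · obtain ⟨i, -, h8⟩ := mem_biUnion.1 h8
        have e := h9.symm.trans (hR2 i q h8)
        have h10 : ((insert c (univ.biUnion R)).filter fun p => p.2 = (b, j)) ⊆ R i := by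
          intro p hp
          obtain ⟨h10, h11⟩ := mem_filter.1 hp
          rcases mem_insert.1 h10 with rfl | h10
          · exact absurd (h11.trans e) (hcn i)
          · obtain ⟨k, -, h10⟩ := mem_biUnion.1 h10
            obtain rfl : k = i :=
              hβ (Prod.mk.inj ((hR2 k p h10).symm.trans (h11.trans e))).1
            exact h10
        have h11 := card_le_card h10
        rw [hR'] at h11
        exact mem_insert_of_mem
          (mem_stair.2 ⟨i, by simp only; omega, (Prod.mk.inj e).1, (Prod.mk.inj e).2⟩)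
    exact (((((dom_xpush _).trans (dom_of_subset h7)).trans (dom_push _ 0 0)).trans
      (dom_of_subset (zstep hβ o _))).trans (dom_ypush _)).trans (dom_of_subset (ystep β _))

end Pool.Agent.Lib.MP_a430e8_ag
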