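import Pool.Agent.Lib.MP_a430e8_ag.NBase

/-! The plane fat point together with its normal direction is universal. -/

namespace Pool.Agent.Lib.MP_a430e8_ag
open Finset MvPolynomial

namespace NUniv

lemma wt_eq (L c : ℕ) (p : Cell) : wt (L * L) (L * L + 1) (L * L * c + L) p =
    L * L * (p.1 + p.2.1 + c * p.2.2) + (L * p.2.2 + p.2.1) := by
  rw [wt]
  ring

lemma wt_le {L c : ℕ} {p q : Cell} (hq : q ∈ tet L)
    (h : wt (L * L) (L * L + 1) (L * L * c + L) p ≤ wt (L * L) (L * L + 1) (L * L * c + L) q) :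
    p.1 + p.2.1 + c * p.2.2 ≤ q.1 + q.2.1 + c * q.2.2 := by
  rw [mem_tet] at hq
  rw [wt_eq, wt_eq] at h
  refine MInit.lex ?_ h
  have := Nat.mul_le_mul_left L (show q.2.2 + 1 ≤ L by omega)
  rw [Nat.mul_succ] at this
  omega

lemma wt_inj {L c : ℕ} {p q : Cell} (hp : p ∈ tet L) (hq : q ∈ tet L)
    (h : wt (L * L) (L * L + 1) (L * L * c + L) p = wt (L * L) (L * L + 1) (L * L * c + L) q) :
    p = q := by
  have h1 := le_antisymm (wt_le hq h.le) (wt_le hp h.ge)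
  rw [wt_eq, wt_eq, h1, add_right_inj] at h
  rw [mem_tet] at hp hq
  have h2 := le_antisymm (MInit.lex (by omega) h.le) (MInit.lex (by omega) h.ge)
  rw [h2, add_right_inj] at h
  rw [h, h2] at h1
  exact Prod.ext (by omega) (Prod.ext h h2)

lemma mem_triP_iff {c : ℕ} (hc : 1 ≤ c) {p : Cell} :
    p ∈ triP (c + 1) ↔ p.1 + p.2.1 + c * p.2.2 ≤ c := by
  obtain ⟨a, b, j⟩ := p
  simp only [mem_triP, Prod.mk.injEq]
  rcases j with _ | _ | j
  · omega
  · omega
  · have : c * (j + 1 + 1) = c * j + 2 * c := by ring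
    omega

/-- Degeneration to initial monomials. -/
lemma initP {c : ℕ} (hc : 1 ≤ c) (W : Submodule ℂ P3) [Module.Finite ℂ W]
    (hW : ∀ F ∈ W, F ∈ JP (c + 1) → F = 0) :
    ∃ D : Finset Cell, D.card = Module.finrank ℂ W ∧ D ⊆ triP (c + 1) ∧
      ∀ (R : Type) [CommRing R] [Algebra ℂ R], GoodIn R D →
        ∃ v : Fin 3 → R, ∀ F ∈ W, aeval v F = 0 → F = 0 := by
  classical
  obtain ⟨e, he⟩ : ∃ e, W ≤ Vd e := by
    obtain ⟨T, rfl⟩ := Module.Finite.iff_fg.1 ‹Module.Finite ℂ W›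
    exact ⟨T.sup totalDegree, Submodule.span_le.2 fun F hF => mem_Vd.2 (le_sup hF)⟩
  have hs : ∀ F ∈ W, ∀ q, F.coeff (ex3 q) ≠ 0 → q ∈ tet (e + 1) := fun F hF q hq => by
    rw [eq_sum_tet (he hF), coeff_sum_mono3 _ (fun κ => F.coeff (ex3 κ))] at hq
    exact (ite_ne_right_iff.1 hq).1
  let w := wt ((e + 1) * (e + 1)) ((e + 1) * (e + 1) + 1) ((e + 1) * (e + 1) * c + (e + 1))
  let D := (tet (e + 1)).filter fun p => ∃ F ∈ W, F.coeff (ex3 p) = 1 ∧
    ∀ q, F.coeff (ex3 q) ≠ 0 → q = p ∨ w p < w q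
  choose h h1 h2 h3 using fun p : D => (mem_filter.1 p.2).2
  have key : ∀ (R : Type) [CommRing R] [Algebra ℂ R], GoodIn R D →
      ∃ v : Fin 3 → R, LinearIndependent ℂ fun p => aeval v (h p) := fun R _ _ hR => by
    simpa only [← eq_sum_tet (he (h1 _))] using
      torusG _ _ _ (filter_subset _ _) (fun p q => (h p).coeff (ex3 q)) h2 h3 hR
  have h4 : LinearIndependent ℂ fun p => (⟨h p, h1 p⟩ : W) := by
    obtain ⟨v, hv⟩ := key P3 ⟨_, _, _, indep_mono3 D⟩
    exact LinearIndependent.of_comp ((aeval v).toLinearMap.comp W.subtype) hv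
  have h5 : Fintype.card D = Module.finrank ℂ W := by
    refine le_antisymm h4.fintype_card_le_finrank ?_
    rw [← Module.finrank_fintype_fun_eq_card ℂ]
    refine LinearMap.finrank_le_finrank_of_injective (f := LinearMap.pi fun p : D =>
      (lcoeff ℂ (ex3 p)).comp W.subtype) (LinearMap.ker_eq_bot.1 (LinearMap.ker_eq_bot'.2 ?_))
    rintro ⟨F, hF⟩ h0
    by_contra h6
    obtain ⟨s, h7⟩ := ne_zero_iff.1 fun h => h6 (Subtype.ext h)
    rw [← ex3_surj s] at h7
    obtain ⟨p, hp, h8⟩ := ((tet (e + 1)).filter fun q => F.coeff (ex3 q) ≠ 0).exists_min_image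
      w ⟨_, mem_filter.2 ⟨hs F hF _ h7, h7⟩⟩
    obtain ⟨h9, hp⟩ := mem_filter.1 hp
    refine hp (congrFun h0 ⟨p, mem_filter.2 ⟨h9, (F.coeff (ex3 p))⁻¹ • F, W.smul_mem _ hF,
      by simp [hp], fun q hq => ?_⟩⟩)
    have a1 : F.coeff (ex3 q) ≠ 0 := fun h => hq (by simp [h])
    exact (h8 q (mem_filter.2 ⟨hs F hF q a1, a1⟩)).eq_or_lt.imp_left fun h =>
      (wt_inj h9 (hs F hF q a1) h).symm
  refine ⟨D, by rw [← h5, Fintype.card_coe], fun p hp => ?_, fun R _ _ hR => ?_⟩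
  · by_contra h6
    have h7 := hW _ (h1 ⟨p, hp⟩) (by
      rw [eq_sum_tet (he (h1 ⟨p, hp⟩))]
      refine sum_mem fun q hq => ?_
      by_cases a1 : (h ⟨p, hp⟩).coeff (ex3 q) = 0
      · simp [a1]
      · refine Submodule.smul_of_tower_mem _ _ (Ideal.subset_span ⟨q, fun a2 => h6 ?_, rfl⟩)
        exact (mem_triP_iff hc).2 ((wt_le hq ((h3 _ q a1).elim (fun h => h ▸ le_rfl)
          le_of_lt)).trans ((mem_triP_iff hc).1 a2)))
    simpa [h7] using h2 ⟨p, hp⟩
  · obtain ⟨v, hv⟩ := key R hR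
    refine ⟨v, fun F hF h0 => ?_⟩
    obtain ⟨c, hc⟩ := (Submodule.mem_span_range_iff_exists_fun ℂ).1
      ((h4.span_eq_top_of_card_eq_finrank' h5).ge (Submodule.mem_top (x := ⟨F, hF⟩)))
    obtain rfl : ∑ p, c p • h p = F := by simpa using congrArg W.subtype hc
    simp [Fintype.linearIndependent_iff.1 hv c (by simpa using h0)]

/-- The normal direction is moved to a free cell of the triangle. -/
lemma plane {D : Finset Cell} {m : ℕ} (hD : D ⊆ triP m) (hc : D.card ≤ (m + 1).choose 2) :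
    ∃ E ⊆ tri m, Dom D E ∧ E.card = D.card := by
  have hD' : ∀ a b j, (a, b, j) ∈ D → (a = 0 ∧ b = 0 ∧ j = 1) ∨ (a + b < m ∧ j = 0) :=
    fun a b j h => by simpa only [mem_triP, Prod.mk.injEq] using hD h
  by_cases h0 : (0, 0, 1) ∈ D
  · obtain ⟨⟨a0, b0, j0⟩, h1, h2⟩ := exists_mem_notMem_of_card_lt_card
      (s := D.erase (0, 0, 1)) (t := tri m) (by
        have := card_erase_add_one h0
        rw [card_tri]
        omega)
    obtain ⟨h1, rfl⟩ : a0 + b0 < m ∧ j0 = 0 := mem_tri.1 h1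
    have h3 : (a0, b0, 0) ∉ D := fun h => h2 (mem_erase.2 ⟨by simp, h⟩)
    refine ⟨push D a0 b0, ?_, dom_push _ _ _, card_push _ _ _⟩
    rintro ⟨a, b, i⟩ hp
    rw [mem_push] at hp
    have h4 : (lev D a0 b0 (a + i * a0) (b + i * b0)).card ≤ 1 := card_le_one.2 fun j hj k hk => by
      obtain ⟨a1, b1, c1, c2, c3⟩ := mem_lev.1 hj
      obtain ⟨a2, b2, d1, d2, d3⟩ := mem_lev.1 hk
      rcases hD' _ _ _ c1 with ⟨rfl, rfl, rfl⟩ | ⟨-, rfl⟩ <;>
        rcases hD' _ _ _ d1 with ⟨rfl, rfl, rfl⟩ | ⟨-, rfl⟩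
      · rfl
      · obtain rfl : a2 = a0 := by omega
        obtain rfl : b2 = b0 := by omega
        exact absurd d1 h3
      · obtain rfl : a1 = a0 := by omega
        obtain rfl : b1 = b0 := by omega
        exact absurd c1 h3
      · rfl
    obtain rfl : i = 0 := by omega
    obtain ⟨j, hj⟩ := card_pos.1 hp
    obtain ⟨a1, b1, c1, c2, c3⟩ := mem_lev.1 hj
    refine mem_tri.2 ⟨?_, rfl⟩
    rcases hD' _ _ _ c1 with ⟨rfl, rfl, rfl⟩ | ⟨_, rfl⟩ <;> simp only <;> omega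
  · refine ⟨D, fun p hp => ?_, dom_of_subset Subset.rfl, rfl⟩
    exact (mem_insert.1 (hD hp)).resolve_left fun h => h0 (h ▸ hp)

/-- A subset of the triangle is compressed to a staircase. -/
lemma flat {D : Finset Cell} {m : ℕ} (hD : D ⊆ tri m) : Flat (ypush (xpush D)) m := by
  have h1 : xpush D ⊆ tri m := by
    rintro ⟨a, b, j⟩ hp
    rw [mem_xpush] at hp
    obtain ⟨q, hq⟩ := card_pos.1 (Nat.zero_lt_of_lt hp)
    have h2 := mem_tri.1 (hD (mem_filter.1 hq).1)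
    rw [(mem_filter.1 hq).2] at h2
    have h3 : (D.filter fun p => p.2 = (b, j)).card ≤ (range (m - b)).card :=
      card_le_card_of_injOn (fun p => p.1) (fun p hp => by
        obtain ⟨h4, h5⟩ := mem_filter.1 (mem_coe.1 hp)
        have h6 := mem_tri.1 (hD h4)
        rw [h5] at h6
        exact mem_coe.2 (mem_range.2 (by simp only at h6 ⊢; omega)))
        fun p hp q hq h => Prod.ext h
          ((mem_filter.1 (mem_coe.1 hp)).2.trans (mem_filter.1 (mem_coe.1 hq)).2.symm)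
    rw [card_range] at h3
    exact mem_tri.2 ⟨by simp only; omega, h2.2⟩
  refine ⟨?_, fun a b j hp => ?_, fun a b j hp => ?_⟩
  · rintro ⟨a, b, j⟩ hp
    rw [mem_ypush] at hp
    obtain ⟨q, hq⟩ := card_pos.1 (Nat.zero_lt_of_lt hp)
    have h2 := mem_tri.1 (h1 (mem_filter.1 hq).1)
    have h3 : ((xpush D).filter fun p => p.1 = a ∧ p.2.2 = j).card ≤ (range (m - a)).card :=
      card_le_card_of_injOn (fun p => p.2.1) (fun p hp => by
        obtain ⟨h4, h5⟩ := mem_filter.1 (mem_coe.1 hp)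
        have h6 := mem_tri.1 (h1 h4)
        exact mem_coe.2 (mem_range.2 (by simp only; omega)))
        fun p hp q hq h => by
          have h4 := (mem_filter.1 (mem_coe.1 hp)).2
          have h5 := (mem_filter.1 (mem_coe.1 hq)).2
          exact Prod.ext (h4.1.trans h5.1.symm) (Prod.ext h (h4.2.trans h5.2.symm))
    rw [card_range] at h3
    exact ⟨(mem_filter.1 hq).2.2.symm.trans h2.2, by simp only; omega⟩
  · rw [mem_ypush] at hp ⊢
    refine hp.trans_le (card_le_card_of_injOn (fun p => (a, p.2)) ?_ ?_)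
    · rintro ⟨a', b', j'⟩ hq
      obtain ⟨h4, h5, h6⟩ := mem_filter.1 (mem_coe.1 hq)
      obtain rfl : a' = a + 1 := h5
      exact mem_coe.2 (mem_filter.2
        ⟨mem_xpush.2 (Nat.lt_of_succ_lt (mem_xpush.1 h4)), rfl, h6⟩)
    · intro p hp q hq h
      exact Prod.ext ((mem_filter.1 (mem_coe.1 hp)).2.1.trans
        (mem_filter.1 (mem_coe.1 hq)).2.1.symm) (Prod.ext_iff.1 h).2
  · rw [mem_ypush] at hp ⊢
    omega

end NUniv

theorem univP : UnivStmt := by
  classical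
  intro m hm W _ hW hc
  obtain ⟨c, rfl⟩ : ∃ c, m = c + 1 := ⟨m - 1, by omega⟩
  obtain ⟨D, h1, h2, h3⟩ := NUniv.initP (by omega) W hW
  obtain ⟨D', a1, a2, a3⟩ := NUniv.plane h2 (h1 ▸ hc)
  have h6 := NUniv.flat a1
  have h5 : (ypush (xpush D')).card = D.card := by rw [card_ypush, card_xpush, a3]
  have h4 : Dom D (ypush (xpush D')) := a2.trans ((dom_xpush _).trans (dom_ypush _))
  generalize ypush (xpush D') = E at h4 h5 h6
  let J : Ideal P3 := Ideal.span (mono3 '' {p : Cell | p ∉ E})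
  have hJ : ∀ p ∉ E, mono3 p ∈ J := fun p hp => Ideal.subset_span ⟨p, hp, rfl⟩
  obtain ⟨v, hv⟩ := h3 _ (h4 _ (good_down fun p hp q hq => MInit.Flat_down h6 hp hq))
  choose u hu using fun i => Ideal.Quotient.mkₐ_surjective ℂ J (v i)
  refine ⟨J, u, sup_le ?_ fun F hF => ?_, (quot_le hJ).1, by rw [← h1, ← h5]; exact (quot_le hJ).2,
    fun F hF h => hv F hF ?_⟩
  · rw [Ideal.span_le, Set.singleton_subset_iff]
    simpa [mono3, mon] using hJ (0, 0, 1) fun h => by simpa using (h6.lt _ h).1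
  · rw [eq_sum_mono3 F]
    refine sum_mem fun s hs => Submodule.smul_of_tower_mem _ _ (hJ _ fun h => ?_)
    have := h6.lt _ h
    exact mem_support_iff.1 hs (by
      simpa only [ex3_surj] using mem_m3_pow.1 hF (s 0, s 1, s 2) (mem_tet.2 (by omega)))
  · rw [← _root_.funext hu, ← comp_aeval_apply]
    exact Ideal.Quotient.eq_zero_iff_mem.2 h

end Pool.Agent.Lib.MP_a430e8_ag
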