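import Pool.Agent.Lib.MP_a430e8_ag.MComp
import Pool.Agent.Lib.MP_a430e8_ag.MHall
import Pool.Agent.Lib.MP_a430e8_ag.MInit
import Pool.Agent.Lib.MP_a430e8_ag.MMix
import Pool.Agent.Lib.MP_a430e8_ag.MCover
import Pool.Agent.Lib.MP_a430e8_ag.MSurf
import Pool.Agent.Lib.MP_a430e8_ag.MGen

/-! Interfaces for the theorem on arbitrary multiplicities in large degree. -/

namespace Pool.Agent.Lib.MP_a430e8_ag
open Finset MvPolynomial

/-- The fat point of multiplicity `m` of the plane `X 2 = 0` together with the normal direction. -/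
noncomputable def JP (m : ℕ) : Ideal P3 :=
  Ideal.span (mono3 '' {p : Cell | m - 1 < p.1 + p.2.1 + (m - 1) * p.2.2})

/-- The test scheme attached to a multiplicity. -/
noncomputable def YY (m : ℕ) : Ideal P3 := if m < 2000 then JP m else JW ((m - 1) / 2)

/-- Interface: a fat point on a general surface germ against its test scheme. -/
def UPStmt : Prop := ∀ (W : Submodule ℂ P3) [Module.Finite ℂ W] (m : ℕ), 2 ≤ m →
  (∀ F ∈ W, F ∈ YY m → F = 0) → Module.finrank ℂ W ≤ (m + 1).choose 2 →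
  ∃ (J : Ideal P3) (u : Fin 3 → P3), JS m ≤ J ∧ Module.Finite ℂ (P3 ⧸ J) ∧
    Module.finrank ℂ (P3 ⧸ J) ≤ Module.finrank ℂ W ∧ ∀ F ∈ W, aeval u F ∈ J → F = 0

/-- Interface: the test schemes impose enough conditions in degree `e`. -/
def BasePStmt (e : ℕ) : Prop := ∀ (r : ℕ) (m : Fin r → ℕ) (A : Finset (Fin r)),
  (∀ i ∈ A, 2 ≤ m i) → ∃ u : Fin r → Fin 3 → P3,
    kd (Vd e) (fun i => if i ∈ A then YY (m i) else ⊤) u +
      min ((e + 3).choose 3) (∑ i ∈ A, (m i + 1).choose 2) ≤ (e + 3).choose 3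

/-- Interface: the abstract configuration in degree `e`. -/
def ConfigPStmt (e : ℕ) : Prop := ∀ (r : ℕ) (m : Fin r → ℕ),
  ∃ (J : Fin r → Ideal P3) (u : Fin r → Fin 3 → P3), (∀ i, JS (m i) ≤ J i) ∧
    (∀ g : Fin r → P3, ∃ F ∈ Vd e, ∀ i, aeval (u i) F - g i ∈ J i) ∧
    kd (Vd e) J u ≤ (e + 3).choose 3 - ∑ i, (m i + 1).choose 2

theorem multiP_of (d e r : ℕ) (hC : ConfigPStmt e) (hed : e < d) (m : Fin r → ℕ) :
    GeneralForm d fun f => GeneralPoints f r fun q =>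
      Module.finrank ℂ (multiSeries f q e m) = (e + 3).choose 3 - ∑ i, (m i + 1).choose 2 := by
  obtain ⟨J, u, h1, h2, h3⟩ := hC r m
  obtain ⟨f₀, q₀, h4, h5, h6, h7⟩ := surf d e r m J u hed h1 h2
  obtain ⟨Φ, h8, h9⟩ := gen d e r m f₀ q₀ h4 h5 h6
  refine ⟨Φ, h8, fun f hf hΦ => ?_⟩
  obtain ⟨G, h10, h11⟩ := h9 f hf hΦ
  refine ⟨G, h10, fun q hq hG => ?_⟩
  have := h11 q hq hG
  omega

end Pool.Agent.Lib.MP_a430e8_ag
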