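import Pool.Agent.Lib.MP_a430e8_ag.PBase

/-! A fat point on a general surface germ against its test scheme. -/

namespace Pool.Agent.Lib.MP_a430e8_ag
open Finset MvPolynomial Filter Topology

namespace PUni
open MInit MComp

/-- An additive weight refining the weights `1, 1, γ`. -/
def wg (γ L : ℕ) (p : Cell) : ℕ := L * L * (p.1 + p.2.1 + γ * p.2.2) + (L * p.2.2 + p.2.1)

lemma wg_le {γ L : ℕ} {p q : Cell} (hq : q ∈ tet L) (h : wg γ L p ≤ wg γ L q) :
    p.1 + p.2.1 + γ * p.2.2 ≤ q.1 + q.2.1 + γ * q.2.2 := by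
  rw [mem_tet] at hq
  refine lex ?_ h
  have := Nat.mul_le_mul_left L (show q.2.2 + 1 ≤ L by omega)
  rw [Nat.mul_succ] at this
  omega

lemma wg_inj {γ L : ℕ} {p q : Cell} (hp : p ∈ tet L) (hq : q ∈ tet L) (h : wg γ L p = wg γ L q) :
    p = q := by
  have h1 := le_antisymm (wg_le hq h.le) (wg_le hp h.ge)
  rw [wg, wg, h1, add_right_inj] at h
  rw [mem_tet] at hp hq
  have h2 := le_antisymm (lex (by omega) h.le) (lex (by omega) h.ge)
  rw [h2, add_right_inj] at h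
  rw [h2, h] at h1
  exact Prod.ext (by omega) (Prod.ext h h2)

lemma torusG {R : Type} [CommRing R] [Algebra ℂ R] (γ L : ℕ) {D : Finset Cell} (hD : D ⊆ tet L)
    (c : D → Cell → ℂ) (h1 : ∀ p, c p p = 1)
    (h2 : ∀ p q, c p q ≠ 0 → q = p ∨ wg γ L p < wg γ L q)
    (h : GoodIn R D) : ∃ v : Fin 3 → R,
      LinearIndependent ℂ fun p : D => aeval v (∑ q ∈ tet L, c p q • mono3 q) := by
  classical
  obtain ⟨x, y, z, h⟩ := h
  obtain ⟨Λ, hΛ⟩ := LinearMap.exists_leftInverse_of_injective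
    (Fintype.linearCombination ℂ (fun p : D => mon x y z p))
    (LinearMap.ker_eq_bot.2 (linearIndependent_iff_injective_fintypeLinearCombination.1 h))
  let G : ℂ → D → D → ℂ := fun t p =>
    ∑ q ∈ tet L, (c p q * t ^ (wg γ L q - wg γ L p)) • Λ (mon x y z q)
  have hc : Continuous G := by
    refine continuous_pi fun p => ?_
    simp only [G]
    fun_prop
  have h0 : LinearIndependent ℂ (G 0) := by
    have : G 0 = fun p => Pi.single p 1 := by
      funext p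
      have := LinearMap.congr_fun hΛ (Pi.single p 1)
      simp only [LinearMap.comp_apply, LinearMap.id_apply,
        Fintype.linearCombination_apply_single, one_smul] at this
      simp only [G]
      rw [sum_eq_single_of_mem p.1 (hD p.2) fun q _ hq => ?_]
      · simp [h1, this]
      · by_cases h3 : c p q = 0
        · simp [h3]
        · rw [zero_pow (Nat.sub_ne_zero_of_lt ((h2 p q h3).resolve_left hq)), mul_zero, zero_smul]
    rw [this]
    exact Pi.linearIndependent_single_one _ ℂ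
  have h3 : ∀ᶠ t in 𝓝[≠] (0 : ℂ), LinearIndependent ℂ (G t) ∧ t ≠ 0 :=
    ((hc.continuousAt.eventually h0.eventually).filter_mono nhdsWithin_le_nhds).and
      self_mem_nhdsWithin
  obtain ⟨t, ht, ht0⟩ := h3.exists
  refine ⟨![t ^ (L * L) • x, t ^ (L * L + 1) • y, t ^ (L * L * γ + L) • z],
    LinearIndependent.of_comp Λ ?_⟩
  refine cast (congrArg (LinearIndependent ℂ ·) (_root_.funext fun p => Eq.symm ?_))
    (ht.units_smul fun p => Units.mk0 (t ^ wg γ L p) (pow_ne_zero _ ht0))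
  simp only [Function.comp_apply, map_sum, map_smul, Pi.smul_apply', G, smul_sum, Units.smul_def,
    Units.val_mk0, smul_smul]
  refine sum_congr rfl fun q _ => ?_
  have e : aeval ![t ^ (L * L) • x, t ^ (L * L + 1) • y, t ^ (L * L * γ + L) • z] (mono3 q) =
      t ^ wg γ L q • mon x y z q := by
    simp only [mono3, mon, map_mul, map_pow, aeval_X, Matrix.cons_val, smul_pow, smul_mul_smul_comm,
      ← pow_mul, ← pow_add]
    congr 2
    rw [wg]
    ring
  rw [e, map_smul, smul_smul]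
  by_cases h3 : c p q = 0
  · simp [h3]
  · have : wg γ L p ≤ wg γ L q := (h2 p q h3).elim (fun h => h ▸ le_rfl) le_of_lt
    rw [mul_left_comm, ← pow_add, Nat.add_sub_cancel' this]

theorem initG (W : Submodule ℂ P3) [Module.Finite ℂ W] (γ K : ℕ)
    (hW : ∀ F ∈ W, F ∈ Ideal.span (mono3 '' {p : Cell | K < p.1 + p.2.1 + γ * p.2.2}) → F = 0) :
    ∃ D : Finset Cell, D.card = Module.finrank ℂ W ∧ (∀ p ∈ D, p.1 + p.2.1 + γ * p.2.2 ≤ K) ∧
      ∀ (R : Type) [CommRing R] [Algebra ℂ R], GoodIn R D →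
        ∃ v : Fin 3 → R, ∀ F ∈ W, aeval v F = 0 → F = 0 := by
  classical
  obtain ⟨e, he⟩ : ∃ e, W ≤ Vd e := by
    obtain ⟨T, rfl⟩ := Module.Finite.iff_fg.1 ‹Module.Finite ℂ W›
    exact ⟨T.sup totalDegree, Submodule.span_le.2 fun F hF => mem_Vd.2 (le_sup hF)⟩
  have hs : ∀ F ∈ W, ∀ q, F.coeff (ex3 q) ≠ 0 → q ∈ tet (e + 1) := fun F hF q hq => by
    rw [eq_sum_tet (he hF), coeff_sum_mono3 _ (fun κ => F.coeff (ex3 κ))] at hq
    exact (ite_ne_right_iff.1 hq).1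
  let D := (tet (e + 1)).filter fun p => ∃ F ∈ W, F.coeff (ex3 p) = 1 ∧
    ∀ q, F.coeff (ex3 q) ≠ 0 → q = p ∨ wg γ (e + 1) p < wg γ (e + 1) q
  choose h h1 h2 h3 using fun p : D => (mem_filter.1 p.2).2
  have key : ∀ (R : Type) [CommRing R] [Algebra ℂ R], GoodIn R D →
      ∃ v : Fin 3 → R, LinearIndependent ℂ fun p => aeval v (h p) := fun R _ _ hR => by
    simpa only [← eq_sum_tet (he (h1 _))] using
      torusG γ (e + 1) (filter_subset _ _) (fun p q => (h p).coeff (ex3 q)) h2 h3 hR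
  have h4 : LinearIndependent ℂ fun p => (⟨h p, h1 p⟩ : W) := by
    obtain ⟨v, hv⟩ := key P3 ⟨_, _, _, indep_mono3 D⟩
    exact LinearIndependent.of_comp ((aeval v).toLinearMap.comp W.subtype) hv
  have h5 : Fintype.card D = Module.finrank ℂ W := by
    refine le_antisymm h4.fintype_card_le_finrank ?_
    rw [← Module.finrank_fintype_fun_eq_card ℂ]
    refine LinearMap.finrank_le_finrank_of_injective (f := LinearMap.pi fun p : D =>
      (lcoeff ℂ (ex3 p)).comp W.subtype) (LinearMap.ker_eq_bot.1 (LinearMap.ker_eq_bot'.2 ?_))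
    rintro ⟨F, hF⟩ h0
    by_contra h6
    obtain ⟨s, h7⟩ := ne_zero_iff.1 fun h => h6 (Subtype.ext h)
    rw [← ex3_surj s] at h7
    obtain ⟨p, hp, h8⟩ := ((tet (e + 1)).filter fun q => F.coeff (ex3 q) ≠ 0).exists_min_image
      (wg γ (e + 1)) ⟨_, mem_filter.2 ⟨hs F hF _ h7, h7⟩⟩
    obtain ⟨h9, hp⟩ := mem_filter.1 hp
    refine hp (congrFun h0 ⟨p, mem_filter.2 ⟨h9, (F.coeff (ex3 p))⁻¹ • F, W.smul_mem _ hF,
      by simp [hp], fun q hq => ?_⟩⟩)
    have a1 : F.coeff (ex3 q) ≠ 0 := fun h => hq (by simp [h])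
    exact (h8 q (mem_filter.2 ⟨hs F hF q a1, a1⟩)).eq_or_lt.imp_left fun h =>
      (wg_inj h9 (hs F hF q a1) h).symm
  refine ⟨D, by rw [← h5, Fintype.card_coe], fun p hp => ?_, fun R _ _ hR => ?_⟩
  · by_contra h6
    have h7 := hW _ (h1 ⟨p, hp⟩) (by
      rw [eq_sum_tet (he (h1 ⟨p, hp⟩))]
      refine sum_mem fun q hq => ?_
      by_cases a1 : (h ⟨p, hp⟩).coeff (ex3 q) = 0
      · simp [a1]
      · refine Submodule.smul_of_tower_mem _ _ (Ideal.subset_span ⟨q, ?_, rfl⟩)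
        exact (not_le.1 h6).trans_le
          (wg_le hq ((h3 _ q a1).elim (fun h => h ▸ le_rfl) le_of_lt)))
    simpa [h7] using h2 ⟨p, hp⟩
  · obtain ⟨v, hv⟩ := key R hR
    refine ⟨v, fun F hF h0 => ?_⟩
    obtain ⟨c, hc⟩ := (Submodule.mem_span_range_iff_exists_fun ℂ).1
      ((h4.span_eq_top_of_card_eq_finrank' h5).ge (Submodule.mem_top (x := ⟨F, hF⟩)))
    obtain rfl : ∑ p, c p • h p = F := by simpa using congrArg W.subtype hc
    simp [Fintype.linearIndependent_iff.1 hv c (by simpa using h0)]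

lemma of_flat (W : Submodule ℂ P3) {m : ℕ} {D E : Finset Cell} (h1 : D.card = Module.finrank ℂ W)
    (h3 : ∀ (R : Type) [CommRing R] [Algebra ℂ R], GoodIn R D →
      ∃ v : Fin 3 → R, ∀ F ∈ W, aeval v F = 0 → F = 0)
    (h4 : Dom D E) (h5 : E.card = D.card) (h6 : Flat E m) :
    ∃ (J : Ideal P3) (u : Fin 3 → P3), JS m ≤ J ∧ Module.Finite ℂ (P3 ⧸ J) ∧
      Module.finrank ℂ (P3 ⧸ J) ≤ Module.finrank ℂ W ∧ ∀ F ∈ W, aeval u F ∈ J → F = 0 := by
  classical
  let J : Ideal P3 := Ideal.span ((fun s => monomial s (1 : ℂ)) '' (ex3 '' {p | p ∉ E}))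
  have hJ : ∀ p ∉ E, mono3 p ∈ J := fun p hp =>
    Ideal.subset_span ⟨_, ⟨p, hp, rfl⟩, (mono3_eq p).symm⟩
  have h7 : GoodIn (P3 ⧸ J) E := by
    refine ⟨Ideal.Quotient.mkₐ ℂ J (X 0), Ideal.Quotient.mkₐ ℂ J (X 1),
      Ideal.Quotient.mkₐ ℂ J (X 2), Fintype.linearIndependent_iff.2 fun g hg p => ?_⟩
    have h7 : ∑ q : E, g q • mono3 q ∈ J := by
      rw [← Ideal.Quotient.eq_zero_iff_mem, ← Ideal.Quotient.mkₐ_eq_mk ℂ, ← hg, map_sum]
      exact sum_congr rfl fun q _ => by rw [map_smul, mono3, map_mon]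
    by_contra h8
    obtain ⟨_, ⟨q, hq, rfl⟩, h9⟩ := mem_ideal_span_monomial_image.1 h7 (ex3 p) (by
      rw [mem_support_iff, coeff_sum, sum_eq_single p fun q _ hq => by
        rw [coeff_smul, mono3_eq, coeff_monomial, if_neg fun h => hq (Subtype.ext (ex3_inj h)),
          smul_zero]] <;> simp [mono3_eq, h8])
    exact hq (Flat_down h6 p.2 h9)
  obtain ⟨v, hv⟩ := h3 _ (h4 _ h7)
  choose u hu using fun i => Ideal.Quotient.mkₐ_surjective ℂ J (v i)
  refine ⟨J, u, sup_le ?_ fun F hF => ?_, (quot_le hJ).1, by rw [← h1, ← h5]; exact (quot_le hJ).2,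
    fun F hF h => hv F hF ?_⟩
  · rw [Ideal.span_le, Set.singleton_subset_iff]
    simpa [mono3, mon] using hJ (0, 0, 1) fun h => by simpa using (h6.lt _ h).1
  · rw [eq_sum_mono3 F]
    refine sum_mem fun s hs => Submodule.smul_of_tower_mem _ _ (hJ _ fun h => ?_)
    have := h6.lt _ h
    exact mem_support_iff.1 hs (by
      simpa only [ex3_surj] using mem_m3_pow.1 hF (s 0, s 1, s 2) (mem_tet.2 (by omega)))
  · rw [← _root_.funext hu, ← comp_aeval_apply]
    exact Ideal.Quotient.eq_zero_iff_mem.2 h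

lemma compG (D : Finset Cell) (γ K : ℕ) (hK : Wt 1 1 γ K D) :
    ∃ E : Finset Cell, Dom D E ∧ E.card = D.card ∧ Wt 1 1 γ K E ∧
      (∀ a b j, (a + 1, b, j) ∈ E → (a, b, j) ∈ E) ∧ (∀ a b j, (a, b + 1, j) ∈ E → (a, b, j) ∈ E) ∧
      ∀ a b j, (a, b + 1, j) ∈ E → (a + 1, b, j) ∈ E := by
  classical
  have hex : ∃ n, ∃ E : Finset Cell, (Dom D E ∧ E.card = D.card ∧ Wt 1 1 γ K E) ∧
      pot 1 2 5 E = n := ⟨_, D, ⟨Dom.refl D, rfl, hK⟩, rfl⟩
  obtain ⟨E, ⟨h1, h2, h3⟩, h4⟩ := Nat.find_spec hex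
  have hmin : ∀ F : Finset Cell, Dom E F → F.card = E.card → Wt 1 1 γ K F →
      pot 1 2 5 E ≤ pot 1 2 5 F := fun F a b c =>
    h4 ▸ Nat.find_min' hex ⟨F, ⟨h1.trans a, b.trans h2, c⟩, rfl⟩
  have hx : Rel (s13 E) (0 : ℕ) (0 : ℕ) 1 := by
    refine rel_of_pot (α := 5) (β := 2) (γ := 1) (by norm_num) ?_
    rw [pot_s13, ← pot_s13 1 2 5 (push _ _ _)]
    exact hmin _ ((dom_s13 E).trans ((dom_push _ 0 0).trans (dom_s13 _)))
      (by rw [card_s13, card_push, card_s13]) (h3.s13.push (by norm_num)).s13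
  have hy : Rel (sw E) (0 : ℕ) (0 : ℕ) 1 := by
    refine rel_of_pot (α := 1) (β := 5) (γ := 2) (by norm_num) ?_
    rw [pot_sw, ← pot_sw 1 2 5 (push _ _ _)]
    exact hmin _ ((dom_sw E).trans ((dom_push _ 0 0).trans (dom_sw _)))
      (by rw [card_sw, card_push, card_sw]) (h3.sw.push (by norm_num)).sw
  have hb : Rel (sw E) (1 : ℕ) (0 : ℕ) 1 := by
    refine rel_of_pot (α := 1) (β := 5) (γ := 2) (by norm_num) ?_
    rw [pot_sw, ← pot_sw 1 2 5 (push _ _ _)]
    exact hmin _ (dom_borel E) (card_borel E) (h3.sw.push (by norm_num)).sw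
  refine ⟨E, h1, h2, h3, fun a b j h => ?_, fun a b j h => ?_, fun a b j h => ?_⟩
  · exact mem_s13.1 (hx j b a _ _ (mem_s13.2 h) (by omega) (by omega))
  · exact mem_sw.1 (hy a j b _ _ (mem_sw.2 h) (by omega) (by omega))
  · exact mem_sw.1 (hb a j b _ _ (mem_sw.2 h) (by omega) (by omega))

lemma gameP (D : Finset Cell) (k : ℕ) (hk : 1 ≤ k) (hK : Wt 1 1 k k D)
    (hc : D.card ≤ (k + 1 + 1).choose 2) :
    ∃ E : Finset Cell, Dom D E ∧ E.card = D.card ∧ Flat E (k + 1) := by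
  classical
  obtain ⟨E, h1, h2, h3, hx, hy, hb⟩ := compG D k k hK
  have h4 : ∀ a b j, (a, b, j) ∈ E → (j = 0 ∧ a + b ≤ k) ∨ (a = 0 ∧ b = 0 ∧ j = 1) := by
    intro a b j h
    have h5 := h3 a b j h
    rcases j with _ | _ | j
    · omega
    · omega
    · rw [mul_add, mul_add] at h5
      omega
  by_cases hw : (0, 0, 1) ∈ E
  swap
  · refine ⟨E, h1, h2, ?_, hx, hy⟩
    rintro ⟨a, b, j⟩ h
    rcases h4 a b j h with h5 | ⟨rfl, rfl, rfl⟩
    · simp only
      omega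
    · exact absurd h hw
  have hex : ∃ g, (0, g, 0) ∉ E := ⟨k + 1, fun h => by have := h4 _ _ _ h; omega⟩
  have h5 := Nat.find_spec hex
  have h6 : ∀ b < Nat.find hex, (0, b, 0) ∈ E := fun b hb => not_not.1 (Nat.find_min hex hb)
  generalize Nat.find hex = g at h5 h6
  have h7 : g ≤ k := by
    by_contra hg
    have h8 : ∀ n a b, (a, b + n, 0) ∈ E → (a + n, b, 0) ∈ E := by
      intro n
      induction n with
      | zero => exact fun _ _ h => h
      | succ n ih =>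
        intro a b h
        have := ih (a + 1) b (hb a (b + n) 0 h)
        rwa [show a + 1 + n = a + (n + 1) by omega] at this
    have h9 : insert (0, 0, 1) (tri (k + 1)) ⊆ E := by
      refine insert_subset hw ?_
      rintro ⟨a, b, j⟩ hp
      obtain ⟨h10, rfl⟩ := mem_tri.1 hp
      have := h8 a 0 b (h6 _ (by simp only at h10; omega))
      rwa [zero_add] at this
    have h10 := card_le_card h9
    rw [card_insert_of_notMem (fun h => by simpa using (mem_tri.1 h).2), card_tri] at h10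
    omega
  have h8 : ∀ a b i, (a, b, i) ∈ push E 0 g ↔ i = 0 ∧ ((a, b, 0) ∈ E ∨ (a = 0 ∧ b = g)) := by
    intro a b i
    rw [mem_push]
    constructor
    · intro h
      have h9 : (lev E 0 g (a + i * 0) (b + i * g)).card ≤ 1 := by
        refine card_le_one.2 fun x hx y hy => ?_
        obtain ⟨a1, b1, e1, e2, e3⟩ := mem_lev.1 hx
        obtain ⟨a2, b2, f1, f2, f3⟩ := mem_lev.1 hy
        rcases h4 _ _ _ e1 with ⟨rfl, -⟩ | ⟨rfl, rfl, rfl⟩ <;>
          rcases h4 _ _ _ f1 with ⟨rfl, -⟩ | ⟨rfl, rfl, rfl⟩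
        · rfl
        · obtain rfl : a1 = 0 := by omega
          obtain rfl : b1 = g := by omega
          exact absurd e1 h5
        · obtain rfl : a2 = 0 := by omega
          obtain rfl : b2 = g := by omega
          exact absurd f1 h5
        · rfl
      obtain rfl : i = 0 := by omega
      obtain ⟨x, hx⟩ := card_pos.1 h
      obtain ⟨a1, b1, e1, e2, e3⟩ := mem_lev.1 hx
      refine ⟨rfl, ?_⟩
      rcases h4 _ _ _ e1 with ⟨rfl, -⟩ | ⟨rfl, rfl, rfl⟩
      · obtain rfl : a1 = a := by omega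
        obtain rfl : b1 = b := by omega
        exact Or.inl e1
      · exact Or.inr (by omega)
    · rintro ⟨rfl, h | ⟨rfl, rfl⟩⟩
      · exact card_pos.2 ⟨0, mem_lev.2 ⟨a, b, h, by omega, by omega⟩⟩
      · exact card_pos.2 ⟨1, mem_lev.2 ⟨0, 0, hw, by omega, by omega⟩⟩
  refine ⟨push E 0 g, h1.trans (dom_push E 0 g), (card_push E 0 g).trans h2, ?_, ?_, ?_⟩
  · rintro ⟨a, b, j⟩ h
    obtain ⟨rfl, h | ⟨rfl, rfl⟩⟩ := (h8 _ _ _).1 h
    · have := h4 _ _ _ h
      exact ⟨rfl, by simp only; omega⟩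
    · exact ⟨rfl, by simp only; omega⟩
  · intro a b j h
    obtain ⟨rfl, h | ⟨h, -⟩⟩ := (h8 _ _ _).1 h
    · exact (h8 _ _ _).2 ⟨rfl, Or.inl (hx _ _ _ h)⟩
    · omega
  · intro a b j h
    obtain ⟨rfl, h | ⟨rfl, h⟩⟩ := (h8 _ _ _).1 h
    · exact (h8 _ _ _).2 ⟨rfl, Or.inl (hy _ _ _ h)⟩
    · exact (h8 _ _ _).2 ⟨rfl, Or.inl (h6 b (by omega))⟩

end PUni

open PUni in
theorem lemmaUP : UPStmt := by
  intro W _ m hm hW hc
  by_cases h : m < 2000
  · rw [YY, if_pos h] at hW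
    obtain ⟨k, rfl⟩ : ∃ k, m = k + 1 := ⟨m - 1, by omega⟩
    obtain ⟨D, h1, h2, h3⟩ := initG W k k hW
    obtain ⟨E, h4, h5, h6⟩ := gameP D k (by omega)
      (fun a b j hp => by have := h2 _ hp; simp only at this; omega) (h1 ▸ hc)
    exact of_flat W h1 h3 h4 h5 h6
  · rw [YY, if_neg h] at hW
    exact lemmaU init (game stage_hall) W _ m hW (by omega) hc

end Pool.Agent.Lib.MP_a430e8_ag
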