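import Pool.Agent.Lib.MP_a430e8_ag.QMerge

/-! The monomials on the special surface and their compression to rows. -/

namespace Pool.Agent.Lib.MP_a430e8_ag.Q
open Finset

/-- The number of monomials of degree less than `n` on a complete intersection curve. -/
def Hh (a d n : ℕ) : ℕ := ∑ p ∈ range a ×ˢ range d, (n - (p.1 + p.2))

/-- The sum of the degrees. -/
def Sx (a d : ℕ) : ℕ := ∑ p ∈ range a ×ˢ range d, (p.1 + p.2)

variable {a d e : ℕ}

lemma Hh_zero : Hh a d 0 = 0 := by simp [Hh]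

lemma Hh_mono {n n' : ℕ} (h : n ≤ n') : Hh a d n ≤ Hh a d n' :=
  sum_le_sum fun _ _ => by omega

lemma Hh_le {n n' k : ℕ} (h : n ≤ n' + k) : Hh a d n ≤ Hh a d n' + a * d * k := by
  have : a * d * k = ∑ _p ∈ range a ×ˢ range d, k := by simp
  rw [this, Hh, Hh, ← sum_add_distrib]
  exact sum_le_sum fun _ _ => by omega

lemma sum_refl (f : ℕ → ℕ) : ∑ p ∈ range a ×ˢ range d, f (p.1 + p.2) =
    ∑ p ∈ range a ×ˢ range d, f (a + d - 2 - (p.1 + p.2)) := by
  refine sum_nbij' (fun p => (a - 1 - p.1, d - 1 - p.2)) (fun p => (a - 1 - p.1, d - 1 - p.2))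
    ?_ ?_ ?_ ?_ ?_ <;> simp only [mem_product, mem_range, Prod.forall, Prod.mk.injEq]
  all_goals intro x y h
  any_goals omega
  congr 1
  omega

lemma two_Sx : 2 * Sx a d = a * d * (a + d - 2) := by
  have : a * d * (a + d - 2) = ∑ _p ∈ range a ×ˢ range d, (a + d - 2) := by simp
  rw [this, two_mul, Sx]
  conv_lhs => arg 1; rw [sum_refl fun x => x]
  rw [← sum_add_distrib]
  refine sum_congr rfl fun p hp => ?_
  simp only [mem_product, mem_range] at hp
  omega

lemma Hh_id (n : ℕ) : Hh a d n + Sx a d = a * d * n + Hh a d (a + d - 2 - n) := by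
  have : a * d * n = ∑ _p ∈ range a ×ˢ range d, n := by simp
  rw [this, Hh, Hh, Sx, sum_refl fun x => a + d - 2 - n - x, ← sum_add_distrib, ← sum_add_distrib]
  refine sum_congr rfl fun p hp => ?_
  simp only [mem_product, mem_range] at hp
  omega

lemma card_T (n : ℕ) : ((tet n).filter fun p => p.1 < a ∧ p.2.1 < d).card = Hh a d n := by
  rw [card_eq_sum_card_fiberwise (f := fun p : Cell => (p.1, p.2.1)) (t := range a ×ˢ range d)
    fun p hp => by simpa using (mem_filter.1 hp).2]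
  refine sum_congr rfl fun p hp => ?_
  simp only [mem_product, mem_range] at hp
  rw [← card_range (n - _)]
  refine card_nbij' (fun q => q.2.2) (fun l => (p.1, p.2, l)) ?_ ?_ ?_ ?_
  · rintro ⟨x, y, z⟩ h
    simp only [coe_filter, mem_filter, mem_tet, Set.mem_ofPred_eq, Prod.ext_iff] at h
    simp only [coe_range, Set.mem_Iio]
    omega
  · intro l h
    simp only [coe_range, Set.mem_Iio] at h
    simp only [coe_filter, mem_filter, mem_tet, Set.mem_ofPred_eq, and_true]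
    omega
  · rintro ⟨x, y, z⟩ h
    simp only [coe_filter, Set.mem_ofPred_eq, Prod.ext_iff] at h
    simp [h.2.1, h.2.2]
  · exact fun _ _ => rfl

lemma Hh_cube (n : ℕ) : 6 * Hh a d n ≤ n * (n + 1) * (n + 2) := by
  rw [← six_mul_choose, ← card_tet, ← card_T]
  exact Nat.mul_le_mul_left _ (card_filter_le _ _)

/-- The monomials of degree at most `e` on the surface `y = z ^ d`. -/
def D0 (d e : ℕ) : Finset Cell :=
  ((tet (e + 1)).filter fun p => p.2.1 < d).image fun p => (p.1, 0, p.2.1 + d * p.2.2)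

lemma mem_D0 (hd : 0 < d) {x b k : ℕ} : (x, b, k) ∈ D0 d e ↔ b = 0 ∧ x + k % d + k / d ≤ e := by
  simp only [D0, mem_image, mem_filter, mem_tet, Prod.mk.injEq, Prod.exists]
  constructor
  · rintro ⟨x, y, z, ⟨h1, h2⟩, rfl, rfl, rfl⟩
    rw [Nat.add_mul_mod_self_left, Nat.mod_eq_of_lt h2, Nat.add_mul_div_left _ _ hd,
      Nat.div_eq_of_lt h2]
    omega
  · rintro ⟨rfl, h⟩
    exact ⟨x, k % d, k / d, ⟨by omega, Nat.mod_lt _ hd⟩, rfl, rfl, Nat.mod_add_div _ _⟩

lemma card_D0 (hd : 0 < d) : (e + 3).choose 3 ≤ (D0 d e).card + (e + 3 - d).choose 3 := by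
  have h1 : (tet (e + 1 - d)).card ≤ (e + 3 - d).choose 3 := by
    rw [card_tet]
    rcases le_or_gt d (e + 1) with h | h
    · rw [show e + 1 - d + 2 = e + 3 - d by omega]
    · simp [Nat.sub_eq_zero_of_le h.le]
  refine le_trans ?_ (Nat.add_le_add_left h1 _)
  rw [← card_tet (e + 1), ← card_filter_add_card_filter_not fun p : Cell => p.2.1 < d]
  refine add_le_add (card_le_card_of_injOn (fun p => (p.1, 0, p.2.1 + d * p.2.2))
    (fun p hp => mem_coe.2 (mem_image_of_mem _ hp)) ?_)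
    (card_le_card_of_injOn (fun p => (p.1, p.2.1 - d, p.2.2)) ?_ ?_)
  · rintro ⟨x, y, z⟩ hp ⟨x', y', z'⟩ hq h
    have h1 : y < d := (mem_filter.1 hp).2
    have h2 : y' < d := (mem_filter.1 hq).2
    simp only [Prod.mk.injEq, true_and] at h ⊢
    have h3 := congrArg (· % d) h.2
    simp only [Nat.add_mul_mod_self_left, Nat.mod_eq_of_lt h1, Nat.mod_eq_of_lt h2] at h3
    exact ⟨h.1, h3, Nat.eq_of_mul_eq_mul_left hd (by omega)⟩
  · rintro ⟨x, y, z⟩ hp
    simp only [coe_filter, mem_tet, Set.mem_ofPred_eq, mem_coe] at hp ⊢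
    omega
  · rintro ⟨x, y, z⟩ hp ⟨x', y', z'⟩ hq h
    simp only [coe_filter, Set.mem_ofPred_eq, Prod.mk.injEq] at hp hq h ⊢
    omega

lemma sd_add (hd : 0 < d) (j n : ℕ) : (j + n) % d + (j + n) / d ≤ j % d + j / d + n := by
  have h1 := Nat.add_div (a := j) (b := n) hd
  have h2 := Nat.add_mod_add_ite j n d
  have h3 := Nat.div_add_mod n d
  have h4 : n / d ≤ d * (n / d) := Nat.le_mul_of_pos_left _ hd
  split_ifs at h1 h2 <;> omega

lemma mem_push_D0 (ha : 0 < a) (hd : 0 < d) {i b k : ℕ} : (i, b, k) ∈ push (D0 d e) a 0 ↔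
    b = 0 ∧ i % a + (i / a) % d + (i / a) / d + a * k ≤ e := by
  have h0 := Nat.div_add_mod i a
  have h1 : ∀ j, j ∈ lev (D0 d e) a 0 (i + k * a) (b + k * 0) ↔ b = 0 ∧ ∃ l, l + j = i / a + k ∧
      i % a + j % d + j / d + a * l ≤ e := fun j => by
    simp only [mem_lev, mem_D0 hd, mul_zero, add_zero]
    constructor
    · rintro ⟨x, b, ⟨rfl, h1⟩, h2, rfl⟩
      have h3 : j ≤ i / a + k := by
        rw [← Nat.add_mul_div_right _ _ ha, Nat.le_div_iff_mul_le ha]
        omega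
      obtain ⟨l, hl⟩ := Nat.exists_eq_add_of_le' h3
      refine ⟨rfl, l, hl.symm, ?_⟩
      have := congrArg (a * ·) hl
      simp only [mul_add] at this
      rw [mul_comm j, mul_comm k] at h2
      omega
    · rintro ⟨rfl, l, h1, h2⟩
      refine ⟨i % a + a * l, 0, ⟨rfl, by omega⟩, ?_, rfl⟩
      have := congrArg (a * ·) h1
      simp only [mul_add] at this
      rw [mul_comm j, mul_comm k]
      omega
  rw [mem_push]
  constructor
  · intro h
    obtain ⟨j, hj⟩ := card_pos.1 (Nat.zero_lt_of_lt h)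
    refine ⟨((h1 j).1 hj).1, ?_⟩
    by_contra h2
    refine h.not_ge ((card_le_card (t := Ioc (i / a) (i / a + k)) fun j hj => ?_).trans (by simp))
    obtain ⟨-, l, h3, h4⟩ := (h1 j).1 hj
    refine mem_Ioc.2 ⟨?_, by omega⟩
    by_contra h5
    obtain ⟨n, hn⟩ := Nat.exists_eq_add_of_le (not_lt.1 h5)
    have h6 := sd_add hd j n
    obtain rfl : l = k + n := by omega
    have h7 : n ≤ a * n := Nat.le_mul_of_pos_left _ ha
    rw [← hn] at h6
    rw [mul_add] at h4
    omega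
  · rintro ⟨rfl, h⟩
    refine lt_of_lt_of_le ?_ (card_le_card (s := Icc (i / a) (i / a + k)) fun j hj => ?_)
    · rw [Nat.card_Icc]
      omega
    obtain ⟨h2, h3⟩ := mem_Icc.1 hj
    obtain ⟨n, rfl⟩ := Nat.exists_eq_add_of_le h2
    obtain ⟨l, rfl⟩ := Nat.exists_eq_add_of_le (Nat.le_of_add_le_add_left h3)
    have h6 := sd_add hd (i / a) n
    have h7 : n ≤ a * n := Nat.le_mul_of_pos_left _ ha
    rw [mul_add] at h
    exact (h1 _).2 ⟨rfl, l, by omega, by omega⟩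

lemma mem_X (ha : 0 < a) (hd : 0 < d) {i b k : ℕ} : (i, b, k) ∈ xpush (push (D0 d e) a 0) ↔
    b = 0 ∧ i < Hh a d (e + 1 - a * k) := by
  rw [mem_xpush]
  rcases eq_or_ne b 0 with rfl | hb
  swap
  · refine iff_of_false (fun h => ?_) fun h => hb h.1
    obtain ⟨⟨x, q⟩, hq⟩ := card_pos.1 (Nat.zero_lt_of_lt h)
    obtain ⟨h2, rfl⟩ := mem_filter.1 hq
    exact hb ((mem_push_D0 ha hd).1 h2).1
  rw [← card_T, card_nbij' (t := (tet (e + 1 - a * k)).filter fun p => p.1 < a ∧ p.2.1 < d)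
    (fun p => (p.1 % a, p.1 / a % d, p.1 / a / d))
    (fun p => (p.1 + a * (p.2.1 + d * p.2.2), 0, k)), and_iff_right rfl]
  · rintro ⟨x, q⟩ hq
    obtain ⟨h2, rfl⟩ := mem_filter.1 hq
    have := ((mem_push_D0 ha hd).1 h2).2
    exact mem_filter.2 ⟨mem_tet.2 (by simp only; omega), Nat.mod_lt _ ha, Nat.mod_lt _ hd⟩
  · rintro ⟨x, y, z⟩ hq
    obtain ⟨h1, h2, h3⟩ := mem_filter.1 hq
    refine mem_filter.2 ⟨(mem_push_D0 ha hd).2 ⟨rfl, ?_⟩, rfl⟩
    rw [mem_tet] at h1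
    simp only [Nat.add_mul_mod_self_left, Nat.add_mul_div_left _ _ ha, Nat.add_mul_div_left _ _ hd,
      Nat.mod_eq_of_lt h2, Nat.mod_eq_of_lt h3, Nat.div_eq_of_lt h2, Nat.div_eq_of_lt h3,
      zero_add] at h1 ⊢
    omega
  · rintro ⟨x, q⟩ hq
    obtain ⟨-, rfl⟩ := mem_filter.1 hq
    simp only [Nat.mod_add_div]
  · rintro ⟨x, y, z⟩ hq
    obtain ⟨-, h2, h3⟩ := mem_filter.1 hq
    simp only [Nat.add_mul_mod_self_left, Nat.add_mul_div_left _ _ ha, Nat.add_mul_div_left _ _ hd,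
      Nat.mod_eq_of_lt h2, Nat.mod_eq_of_lt h3, Nat.div_eq_of_lt h2, Nat.div_eq_of_lt h3, zero_add]

end Pool.Agent.Lib.MP_a430e8_ag.Q
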