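import Pool.Agent.Lib.MP_a430e8_ag.QPick
import Pool.Agent.Lib.MP_a430e8_ag.MGen

/-! The special surface `y = z ^ d` and the passage to the general surface. -/

namespace Pool.Agent.Lib.MP_a430e8_ag.Q
open Finset MvPolynomial MGen

lemma aeval_mem_pow {v : Fin 3 → P2} (hv : ∀ i, v i ∈ m2) {k : ℕ} {F : P3} (h : F ∈ m3 ^ k) :
    aeval v F ∈ m2 ^ k := by
  have h1 : m3.map (aeval v : P3 →ₐ[ℂ] P2) ≤ m2 := by
    rw [Ideal.map_span, Ideal.span_le]
    rintro _ ⟨_, ⟨i, rfl⟩, rfl⟩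
    simpa using hv i
  have h2 := Ideal.mem_map_of_mem (aeval v : P3 →ₐ[ℂ] P2) h
  rw [Ideal.map_pow] at h2
  exact Ideal.pow_right_mono h1 k h2

lemma sub_cc_mem (g : P2) : g - C (constantCoeff g) ∈ m2 := by
  rw [← pow_one m2, mem_pow_idealOfVars_iff']
  intro s hs
  obtain rfl : s = 0 := (Finsupp.degree_eq_zero_iff s).1 (by omega)
  simp [constantCoeff_eq]

lemma dim_le {V W ι : Type} [AddCommGroup V] [Module ℂ V] [AddCommGroup W] [Module ℂ W] [Fintype ι]
    (L : V →ₗ[ℂ] W) {H K : Submodule ℂ V} [Module.Finite ℂ H] (h1 : K ≤ H)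
    (h2 : ∀ F ∈ K, L F = 0) {v : ι → V} (h3 : ∀ i, v i ∈ H) (h : LinearIndependent ℂ (L ∘ v)) :
    Module.finrank ℂ K + Fintype.card ι ≤ Module.finrank ℂ H := by
  have h4 : Submodule.span ℂ (Set.range v) ≤ H := Submodule.span_le.2 (Set.range_subset_iff.2 h3)
  have := Submodule.finiteDimensional_of_le h1
  have := Submodule.finiteDimensional_of_le h4
  rw [← finrank_span_eq_card (h.of_comp L), ← Submodule.finrank_sup_add_finrank_inf_eq,
    ((Submodule.range_ker_disjoint h).symm.mono_left h2).eq_bot, finrank_bot, add_zero]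
  exact Submodule.finrank_mono (sup_le h1 h4)

/-- The special surface. -/
noncomputable def f0 (d : ℕ) : P4 := X 3 * X 0 ^ (d - 1) - X 2 ^ d

lemma f0_hom {d : ℕ} (hd : 0 < d) : (f0 d).IsHomogeneous d := by
  refine IsHomogeneous.sub ?_ (by simpa using (isHomogeneous_X ℂ (2 : Fin 4)).pow d)
  have := (isHomogeneous_X ℂ (3 : Fin 4)).mul ((isHomogeneous_X ℂ (0 : Fin 4)).pow (d - 1))
  rwa [show 1 + 1 * (d - 1) = d by omega] at this

lemma dehom_f0 (d : ℕ) : dehom (f0 d) = X 2 - X 1 ^ d := by simp [f0, dehom]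

lemma special {d e r m n : ℕ} (hd : 0 < d) (h : Rk (Fin r → Jet m) (D0 d e) n) :
    ∃ q : Fin r → Fin 3 → ℂ, (∀ i, eval (q i) (dehom (f0 d)) = 0) ∧
      (∀ i, tau (q i) (dehom (f0 d)) ∉ m3 ^ 2) ∧
      Module.finrank ℂ (multiSeries (f0 d) q e fun _ => m) + n ≤ (e + 3).choose 3 := by
  classical
  obtain ⟨E, hE, hn, x, y, z, h⟩ := h
  choose g hg using fun i => Ideal.Quotient.mkₐ_surjective ℂ _ (x i)
  choose g' hg' using fun i => Ideal.Quotient.mkₐ_surjective ℂ _ (z i)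
  refine ⟨fun i => ![constantCoeff (g i), constantCoeff (g' i), constantCoeff (g' i ^ d)],
    fun i => by simp [dehom_f0], fun i => ?_, ?_⟩
  · obtain ⟨B, hB⟩ := sub_dvd_pow_sub_pow (X 1 + C (constantCoeff (g' i)) : P3)
      (C (constantCoeff (g' i))) d
    convert special_not_mem 0 B using 2
    simp only [dehom_f0, tau, map_sub, map_pow, aeval_X, Matrix.cons_val]
    linear_combination -hB
  let φ : Cell → Cell := fun p => (p.1, p.2.2 % d, p.2.2 / d)
  have h1 : ∀ p ∈ E, p.2.1 = 0 ∧ φ p ∈ tet (e + 1) := fun p hp => by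
    have := (mem_D0 hd).1 (hE hp)
    exact ⟨this.1, mem_tet.2 (Nat.lt_succ_of_le this.2)⟩
  let ψ : Fin r → P3 →ₐ[ℂ] P2 := fun i => aeval ![g i, g' i, g' i ^ d]
  let L : P4 →ₗ[ℂ] (Fin r → Jet m) :=
    LinearMap.pi fun i => ((jmk m).comp ((ψ i).comp dehom)).toLinearMap
  have h2 : ∀ p : E, L (mono4 e (φ p)) = mon x y z p := fun p => funext fun i => by
    simp only [L, LinearMap.pi_apply, AlgHom.toLinearMap_apply, AlgHom.comp_apply, dehom_mono4,
      mono3, mon, map_mul, map_pow, ψ, aeval_X, Matrix.cons_val, (h1 p p.2).1, φ, Pi.mul_apply,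
      Pi.pow_apply, hg, hg']
    rw [pow_zero, mul_one, mul_assoc, ← pow_mul, ← pow_add, Nat.mod_add_div]
  have h3 : LinearIndependent ℂ (L ∘ fun p : E => mono4 e (φ p)) := by
    rwa [show (L ∘ fun p : E => mono4 e (φ p)) = fun p : E => mon x y z p from funext h2]
  rw [← finrank_hom]
  refine le_trans (add_le_add_right (hn.trans_eq (Fintype.card_coe E).symm) _) (dim_le L
    (fun F hF => (mem_multi.1 hF).1) (fun F hF => funext fun i => ?_)
    (fun p => mono4_hom (h1 p p.2).2) h3)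
  have h6 := (mem_multi.1 hF).2
  obtain ⟨A, hA⟩ := h6 i
  have h7 := aeval_mem_pow (v := fun k => ![g i, g' i, g' i ^ d] k -
    C (constantCoeff (![g i, g' i, g' i ^ d] k))) (fun k => sub_cc_mem _) hA
  have h8 : ∀ G : P3, aeval (fun k => ![g i, g' i, g' i ^ d] k -
      C (constantCoeff (![g i, g' i, g' i ^ d] k))) (tau ![constantCoeff (g i),
        constantCoeff (g' i), constantCoeff (g' i ^ d)] G) = ψ i G := fun G => by
    rw [tau, ← AlgHom.comp_apply, comp_aeval]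
    refine congrArg (aeval · G) (funext fun k => ?_)
    fin_cases k <;> simp
  rw [map_sub, map_mul, h8, h8, dehom_f0] at h7
  refine Ideal.Quotient.eq_zero_iff_mem.2 ?_
  simpa [ψ] using h7

lemma low {d e r : ℕ} {f : P4} (hf : f.IsHomogeneous d) (h0 : f ≠ 0) (q : Fin r → Fin 3 → ℂ)
    (m : Fin r → ℕ) : (e + 3 - d).choose 3 ≤ Module.finrank ℂ (multiSeries f q e m) := by
  rcases lt_or_ge e d with h | h
  · rw [Nat.choose_eq_zero_of_lt (by omega)]
    exact Nat.zero_le _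
  obtain ⟨n, rfl⟩ := Nat.exists_eq_add_of_le h
  rw [show d + n + 3 - d = n + 3 by omega, ← finrank_hom]
  refine LinearMap.finrank_le_finrank_of_injective
    (f := (LinearMap.mulLeft ℂ f).restrict fun F hF => mem_multi.2 ⟨hf.mul hF, fun i =>
      ⟨tau (q i) (dehom F), by simp⟩⟩) fun F G e => ?_
  exact Subtype.ext (mul_left_cancel₀ h0 (congrArg Subtype.val e))

lemma general_ne {d : ℕ} {P : P4 → Prop} (h : GeneralForm d P) :
    GeneralForm d fun f => f ≠ 0 ∧ P f := by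
  obtain ⟨Φ, ⟨f₁, h1, h2⟩, h3⟩ := h
  obtain ⟨f₂, h4, h5, h6⟩ : ∃ f : P4, f.IsHomogeneous d ∧ eval (fun s => f.coeff s) Φ ≠ 0 ∧
      f ≠ 0 := by
    by_cases h0 : f₁ = 0
    swap
    · exact ⟨f₁, h1, h2, h0⟩
    let p : Polynomial ℂ :=
      aeval (fun s => Polynomial.C ((X 0 ^ d : P4).coeff s) * Polynomial.X) Φ
    have hp : ∀ t, p.eval t = eval (fun s => (t • X 0 ^ d : P4).coeff s) Φ := fun t => by
      rw [← Polynomial.coe_aeval_eq_eval, ← AlgHom.comp_apply, comp_aeval, aeval_eq_eval]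
      refine congrArg (eval · Φ) (funext fun s => ?_)
      rw [map_mul, Polynomial.aeval_C, Polynomial.aeval_X, coeff_smul, mul_comm]
      rfl
    have hp0 : p * Polynomial.X ≠ 0 := mul_ne_zero (fun e => h2 (by
      simpa [e, h0] using (hp 0).symm)) Polynomial.X_ne_zero
    obtain ⟨t, ht⟩ := (Polynomial.finite_setOfPred_isRoot hp0).exists_notMem
    simp only [Set.mem_ofPred_eq, Polynomial.IsRoot.def, Polynomial.eval_mul, Polynomial.eval_X,
      mul_eq_zero, not_or] at ht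
    exact ⟨t • X 0 ^ d, (homogeneousSubmodule _ ℂ d).smul_mem t
      (by simpa using (isHomogeneous_X ℂ (0 : Fin 4)).pow d), hp t ▸ ht.1,
      smul_ne_zero ht.2 (pow_ne_zero _ (X_ne_zero _))⟩
  obtain ⟨s, hs⟩ := ne_zero_iff.1 h6
  refine ⟨Φ * X s, ⟨f₂, h4, by simp [h5, hs]⟩, fun f hf h7 => ?_⟩
  rw [map_mul, eval_X, mul_ne_zero_iff] at h7
  exact ⟨ne_zero_iff.2 ⟨s, h7.2⟩, h3 f hf h7.1⟩

theorem of_rk {d e r m : ℕ} (hd : 0 < d) (h : Rk (Fin r → Jet m) (D0 d e) (D0 d e).card ∨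
    Rk (Fin r → Jet m) (D0 d e) (r * (m + 1).choose 2)) :
    GeneralForm d fun f => GeneralPoints f r fun q =>
      Module.finrank ℂ (multiSeries f q e fun _ => m) = (e + 3 - d).choose 3 +
        ((e + 3).choose 3 - (e + 3 - d).choose 3 - r * (m + 1).choose 2) := by
  obtain ⟨n, hn, h⟩ : ∃ n, (n = (D0 d e).card ∨ n = r * (m + 1).choose 2) ∧
      Rk (Fin r → Jet m) (D0 d e) n := h.elim (⟨_, .inl rfl, ·⟩) (⟨_, .inr rfl, ·⟩)
  obtain ⟨q₀, h1, h2, h3⟩ := special hd h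
  obtain ⟨Φ, h4, h5⟩ := general_ne (gen d e r (fun _ => m) _ q₀ (f0_hom hd) h1 h2)
  refine ⟨Φ, h4, fun f hf hΦ => ?_⟩
  obtain ⟨h6, G, h7, h8⟩ := h5 f hf hΦ
  refine ⟨G, h7, fun q hq hG => ?_⟩
  have h9 := h8 q hq hG
  have h10 := low (e := e) hf h6 q fun _ => m
  have h11 := card_D0 (e := e) hd
  rw [sum_const, card_univ, Fintype.card_fin, smul_eq_mul] at h9
  omega

end Pool.Agent.Lib.MP_a430e8_ag.Q
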