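import Pool.Agent.Lib.MP_a430e8_ag.QMove

/-! An orbit of points absorbs a staircase of rows. -/

namespace Pool.Agent.Lib.MP_a430e8_ag.Q
open Finset

lemma card_row {D : Finset Cell} {b k N c c' ρ B : ℕ}
    (h : ∀ a, (a, b, k) ∈ D → (a + c) % N = ρ ∧ (a + c') / N < B) :
    (D.filter fun p => p.2 = (b, k)).card ≤ B := by
  rw [← card_range B]
  refine card_le_card_of_injOn (fun p => (p.1 + c') / N) ?_ ?_
  · rintro ⟨a, q⟩ hp
    obtain ⟨h1, rfl⟩ := mem_filter.1 hp
    exact mem_range.2 (h a h1).2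
  · rintro ⟨a, q⟩ hp ⟨a', q'⟩ hq e
    obtain ⟨h1, rfl⟩ := mem_filter.1 hp
    obtain ⟨h2, rfl⟩ := mem_filter.1 hq
    have h3 : a + c' ≡ a' + c' [MOD N] :=
      (Nat.ModEq.add_right_cancel' c (((h a h1).1.trans (h a' h2).1.symm :))).add_right c'
    have h4 := Nat.div_add_mod (a + c') N
    have h5 := Nat.div_add_mod (a' + c') N
    simp only at e
    rw [e, h3] at h4
    exact Prod.ext (by simp only; omega) rfl

/-- The rows absorbed by `N` points. -/
def V (m N ε k : ℕ) : ℕ := if k = m then m * N - ε else if k + 1 = m then ε else (m - 1 - k) * N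

lemma merge {m N ε : ℕ} (h : m * ε ≤ N) : Gd m N (rows (m + 1) 0 (V m N ε)) := by
  rcases Nat.eq_zero_or_pos m with rfl | hm
  · refine dom_of_subset (E := ∅) ?_ _ ⟨0, 0, 0, linearIndependent_empty_type⟩
    rintro ⟨a, b, k⟩ hp
    obtain ⟨-, h1, -, h2⟩ := mem_rows.1 hp
    obtain rfl : k = 0 := by omega
    simp [V] at h2
  obtain ⟨m, rfl⟩ : ∃ n, m = n + 1 := ⟨m - 1, by omega⟩
  rw [add_mul, one_mul] at h
  rcases Nat.eq_zero_or_pos N with rfl | hN
  · refine dom_of_subset (E := ∅) ?_ _ ⟨0, 0, 0, linearIndependent_empty_type⟩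
    rintro ⟨a, b, k⟩ hp
    obtain ⟨-, h1, -, h2⟩ := mem_rows.1 hp
    simp only [V, mul_zero, Pi.zero_apply] at h2
    split_ifs at h2 <;> omega
  have key : ∀ a b k, (a, b, k) ∈ rows (m + 1 + 1) 0 (V (m + 1) N ε) → b = 0 ∧
      (k = m + 1 ∧ a + ε < (m + 1) * N ∨ k = m ∧ a < ε ∨ k < m ∧ a < (m - k) * N) := by
    intro a b k hp
    obtain ⟨rfl, h1, -, h2⟩ := mem_rows.1 hp
    simp only [V, Pi.zero_apply, zero_add, Nat.add_sub_cancel] at h2
    split_ifs at h2 <;> omega
  refine orbit hN ε fun ρ hρ => ?_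
  generalize hE : (rows (m + 1 + 1) 0 (V (m + 1) N ε)).filter
    (fun p => (p.1 + p.2.2 * ε) % N = ρ) = E
  have key' : ∀ a b k, (a, b, k) ∈ E → (a + k * ε) % N = ρ ∧ b = 0 ∧
      (k = m + 1 ∧ a + ε < (m + 1) * N ∨ k = m ∧ a < ε ∨ k < m ∧ a < (m - k) * N) :=
    fun a b k hp => by
      rw [← hE, mem_filter] at hp
      exact ⟨hp.2, key _ _ _ hp.1⟩
  clear hE key
  by_cases hc : m * ε ≤ ρ ∧ ρ < m * ε + ε
  · refine dom_push E ε 0 _ (dom_xpush _ _ (good_tri fun i b k hp => ?_))
    have h1 : ∀ a, (a, b, k) ∈ push E ε 0 → b = 0 ∧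
        (a + k * ε) % N = ρ ∧ (a + k * ε) / N < m + 1 - k := fun a hp => by
      rw [mem_push] at hp
      generalize a + k * ε = A at hp ⊢
      have h2 : ∀ j ∈ lev E ε 0 A (b + k * 0), b = 0 ∧ A % N = ρ ∧ A / N ≤ m ∧
          (j = m + 1 ∧ 0 < A / N ∨ j ≤ m ∧ A / N = 0 ∨ j < m - A / N) := fun j hj => by
        obtain ⟨a', b', h3, rfl, h4⟩ := mem_lev.1 hj
        obtain ⟨h5, rfl, h6⟩ := key' _ _ _ h3
        have h7 := Nat.div_add_mod (a' + j * ε) N
        rw [h5] at h7
        generalize (a' + j * ε) / N = l at h7 ⊢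
        refine ⟨by omega, h5, ?_⟩
        rcases h6 with ⟨rfl, h6⟩ | ⟨rfl, h6⟩ | ⟨h6, h8⟩
        · have h8 : N * l < N * (m + 1) := by rw [add_mul] at h7; rw [mul_comm N (m + 1)]; omega
          refine ⟨Nat.lt_succ_iff.1 (Nat.lt_of_mul_lt_mul_left h8), .inl ⟨rfl, ?_⟩⟩
          rcases l with _ | l
          · rw [add_mul] at h7
            omega
          · omega
        · have h8 : N * l < N * 1 := by omega
          have := Nat.lt_of_mul_lt_mul_left h8
          omega
        · have h9 : j * ε ≤ m * ε := Nat.mul_le_mul_right _ h6.le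
          have h10 : N * l < N * (m - j) := by rw [mul_comm N (m - j)]; omega
          have := Nat.lt_of_mul_lt_mul_left h10
          omega
      obtain ⟨j, hj⟩ := card_pos.1 (Nat.zero_lt_of_lt hp)
      obtain ⟨h3, h4, h5, -⟩ := h2 j hj
      refine ⟨h3, h4, ?_⟩
      have h6 : (lev E ε 0 A (b + k * 0)).card ≤ (range (m + 1 - A / N)).card := by
        refine card_le_card_of_injOn (fun j => if j = m + 1 then m - A / N else j)
          (fun j hj => ?_) fun j hj j' hj' e => ?_
        · have := h2 j hj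
          simp only [coe_range, Set.mem_Iio]
          split_ifs <;> omega
        · have := h2 j hj
          have := h2 j' hj'
          simp only at e
          split_ifs at e <;> omega
      rw [card_range] at h6
      omega
    rw [mem_xpush] at hp
    obtain ⟨⟨a, q⟩, hq⟩ := card_pos.1 (Nat.zero_lt_of_lt hp)
    obtain ⟨h2, rfl⟩ := mem_filter.1 hq
    have := card_row fun a ha => (h1 a ha).2
    exact ⟨(h1 a h2).1, by omega⟩
  · refine dom_xpush _ _ (dom_push _ 0 0 _ (good_tri fun i b k hp => ?_))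
    rw [mem_push] at hp
    simp only [mul_zero, add_zero] at hp
    have h2 : ∀ j ∈ lev (xpush E) 0 0 i b, b = 0 ∧ (j = m + 1 ∧ i ≤ m ∨ j < m - i) := by
      intro j hj
      obtain ⟨a', b', h3, h4, h5⟩ := mem_lev.1 hj
      simp only [mul_zero, add_zero] at h4 h5
      subst h4 h5
      rw [mem_xpush] at h3
      obtain ⟨⟨a, q⟩, hq⟩ := card_pos.1 (Nat.zero_lt_of_lt h3)
      obtain ⟨h4, rfl⟩ := mem_filter.1 hq
      obtain ⟨h5, rfl, h6⟩ := key' _ _ _ h4
      have h7 := card_row (D := E) (b := 0) (k := j) (N := N) (c := j * ε) (c' := 0) (ρ := ρ)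
        (B := if j = m + 1 then m + 1 else m - j) fun a ha => by
          obtain ⟨h7, -, h8⟩ := key' _ _ _ ha
          refine ⟨h7, (Nat.div_lt_iff_lt_mul hN).2 ?_⟩
          rcases h8 with ⟨rfl, h8⟩ | ⟨rfl, h8⟩ | ⟨h8, h9⟩
          · rw [if_pos rfl]
            omega
          · rw [Nat.mod_eq_of_lt (by omega)] at h7
            omega
          · rw [if_neg (by omega)]
            omega
      refine ⟨rfl, ?_⟩
      split_ifs at h7 <;> omega
    obtain ⟨j, hj⟩ := card_pos.1 (Nat.zero_lt_of_lt hp)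
    have h6 : (lev (xpush E) 0 0 i b).card ≤ (range (m + 1 - i)).card := by
      refine card_le_card_of_injOn (fun j => if j = m + 1 then m - i else j)
        (fun j hj => ?_) fun j hj j' hj' e => ?_
      · have := h2 j hj
        simp only [coe_range, Set.mem_Iio]
        split_ifs <;> omega
      · have := h2 j hj
        have := h2 j' hj'
        simp only at e
        split_ifs at e <;> omega
    rw [card_range] at h6
    exact ⟨(h2 j hj).1, by omega⟩

/-- The rows absorbed by `N` points in an orbit, `s` points on one section and `t` on the other. -/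
def W (m N ε s t k : ℕ) : ℕ := if k ≤ m then V m N ε k + s * (m - k) + t * k else 0

lemma gd_W {m N ε : ℕ} (h : m * ε ≤ N) (s t n : ℕ) :
    Gd m (N + s + t) (rows n 0 (W m N ε s t)) := by
  refine dom_of_subset (E := rows (m + 1) 0 (W m N ε s t)) ?_ _ (hmoves (lmoves (merge h) s
    (w := fun k => V m N ε k + s * (m - k)) (fun k _ => ⟨rfl, rfl, le_rfl⟩) fun k _ _ => by omega) t
    fun k hk => by rw [W, if_pos hk])
  rintro ⟨a, b, k⟩ hp
  rw [mem_rows] at hp ⊢
  refine ⟨hp.1, ?_, hp.2.2⟩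
  by_contra hk
  rw [W, if_neg (by omega)] at hp
  omega

lemma sum_W {m N ε : ℕ} (h : m * ε ≤ N) (s t : ℕ) :
    ∑ k ∈ range (m + 1), W m N ε s t k = (N + s + t) * (m + 1).choose 2 := by
  have h1 : ∀ m, ∑ k ∈ range (m + 1), k = (m + 1).choose 2 := fun m => by
    rw [sum_range_id, Nat.choose_two_right]
  have h2 : ∀ m, ∑ k ∈ range (m + 1), (m - k) = (m + 1).choose 2 := fun m => by
    rw [← h1, ← sum_range_reflect (fun k => k)]
    rfl
  rw [sum_congr (f := W m N ε s t) rfl fun k hk => if_pos (Nat.lt_succ_iff.1 (mem_range.1 hk)),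
    sum_add_distrib,
    sum_add_distrib, ← mul_sum, ← mul_sum, h1, h2, add_mul, add_mul]
  congr 2
  rcases m with _ | m
  · simp [V]
  rw [sum_range_succ, sum_range_succ, sum_congr rfl (g := fun k => (m - k) * N) fun k hk => by
    have := mem_range.1 hk
    rw [V, if_neg (by omega), if_neg (by omega), Nat.add_sub_cancel], ← sum_mul]
  have h3 := h2 m
  rw [sum_range_succ, Nat.sub_self, add_zero] at h3
  have h4 : ε ≤ (m + 1) * N := by nlinarith
  rw [h3, Nat.choose_succ_succ' (m + 1) 1, Nat.choose_one_right, mul_add]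
  simp only [V, if_true, Nat.left_eq_add, one_ne_zero, if_false, Nat.reduceAdd]
  rw [mul_comm N, mul_comm N]
  omega

lemma card_le_of_diam {T : Finset ℕ} {B : ℕ} (h : ∀ x ∈ T, ∀ y ∈ T, y < x + B) : T.card ≤ B := by
  rcases T.eq_empty_or_nonempty with rfl | hT
  · simp
  refine (card_le_card (t := Ico (T.min' hT) (T.min' hT + B)) fun y hy =>
    mem_Ico.2 ⟨T.min'_le y hy, h _ (T.min'_mem hT) y hy⟩).trans (by simp)

/-- The last point. -/
lemma last {m δ B : ℕ} {D : Finset Cell} (h0 : ∀ i b k, (i, b, k) ∈ D → b = 0)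
    (h : ∀ i k l, (i, 0, k) ∈ D → (i, 0, l) ∈ D → m ≤ k + i + δ → m ≤ l + i + δ →
      l < k + δ ∧ l < k + B ∧ i + B ≤ m) : Gd m 1 D := by
  refine orbit one_pos 0 fun _ _ => dom_of_subset (filter_subset _ _) _
    (dom_push _ 0 0 _ (good_tri fun i b k hp => ?_))
  rw [mem_push] at hp
  simp only [mul_zero, add_zero] at hp
  have h1 : ∀ j ∈ lev D 0 0 i b, (i, b, j) ∈ D := fun j hj => by
    obtain ⟨a', b', h3, h4, h5⟩ := mem_lev.1 hj
    simp only [mul_zero, add_zero] at h4 h5
    rwa [← h4, ← h5]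
  obtain ⟨j, hj⟩ := card_pos.1 (Nat.zero_lt_of_lt hp)
  obtain rfl := h0 _ _ _ (h1 j hj)
  refine ⟨rfl, ?_⟩
  have h2 := card_filter_add_card_filter_not (s := lev D 0 0 i 0) fun k => m ≤ k + i + δ
  have h3 : ((lev D 0 0 i 0).filter fun k => ¬ m ≤ k + i + δ).card ≤ m - i - δ := by
    rw [← card_range (m - i - δ)]
    exact card_le_card fun k hk => mem_range.2 (by have := (mem_filter.1 hk).2; omega)
  have h4 := fun x (hx : x ∈ (lev D 0 0 i 0).filter fun k => m ≤ k + i + δ) y
    (hy : y ∈ (lev D 0 0 i 0).filter fun k => m ≤ k + i + δ) => h i x y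
      (h1 x (mem_filter.1 hx).1) (h1 y (mem_filter.1 hy).1) (mem_filter.1 hx).2 (mem_filter.1 hy).2
  have h5 := card_le_of_diam fun x hx y hy => (h4 x hx y hy).1
  have h6 := card_le_of_diam fun x hx y hy => (h4 x hx y hy).2.1
  rcases ((lev D 0 0 i 0).filter fun k => m ≤ k + i + δ).eq_empty_or_nonempty with e | ⟨x, hx⟩
  · rw [e, card_empty] at h2
    omega
  · have := (h4 x hx x hx).2.2
    omega

end Pool.Agent.Lib.MP_a430e8_ag.Q
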