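import Pool.Agent.Lib.MP_a430e8_ag.QRank

/-! Points on the two sections, and an orbit of points of the torus. -/

namespace Pool.Agent.Lib.MP_a430e8_ag.Q
open Finset Polynomial

variable {R : Type} [CommRing R] [Algebra ℂ R]

lemma jet_dvd {m n : ℕ} (c : ℂ) (Φ : ℕ → ℂ[X])
    (h : ∑ k ∈ range n, jmk m (MvPolynomial.X 1) ^ k *
      aeval (algebraMap ℂ _ c + jmk m (MvPolynomial.X 0)) (Φ k) = 0) {k : ℕ} (hk : k < n) :
    (X - C c) ^ (m - k) ∣ Φ k := by
  classical
  have h1 : jmk m (∑ k ∈ range n, ∑ a ∈ (taylor c (Φ k)).support,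
      MvPolynomial.monomial (ex2 a k) ((taylor c (Φ k)).coeff a)) = 0 := by
    rw [← h, map_sum]
    refine sum_congr rfl fun k _ => ?_
    have e : aeval (algebraMap ℂ _ c + jmk m (MvPolynomial.X 0)) (Φ k) =
        aeval (jmk m (MvPolynomial.X 0)) (taylor c (Φ k)) := by
      rw [taylor_apply, aeval_comp, map_add, aeval_X, aeval_C, add_comm]
    rw [e, aeval_eq_sum_range, map_sum, sum_subset (supp_subset_range_natDegree_succ), mul_sum]
    · refine sum_congr rfl fun a _ => ?_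
      rw [mul_smul_comm, ← map_pow, ← map_pow, ← map_mul, mul_comm, monomial_ex2, ← map_smul,
        MvPolynomial.smul_monomial, smul_eq_mul, mul_one]
    · intro a _ ha
      rw [notMem_support_iff.1 ha, map_zero, map_zero]
  rw [Ideal.Quotient.mkₐ_eq_mk, Ideal.Quotient.eq_zero_iff_mem,
    MvPolynomial.mem_pow_idealOfVars_iff'] at h1
  have h2 : X ^ (m - k) ∣ taylor c (Φ k) := X_pow_dvd_iff.2 fun a ha => by
    have h3 := h1 (ex2 a k) (by rw [degree_ex2]; omega)
    rw [MvPolynomial.coeff_sum, sum_eq_single_of_mem k (mem_range.2 hk), MvPolynomial.coeff_sum,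
      sum_eq_single a] at h3
    · simpa using h3
    · intro b _ hb
      rw [MvPolynomial.coeff_monomial, if_neg fun e => hb (ex2_inj e).1]
    · intro hb
      rw [notMem_support_iff.1 hb, map_zero, MvPolynomial.coeff_zero]
    · intro l _ hl
      rw [MvPolynomial.coeff_sum]
      exact sum_eq_zero fun b _ => by
        rw [MvPolynomial.coeff_monomial, if_neg fun e => hl (ex2_inj e).2]
  have h3 := map_dvd (taylorAlgHom (-c)) h2
  simpa [taylor_taylor, sub_eq_add_neg] using h3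

lemma lmove [Module.Finite ℂ R] {m n : ℕ} {o o' w w' : ℕ → ℕ}
    (h1 : ∀ k ≤ m, o k = 0 ∧ o' k = 0 ∧ w k ≤ w' k + (m - k))
    (h2 : ∀ k < n, m < k → o' k = o k + (k - m) ∧ w k ≤ w' k) (h : GoodIn R (rows n o' w')) :
    GoodIn (R × Jet m) (rows n o w) := by
  obtain ⟨x, z, h⟩ := good_rows.1 h
  have h3 := ri_bad x (fun k => (C x - X) ^ (k - m) * C (x ^ o k * z ^ k)) (n := n) (w := w') 0
    fun φ hφ h0 => h φ hφ (h0 ▸ sum_congr rfl fun k hn => by
      rcases le_or_gt k m with hk | hk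
      · simp [(h1 k hk).1, (h1 k hk).2.1, Nat.sub_eq_zero_of_le hk]
      · simp [(h2 k (mem_range.1 hn) hk).1]
        ring_nf)
  obtain ⟨c, hc⟩ := (h3.union (fin_zd x)).exists_notMem
  simp only [Set.mem_union, Set.mem_ofPred_eq, not_or, not_not, eval_mul, eval_pow, eval_sub,
    eval_C, eval_X] at hc
  refine good_rows.2 ⟨(x, algebraMap ℂ _ c + jmk m (MvPolynomial.X 0)),
    ((x - algebraMap ℂ R c) * z, jmk m (MvPolynomial.X 1)), fun φ hφ h0 => ?_⟩
  have h4 := congrArg (AlgHom.fst ℂ R (Jet m)) h0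
  have h5 := congrArg (AlgHom.snd ℂ R (Jet m)) h0
  simp only [map_sum, map_mul, map_pow, ← aeval_algHom_apply, AlgHom.fst_apply, AlgHom.snd_apply,
    map_zero] at h4 h5
  have h6 : ∀ k, ∃ ψ ∈ degreeLT ℂ (w' k), k < n → φ k = (X - C c) ^ (m - k) * ψ := fun k => by
    by_cases hk : k < n
    swap
    · exact ⟨0, Submodule.zero_mem _, fun h => absurd h hk⟩
    rcases le_or_gt k m with hm | hm
    · obtain ⟨ψ, hψ⟩ := jet_dvd (m := m) c (fun k => X ^ o k * φ k) (by
        rw [← h5]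
        exact sum_congr rfl fun k _ => by rw [map_mul, map_pow, aeval_X]; ring) hk
      rw [(h1 k hm).1, pow_zero, one_mul] at hψ
      refine ⟨ψ, mem_degreeLT.2 ?_, fun _ => hψ⟩
      by_cases h7 : ψ = 0
      · rw [h7]
        exact WithBot.bot_lt_coe _
      have h8 := mem_degreeLT.1 (hφ k)
      rw [hψ, degree_mul, degree_pow, degree_X_sub_C, degree_eq_natDegree h7, nsmul_one] at h8
      rw [degree_eq_natDegree h7]
      have := (h1 k hm).2.2
      norm_cast at h8 ⊢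
      omega
    · exact ⟨φ k, degreeLT_mono (h2 k hk hm).2 (hφ k), fun _ => by
        rw [Nat.sub_eq_zero_of_le hm.le, pow_zero, one_mul]⟩
  choose ψ hψ hφψ using h6
  have h7 := hc.1 ψ hψ ((hc.2.pow m).mul_right_eq_zero.1 (by
    rw [← h4, mul_sum]
    refine sum_congr rfl fun k hk => ?_
    rw [hφψ k (mem_range.1 hk), map_mul, map_pow, map_sub, aeval_X, aeval_C, mul_pow]
    have e : (x - algebraMap ℂ R c) ^ m * (x - algebraMap ℂ R c) ^ (k - m) =
        (x - algebraMap ℂ R c) ^ k * (x - algebraMap ℂ R c) ^ (m - k) := by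
      rw [← pow_add, ← pow_add]
      congr 1
      omega
    linear_combination (x ^ o k * z ^ k * aeval x (ψ k)) * e))
  intro k hk
  rw [hφψ k hk, h7 k hk, mul_zero]

lemma rev [Module.Finite ℂ R] {m : ℕ} {w w' : ℕ → ℕ} (h1 : ∀ k ≤ m, w k ≤ w' (m - k))
    (h : GoodIn R (rows (m + 1) 0 w')) : GoodIn R (rows (m + 1) 0 w) := by
  obtain ⟨x, z, h⟩ := good_rows.1 h
  have h3 := ri_bad x (fun k => (C z - X) ^ k) (n := m + 1) (w := w') 0 (by simpa using h)
  obtain ⟨c, hc⟩ := (h3.union (fin_zd z)).exists_notMem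
  simp only [Set.mem_union, Set.mem_ofPred_eq, not_or, not_not, eval_pow, eval_sub,
    eval_C, eval_X] at hc
  obtain ⟨y, hy⟩ := hc.2.exists_right_inv
  refine good_rows.2 ⟨x, y, fun φ hφ h0 k hk => ?_⟩
  have h4 := hc.1 (fun k => if k ≤ m then φ (m - k) else 0) (fun k => by
    split_ifs with hk
    · exact degreeLT_mono ((h1 _ (Nat.sub_le _ _)).trans (by rw [Nat.sub_sub_self hk])) (hφ _)
    · exact Submodule.zero_mem _) (by
    rw [← mul_zero ((z - algebraMap ℂ R c) ^ m), ← h0, mul_sum, ← sum_range_reflect]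
    refine sum_congr rfl fun k hk => ?_
    have hk := Nat.lt_succ_iff.1 (mem_range.1 hk)
    obtain ⟨l, rfl⟩ := Nat.exists_eq_add_of_le hk
    have e := congrArg (· ^ k) hy
    simp only [mul_pow, one_pow] at e
    simp only [Nat.add_sub_cancel, Nat.add_sub_cancel_left, le_add_iff_nonneg_left, zero_le,
      if_true, Pi.zero_apply, pow_zero, one_mul, pow_add]
    linear_combination (-(z - algebraMap ℂ R c) ^ l * aeval x (φ k)) * e) (m - k) (by omega)
  rwa [if_pos (Nat.sub_le _ _), Nat.sub_sub_self (by omega)] at h4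

instance (m : ℕ) : Module.Finite ℂ (Jet m) := (finrank_jet_le m).1

/-- Independence at `s` points of multiplicity `m`. -/
abbrev Gd (m s : ℕ) (D : Finset Cell) : Prop := GoodIn (Fin s → Jet m) D

lemma gd_succ {m s : ℕ} {D : Finset Cell} (h : GoodIn ((Fin s → Jet m) × Jet m) D) :
    Gd m (s + 1) D := by
  refine good_map (AlgHom.pi (A := fun _ : Fin (s + 1) => Jet m) fun i =>
    Fin.cases (motive := fun _ => ((Fin s → Jet m) × Jet m) →ₐ[ℂ] Jet m) (AlgHom.snd ℂ _ _)
    (fun j => (Pi.evalAlgHom ℂ (fun _ => Jet m) j).comp (AlgHom.fst ℂ _ _)) i) (fun a b e => ?_) h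
  exact Prod.ext (funext fun j => congrFun e j.succ) (congrFun e 0)

lemma lmoves {m n s : ℕ} {o' w' : ℕ → ℕ} (h : Gd m s (rows n o' w')) (t : ℕ) {o w : ℕ → ℕ}
    (h1 : ∀ k ≤ m, o k = 0 ∧ o' k = 0 ∧ w k ≤ w' k + t * (m - k))
    (h2 : ∀ k < n, m < k → o' k = o k + t * (k - m) ∧ w k ≤ w' k) :
    Gd m (s + t) (rows n o w) := by
  induction t generalizing o w with
  | zero =>
    refine dom_of_subset ?_ _ h
    rintro ⟨a, b, k⟩ hp
    rw [mem_rows] at hp ⊢
    have := h1 k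
    have := h2 k
    omega
  | succ t ih =>
    refine gd_succ (lmove (o' := fun k => o k + (k - m)) (w' := fun k => w k - (m - k))
      (fun k hk => ?_) (fun k _ hk => ⟨rfl, by omega⟩) (ih (fun k hk => ?_) fun k hn hk => ?_))
    · have := h1 k hk
      omega
    · have := h1 k hk
      rw [add_mul] at this
      omega
    · have := h2 k hn hk
      rw [add_mul] at this
      omega

lemma hmoves {m s : ℕ} {w' : ℕ → ℕ} (h : Gd m s (rows (m + 1) 0 w')) (t : ℕ) {w : ℕ → ℕ}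
    (h1 : ∀ k ≤ m, w k ≤ w' k + t * k) : Gd m (s + t) (rows (m + 1) 0 w) := by
  exact rev (w' := fun k => w (m - k)) (fun k hk => by rw [Nat.sub_sub_self hk]) (lmoves
    (rev (w := fun k => w' (m - k)) (fun k _ => le_rfl) h) t
    (fun k _ => ⟨rfl, rfl, h1 _ (Nat.sub_le _ _)⟩) fun k _ _ => by omega)

lemma good_tri {m : ℕ} {E : Finset Cell} (h : ∀ a b k, (a, b, k) ∈ E → b = 0 ∧ a + k < m) :
    GoodIn (Jet m) E := by
  refine MComp.dom_sw E _ ⟨_, _, _, ind_of_flat fun a b j hp => ?_⟩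
  obtain ⟨rfl, h1⟩ := h _ _ _ (mem_sw.1 hp)
  simpa using h1

lemma orbit {N : ℕ} (hN : 0 < N) (c : ℕ) {D : Finset Cell}
    (h : ∀ ρ < N, GoodIn R (D.filter fun p => (p.1 + p.2.2 * c) % N = ρ)) :
    GoodIn (Fin N → R) D := by
  classical
  obtain ⟨x, y, z, h⟩ := common (range N) _ fun ρ hρ => h ρ (mem_range.1 hρ)
  have hζ := Complex.isPrimitiveRoot_exp N hN.ne'
  generalize Complex.exp (2 * Real.pi * Complex.I / N) = ζ at hζ
  refine ⟨fun t => ζ ^ (t : ℕ) • x, fun _ => y, fun t => (ζ ^ (t : ℕ)) ^ c • z, ?_⟩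
  refine linearIndepOn_finset_iff.2 fun g hg p hp => ?_
  have h1 : ∀ ρ : Fin N, ∑ q ∈ D with (q.1 + q.2.2 * c) % N = ρ, g q • mon x y z q = 0 := by
    intro ρ
    rw [← Module.forall_dual_apply_eq_zero_iff ℂ]
    intro l
    refine congrFun (Matrix.eq_zero_of_forall_pow_sum_mul_pow_eq_zero
      (f := fun ρ : Fin N => ζ ^ (ρ : ℕ))
      (v := fun ρ => l (∑ q ∈ D with (q.1 + q.2.2 * c) % N = ρ, g q • mon x y z q))
      (fun a b e => Fin.ext (hζ.pow_inj a.2 b.2 e)) fun t => ?_) ρ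
    have h2 := congrArg l (congrFun hg t)
    rw [Pi.zero_apply, map_zero, Finset.sum_apply, map_sum, ← sum_fiberwise_of_maps_to
      (g := fun q : Cell => (⟨(q.1 + q.2.2 * c) % N, Nat.mod_lt _ hN⟩ : Fin N))
      (t := univ) fun _ _ => mem_univ _] at h2
    rw [← h2]
    refine sum_congr rfl fun ρ _ => ?_
    rw [map_sum, sum_mul]
    refine sum_congr (by simp only [Fin.ext_iff]) fun q hq => ?_
    have h3 : (q.1 + q.2.2 * c) % N = ρ := congrArg Fin.val (mem_filter.1 hq).2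
    have h4 : ζ ^ (ρ : ℕ) = ζ ^ (q.1 + q.2.2 * c) := by
      rw [← h3, ← Nat.mod_add_div (q.1 + q.2.2 * c) N, pow_add, pow_mul, hζ.pow_eq_one, one_pow,
        mul_one, Nat.mod_add_div]
    simp only [h4, mon, Pi.smul_apply, Pi.mul_apply, Pi.pow_apply, _root_.smul_pow, smul_mul_assoc,
      mul_smul_comm, map_smul, smul_eq_mul]
    ring
  exact linearIndepOn_finset_iff.1 (h _ (mem_range.2 (Nat.mod_lt _ hN))) g
    (h1 ⟨_, Nat.mod_lt _ hN⟩) p (mem_filter.2 ⟨hp, rfl⟩)

end Pool.Agent.Lib.MP_a430e8_ag.Q
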