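import Pool.Agent.Lib.MP_a430e8_ag.QCount

/-! The choice of the positions of the points. -/

namespace Pool.Agent.Lib.MP_a430e8_ag.Q
open Finset

lemma W_lt {m N ε s t r k : ℕ} (h : N + s = r + t) (hk : k < m) :
    W m N ε s t k + N = r * (m - k) + m * t + if k + 1 = m then ε else 0 := by
  obtain ⟨c, rfl⟩ := Nat.exists_eq_add_of_lt hk
  rw [W, V, if_pos hk.le, if_neg hk.ne, show k + c + 1 - k = c + 1 by omega,
    show k + c + 1 - 1 - k = c by omega]
  have := congrArg (· * (c + 1)) h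
  split_ifs with h1
  · obtain rfl : c = 0 := by omega
    linarith
  · linarith

lemma W_eq {m N ε s t : ℕ} : W m N ε s t m = m * N - ε + m * t := by
  simp [W, V, mul_comm]

lemma W_gt {m N ε s t k : ℕ} (hk : m < k) : W m N ε s t k = 0 := if_neg hk.not_ge

/-- The rows `w` can be compared with the rows absorbed by some configuration. -/
def Cmp (m r t : ℕ) (w : ℕ → ℕ) : Prop := ∃ N ε s, m * ε ≤ N ∧ N + s = r + t ∧
  ((∀ k, w k ≤ W m N ε s t k) ∨ ∀ k, W m N ε s t k ≤ w k)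

lemma cmp_of {m r t δ N ε : ℕ} {w E : ℕ → ℕ} (h1 : m * ε ≤ N) (h2 : N ≤ r)
    (hw : ∀ k < m, w k + δ = r * (m - k) + m * t + E (m - k)) (h0 : ∀ k, m < k → w k = 0)
    (h : w m ≤ m * N - ε + m * t ∧ N + E 1 ≤ δ + ε ∧ (∀ s, 2 ≤ s → s ≤ m → N + E s ≤ δ) ∨
      m * N - ε + m * t ≤ w m ∧ δ + ε ≤ N + E 1 ∧ (2 ≤ m → δ ≤ N)) : Cmp m r t w := by
  have h3 : N + (r + t - N) = r + t := by omega
  refine ⟨N, ε, _, h1, h3, h.imp (fun h k => ?_) fun h k => ?_⟩ <;>
    rcases lt_trichotomy k m with hk | rfl | hk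
  · have h4 := W_lt (ε := ε) h3 hk
    have h5 := hw k hk
    have h6 := h.2.2 (m - k)
    split_ifs at h4 with h7
    · rw [show m - k = 1 by omega] at h4 h5
      omega
    · omega
  · rw [W_eq]
    exact h.1
  · rw [h0 k hk]
    exact Nat.zero_le _
  · have h4 := W_lt (ε := ε) h3 hk
    have h5 := hw k hk
    split_ifs at h4 with h7
    · rw [show m - k = 1 by omega] at h4 h5
      omega
    · omega
  · rw [W_eq]
    exact h.1
  · rw [W_gt hk]
    exact Nat.zero_le _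

lemma pick {m r t δ : ℕ} {w E : ℕ → ℕ} (hδ : δ ≤ r)
    (hw : ∀ k < m, w k + δ = r * (m - k) + m * t + E (m - k)) (h0 : ∀ k, m < k → w k = 0)
    (hE : ∀ s, 1 ≤ s → E s ≤ E 1) (h1 : m = 1 → E 1 ≤ δ)
    (hx : 2 ≤ m → 0 < E 1 → (δ < E 1 ∨ m * (δ - E 1) < w m) →
      m * E 1 ≤ δ ∧ ∀ s, 2 ≤ s → E s = 0) : Cmp m r t w := by
  by_cases a : m * δ + m * t ≤ w m
  · exact cmp_of (N := δ) (ε := 0) (by simp) hδ hw h0 (.inr (by omega))
  by_cases b : E 1 ≤ δ ∧ w m ≤ m * (δ - E 1) + m * t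
  · refine cmp_of (N := δ - E 1) (ε := 0) (by simp) (by omega) hw h0 (.inl ⟨b.2, by omega,
      fun s h _ => ?_⟩)
    have := hE s (by omega)
    omega
  rcases lt_trichotomy m 1 with h | rfl | h
  · obtain rfl : m = 0 := by omega
    simp at a
  · exact cmp_of (N := δ - E 1) (ε := 0) (by simp) (by omega) hw h0 (.inr (by omega))
  obtain ⟨h2, h3⟩ := hx h (Nat.pos_of_ne_zero fun e => by rw [e, Nat.sub_zero] at b; omega)
    (by omega)
  refine cmp_of (N := δ) (ε := E 1) h2 hδ hw h0 ((le_total _ _).imp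
    (fun h => ⟨h, le_rfl, fun s h _ => by rw [h3 s h]; rfl⟩) fun h => ⟨h, le_rfl, fun _ => le_rfl⟩)

lemma ineq {i j b u ε δ : ℕ} (hb : 1 ≤ b + i) (hu : 6 * u ≤ (j + 1) * (j + 2) * (j + 3))
    (hε : 6 * ε ≤ (i + 1) * (i + 2) * (i + 3))
    (hδ : 2 * δ = (i + j + b) * (i + j + 4) * (b + 2 * i)) : ε < δ ∧ u * ε + δ * ε ≤ δ * δ := by
  rcases i with _ | x
  · have h1 : (j + 1) * (j + 4) * 1 ≤ 2 * δ := by
      rw [hδ]
      exact Nat.mul_le_mul (Nat.mul_le_mul (by omega) (by omega)) (by omega)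
    have h2 : j + 2 ≤ δ := by nlinarith
    have h3 : ε ≤ 1 := by omega
    refine ⟨by omega, ?_⟩
    obtain ⟨y, rfl⟩ : ∃ y, δ = y + 1 := ⟨δ - 1, by omega⟩
    have h4 : (j + 1) * (j + 4) * (j + 1) ≤ 2 * (y + 1) * y :=
      Nat.mul_le_mul (by omega) (by omega)
    have h5 : u ≤ (y + 1) * y := by nlinarith
    nlinarith
  · obtain ⟨D, hD⟩ : ∃ D, D = (x + 1 + j) * (x + 1 + j + 4) * (x + 1) := ⟨_, rfl⟩
    have h1 : D ≤ δ := by
      have : (x + 1 + j) * (x + 1 + j + 4) * (2 * (x + 1)) ≤ 2 * δ := by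
        rw [hδ]
        exact Nat.mul_le_mul (Nat.mul_le_mul (by omega) le_rfl) (by omega)
      nlinarith
    have h2 : (x + 1) * (x + 1 + 4) * (x + 1) ≤ D := by
      rw [hD]
      exact Nat.mul_le_mul (Nat.mul_le_mul (by omega) (by omega)) le_rfl
    have h3 : 5 * ε ≤ 4 * D := by nlinarith [Nat.zero_le (x ^ 2), Nat.zero_le (x ^ 3)]
    have h4 : ε ≤ 4 * (x + 1) ^ 3 := by nlinarith [Nat.zero_le (x ^ 2), Nat.zero_le (x ^ 3)]
    have h5 : 20 * (x + 1) * ((j + 1) * (j + 2) * (j + 3)) ≤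
        6 * ((x + 1 + j) * (x + 1 + j + 4)) ^ 2 := Nat.le.intro (k := 30 + 140 * j + 156 * j ^ 2 +
      52 * j ^ 3 + 6 * j ^ 4 + 240 * x + 332 * x * j + 96 * x * j ^ 2 + 4 * x * j ^ 3 + 276 * x ^ 2 +
      216 * x ^ 2 * j + 36 * x ^ 2 * j ^ 2 + 72 * x ^ 3 + 24 * x ^ 3 * j + 6 * x ^ 4) (by ring)
    have h6 : 30 * (u * ε) ≤ 6 * (D * D) :=
      calc 30 * (u * ε) = 5 * (6 * u) * ε := by ring
        _ ≤ 5 * ((j + 1) * (j + 2) * (j + 3)) * (4 * (x + 1) ^ 3) := by gcongr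
        _ = (x + 1) ^ 2 * (20 * (x + 1) * ((j + 1) * (j + 2) * (j + 3))) := by ring
        _ ≤ (x + 1) ^ 2 * (6 * ((x + 1 + j) * (x + 1 + j + 4)) ^ 2) := by gcongr
        _ = 6 * (D * D) := by rw [hD]; ring
    have h7 : 0 < D := by rw [hD]; positivity
    have h8 : D * D ≤ δ * δ := Nat.mul_le_mul h1 h1
    have h9 : δ * (5 * ε) ≤ δ * (4 * δ) := Nat.mul_le_mul_left _ (by omega)
    exact ⟨by omega, by nlinarith⟩

variable {a d e m t : ℕ}

lemma cmp_big (h : (a * d * a + t) * m ≤ Hh a d (e + 1)) :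
    Cmp m (a * d * a) t fun k => Hh a d (e + 1 - a * k) := by
  refine ⟨0, 0, _, by simp, zero_add _, .inr fun k => ?_⟩
  rcases le_or_gt k m with hk | hk
  · obtain ⟨c, rfl⟩ := Nat.exists_eq_add_of_le hk
    have := Hh_le (a := a) (d := d) (n := e + 1) (n' := e + 1 - a * k) (k := a * k) (by omega)
    simp only [W, V, if_pos hk, mul_zero, Nat.sub_zero, ite_self, Nat.add_sub_cancel_left]
    linarith
  · rw [W_gt hk]
    exact Nat.zero_le _

lemma cmp_small (h : e < a * m) : Cmp m (a * d * a) t fun k => Hh a d (e + 1 - a * k) := by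
  refine ⟨0, 0, _, by simp, zero_add _, .inl fun k => ?_⟩
  rcases le_or_gt k m with hk | hk
  · obtain ⟨c, rfl⟩ := Nat.exists_eq_add_of_le hk
    have := Hh_le (a := a) (d := d) (n := e + 1 - a * k) (n' := 0) (k := a * c)
      (by rw [mul_add] at h; omega)
    rw [Hh_zero] at this
    simp only [W, V, if_pos hk, mul_zero, Nat.sub_zero, ite_self, Nat.add_sub_cancel_left]
    nlinarith [Nat.zero_le (t * c), Nat.zero_le (t * k)]
  · have : a * m ≤ a * k := Nat.mul_le_mul_left _ hk.le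
    simp only [show e + 1 - a * k = 0 by omega, Hh_zero]
    exact Nat.zero_le _

lemma row_id {j δ k : ℕ} (hδ : δ + a * d * (j + 1) = Sx a d + m * t) (hk : k ≤ m) :
    Hh a d (a * m + j + 1 - a * k) + δ =
      a * d * a * (m - k) + m * t + Hh a d (a + d - 2 - (j + 1 + a * (m - k))) := by
  obtain ⟨c, rfl⟩ := Nat.exists_eq_add_of_le hk
  have := Hh_id (a := a) (d := d) (j + 1 + a * c)
  rw [Nat.add_sub_cancel_left, show a * (k + c) + j + 1 - a * k = j + 1 + a * c by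
    rw [mul_add]; omega]
  linarith

lemma cmp_one (ha : 0 < a) (hd : 4 ≤ d) (h1 : d ≤ a + 4) (h2 : 2 * m * t ≤ a * d * (a + 4 - d)) :
    Cmp m (a * d * a) t fun k => Hh a d (e + 1 - a * k) := by
  rcases lt_or_ge e (a * m) with h | h
  · exact cmp_small h
  rcases le_or_gt ((a * d * a + t) * m) (Hh a d (e + 1)) with h3 | h3
  · exact cmp_big h3
  obtain ⟨j, rfl⟩ := Nat.exists_eq_add_of_le h
  obtain ⟨b, hb⟩ := Nat.exists_eq_add_of_le h1
  have h4 := Hh_id (a := a) (d := d) (a * m + j + 1)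
  have h5 := two_Sx (a := a) (d := d)
  obtain ⟨δ, hδ⟩ : ∃ δ, δ + a * d * (j + 1) = Sx a d + m * t := ⟨_, Nat.sub_add_cancel (by
    linarith [Nat.zero_le (Hh a d (a + d - 2 - (a * m + j + 1)))])⟩
  have hP : 0 < a * d := by positivity
  obtain ⟨K, hK⟩ : ∃ K, a + d = K + 2 := ⟨a + d - 2, by omega⟩
  rw [show a + 4 - d = b by omega] at h2
  rw [show a + d - 2 = K by omega] at h4 h5
  have h6 : a * d * (K + b) = a * d * (2 * a + 2) := by rw [show K + b = 2 * a + 2 by omega]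
  have h7 : Hh a d (K - (a * m + j + 1)) < δ := by linarith
  have h8 : j < a := by
    have : a * d * (j + 1) < a * d * (a + 1) := by linarith [Nat.zero_le (Hh a d (K - (a * m + j + 1)))]
    have := Nat.lt_of_mul_lt_mul_left this
    omega
  refine pick (δ := δ) (E := fun s => Hh a d (a + d - 2 - (j + 1 + a * s)))
    (by linarith [Nat.zero_le (a * d * j)]) (fun k hk => row_id hδ hk.le) (fun k hk => ?_)
    (fun s hs => Hh_mono ?_) ?_ fun hm h9 h10 => ?_
  · have : a * (m + 1) ≤ a * k := Nat.mul_le_mul_left _ hk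
    rw [show a * m + j + 1 - a * k = 0 by rw [mul_add] at this; omega, Hh_zero]
  · have : a * 1 ≤ a * s := Nat.mul_le_mul_left _ hs
    omega
  · rintro rfl
    exact (Hh_mono (by omega)).trans h7.le
  simp only [mul_one] at h9 h10 ⊢
  obtain ⟨i, hi⟩ : ∃ i, a + d - 2 - (j + 1 + a) = i + 1 :=
    Nat.exists_eq_succ_of_ne_zero fun e => by rw [e, Hh_zero] at h9; omega
  rw [show a * m + j + 1 - a * m = j + 1 by omega] at h10
  rw [hi] at h9 h10 ⊢
  have h11 := Hh_cube (a := a) (d := d) (j + 1)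
  have h12 := Hh_cube (a := a) (d := d) (i + 1)
  generalize Hh a d (j + 1) = u at h10 h11
  generalize Hh a d (i + 1) = ε at h9 h10 h12 ⊢
  have h13 : a * d * K = a * d * (b + 2 * i + 2 * (j + 1)) := by
    rw [show K = b + 2 * i + 2 * (j + 1) by omega]
  obtain ⟨δ₀, rfl⟩ : ∃ δ₀, δ = δ₀ + m * t := ⟨_, (Nat.sub_add_cancel (by
    linarith [Nat.zero_le (a * d * b), Nat.zero_le (a * d * i)])).symm⟩
  obtain ⟨h14, h15⟩ := ineq (i := i) (j := j) (b := b) (δ := δ₀) (by omega) h11 h12 (by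
    rw [show i + j + b = a by omega, show i + j + 4 = d by omega]
    linarith)
  obtain ⟨c, rfl⟩ := Nat.exists_eq_add_of_lt h14
  have h16 : m * (c + 1) < u := lt_of_le_of_lt (Nat.mul_le_mul_left _ (by omega))
    (h10.resolve_left (by omega))
  refine ⟨?_, fun s hs => ?_⟩
  · by_contra h17
    have h18 : (ε + c + 1) * (c + 1) ≤ m * ε * (c + 1) := Nat.mul_le_mul_right _ (by omega)
    have h19 : m * (c + 1) * ε < u * ε := Nat.mul_lt_mul_of_pos_right h16 h9
    linarith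
  · have h17 : a * 2 ≤ a * s := Nat.mul_le_mul_left _ hs
    by_contra h18
    have h19 : a + d - 2 - (j + 1 + a * s) ≠ 0 := fun e => h18 (by rw [e, Hh_zero])
    obtain rfl : j = 0 := by omega
    have : 2 * 1 ≤ m * (c + 1) := Nat.mul_le_mul hm (by omega)
    omega

variable {R : Type} [CommRing R] [Algebra ℂ R]

lemma rk_full {D : Finset Cell} (h : GoodIn R (xpush (push D a 0))) : Rk R D D.card :=
  rk_push (rk_xpush ⟨_, subset_rfl, by rw [card_xpush, card_push], h⟩)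

lemma rk_cmp (ha : 0 < a) (hd : 0 < d) {r : ℕ} (h : Cmp m r t fun k => Hh a d (e + 1 - a * k)) :
    Rk (Fin (r + 2 * t) → Jet m) (D0 d e) (D0 d e).card ∨
      Rk (Fin (r + 2 * t) → Jet m) (D0 d e) ((r + 2 * t) * (m + 1).choose 2) := by
  obtain ⟨N, ε, s, h1, h2, h⟩ := h
  rw [show r + 2 * t = N + s + t by omega]
  refine h.imp (fun h => rk_full (a := a) (dom_of_subset ?_ _ (gd_W h1 s t (m + 1)))) fun h =>
    rk_push (g := a) (c := 0) (rk_xpush ⟨_, ?_, ?_, gd_W h1 s t (m + 1)⟩)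
  · rintro ⟨i, b, k⟩ hp
    obtain ⟨rfl, h3⟩ := (mem_X ha hd).1 hp
    have h4 := h3.trans_le (h k)
    refine mem_rows.2 ⟨rfl, ?_, Nat.zero_le _, by simpa using h4⟩
    by_contra h5
    rw [W_gt (by omega)] at h4
    omega
  · rintro ⟨i, b, k⟩ hp
    obtain ⟨rfl, -, -, h3⟩ := mem_rows.1 hp
    exact (mem_X ha hd).2 ⟨rfl, lt_of_lt_of_le (by simpa using h3) (h k)⟩
  · rw [card_rows, sum_W h1]

lemma rk_two (ha : 0 < a) (hd : 4 ≤ d) (hm : a * d * (a + d) ≤ m) :
    Rk (Fin (a * d * a + 2 * 0) → Jet m) (D0 d e) (D0 d e).card ∨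
      Rk (Fin (a * d * a + 2 * 0) → Jet m) (D0 d e) ((a * d * a + 2 * 0) * (m + 1).choose 2) := by
  rcases lt_or_ge e (a * m) with h | h
  · exact rk_cmp ha (by omega) (cmp_small h)
  rcases le_or_gt ((a * d * a + 0) * m) (Hh a d (e + 1)) with h3 | h3
  · exact rk_cmp ha (by omega) (cmp_big h3)
  obtain ⟨j, rfl⟩ := Nat.exists_eq_add_of_le h
  have h4 := Hh_id (a := a) (d := d) (a * m + j + 1)
  have h5 := two_Sx (a := a) (d := d)
  obtain ⟨δ, hδ⟩ : ∃ δ, δ + a * d * (j + 1) = Sx a d + m * 0 := ⟨_, Nat.sub_add_cancel (by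
    linarith [Nat.zero_le (Hh a d (a + d - 2 - (a * m + j + 1)))])⟩
  have hP : 0 < a * d := by positivity
  obtain ⟨K, hK⟩ : ∃ K, a + d = K + 3 := ⟨a + d - 3, by omega⟩
  have hK' : a + d - 2 = K + 1 := by omega
  have h7 : 0 < δ := by linarith [Nat.zero_le (Hh a d (a + d - 2 - (a * m + j + 1)))]
  rw [hK'] at h5
  obtain ⟨c, hc⟩ : ∃ c, K + 1 = 2 * (j + 1) + c + 1 := Nat.exists_eq_add_of_lt
    (Nat.lt_of_mul_lt_mul_left (a := a * d) (by linarith))
  have h8 : 2 * δ = a * d * (c + 1) := by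
    rw [hc] at h5
    linarith
  obtain ⟨r, hr⟩ : ∃ r, a * d * a = r + 1 := Nat.exists_eq_succ_of_ne_zero (by positivity)
  refine .inl (rk_full (a := a) ?_)
  rw [show a * d * a + 2 * 0 = 1 + r by omega]
  refine dom_of_subset (E := rows (a * m + j + 1) 0 fun k => Hh a d (a * m + j + 1 - a * k)) ?_ _
    (lmoves (o' := fun k => r * (k - m))
      (w' := fun k => Hh a d (a * m + j + 1 - a * k) - r * (m - k))
      (last (δ := δ) (B := K) (fun i b k hp => (mem_rows.1 hp).1) fun i k l hk hl h9 h10 => ?_) r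
      (fun k hk => ⟨rfl, by simp [hk], by omega⟩) fun k _ hk => ⟨by simp, by simp [hk.le]⟩)
  · rintro ⟨i, b, k⟩ hp
    obtain ⟨rfl, h3⟩ := (mem_X ha (by omega)).1 hp
    refine mem_rows.2 ⟨rfl, ?_, Nat.zero_le _, by simpa using h3⟩
    have : k ≤ a * k := Nat.le_mul_of_pos_left _ ha
    by_contra h5
    rw [show a * m + j + 1 - a * k = 0 by omega, Hh_zero] at h3
    omega
  have key : ∀ k, (i, 0, k) ∈ rows (a * m + j + 1) (fun k => r * (k - m))
      (fun k => Hh a d (a * m + j + 1 - a * k) - r * (m - k)) → m ≤ k + i + δ →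
      a * k ≤ a * m + j ∧ a * m + j < K + a * k ∧ i < a * d * K ∧ r * (k - m) ≤ i ∧
        (k ≤ m → i + δ < m - k + a * d * (K - (j + a * (m - k)))) := fun k hk h9 => by
    obtain ⟨-, -, h1, h2⟩ := mem_rows.1 hk
    have h11 : a * m + j + 1 - a * k ≠ 0 := fun e => by
      rw [e, Hh_zero] at h2
      omega
    have h12 := Hh_le (a := a) (d := d) (n := a * m + j + 1 - a * k) (n' := 0) (zero_add _).ge
    rw [Hh_zero] at h12
    rcases le_or_gt k m with hk | hk
    · have h13 := row_id hδ hk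
      obtain ⟨s, rfl⟩ := Nat.exists_eq_add_of_le hk
      rw [Nat.add_sub_cancel_left] at h2 h13 ⊢
      rw [hK', hr, show K + 1 - (j + 1 + a * s) = K - (j + a * s) by omega, add_mul] at h13
      have h14 := Hh_le (a := a) (d := d) (n := K - (j + a * s)) (n' := 0) (zero_add _).ge
      have h15 : K - (j + a * s) ≠ 0 := fun e => by
        rw [e, Hh_zero] at h13
        rw [show k - (k + s) = 0 by omega] at h2
        omega
      rw [Hh_zero] at h14
      have h16 : a * d * (a * (k + s) + j + 1 - a * k) ≤ a * d * K :=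
        Nat.mul_le_mul_left _ (by rw [mul_add]; omega)
      rw [show k - (k + s) = 0 by omega] at h2
      rw [mul_add] at h11 ⊢
      omega
    · obtain ⟨s, rfl⟩ := Nat.exists_eq_add_of_le hk.le
      rw [Nat.add_sub_cancel_left] at h1 h2 ⊢
      rw [mul_add] at h11 ⊢
      obtain ⟨n, hn⟩ : ∃ n, j + 1 = a * s + n := Nat.exists_eq_add_of_le (by omega)
      rw [show a * m + j + 1 - a * (m + s) = n by rw [mul_add]; omega] at h2 h12
      have h16 : a * d * (a * s + n) ≤ a * d * K := Nat.mul_le_mul_left _ (by omega)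
      have h17 := congrArg (· * s) hr
      refine ⟨by omega, by omega, ?_, h1, fun h => by omega⟩
      have : i < r * s + a * d * n := by omega
      linarith [Nat.zero_le s]
  obtain ⟨-, k2, k3, -, k5⟩ := key k hk h9
  obtain ⟨l1, -, -, l4, -⟩ := key l hl h10
  have h11 : ∀ n, k + n ≤ l → a * n < K := fun n hn => by
    have := Nat.mul_le_mul_left a hn
    rw [mul_add] at this
    omega
  refine ⟨?_, ?_, ?_⟩
  · by_contra h12
    have h13 := h11 δ (not_lt.1 h12)
    have h14 : a * (a * d * (c + 1)) + 8 ≤ 2 * a + 2 * d := by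
      rw [← h8]
      linarith
    obtain rfl : a = 1 := by
      by_contra h15
      obtain ⟨x, rfl⟩ : ∃ x, a = x + 2 := ⟨a - 2, by omega⟩
      obtain ⟨y, rfl⟩ := Nat.exists_eq_add_of_le hd
      nlinarith [Nat.zero_le (x * y), Nat.zero_le (x * x), Nat.zero_le (x * x * y),
        Nat.zero_le ((x + 2) * ((x + 2) * (4 + y) * c))]
    obtain rfl : c = 0 := by
      by_contra h15
      have : d * 2 ≤ d * (c + 1) := Nat.mul_le_mul_left _ (by omega)
      simp only [one_mul] at h14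
      omega
    simp only [one_mul, zero_add, mul_one] at *
    have h15 := k5 (by omega)
    have h16 : r * (K - (j + (m - k))) ≤ r * (l - m) := Nat.mul_le_mul_left _ (by omega)
    rw [hr, add_mul] at h15
    omega
  · by_contra h12
    have h13 := h11 K (not_lt.1 h12)
    have : K ≤ a * K := Nat.le_mul_of_pos_left _ ha
    omega
  · rw [hK] at hm
    have h12 : d ≤ a * d := Nat.le_mul_of_pos_left _ ha
    have h13 : a ≤ a * d := Nat.le_mul_of_pos_right _ (by omega)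
    rw [mul_add] at hm
    omega

end Pool.Agent.Lib.MP_a430e8_ag.Q
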