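import Pool.Agent.Lib.MP_a430e8_ag.NBase

/-! Rank of a diagram under compression, rows of monomials, polynomial families. -/

namespace Pool.Agent.Lib.MP_a430e8_ag.Q
open Finset Filter Topology Polynomial

variable {R : Type} [CommRing R] [Algebra ℂ R]

variable (R) in
/-- Some `n` monomials of `D` are independent at some triple. -/
def Rk (D : Finset Cell) (n : ℕ) : Prop := ∃ E ⊆ D, n ≤ E.card ∧ GoodIn R E

lemma rk_push {D : Finset Cell} {g c n : ℕ} (h : Rk R (push D g c) n) : Rk R D n := by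
  classical
  obtain ⟨E, hE, hn, x, y, ψ, h⟩ := h
  choose N e r hr using fun p : E => exists_family x y ψ D g c p (hE p.2)
  obtain ⟨L, hL⟩ := LinearMap.exists_leftInverse_of_injective
    (Fintype.linearCombination ℂ (fun p : E => mon x y ψ p))
    (LinearMap.ker_eq_bot.2 (linearIndependent_iff_injective_fintypeLinearCombination.1 h))
  let F : ℂ → E → R := fun t p =>
    mon x y ψ p + ∑ i ∈ range (N p), (t ^ (i + 1) * e p i) • r p i
  let G : ℂ → E → E → ℂ := fun t p =>
    L (mon x y ψ p) + ∑ i ∈ range (N p), (t ^ (i + 1) * e p i) • L (r p i)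
  have hG : ∀ t p, G t p = L (F t p) := by
    intro t p
    simp [G, F, map_sum]
  have hc : Continuous G := by
    refine continuous_pi fun p => ?_
    simp only [G]
    fun_prop
  have h0 : LinearIndependent ℂ (G 0) := by
    have : G 0 = fun p => Pi.single p 1 := by
      funext p
      have := LinearMap.congr_fun hL (Pi.single p 1)
      simp only [LinearMap.comp_apply, LinearMap.id_apply,
        Fintype.linearCombination_apply_single, one_smul] at this
      simp [G, this]
    rw [this]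
    exact Pi.linearIndependent_single_one _ ℂ
  have h1 : ∀ᶠ t in 𝓝[≠] (0 : ℂ), LinearIndependent ℂ (G t) ∧ t ≠ 0 :=
    ((hc.continuousAt.eventually h0.eventually).filter_mono nhdsWithin_le_nhds).and
      self_mem_nhdsWithin
  obtain ⟨t, ht, ht0⟩ := h1.exists
  have h2 : LinearIndependent ℂ (F t) := by
    refine LinearIndependent.of_comp L ?_
    have : (L ∘ F t) = G t := funext fun p => (hG t p).symm
    rw [this]
    exact ht
  obtain ⟨b, hb, -, h3, h4⟩ := exists_linearIndepOn_extension (K := ℂ)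
    (v := fun p => mon x y (ψ + t⁻¹ • (x ^ g * y ^ c)) p) (s := ∅) (t := (D : Set Cell))
    (linearIndepOn_empty _ _) (Set.empty_subset _)
  have hfin : b.Finite := D.finite_toSet.subset hb
  lift b to Finset Cell using hfin
  refine ⟨b, by exact_mod_cast hb, hn.trans ?_, _, _, _, h4⟩
  have h5 := linearIndependent_le_span_aux' _ h2
    (b.image fun p => mon x y (ψ + t⁻¹ • (x ^ g * y ^ c)) p : Finset _) (by
      rintro _ ⟨p, rfl⟩
      rw [coe_image]
      refine Submodule.span_le.2 ?_ (hr p t ht0)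
      rintro _ ⟨q, rfl⟩
      exact h3 ⟨q, q.2, rfl⟩)
  simp only [coe_sort_coe, Fintype.card_coe] at h5
  exact h5.trans card_image_le

lemma rk_s13 {D : Finset Cell} {n : ℕ} (h : Rk R (MComp.s13 D) n) : Rk R D n := by
  obtain ⟨E, hE, hn, h⟩ := h
  refine ⟨MComp.s13 E, ?_, by rwa [MComp.card_s13], MComp.dom_s13 _ R ?_⟩
  · rintro ⟨a, b, j⟩ hp
    exact MComp.mem_s13.1 (hE (MComp.mem_s13.1 hp))
  · refine dom_of_subset ?_ R h
    rintro ⟨a, b, j⟩ hp
    exact MComp.mem_s13.1 (MComp.mem_s13.1 hp)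

lemma rk_xpush {D : Finset Cell} {n : ℕ} (h : Rk R (xpush D) n) : Rk R D n :=
  rk_s13 (rk_push (rk_s13 h))

lemma good_map {R' : Type} [CommRing R'] [Algebra ℂ R'] (φ : R →ₐ[ℂ] R')
    (hφ : Function.Injective φ) {D : Finset Cell} (h : GoodIn R D) : GoodIn R' D := by
  obtain ⟨x, y, z, h⟩ := h
  refine ⟨φ x, φ y, φ z, ?_⟩
  simpa only [Function.comp_def, AlgHom.toLinearMap_apply, map_mon] using
    h.map' φ.toLinearMap (LinearMap.ker_eq_bot.2 hφ)

lemma fin_bad {ι : Type} [Fintype ι] (v : ι → R[X]) (t₀ : ℂ)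
    (h : LinearIndependent ℂ fun i => (v i).eval (algebraMap ℂ R t₀)) :
    {t | ¬ LinearIndependent ℂ fun i => (v i).eval (algebraMap ℂ R t)}.Finite := by
  classical
  obtain ⟨L, hL⟩ := LinearMap.exists_leftInverse_of_injective
    (Fintype.linearCombination ℂ fun i => (v i).eval (algebraMap ℂ R t₀))
    (LinearMap.ker_eq_bot.2 (linearIndependent_iff_injective_fintypeLinearCombination.1 h))
  let u : ι → ι → ℂ[X] := fun i k => ∑ n ∈ (v i).support, monomial n (L ((v i).coeff n) k)
  have hu : ∀ t : ℂ, (fun i k => aeval t (u i k)) =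
      L ∘ fun i => (v i).eval (algebraMap ℂ R t) := by
    intro t
    funext i k
    simp only [u, map_sum, aeval_monomial, Function.comp, eval_eq_sum, Polynomial.sum,
      Finset.sum_apply]
    refine sum_congr rfl fun n _ => ?_
    rw [← map_pow, mul_comm ((v i).coeff n), ← Algebra.smul_def (t ^ n), map_smul]
    simp [mul_comm]
  obtain ⟨P, h1, h2⟩ := open_indep u (aeval t₀) (by
    rw [hu]
    have : (L ∘ fun i => (v i).eval (algebraMap ℂ R t₀)) = fun i => Pi.single i 1 := by
      funext i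
      simpa using LinearMap.congr_fun hL (Pi.single i 1)
    rw [this]
    exact Pi.linearIndependent_single_one _ ℂ)
  refine (P.rootSet_finite ℂ).subset fun t ht => ?_
  refine mem_rootSet.2 ⟨fun h0 => h1 (by rw [h0, map_zero]), ?_⟩
  by_contra h3
  have := h2 (aeval t) h3
  rw [hu] at this
  exact ht (LinearIndependent.of_comp L this)

lemma common {ι : Type} (s : Finset ι) (D : ι → Finset Cell) (h : ∀ i ∈ s, GoodIn R (D i)) :
    ∃ x y z : R, ∀ i ∈ s, LinearIndependent ℂ fun p : D i => mon x y z p := by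
  classical
  induction s using Finset.induction_on with
  | empty => exact ⟨0, 0, 0, by simp⟩
  | insert j s hj ih =>
    obtain ⟨x, y, z, h1⟩ := ih fun i hi => h i (mem_insert_of_mem hi)
    obtain ⟨x', y', z', h2⟩ := h j (mem_insert_self _ _)
    let v : Cell → R[X] := mon (C x + X * C (x' - x)) (C y + X * C (y' - y)) (C z + X * C (z' - z))
    have hv : ∀ (t : R) p, (v p).eval t =
        mon (x + t * (x' - x)) (y + t * (y' - y)) (z + t * (z' - z)) p := fun t p => by
      simp [v, mon]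
    have h3 : (⋃ i ∈ (insert j s : Finset ι), {t | ¬ LinearIndependent ℂ fun p : D i =>
        (v p).eval (algebraMap ℂ R t)}).Finite := by
      refine Set.Finite.biUnion (finite_toSet _) fun i hi => ?_
      rcases mem_insert.1 hi with rfl | hi
      · exact fin_bad _ 1 (by simpa [hv] using h2)
      · exact fin_bad _ 0 (by simpa [hv] using h1 i hi)
    obtain ⟨t, ht⟩ := h3.exists_notMem
    simp only [Set.mem_iUnion, not_exists, Set.mem_ofPred_eq, not_not, hv] at ht
    exact ⟨_, _, _, ht⟩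

lemma fin_zd [Module.Finite ℂ R] (x : R) :
    {c : ℂ | ¬ IsUnit (x - algebraMap ℂ R c)}.Finite := by
  obtain ⟨p, hp, h0⟩ := IsIntegral.of_finite ℂ x
  refine (p.rootSet_finite ℂ).subset fun c hc => mem_rootSet.2 ⟨hp.ne_zero, ?_⟩
  by_contra h1
  obtain ⟨q, hq⟩ := X_sub_C_dvd_sub_C_eval (p := p) (a := c)
  have h2 := congrArg (aeval x) hq
  simp only [map_sub, map_mul, aeval_X, aeval_C] at h2
  rw [aeval_def, h0, zero_sub] at h2
  refine hc (isUnit_of_mul_isUnit_left (y := aeval x q) ?_)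
  rw [← h2]
  exact ((IsUnit.mk0 _ (by simpa using h1)).map (algebraMap ℂ R)).neg

/-- Rows of cells with offsets `o` and lengths `w`. -/
def rows (n : ℕ) (o w : ℕ → ℕ) : Finset Cell :=
  (range n).biUnion fun k => (range (w k)).image fun i => (o k + i, 0, k)

lemma mem_rows {n : ℕ} {o w : ℕ → ℕ} {a b k : ℕ} :
    (a, b, k) ∈ rows n o w ↔ b = 0 ∧ k < n ∧ o k ≤ a ∧ a < o k + w k := by
  simp only [rows, mem_biUnion, mem_range, mem_image, Prod.mk.injEq]
  constructor
  · rintro ⟨k, hk, i, hi, rfl, rfl, rfl⟩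
    omega
  · rintro ⟨rfl, h1, h2, h3⟩
    exact ⟨k, h1, a - o k, by omega, by omega, rfl, rfl⟩

lemma card_rows (n : ℕ) (o w : ℕ → ℕ) : (rows n o w).card = ∑ k ∈ range n, w k := by
  rw [rows, card_biUnion]
  · refine sum_congr rfl fun k _ => ?_
    rw [card_image_of_injective _ fun i j h => by simpa using h, card_range]
  · intro k _ l _ hkl
    simp only [Function.onFun, disjoint_left, mem_image, Prod.forall, Prod.mk.injEq]
    rintro a b j ⟨i, -, -, -, rfl⟩ ⟨i', -, -, -, h⟩
    exact hkl h.symm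

/-- Independence of rows of powers of `x` with factors `u`. -/
def RI (x : R) (u : ℕ → R) (n : ℕ) (w : ℕ → ℕ) : Prop :=
  ∀ φ : ℕ → ℂ[X], (∀ k, φ k ∈ degreeLT ℂ (w k)) → ∑ k ∈ range n, u k * aeval x (φ k) = 0 →
    ∀ k < n, φ k = 0

lemma ri_iff {x : R} {u : ℕ → R} {n : ℕ} {w : ℕ → ℕ} : RI x u n w ↔
    LinearIndependent ℂ fun p : (Σ k : Fin n, Fin (w k)) => u p.1 * x ^ (p.2 : ℕ) := by
  classical
  have key : ∀ φ : ℕ → ℂ[X], (∀ k, φ k ∈ degreeLT ℂ (w k)) →
      ∑ p : (Σ k : Fin n, Fin (w k)), (φ p.1).coeff p.2 • (u p.1 * x ^ (p.2 : ℕ)) =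
        ∑ k ∈ range n, u k * aeval x (φ k) := fun φ hφ => by
    rw [Fintype.sum_sigma, sum_range]
    refine sum_congr rfl fun k _ => ?_
    conv_rhs => rw [← sum_fin (fun i a => monomial i a) (by simp) (mem_degreeLT.1 (hφ k)) |>.trans
      (sum_monomial_eq _), map_sum, mul_sum]
    simp [Algebra.smul_def, mul_left_comm]
  rw [Fintype.linearIndependent_iff]
  constructor
  · intro h g hg
    let φ : ℕ → ℂ[X] := fun k => if hk : k < n then
      ∑ i : Fin (w k), monomial i (g ⟨⟨k, hk⟩, i⟩) else 0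
    have h1 : ∀ p : (Σ k : Fin n, Fin (w k)), (φ p.1).coeff p.2 = g p := by
      rintro ⟨k, i⟩
      simp [φ, coeff_monomial, Fin.val_inj]
    have h2 : ∀ k, φ k ∈ degreeLT ℂ (w k) := fun k => by
      simp only [φ]
      split_ifs
      · exact Submodule.sum_mem _ fun i _ => monomial_coe_mem_degreeLT i _
      · exact Submodule.zero_mem _
    intro p
    rw [← h1, h φ h2 (by rw [← key φ h2, ← hg]; simp only [h1]) p.1 p.1.2, coeff_zero]
  · intro h φ hφ h0 k hk
    ext i
    by_cases hi : i < w k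
    · exact h _ ((key φ hφ).trans h0) ⟨⟨k, hk⟩, i, hi⟩
    · exact coeff_eq_zero_of_degree_lt ((mem_degreeLT.1 (hφ k)).trans_le
        (by exact_mod_cast not_lt.1 hi))

lemma good_rows {n : ℕ} {o w : ℕ → ℕ} :
    GoodIn R (rows n o w) ↔ ∃ x z : R, RI x (fun k => x ^ o k * z ^ k) n w := by
  let f : (Σ k : Fin n, Fin (w k)) → rows n o w := fun p =>
    ⟨(o p.1 + p.2, 0, p.1), mem_rows.2 ⟨rfl, p.1.2, by omega, by have := p.2.2; omega⟩⟩
  have hf : Function.Bijective f := by
    constructor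
    · rintro ⟨k, i⟩ ⟨l, j⟩ h
      simp only [f, Subtype.mk.injEq, Prod.mk.injEq, Fin.val_inj] at h
      obtain ⟨h1, -, rfl⟩ := h
      obtain rfl : i = j := Fin.ext (by omega)
      rfl
    · rintro ⟨⟨a, b, k⟩, h⟩
      obtain ⟨rfl, h1, h2, h3⟩ := mem_rows.1 h
      exact ⟨⟨⟨k, h1⟩, a - o k, by simp only; omega⟩, Subtype.ext (by simp [f]; omega)⟩
  have key : ∀ x y z : R, (LinearIndependent ℂ fun p : rows n o w => mon x y z p) ↔
      RI x (fun k => x ^ o k * z ^ k) n w := fun x y z => by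
    rw [ri_iff, ← linearIndependent_equiv (Equiv.ofBijective f hf)]
    refine iff_of_eq (congrArg (LinearIndependent ℂ ·) (funext fun p => ?_))
    simp only [Function.comp, Equiv.ofBijective_apply, f, mon]
    ring
  exact ⟨fun ⟨x, y, z, h⟩ => ⟨x, z, (key x y z).1 h⟩, fun ⟨x, z, h⟩ => ⟨x, 1, z, (key x 1 z).2 h⟩⟩

lemma ri_bad (x : R) (u : ℕ → R[X]) {n : ℕ} {w : ℕ → ℕ} (t₀ : ℂ)
    (h : RI x (fun k => (u k).eval (algebraMap ℂ R t₀)) n w) :
    {t | ¬ RI x (fun k => (u k).eval (algebraMap ℂ R t)) n w}.Finite := by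
  simp only [ri_iff] at h ⊢
  simpa using fin_bad (fun p : (Σ k : Fin n, Fin (w k)) => u p.1 * C x ^ (p.2 : ℕ)) t₀
    (by simpa using h)

end Pool.Agent.Lib.MP_a430e8_ag.Q
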