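import Pool.Agent.Lib.MP_a430e8_ag.QPick

/-! Inequalities for the rows. -/

namespace Pool.Agent.Lib.MP_a430e8_ag.Q
open Finset

lemma cliff {a d n : ℕ} (hd : 4 ≤ d) (h1 : d ≤ a + 4) (h2 : 1 ≤ n) (h3 : n ≤ a) :
    Hh a d n + Hh a d (a + d - 2 - n) ≤ a * d * a + 2 := by
  have h4 : ∑ p ∈ range a ×ˢ range d, (if p.1 + p.2 = 0 then 2 else 0) ≤ 2 := by
    rw [sum_eq_single (0, 0)]
    · simp
    · rintro ⟨x, y⟩ _ h
      exact if_neg fun e => h (Prod.ext (by simp only at e ⊢; omega) (by simp only at e ⊢; omega))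
    · intro h
      exact (h (mem_product.2 ⟨mem_range.2 (by omega), mem_range.2 (by omega)⟩)).elim
  have h5 := h4
  rw [sum_refl fun s => if s = 0 then 2 else 0] at h5
  have h6 := sum_refl (a := a) (d := d) fun s => n - s
  have h7 := sum_refl (a := a) (d := d) fun s => a + d - 2 - n - s
  have h8 : a * d * (a + d - 4) = ∑ _p ∈ range a ×ˢ range d, (a + d - 4) := by simp
  have h9 : a * d * (a + d - 4) ≤ a * d * (2 * a) := Nat.mul_le_mul_left _ (by omega)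
  have h10 : ∑ p ∈ range a ×ˢ range d, ((n - (p.1 + p.2)) + (n - (a + d - 2 - (p.1 + p.2))) +
      (a + d - 2 - n - (p.1 + p.2)) + (a + d - 2 - n - (a + d - 2 - (p.1 + p.2)))) ≤
      ∑ p ∈ range a ×ˢ range d, ((a + d - 4) + (if p.1 + p.2 = 0 then 2 else 0) +
        if a + d - 2 - (p.1 + p.2) = 0 then 2 else 0) := sum_le_sum fun p hp => by
    simp only [mem_product, mem_range] at hp
    split_ifs <;> omega
  simp only [sum_add_distrib] at h10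
  rw [← h6, ← h7, ← h8] at h10
  unfold Hh
  linarith

lemma ineq2 {i j b u ε δ : ℕ} (hb : 1 ≤ b) (hu : 6 * u ≤ (j + 1) * (j + 2) * (j + 3))
    (hε : 6 * ε ≤ (i + 1) * (i + 2) * (i + 3))
    (hδ : 2 * δ = (i + j + b) * (i + j + 4) * (b + 2 * i)) :
    2 * ε ≤ δ ∧ 2 * ε ≤ (i + j + b) * (i + j + 4) * i + 2 ∧
      (2 ≤ ε → 3 * ε ≤ δ ∧ 5 * (u * ε) ≤ δ * δ) := by
  have h1 : (i + 1) * (i + 4) * (1 + 2 * i) ≤ 2 * δ := by
    rw [hδ]
    exact Nat.mul_le_mul (Nat.mul_le_mul (by omega) (by omega)) (by omega)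
  have h2 : (i + 1) * (i + 4) * i ≤ (i + j + b) * (i + j + 4) * i :=
    Nat.mul_le_mul (Nat.mul_le_mul (by omega) (by omega)) le_rfl
  refine ⟨by nlinarith [Nat.zero_le (i ^ 2), Nat.zero_le (i ^ 3)],
    by nlinarith [Nat.zero_le (i ^ 2), Nat.zero_le (i ^ 3)], fun h => ?_⟩
  rcases i with _ | x
  · omega
  refine ⟨by nlinarith [Nat.zero_le (x ^ 2), Nat.zero_le (x ^ 3)], ?_⟩
  obtain ⟨D, hD⟩ : ∃ D, D = (x + 1 + j) * (x + 1 + j + 4) * (x + 1) := ⟨_, rfl⟩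
  have h1 : D ≤ δ := by
    have : (x + 1 + j) * (x + 1 + j + 4) * (2 * (x + 1)) ≤ 2 * δ := by
      rw [hδ]
      exact Nat.mul_le_mul (Nat.mul_le_mul (by omega) le_rfl) (by omega)
    nlinarith
  have h4 : ε ≤ 4 * (x + 1) ^ 3 := by nlinarith [Nat.zero_le (x ^ 2), Nat.zero_le (x ^ 3)]
  have h5 : 20 * (x + 1) * ((j + 1) * (j + 2) * (j + 3)) ≤
      6 * ((x + 1 + j) * (x + 1 + j + 4)) ^ 2 := Nat.le.intro (k := 30 + 140 * j + 156 * j ^ 2 +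
    52 * j ^ 3 + 6 * j ^ 4 + 240 * x + 332 * x * j + 96 * x * j ^ 2 + 4 * x * j ^ 3 + 276 * x ^ 2 +
    216 * x ^ 2 * j + 36 * x ^ 2 * j ^ 2 + 72 * x ^ 3 + 24 * x ^ 3 * j + 6 * x ^ 4) (by ring)
  have h6 : 30 * (u * ε) ≤ 6 * (D * D) :=
    calc 30 * (u * ε) = 5 * (6 * u) * ε := by ring
      _ ≤ 5 * ((j + 1) * (j + 2) * (j + 3)) * (4 * (x + 1) ^ 3) := by gcongr
      _ = (x + 1) ^ 2 * (20 * (x + 1) * ((j + 1) * (j + 2) * (j + 3))) := by ring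
      _ ≤ (x + 1) ^ 2 * (6 * ((x + 1 + j) * (x + 1 + j + 4)) ^ 2) := by gcongr
      _ = 6 * (D * D) := by rw [hD]; ring
  have h8 : D * D ≤ δ * δ := Nat.mul_le_mul h1 h1
  omega

lemma core {a d j : ℕ} (hd : 4 ≤ d) (h1 : d ≤ a + 3) (h : 0 < Hh a d (a + d - 2 - (j + 1 + a))) :
    ∃ δ, δ + a * d * (j + 1) = Sx a d ∧ 2 * Hh a d (a + d - 2 - (j + 1 + a)) ≤ δ ∧
      (∀ m y, δ ≤ y → m * (y - Hh a d (a + d - 2 - (j + 1 + a))) < Hh a d (j + 1) →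
        m * Hh a d (a + d - 2 - (j + 1 + a)) ≤ δ) ∧
      (∀ m, 2 * m < a * d * (a + 4 - d) → m + 2 * Hh a d (a + d - 2 - (j + 1 + a)) ≤ δ + 1) ∧
      ∀ m y, 2 ≤ Hh a d (a + d - 2 - (j + 1 + a)) → δ < y + Hh a d (a + d - 2 - (j + 1 + a)) →
        m * (y - Hh a d (a + d - 2 - (j + 1 + a))) < Hh a d (j + 1) →
        m * Hh a d (a + d - 2 - (j + 1 + a)) + Hh a d (a + d - 2 - (j + 1 + a)) ≤ δ + 1 := by
  obtain ⟨i, hi⟩ : ∃ i, a + d - 2 - (j + 1 + a) = i + 1 :=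
    Nat.exists_eq_succ_of_ne_zero fun e => by rw [e, Hh_zero] at h; omega
  rw [hi] at h ⊢
  have h11 := Hh_cube (a := a) (d := d) (j + 1)
  have h12 := Hh_cube (a := a) (d := d) (i + 1)
  generalize Hh a d (j + 1) = u at h11 ⊢
  generalize Hh a d (i + 1) = ε at h h12 ⊢
  have h5 := two_Sx (a := a) (d := d)
  obtain rfl : d = i + j + 4 := by omega
  obtain ⟨b, rfl⟩ : ∃ b, a = i + j + b := ⟨a - (i + j), by omega⟩
  rw [show i + j + b + (i + j + 4) - 2 = b + 2 * i + 2 * (j + 1) by omega] at h5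
  rw [show i + j + b + 4 - (i + j + 4) = b by omega]
  obtain ⟨δ, hδ⟩ : ∃ δ, δ + (i + j + b) * (i + j + 4) * (j + 1) = Sx (i + j + b) (i + j + 4) :=
    ⟨_, Nat.sub_add_cancel (by linarith [Nat.zero_le ((i + j + b) * (i + j + 4) * (b + 2 * i))])⟩
  have h6 : 2 * δ = (i + j + b) * (i + j + 4) * (b + 2 * i) := by linarith
  obtain ⟨h14, h15⟩ := ineq (i := i) (j := j) (b := b) (by omega) h11 h12 h6
  obtain ⟨h16, h17, h18⟩ := ineq2 (i := i) (j := j) (b := b) (by omega) h11 h12 h6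
  refine ⟨δ, hδ, h16, fun m y h2 h3 => ?_, fun m h2 => by linarith, fun m y h2 h3 h4 => ?_⟩
  · obtain ⟨c, rfl⟩ := Nat.exists_eq_add_of_lt h14
    have h16 : m * (c + 1) < u := lt_of_le_of_lt (Nat.mul_le_mul_left _ (by omega)) h3
    by_contra h17
    have h18 : (ε + c + 1) * (c + 1) ≤ m * ε * (c + 1) := Nat.mul_le_mul_right _ (by omega)
    have h19 : m * (c + 1) * ε < u * ε := Nat.mul_lt_mul_of_pos_right h16 h
    linarith
  · obtain ⟨h7, h8⟩ := h18 h2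
    by_contra h9
    have h10 : 2 * δ * δ ≤ 3 * (m * ε) * (3 * (y - ε)) := Nat.mul_le_mul (by omega) (by omega)
    have h19 : m * (y - ε) * ε < u * ε := Nat.mul_lt_mul_of_pos_right h4 h
    nlinarith [Nat.zero_le (δ * δ)]

end Pool.Agent.Lib.MP_a430e8_ag.Q
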