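import Pool.Agent.Lib.MP_a430e8_ag.RMove
import Pool.Agent.Lib.MP_a430e8_ag.RNum

/-! Configurations of points of two consecutive multiplicities. -/

namespace Pool.Agent.Lib.MP_a430e8_ag.Q
open Finset

variable {μ u v r t y ε τ : ℕ}

/-- The rows absorbed when all points lie on the two sections. -/
def Bs (μ r t u k : ℕ) : ℕ := r * (μ - k) + t * μ + u

/-- The rows absorbed when `y` points are used for the top row. -/
def Tw (μ r t u y ε τ k : ℕ) : ℕ :=
  if k < μ then Bs μ r t u k - y else if k = μ then Bs μ r t u μ + ε - y else τ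

lemma W_base {k : ℕ} (hk : k ≤ μ) : W μ 0 0 (r + t) t k + u = Bs μ r t u k := by
  obtain ⟨c, rfl⟩ := Nat.exists_eq_add_of_le hk
  simp only [W, V, Bs, if_pos hk, mul_zero, Nat.sub_zero, ite_self, Nat.add_sub_cancel_left]
  ring

lemma sum_Bs (h : u + v = r + 2 * t) : ∑ k ∈ range (μ + 1), Bs μ r t u k =
    u * (μ + 2).choose 2 + v * (μ + 1).choose 2 := by
  rw [← sum_congr rfl fun k hk => W_base (Nat.lt_succ_iff.1 (mem_range.1 hk)), sum_add_distrib,
    sum_W (by simp), sum_const, card_range, smul_eq_mul, Nat.choose_succ_succ' (μ + 1) 1,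
    Nat.choose_one_right, show 0 + (r + t) + t = u + v by omega]
  generalize (μ + 1).choose 2 = c
  rw [Nat.succ_eq_add_one]
  ring

lemma sum_Tw (h : u + v = r + 2 * t) (hy : y ≤ u) (h1 : (μ + 1) * y ≤ ε + τ) :
    u * (μ + 2).choose 2 + v * (μ + 1).choose 2 ≤ ∑ k ∈ range (μ + 2), Tw μ r t u y ε τ k := by
  have h2 : ∑ k ∈ range μ, Bs μ r t u k = ∑ k ∈ range μ, (Tw μ r t u y ε τ k + y) :=
    sum_congr rfl fun k hk => by
      rw [Tw, if_pos (mem_range.1 hk)]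
      exact (Nat.sub_add_cancel (hy.trans (Nat.le_add_left _ _))).symm
  rw [← sum_Bs h, sum_range_succ, sum_range_succ, sum_range_succ, h2, sum_add_distrib, sum_const,
    card_range, smul_eq_mul]
  have h3 : u ≤ Bs μ r t u μ := Nat.le_add_left _ _
  simp only [Tw, lt_irrefl, if_false, if_true, show ¬ μ + 1 < μ by omega, Nat.add_eq_left,
    one_ne_zero]
  rw [add_mul] at h1
  omega

lemma cfgP {x ρ : ℕ} (h : u + v = r + 2 * t) (hx : x ≤ t) (hxy : x ≤ y) (hy : y ≤ u)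
    (h1 : y ≤ v + x) (h2 : y ≤ r + t + x) (h3 : τ ≤ (μ + 1) * x + ρ)
    (h4 : ε + (μ + 1) * x + ρ ≤ (μ + 1) * y)
    (h5 : y = x ∧ ε = 0 ∧ ρ = 0 ∨ x * μ + y ≤ t * μ + u ∧ t * μ + u + ε ≤ r + y ∧
      t * μ + u + 2 * ε + ρ ≤ r + y + (μ + 1) * x) :
    G2 μ u v (rows (μ + 2) 0 (Tw μ r t u y ε τ)) := by
  obtain ⟨N, rfl⟩ := Nat.exists_eq_add_of_le hxy
  obtain ⟨t', rfl⟩ := Nat.exists_eq_add_of_le hx
  obtain ⟨u', rfl⟩ : ∃ u', u = u' + x := ⟨u - x, by omega⟩
  obtain ⟨s, hs⟩ : ∃ s, N + s = r + x + t' := ⟨r + x + t' - N, by omega⟩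
  have h0 := cfgA (μ := μ) (u := u') (v := v) (N := N) (ε := 0) (s := s) (t := t') (by simp)
    (by omega) (by omega)
  have e1 : ∀ k < μ, W μ N 0 s t' k + N = (r + x) * (μ - k) + μ * t' := fun k hk => by
    simpa using W_lt (ε := 0) (r := r + x) hs hk
  have e2 : W μ N 0 s t' μ = μ * N + μ * t' := W_eq
  have e3 : ∀ k < μ, Tw μ r (x + t') (u' + x) (x + N) ε τ k - x * k ≤ W μ N 0 s t' k + u' :=
    fun k hk => by
      have := e1 k hk
      obtain ⟨c, rfl⟩ := Nat.exists_eq_add_of_le hk.le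
      rw [Tw, if_pos hk, Bs]
      rw [Nat.add_sub_cancel_left] at this ⊢
      rw [tsub_le_iff_right, tsub_le_iff_right]
      linarith
  have e4 : Tw μ r (x + t') (u' + x) (x + N) ε τ μ = (x + t') * μ + (u' + x) + ε - (x + N) := by
    simp [Tw, Bs]
  have e5 : Tw μ r (x + t') (u' + x) (x + N) ε τ (μ + 1) - x * (μ + 1) ≤ ρ := by
    rw [Tw, if_neg (by omega), if_neg (by omega), mul_comm]
    omega
  refine sig (w' := fun k => Tw μ r (x + t') (u' + x) (x + N) ε τ k - x * k) ?_ x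
    fun k _ => le_tsub_add
  rcases h5 with ⟨h5, rfl, rfl⟩ | ⟨h5, h6, h7⟩
  · refine rows_mono (fun k hk => ?_) h0
    rcases lt_trichotomy k μ with h | rfl | h
    · exact .inr ⟨by omega, rfl, e3 k h⟩
    · refine .inr ⟨by omega, rfl, ?_⟩
      simp only [e2, e4]
      rw [tsub_le_iff_right, tsub_le_iff_right]
      nlinarith [Nat.zero_le (k * N), Nat.zero_le N]
    · obtain rfl : k = μ + 1 := by omega
      exact .inl (Nat.le_zero.1 e5)
  obtain ⟨c, hc⟩ : ∃ c, c + x * μ + N = (x + t') * μ + u' + ε :=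
    ⟨(x + t') * μ + u' + ε - (x * μ + N), by omega⟩
  refine pm (c := c) (ρ := ρ) e3 ?_ e5 ?_ (fun k hk => ?_) (fun k hk => ?_) h0
  · simp only [e4]
    omega
  · simp only [e2]
    linarith
  · have a1 := e1 k (by omega)
    have a2 := e1 (k + 1) hk
    rw [show μ - k = μ - (k + 1) + 1 by omega, mul_add] at a1
    linarith [Nat.zero_le (x * μ), Nat.zero_le x]
  · have a1 := e1 k (by omega)
    rw [show μ - k = 1 by omega] at a1
    linarith

lemma cfgC (h : u + v = r + 2 * t) (ht : t ≤ y) (hy : y ≤ u) (h3 : ε + τ ≤ (μ + 1) * y)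
    (h4 : (μ + 1) * ε ≤ y - t ∨ ε ≤ v ∧ ε ≤ (μ + 1) * (y - t)) :
    G2 μ u v (rows (μ + 2) 0 (Tw μ r t u y ε τ)) := by
  obtain ⟨N, rfl⟩ := Nat.exists_eq_add_of_le ht
  obtain ⟨s, rfl⟩ : ∃ s, u = N + s + t := ⟨u - (N + t), by omega⟩
  rw [Nat.add_sub_cancel_left] at h4
  let w : ℕ → ℕ := fun k => if k < μ then (μ - k) * N else if k = μ then ε else (μ + 1) * N - ε
  have h0 : G2 μ N v (rows (μ + 2) 0 fun k => w k + v * (μ - k)) := by
    rcases h4 with h4 | ⟨h4, h5⟩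
    · have := los (θ := 0) zero_le_one (g2_of_hi (merge h4)) v (o := 0)
        (w := fun k => w k + v * (μ - k)) fun k hk => ⟨fun _ => rfl, by simp, by
          simp only [w, V, Nat.add_sub_cancel, Nat.add_right_cancel_iff]
          split_ifs <;> omega⟩
      rwa [zero_add] at this
    · obtain ⟨v', rfl⟩ := Nat.exists_eq_add_of_le h4
      have := los (θ := 0) zero_le_one (los (θ := 1) le_rfl (merge0 (μ := μ) (N := N) (ε := ε)
        (o := fun k => ε * (k - μ)) (w := w) (fun k hk => by simp [w, hk, hk.le])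
        (by simp [w]) (by simp [w]; omega)) ε (o := 0) (w := fun k => w k + ε * (μ - k))
        fun k hk => ⟨fun _ => rfl, by simp, le_rfl⟩) v' (o := 0)
        (w := fun k => w k + (ε + v') * (μ - k)) fun k hk => ⟨fun _ => rfl, by simp, by
          rw [add_mul, add_assoc]⟩
      rwa [zero_add] at this
  refine sig (his h0 s (o := 0) (w := fun k => w k + v * (μ - k) + s * (μ + 1 - k))
    fun k _ => ⟨fun _ => rfl, rfl, le_rfl⟩) t fun k hk => ?_
  simp only [Tw, w, Bs]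
  split_ifs with h1 h2
  · obtain ⟨c, rfl⟩ := Nat.exists_eq_add_of_le h1.le
    have := congrArg (· * c) h
    rw [show k + c + 1 - k = c + 1 by omega, Nat.add_sub_cancel_left, tsub_le_iff_right]
    linarith
  · subst h2
    rw [Nat.add_sub_cancel_left, Nat.sub_self, tsub_le_iff_right]
    linarith
  · obtain rfl : k = μ + 1 := by omega
    have : ε ≤ (μ + 1) * N := h4.elim (fun h => by nlinarith [Nat.zero_le (μ * ε)]) And.right
    rw [mul_add] at h3
    rw [mul_comm t]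
    omega

lemma cfg0 (h : u + v = r + 2 * t) (hy : y ≤ u) (h3 : τ ≤ (μ + 1) * y) :
    G2 μ u v (rows (μ + 2) 0 (Tw μ r t u y 0 τ)) := by
  rcases le_total t y with ht | ht
  · exact cfgC h ht hy (by omega) (.inl (by simp))
  · exact cfgP (x := y) (ρ := 0) h ht le_rfl hy (by omega) (by omega) h3 (by omega)
      (.inl ⟨rfl, rfl, rfl⟩)

/-- The rows `w` can be compared with the rows absorbed by some configuration. -/
def Ok (μ u v : ℕ) (w : ℕ → ℕ) : Prop := ∃ n w', G2 μ u v (rows n 0 w') ∧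
  ((∀ k, w k = 0 ∨ k < n ∧ w k ≤ w' k) ∨ (∀ k < n, w' k ≤ w k) ∧
    u * (μ + 2).choose 2 + v * (μ + 1).choose 2 ≤ ∑ k ∈ range n, w' k)

lemma pick2 {δ E δ₀ : ℕ} {w : ℕ → ℕ} (h : u + v = r + 2 * t) (hδ : δ + v ≤ r + t)
    (hw : ∀ k < μ, w k + δ = Bs μ r t u k) (hμ : w μ + δ = Bs μ r t u μ + E)
    (h0 : ∀ k, μ + 1 < k → w k = 0) (h1 : μ = 0 → E ≤ δ)
    (hx : 0 < E → δ + v = δ₀ + (μ + 1) * t + t ∧ 2 * E ≤ δ₀ ∧ (1 ≤ t → μ + 2 * E ≤ δ₀) ∧
      (v < E → (μ + 1) * (δ - E) < w (μ + 1) → (μ + 1) * E + E ≤ δ₀ + 1)) : Ok μ u v w := by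
  have hu : δ ≤ u := by omega
  have le1 : ∀ y ε τ, G2 μ u v (rows (μ + 2) 0 (Tw μ r t u y ε τ)) → y ≤ δ → y + E ≤ δ + ε →
      w (μ + 1) ≤ τ → Ok μ u v w := fun y ε τ hG a1 a2 a3 => ⟨_, _, hG, .inl fun k => by
    rcases lt_or_ge (μ + 1) k with hk | hk
    · exact .inl (h0 k hk)
    refine .inr ⟨by omega, ?_⟩
    unfold Tw
    split_ifs with b1 b2
    · have := hw k b1
      omega
    · subst b2
      omega
    · rwa [show k = μ + 1 by omega]⟩
  have ge1 : ∀ y ε τ, G2 μ u v (rows (μ + 2) 0 (Tw μ r t u y ε τ)) → y ≤ δ → (μ ≠ 0 → δ ≤ y) →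
      δ + ε ≤ y + E → τ ≤ w (μ + 1) → (μ + 1) * y ≤ ε + τ → Ok μ u v w :=
    fun y ε τ hG a0 a1 a2 a3 a4 => ⟨_, _, hG, .inr ⟨fun k hk => by
      unfold Tw
      split_ifs with b1 b2
      · have := hw k b1
        omega
      · subst b2
        omega
      · rwa [show k = μ + 1 by omega], sum_Tw h (a0.trans hu) a4⟩⟩
  by_cases a : (μ + 1) * δ ≤ w (μ + 1)
  · exact ge1 δ 0 _ (cfg0 h hu le_rfl) le_rfl (fun _ => le_rfl) (by omega) a (by omega)
  by_cases b : E ≤ δ ∧ w (μ + 1) ≤ (μ + 1) * (δ - E)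
  · exact le1 (δ - E) 0 _ (cfg0 h (by omega) le_rfl) (by omega) (by omega) b.2
  rcases Nat.eq_zero_or_pos μ with hm | hm
  · have := h1 hm
    exact ge1 (δ - E) 0 _ (cfg0 h (by omega) le_rfl) (by omega) (fun e => absurd hm e) (by omega)
      (by omega) (by omega)
  obtain ⟨h2, h3, h4, h5⟩ := hx (Nat.pos_of_ne_zero fun e => by
    rw [e, Nat.sub_zero] at b
    omega)
  have h6 : δ < E ∨ (μ + 1) * (δ - E) < w (μ + 1) := by omega
  rcases lt_or_ge (w (μ + 1)) ((μ + 1) * t) with c | c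
  · obtain ⟨x, ρ, h7, h8⟩ : ∃ x ρ, w (μ + 1) = (μ + 1) * x + ρ ∧ ρ < μ + 1 :=
      ⟨_, _, (Nat.div_add_mod _ _).symm, Nat.mod_lt _ (Nat.succ_pos μ)⟩
    have h9 : x < t := Nat.lt_of_mul_lt_mul_left (a := μ + 1) (by omega)
    have h10 : x < δ := Nat.lt_of_mul_lt_mul_left (a := μ + 1) (by omega)
    have h11 : δ ≤ x + E := h6.elim (by omega) fun h => by
      have : δ - E < x + 1 := Nat.lt_of_mul_lt_mul_left (a := μ + 1) (by rw [mul_add]; omega)
      omega
    have h12 : x * μ ≤ t * μ := Nat.mul_le_mul_right _ h9.le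
    have h13 : (μ + 1) * t = t * μ + t := by ring
    have h14 := h4 (by omega)
    have hG : ∀ ε ≤ E, ε + w (μ + 1) ≤ (μ + 1) * δ →
        G2 μ u v (rows (μ + 2) 0 (Tw μ r t u δ ε (w (μ + 1)))) := fun ε a1 a2 =>
      cfgP (x := x) (ρ := ρ) h h9.le h10.le hu (by omega) (by omega) h7.le (by omega)
        (.inr ⟨by omega, by omega, by omega⟩)
    rcases le_total (E + w (μ + 1)) ((μ + 1) * δ) with c1 | c1
    · exact le1 δ E _ (hG E le_rfl c1) le_rfl le_rfl le_rfl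
    · exact ge1 δ ((μ + 1) * δ - w (μ + 1)) _ (hG _ (by omega) (by omega)) le_rfl
        (fun _ => le_rfl) (by omega) le_rfl (by omega)
  have h9 : t < δ := Nat.lt_of_mul_lt_mul_left (a := μ + 1) (by omega)
  obtain ⟨N, rfl⟩ := Nat.exists_eq_add_of_le h9.le
  have h13 : (μ + 1) * (t + N) = (μ + 1) * t + (μ + 1) * N := mul_add _ _ _
  have fin : ((μ + 1) * E ≤ N ∨ E ≤ v ∧ E ≤ (μ + 1) * N) → Ok μ u v w := fun c1 => by
    have c2 : E ≤ (μ + 1) * N := c1.elim (fun h => by nlinarith [Nat.zero_le (μ * E)]) And.right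
    have hG := cfgC (μ := μ) (ε := E) (τ := (μ + 1) * (t + N) - E) h h9.le hu (by omega)
      (by rwa [Nat.add_sub_cancel_left])
    rcases le_total (w (μ + 1)) ((μ + 1) * (t + N) - E) with c3 | c3
    · exact le1 _ _ _ hG le_rfl le_rfl c3
    · exact ge1 _ _ _ hG le_rfl (fun _ => le_rfl) le_rfl c3 (by omega)
  rcases lt_or_ge v E with c1 | c1
  · have := h5 c1 (h6.resolve_left (by omega))
    exact fin (.inl (by omega))
  rcases le_total E ((μ + 1) * N) with c2 | c2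
  · exact fin (.inr ⟨c1, c2⟩)
  · exact ge1 (t + N) ((μ + 1) * N) ((μ + 1) * t) (cfgC h h9.le hu (by omega)
      (.inr (by rw [Nat.add_sub_cancel_left]; omega))) le_rfl (fun _ => le_rfl) (by omega) c
      (by omega)

end Pool.Agent.Lib.MP_a430e8_ag.Q
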