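import Pool.Agent.Results.MP_a430e8_ag.NearUniform

/-! The earlier statement with equal multiplicities follows from the present one. -/

namespace Pool.Agent.Lib.MP_a430e8_ag.RImpl
open Pool.Agent.Lib.MP_a430e8_ag

theorem squarePoints (d a t m e : ℕ) (hd : 4 ≤ d) (ha : 1 ≤ a)
    (ht : 2 * m * t ≤ a * d * (a + 4 - d)) (hm : a + 4 < d → a * d * (a + d) ≤ m) :
    GeneralForm d fun f => GeneralPoints f (a ^ 2 * d + 2 * t) fun q =>
      Module.finrank ℂ (multiSeries f q e fun _ => m) = (e + 3 - d).choose 3 +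
        ((e + 3).choose 3 - (e + 3 - d).choose 3 - (a ^ 2 * d + 2 * t) * (m + 1).choose 2) := by
  have h := Pool.Agent.Results.MP_a430e8_ag.NearUniform.result d a t m e (fun _ => m) hd ha
    (fun _ => .inl rfl) ht (fun h => h.elim fun _ h => absurd rfl h) hm
  rwa [Finset.sum_const, Finset.card_univ, Fintype.card_fin, smul_eq_mul] at h

end Pool.Agent.Lib.MP_a430e8_ag.RImpl
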