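import Pool.Agent.Lib.MP_a430e8_ag.RCfg

/-! Two consecutive multiplicities on the general surface. -/

namespace Pool.Agent.Lib.MP_a430e8_ag.Q
open Finset MvPolynomial MGen

variable {a d e μ u v t : ℕ}

lemma E_zero {j s : ℕ} (h1 : d ≤ a + 3) (hs : 2 ≤ s) : Hh a d (a + d - 2 - (j + 1 + a * s)) = 0 := by
  have : a * 2 ≤ a * s := Nat.mul_le_mul_left _ hs
  rw [show a + d - 2 - (j + 1 + a * s) = 0 by omega, Hh_zero]

lemma row_S {m j k : ℕ} (hk : k ≤ m) : Hh a d (a * m + j + 1 - a * k) + Sx a d =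
    a * d * (j + 1) + a * d * a * (m - k) + Hh a d (a + d - 2 - (j + 1 + a * (m - k))) := by
  obtain ⟨c, rfl⟩ := Nat.exists_eq_add_of_le hk
  have := Hh_id (a := a) (d := d) (j + 1 + a * c)
  rw [Nat.add_sub_cancel_left, show a * (k + c) + j + 1 - a * k = j + 1 + a * c by
    rw [mul_add]; omega]
  linarith

lemma ok_base {w : ℕ → ℕ} {r : ℕ} (h : u + v = r + 2 * t)
    (h1 : (∀ k, w k = 0 ∨ k < μ + 1 ∧ w k ≤ Bs μ r t u k) ∨ ∀ k < μ + 1, Bs μ r t u k ≤ w k) :
    Ok μ u v w := by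
  refine ⟨μ + 1, Bs μ r t u, rows_mono (fun k hk => .inr ⟨hk, rfl, (W_base (by omega)).ge⟩)
    (cfgA (N := 0) (ε := 0) (s := r + t) (t := t) (by simp) (Nat.zero_le _) (by omega)),
    h1.imp_right fun h1 => ⟨h1, (sum_Bs h).ge⟩⟩

lemma ok_all (hd : 4 ≤ d) (h : u + v = a * d * a + 2 * t)
    (h2 : 2 * (μ + 1) * t < a * d * (a + 4 - d)) :
    Ok μ u v fun k => Hh a d (e + 1 - a * k) := by
  have h1 : d ≤ a + 3 := by
    by_contra h1
    rw [show a + 4 - d = 0 by omega] at h2
    omega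
  have h5 := two_Sx (a := a) (d := d)
  have h6 : a * d * (a + d - 2) + a * d * (a + 4 - d) = a * d * (2 * a + 2) := by
    rw [← mul_add, show a + d - 2 + (a + 4 - d) = 2 * a + 2 by omega]
  have hz : ∀ m k, e < a * (m + 1) → m < k → Hh a d (e + 1 - a * k) = 0 := fun m k h3 h4 => by
    have : a * (m + 1) ≤ a * k := Nat.mul_le_mul_left _ h4
    rw [show e + 1 - a * k = 0 by omega, Hh_zero]
  rcases le_or_gt (Bs μ (a * d * a) t u 0) (Hh a d (e + 1)) with h3 | h3
  · refine ok_base h (.inr fun k hk => ?_)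
    obtain ⟨c, rfl⟩ := Nat.exists_eq_add_of_le (Nat.lt_succ_iff.1 hk)
    have := Hh_le (a := a) (d := d) (n := e + 1) (n' := e + 1 - a * k) (k := a * k) (by omega)
    simp only [Bs, Nat.sub_zero, Nat.add_sub_cancel_left] at h3 ⊢
    linarith
  simp only [Bs, Nat.sub_zero] at h3
  rcases lt_or_ge e (a * (μ + 1)) with h4 | h4
  · rcases le_or_gt (Hh a d (e + 1 - a * μ)) (t * μ + u) with h7 | h7
    · refine ok_base h (.inl fun k => ?_)
      rcases lt_or_ge μ k with hk | hk
      · exact .inl (hz μ k h4 hk)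
      obtain ⟨c, rfl⟩ := Nat.exists_eq_add_of_le hk
      have := Hh_le (a := a) (d := d) (n := e + 1 - a * k) (n' := e + 1 - a * (k + c)) (k := a * c)
        (by rw [mul_add]; omega)
      refine .inr ⟨by omega, ?_⟩
      simp only [Bs, Nat.add_sub_cancel_left]
      linarith
    obtain ⟨j, rfl⟩ : ∃ j, e = a * μ + j := Nat.exists_eq_add_of_le (by
      by_contra h8
      rw [show e + 1 - a * μ = 0 by omega, Hh_zero] at h7
      omega)
    have hj : j < a := by
      rw [mul_add] at h4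
      omega
    have r0 := row_S (a := a) (d := d) (m := μ) (j := j) (Nat.zero_le _)
    have r1 := row_S (a := a) (d := d) (m := μ) (j := j) le_rfl
    simp only [mul_zero, Nat.sub_zero, Nat.sub_self, add_zero] at r0 r1
    rw [show a * μ + j + 1 - a * μ = j + 1 by omega] at h7 r1
    have hc := cliff (n := j + 1) hd (by omega) (by omega) hj
    obtain ⟨δ, hδ⟩ : ∃ δ, δ + a * d * (j + 1) = Sx a d + t * μ + u :=
      ⟨_, Nat.sub_add_cancel (by omega)⟩
    obtain ⟨r', hr'⟩ : ∃ r', a * d * a = r' + u := ⟨a * d * a - u, by omega⟩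
    have hw : ∀ k < μ, Hh a d (a * μ + j + 1 - a * k) + δ = u * (μ + 1 - k) +
        (r' * (μ - k) + μ * t + Hh a d (a + d - 2 - (j + 1 + a * (μ - k)))) := fun k hk => by
      have := row_S (a := a) (d := d) (m := μ) (j := j) hk.le
      rw [hr'] at this
      rw [show μ + 1 - k = μ - k + 1 by omega]
      linarith
    have hr : ∀ k < μ, δ ≤ r' * (μ - k) := fun k hk =>
      le_trans (by omega) (Nat.le_mul_of_pos_right _ (by omega))
    obtain ⟨N, ε, s, a1, a2, a3⟩ := pick (m := μ) (r := r') (t := t) (δ := δ)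
      (w := fun k => Hh a d (a * μ + j + 1 - a * k) - u * (μ + 1 - k))
      (E := fun s => Hh a d (a + d - 2 - (j + 1 + a * s))) (by omega)
      (fun k hk => by
        have := hw k hk
        have := hr k hk
        omega)
      (fun k hk => by rw [hz μ k h4 hk, Nat.zero_sub])
      (fun s hs => Hh_mono (by
        have : a * 1 ≤ a * s := Nat.mul_le_mul_left _ hs
        omega))
      (by
        rintro rfl
        omega)
      (fun hm h9 h10 => by
        simp only [mul_one] at h9 h10 ⊢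
        obtain ⟨δ₀, b1, b2, b3, -⟩ := core hd h1 h9
        rw [show a * μ + j + 1 - a * μ = j + 1 by omega] at h10
        exact ⟨(b3 μ δ (by omega) (by omega)).trans (by omega), fun s hs => E_zero h1 hs⟩)
    have hW : ∀ k < μ + 1, W μ N ε (s + u) t k + u = W μ N ε s t k + u * (μ + 1 - k) :=
      fun k hk => by
        rw [W, W, if_pos (by omega), if_pos (by omega), show μ + 1 - k = μ - k + 1 by omega]
        ring
    refine ⟨μ + 1, _, cfgA (s := s + u) (t := t) a1 (by omega) (by omega),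
      a3.imp (fun a3 k => ?_) fun a3 => ⟨fun k hk => ?_, ?_⟩⟩
    · rcases lt_or_ge μ k with hk | hk
      · exact .inl (hz μ k h4 hk)
      have b1 := a3 k
      have := hW k (by omega)
      simp only at b1
      exact .inr ⟨by omega, by simp only; omega⟩
    · have b1 := a3 k
      have b2 := hW k hk
      rcases lt_or_ge k μ with hk | hk
      · have := hw k hk
        have := hr k hk
        simp only at b1 ⊢
        omega
      · obtain rfl : k = μ := by omega
        simp only [show a * k + j + 1 - a * k = j + 1 by omega, Nat.add_sub_cancel_left,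
          mul_one] at b1 b2 ⊢
        omega
    · rw [sum_add_distrib, sum_W a1, sum_const, card_range, smul_eq_mul,
        Nat.choose_succ_succ' (μ + 1) 1, Nat.choose_one_right,
        show N + (s + u) + t = u + v by omega]
      generalize (μ + 1).choose 2 = c
      exact le_of_eq (by ring)
  obtain ⟨j, rfl⟩ := Nat.exists_eq_add_of_le h4
  have r0 := row_S (a := a) (d := d) (m := μ + 1) (j := j) (Nat.zero_le _)
  have r1 := row_S (a := a) (d := d) (m := μ + 1) (j := j) le_rfl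
  simp only [mul_zero, Nat.sub_zero, Nat.sub_self, add_zero] at r0 r1
  obtain ⟨δ, hδ⟩ : ∃ δ, δ + a * d * (j + 1) + v = Sx a d + (μ + 1) * t + t :=
    ⟨Sx a d + (μ + 1) * t + t - (a * d * (j + 1) + v), by
      rw [add_assoc, Nat.sub_add_cancel]
      linarith [Nat.zero_le (Hh a d (a + d - 2 - (j + 1 + a * (μ + 1))))]⟩
  have h7 : δ + v + a * d * j ≤ a * d * a + t := by linarith
  have hw : ∀ k ≤ μ, Hh a d (a * (μ + 1) + j + 1 - a * k) + δ = Bs μ (a * d * a) t u k +
      Hh a d (a + d - 2 - (j + 1 + a * (μ + 1 - k))) := fun k hk => by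
    have := row_S (a := a) (d := d) (m := μ + 1) (j := j) (k := k) (by omega)
    generalize Hh a d (a + d - 2 - (j + 1 + a * (μ + 1 - k))) = E at this ⊢
    rw [show μ + 1 - k = μ - k + 1 by omega] at this
    rw [Bs]
    linarith
  rcases lt_or_ge j a with hj | hj
  swap
  · have h8 : a * d * a ≤ a * d * j := Nat.mul_le_mul_left _ hj
    have h9 : (μ + 1) * δ ≤ (μ + 1) * t := Nat.mul_le_mul_left _ (by omega)
    refine ⟨_, _, cfg0 (μ := μ) (y := δ) (τ := (μ + 1) * δ) h (by omega) le_rfl,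
      .inr ⟨fun k hk => ?_, sum_Tw h (by omega) (by omega)⟩⟩
    unfold Tw
    split_ifs with b1 b2
    · have := hw k b1.le
      simp only
      omega
    · have := hw k b2.le
      subst b2
      simp only
      omega
    · obtain rfl : k = μ + 1 := by omega
      simp only
      omega
  refine pick2 (δ := δ) (E := Hh a d (a + d - 2 - (j + 1 + a))) (δ₀ := Sx a d - a * d * (j + 1)) h
    (by omega) (fun k hk => ?_) ?_ (fun k hk => hz (μ + 1) k (by rw [mul_add a (μ + 1)]; omega) hk)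
    ?_ fun h9 => ?_
  · rw [hw k hk.le, E_zero h1 (by omega), add_zero]
  · simpa using hw μ le_rfl
  · rintro rfl
    have := hw 0 le_rfl
    simp only [Bs, mul_zero, Nat.sub_zero, zero_add, mul_one] at this h3
    omega
  · obtain ⟨δ₀, b1, b2, b3, b4, b5⟩ := core hd h1 h9
    rw [show Sx a d - a * d * (j + 1) = δ₀ by omega,
      show a * (μ + 1) + j + 1 - a * (μ + 1) = j + 1 by omega]
    refine ⟨by omega, b2, fun ht => ?_, fun c1 c2 => ?_⟩
    · have := b4 (μ + 1) (lt_of_le_of_lt (Nat.le_mul_of_pos_right _ ht) h2)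
      omega
    · rcases le_or_gt 2 (Hh a d (a + d - 2 - (j + 1 + a))) with c3 | c3
      · exact b5 (μ + 1) δ c3 (by omega) c2
      · have := b3 (μ + 1) δ (by omega) c2
        omega

lemma rk_ok (ha : 0 < a) (hd : 0 < d) (h : Ok μ u v fun k => Hh a d (e + 1 - a * k)) :
    ∃ n, (n = (D0 d e).card ∨ n = u * (μ + 2).choose 2 + v * (μ + 1).choose 2) ∧
      Rk ((Fin u → Jet (μ + 1)) × (Fin v → Jet μ)) (D0 d e) n := by
  obtain ⟨n, w, h1, h | h⟩ := h
  · refine ⟨_, .inl rfl, rk_full (a := a) (dom_of_subset ?_ _ h1)⟩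
    rintro ⟨i, b, k⟩ hp
    obtain ⟨rfl, h3⟩ := (mem_X ha hd).1 hp
    have h4 := h k
    simp only at h4
    exact mem_rows.2 ⟨rfl, by omega, Nat.zero_le _, by rw [Pi.zero_apply]; omega⟩
  · refine ⟨_, .inr rfl, rk_push (g := a) (c := 0) (rk_xpush ⟨_, ?_, ?_, h1⟩)⟩
    · rintro ⟨i, b, k⟩ hp
      obtain ⟨rfl, h2, -, h3⟩ := mem_rows.1 hp
      exact (mem_X ha hd).2 ⟨rfl, lt_of_lt_of_le (by simpa using h3) (h.1 k h2)⟩
    · rw [card_rows]
      exact h.2

lemma special2 {r n : ℕ} (hd : 0 < d) (m : Fin r → ℕ) (e₁ : Fin u ≃ {i // m i = μ + 1})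
    (e₂ : Fin v ≃ {i // ¬ m i = μ + 1}) (hm : ∀ i, ¬ m i = μ + 1 → m i = μ)
    (h : Rk ((Fin u → Jet (μ + 1)) × (Fin v → Jet μ)) (D0 d e) n) :
    ∃ q : Fin r → Fin 3 → ℂ, (∀ i, eval (q i) (dehom (f0 d)) = 0) ∧
      (∀ i, tau (q i) (dehom (f0 d)) ∉ m3 ^ 2) ∧
      Module.finrank ℂ (multiSeries (f0 d) q e m) + n ≤ (e + 3).choose 3 := by
  classical
  obtain ⟨E, hE, hn, x, y, z, h⟩ := h
  have lift : ∀ x : (Fin u → Jet (μ + 1)) × (Fin v → Jet μ), ∃ g : Fin r → P2,
      (∀ j, jmk (μ + 1) (g (e₁ j)) = x.1 j) ∧ ∀ j, jmk μ (g (e₂ j)) = x.2 j := fun x => by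
    choose g₁ hg₁ using fun i => Ideal.Quotient.mkₐ_surjective ℂ _ (x.1 i)
    choose g₂ hg₂ using fun i => Ideal.Quotient.mkₐ_surjective ℂ _ (x.2 i)
    refine ⟨fun i => if h : m i = μ + 1 then g₁ (e₁.symm ⟨i, h⟩) else g₂ (e₂.symm ⟨i, h⟩),
      fun j => ?_, fun j => ?_⟩
    · simp only [dif_pos (e₁ j).2, Subtype.coe_eta, Equiv.symm_apply_apply, hg₁]
    · simp only [dif_neg (e₂ j).2, Subtype.coe_eta, Equiv.symm_apply_apply, hg₂]
  obtain ⟨g, hg, hg2⟩ := lift x
  obtain ⟨g', hg', hg2'⟩ := lift z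
  refine ⟨fun i => ![constantCoeff (g i), constantCoeff (g' i), constantCoeff (g' i ^ d)],
    fun i => by simp [dehom_f0], fun i => ?_, ?_⟩
  · obtain ⟨B, hB⟩ := sub_dvd_pow_sub_pow (X 1 + C (constantCoeff (g' i)) : P3)
      (C (constantCoeff (g' i))) d
    convert special_not_mem 0 B using 2
    simp only [dehom_f0, tau, map_sub, map_pow, aeval_X, Matrix.cons_val]
    linear_combination -hB
  let φ : Cell → Cell := fun p => (p.1, p.2.2 % d, p.2.2 / d)
  have h1 : ∀ p ∈ E, p.2.1 = 0 ∧ φ p ∈ tet (e + 1) := fun p hp => by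
    have := (mem_D0 hd).1 (hE hp)
    exact ⟨this.1, mem_tet.2 (Nat.lt_succ_of_le this.2)⟩
  let ψ : Fin r → P3 →ₐ[ℂ] P2 := fun i => aeval ![g i, g' i, g' i ^ d]
  let L : P4 →ₗ[ℂ] ((Fin u → Jet (μ + 1)) × (Fin v → Jet μ)) :=
    (LinearMap.pi fun i => ((jmk (μ + 1)).comp ((ψ (e₁ i)).comp dehom)).toLinearMap).prod
      (LinearMap.pi fun i => ((jmk μ).comp ((ψ (e₂ i)).comp dehom)).toLinearMap)
  have h2 : ∀ p : E, L (mono4 e (φ p)) = mon x y z p := fun p =>
    Prod.ext (funext fun i => by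
      simp only [L, LinearMap.prod_apply, Function.prod_apply, LinearMap.pi_apply,
        AlgHom.toLinearMap_apply, AlgHom.comp_apply, dehom_mono4,
        mono3, mon, map_mul, map_pow, ψ, aeval_X, Matrix.cons_val, (h1 p p.2).1, φ, Pi.mul_apply,
        Pi.pow_apply, hg, hg', Prod.fst_mul, Prod.pow_fst]
      rw [pow_zero, mul_one, mul_assoc, ← pow_mul, ← pow_add, Nat.mod_add_div]) (funext fun i => by
      simp only [L, LinearMap.prod_apply, Function.prod_apply, LinearMap.pi_apply,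
        AlgHom.toLinearMap_apply, AlgHom.comp_apply, dehom_mono4,
        mono3, mon, map_mul, map_pow, ψ, aeval_X, Matrix.cons_val, (h1 p p.2).1, φ, Pi.mul_apply,
        Pi.pow_apply, hg2, hg2', Prod.snd_mul, Prod.pow_snd]
      rw [pow_zero, mul_one, mul_assoc, ← pow_mul, ← pow_add, Nat.mod_add_div])
  have h3 : LinearIndependent ℂ (L ∘ fun p : E => mono4 e (φ p)) := by
    rwa [show (L ∘ fun p : E => mono4 e (φ p)) = fun p : E => mon x y z p from funext h2]
  have h4 : ∀ F ∈ multiSeries (f0 d) (fun i => ![constantCoeff (g i), constantCoeff (g' i),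
      constantCoeff (g' i ^ d)]) e m, ∀ i k, m i = k → jmk k (ψ i (dehom F)) = 0 := by
    rintro F hF i _ rfl
    obtain ⟨A, hA⟩ := (mem_multi.1 hF).2 i
    have h7 := aeval_mem_pow (v := fun k => ![g i, g' i, g' i ^ d] k -
      C (constantCoeff (![g i, g' i, g' i ^ d] k))) (fun k => sub_cc_mem _) hA
    have h8 : ∀ G : P3, aeval (fun k => ![g i, g' i, g' i ^ d] k -
        C (constantCoeff (![g i, g' i, g' i ^ d] k))) (tau ![constantCoeff (g i),
          constantCoeff (g' i), constantCoeff (g' i ^ d)] G) = ψ i G := fun G => by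
      rw [tau, ← AlgHom.comp_apply, comp_aeval]
      refine congrArg (aeval · G) (funext fun k => ?_)
      fin_cases k <;> simp
    rw [map_sub, map_mul, h8, h8, dehom_f0] at h7
    refine Ideal.Quotient.eq_zero_iff_mem.2 ?_
    simpa [ψ] using h7
  rw [← finrank_hom]
  exact le_trans (add_le_add_right (hn.trans_eq (Fintype.card_coe E).symm) _) (dim_le L
    (fun F hF => (mem_multi.1 hF).1) (fun F hF => Prod.ext
      (funext fun i => h4 F hF _ _ (e₁ i).2) (funext fun i => h4 F hF _ _ (hm _ (e₂ i).2)))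
    (fun p => mono4_hom (h1 p p.2).2) h3)

theorem mixed (ha : 0 < a) (hd : 4 ≤ d) (h2 : 2 * (μ + 1) * t < a * d * (a + 4 - d))
    (m : Fin (a * d * a + 2 * t) → ℕ) (hm : ∀ i, ¬ m i = μ + 1 → m i = μ) :
    GeneralForm d fun f => GeneralPoints f (a * d * a + 2 * t) fun q =>
      Module.finrank ℂ (multiSeries f q e m) = (e + 3 - d).choose 3 +
        ((e + 3).choose 3 - (e + 3 - d).choose 3 - ∑ i, (m i + 1).choose 2) := by
  classical
  have hd0 : 0 < d := by omega
  have h0 : Fintype.card {i // m i = μ + 1} + Fintype.card {i // ¬ m i = μ + 1} =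
      a * d * a + 2 * t := by
    rw [Fintype.card_subtype_compl, Nat.add_sub_cancel' (Fintype.card_subtype_le _),
      Fintype.card_fin]
  have hs : ∑ i, (m i + 1).choose 2 = Fintype.card {i // m i = μ + 1} * (μ + 2).choose 2 +
      Fintype.card {i // ¬ m i = μ + 1} * (μ + 1).choose 2 := by
    rw [← Fintype.sum_subtype_add_sum_subtype fun i => m i = μ + 1,
      sum_congr rfl (g := fun _ => (μ + 2).choose 2) fun i _ => by rw [i.2],
      sum_congr (s₁ := univ (α := {i // ¬ m i = μ + 1})) rfl (g := fun _ => (μ + 1).choose 2)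
        fun i _ => by rw [hm _ i.2]]
    simp only [sum_const, card_univ, smul_eq_mul]
  obtain ⟨n, hn, h⟩ := rk_ok ha hd0 (ok_all (e := e) hd h0 h2)
  obtain ⟨q₀, h1, h2, h3⟩ := special2 hd0 m (Fintype.equivFin _).symm (Fintype.equivFin _).symm hm h
  obtain ⟨Φ, h4, h5⟩ := general_ne (gen d e _ m _ q₀ (f0_hom hd0) h1 h2)
  refine ⟨Φ, h4, fun f hf hΦ => ?_⟩
  obtain ⟨h6, G, h7, h8⟩ := h5 f hf hΦ
  refine ⟨G, h7, fun q hq hG => ?_⟩
  have h9 := h8 q hq hG
  have h10 := low (e := e) hf h6 q m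
  have h11 := card_D0 (e := e) hd0
  omega

end Pool.Agent.Lib.MP_a430e8_ag.Q
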