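import Pool.Agent.Lib.MP_a430e8_ag.QMain

/-! Points of two consecutive multiplicities on the two sections. -/

namespace Pool.Agent.Lib.MP_a430e8_ag.Q
open Finset Polynomial

variable {R : Type} [CommRing R] [Algebra ℂ R]

lemma ri_scale {x : R} {u : ℕ → R} {n : ℕ} {w : ℕ → ℕ} (κ : ℕ → ℂ) (hκ : ∀ k, κ k ≠ 0)
    (h : RI x u n w) : RI x (fun k => κ k • u k) n w := by
  intro φ hφ h0 k hk
  have := h (fun k => κ k • φ k) (fun k => Submodule.smul_mem _ _ (hφ k))
    (by simpa only [map_smul, smul_mul_assoc, mul_smul_comm] using h0) k hk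
  exact (smul_eq_zero.1 this).resolve_left (hκ k)

lemma good_c [Module.Finite ℂ R] {m n θ : ℕ} (hθ : θ ≤ 1) {o o' w' : ℕ → ℕ}
    (h1 : ∀ k < n, o' k = o k + θ * (k - m)) (h : GoodIn R (rows n o' w')) :
    ∃ (x z : R) (c : ℂ), RI x (fun k => (x - algebraMap ℂ R c) ^ (k - m) * (x ^ o k * z ^ k)) n w' ∧
      IsUnit (x - algebraMap ℂ R c) := by
  obtain ⟨x, z, h⟩ := good_rows.1 h
  rcases Nat.le_one_iff_eq_zero_or_eq_one.1 hθ with rfl | rfl
  · have h3 := ri_bad x (fun k => (1 - X * C x) ^ (k - m) * C (x ^ o k * z ^ k)) (n := n) (w := w') 0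
      fun φ hφ h0 => h φ hφ (h0 ▸ sum_congr rfl fun k hn => by
        simp [h1 k (mem_range.1 hn)])
    have h4 : {s : ℂ | ¬ IsUnit (x - algebraMap ℂ R s⁻¹)}.Finite :=
      (fin_zd x).preimage (f := fun s : ℂ => s⁻¹) inv_injective.injOn
    obtain ⟨s, hs⟩ := ((h3.union h4).union (Set.finite_singleton 0)).exists_notMem
    simp only [Set.mem_union, Set.mem_ofPred_eq, not_or, not_not, eval_mul, eval_pow, eval_sub,
      eval_C, eval_X, eval_one, Set.mem_singleton_iff] at hs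
    refine ⟨x, z, s⁻¹, ?_, hs.1.2⟩
    have h5 := ri_scale (fun k => (-s⁻¹) ^ (k - m))
      (fun k => pow_ne_zero _ (neg_ne_zero.2 (inv_ne_zero hs.2))) hs.1.1
    have e : x - algebraMap ℂ R s⁻¹ = (-s⁻¹) • (1 - algebraMap ℂ R s * x) := by
      rw [← Algebra.smul_def s x, smul_sub, smul_smul, neg_mul, inv_mul_cancel₀ hs.2,
        Algebra.algebraMap_eq_smul_one]
      simp only [neg_smul, one_smul]
      ring
    simpa only [e, _root_.smul_pow, smul_mul_assoc] using h5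
  · have h3 := ri_bad x (fun k => (C x - X) ^ (k - m) * C (x ^ o k * z ^ k)) (n := n) (w := w') 0
      fun φ hφ h0 => h φ hφ (h0 ▸ sum_congr rfl fun k hn => by
        simp [h1 k (mem_range.1 hn)]
        ring_nf)
    obtain ⟨c, hc⟩ := (h3.union (fin_zd x)).exists_notMem
    simp only [Set.mem_union, Set.mem_ofPred_eq, not_or, not_not, eval_mul, eval_pow, eval_sub,
      eval_C, eval_X] at hc
    exact ⟨x, z, c, hc⟩

lemma lmv [Module.Finite ℂ R] {m n θ : ℕ} (hθ : θ ≤ 1) {o o' w w' : ℕ → ℕ}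
    (h1 : ∀ k < n, (k ≤ m → o k = 0) ∧ o' k = o k + θ * (k - m) ∧ w k ≤ w' k + (m - k))
    (h : GoodIn R (rows n o' w')) : GoodIn (R × Jet m) (rows n o w) := by
  obtain ⟨x, z, c, hc⟩ := good_c hθ (fun k hk => (h1 k hk).2.1) h
  refine dom_of_subset (E := rows n o fun k => if k < n then w k else 0) ?_ _ ?_
  · rintro ⟨a, b, k⟩ hp
    rw [mem_rows] at hp ⊢
    rw [if_pos hp.2.1]
    exact hp
  refine good_rows.2 ⟨(x, algebraMap ℂ _ c + jmk m (MvPolynomial.X 0)),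
    ((x - algebraMap ℂ R c) * z, jmk m (MvPolynomial.X 1)), fun φ hφ h0 => ?_⟩
  have h4 := congrArg (AlgHom.fst ℂ R (Jet m)) h0
  have h5 := congrArg (AlgHom.snd ℂ R (Jet m)) h0
  simp only [map_sum, map_mul, map_pow, ← aeval_algHom_apply, AlgHom.fst_apply, AlgHom.snd_apply,
    map_zero] at h4 h5
  have h6 : ∀ k, ∃ ψ ∈ degreeLT ℂ (w' k), k < n → φ k = (X - C c) ^ (m - k) * ψ := fun k => by
    by_cases hk : k < n
    swap
    · exact ⟨0, Submodule.zero_mem _, fun h => absurd h hk⟩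
    have hφk := hφ k
    simp only [if_pos hk] at hφk
    have h9 := (h1 k hk).2.2
    rcases le_or_gt k m with hm | hm
    · obtain ⟨ψ, hψ⟩ := jet_dvd (m := m) c (fun k => X ^ o k * φ k) (by
        rw [← h5]
        exact sum_congr rfl fun k _ => by rw [map_mul, map_pow, aeval_X]; ring) hk
      rw [(h1 k hk).1 hm, pow_zero, one_mul] at hψ
      refine ⟨ψ, mem_degreeLT.2 ?_, fun _ => hψ⟩
      by_cases h7 : ψ = 0
      · rw [h7]
        exact WithBot.bot_lt_coe _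
      have h8 := mem_degreeLT.1 hφk
      rw [hψ, degree_mul, degree_pow, degree_X_sub_C, degree_eq_natDegree h7, nsmul_one] at h8
      rw [degree_eq_natDegree h7]
      norm_cast at h8 ⊢
      omega
    · exact ⟨φ k, degreeLT_mono (by omega) hφk, fun _ => by
        rw [Nat.sub_eq_zero_of_le hm.le, pow_zero, one_mul]⟩
  choose ψ hψ hφψ using h6
  have h7 := hc.1 ψ hψ ((hc.2.pow m).mul_right_eq_zero.1 (by
    rw [← h4, mul_sum]
    refine sum_congr rfl fun k hk => ?_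
    rw [hφψ k (mem_range.1 hk), map_mul, map_pow, map_sub, aeval_X, aeval_C, mul_pow]
    have e : (x - algebraMap ℂ R c) ^ m * (x - algebraMap ℂ R c) ^ (k - m) =
        (x - algebraMap ℂ R c) ^ k * (x - algebraMap ℂ R c) ^ (m - k) := by
      rw [← pow_add, ← pow_add]
      congr 1
      omega
    linear_combination (x ^ o k * z ^ k * aeval x (ψ k)) * e))
  intro k hk
  rw [hφψ k hk, h7 k hk, mul_zero]

/-- Independence at `u` points of multiplicity `μ + 1` and `v` points of multiplicity `μ`. -/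
abbrev G2 (μ u v : ℕ) (D : Finset Cell) : Prop :=
  GoodIn ((Fin u → Jet (μ + 1)) × (Fin v → Jet μ)) D

/-- One more point. -/
noncomputable def cons1 (m s : ℕ) : ((Fin s → Jet m) × Jet m) →ₐ[ℂ] (Fin (s + 1) → Jet m) :=
  AlgHom.pi (A := fun _ : Fin (s + 1) => Jet m) fun i =>
    Fin.cases (motive := fun _ => ((Fin s → Jet m) × Jet m) →ₐ[ℂ] Jet m) (AlgHom.snd ℂ _ _)
    (fun j => (Pi.evalAlgHom ℂ (fun _ => Jet m) j).comp (AlgHom.fst ℂ _ _)) i

lemma cons1_inj (m s : ℕ) : Function.Injective (cons1 m s) := fun _ _ e =>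
  Prod.ext (funext fun j => congrFun e j.succ) (congrFun e 0)

variable {μ u v : ℕ} {D : Finset Cell}

lemma g2_hi (h : GoodIn (((Fin u → Jet (μ + 1)) × (Fin v → Jet μ)) × Jet (μ + 1)) D) :
    G2 μ (u + 1) v D := by
  refine good_map (((cons1 _ u).comp (((AlgHom.fst ℂ _ _).comp (AlgHom.fst ℂ _ _)).prod
    (AlgHom.snd ℂ _ _))).prod ((AlgHom.snd ℂ _ _).comp (AlgHom.fst ℂ _ _))) (fun a b e => ?_) h
  have h1 := cons1_inj _ _ (congrArg Prod.fst e)
  exact Prod.ext (Prod.ext (congrArg Prod.fst h1 :) (congrArg Prod.snd e :))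
    (congrArg Prod.snd h1 :)

lemma g2_lo (h : GoodIn (((Fin u → Jet (μ + 1)) × (Fin v → Jet μ)) × Jet μ) D) :
    G2 μ u (v + 1) D := by
  refine good_map (((AlgHom.fst ℂ _ _).comp (AlgHom.fst ℂ _ _)).prod ((cons1 _ v).comp
    (((AlgHom.snd ℂ _ _).comp (AlgHom.fst ℂ _ _)).prod (AlgHom.snd ℂ _ _)))) (fun a b e => ?_) h
  have h1 := cons1_inj _ _ (congrArg Prod.snd e)
  exact Prod.ext (Prod.ext (congrArg Prod.fst e :) (congrArg Prod.fst h1 :))
    (congrArg Prod.snd h1 :)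

lemma g2_of_hi (h : Gd (μ + 1) u D) : G2 μ u 0 D :=
  good_map ((AlgHom.id ℂ _).prod (AlgHom.pi fun i => i.elim0)) (fun _ _ e => congrArg Prod.fst e) h

lemma g2_of_lo (h : Gd μ v D) : G2 μ 0 v D :=
  good_map ((AlgHom.pi fun i => i.elim0).prod (AlgHom.id ℂ _)) (fun _ _ e => congrArg Prod.snd e) h

lemma rows_mono {n n' : ℕ} {o o' w w' : ℕ → ℕ}
    (h : ∀ k < n, w k = 0 ∨ k < n' ∧ o k = o' k ∧ w k ≤ w' k) (h0 : GoodIn R (rows n' o' w')) :
    GoodIn R (rows n o w) := by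
  refine dom_of_subset ?_ _ h0
  rintro ⟨a, b, k⟩ hp
  rw [mem_rows] at hp ⊢
  have := h k
  omega

lemma his {n : ℕ} {o' w' : ℕ → ℕ} (h : G2 μ u v (rows n o' w')) (t : ℕ) {o w : ℕ → ℕ}
    (h1 : ∀ k < n, (k ≤ μ + 1 → o k = 0) ∧ o' k = o k ∧ w k ≤ w' k + t * (μ + 1 - k)) :
    G2 μ (u + t) v (rows n o w) := by
  induction t generalizing w with
  | zero => exact rows_mono (fun k hk => by have := h1 k hk; omega) h
  | succ t ih =>
    refine g2_hi (lmv (θ := 0) (o' := o) (w' := fun k => w k - (μ + 1 - k)) zero_le_one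
      (fun k hk => ?_) (ih fun k hk => ?_))
    · have := h1 k hk
      omega
    · have := h1 k hk
      rw [add_mul] at this
      omega

lemma los {n θ : ℕ} (hθ : θ ≤ 1) {o' w' : ℕ → ℕ} (h : G2 μ u v (rows n o' w')) (t : ℕ)
    {o w : ℕ → ℕ} (h1 : ∀ k < n, (k ≤ μ → o k = 0) ∧ o' k = o k + t * (θ * (k - μ)) ∧
      w k ≤ w' k + t * (μ - k)) : G2 μ u (v + t) (rows n o w) := by
  induction t generalizing o w with
  | zero => exact rows_mono (fun k hk => by have := h1 k hk; omega) h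
  | succ t ih =>
    refine g2_lo (lmv (θ := θ) (o' := fun k => o k + θ * (k - μ)) (w' := fun k => w k - (μ - k)) hθ
      (fun k hk => ?_) (ih fun k hk => ?_))
    · have := h1 k hk
      omega
    · have := h1 k hk
      rw [add_mul, add_mul] at this
      refine ⟨fun hk => ?_, by omega, by omega⟩
      rw [this.1 hk, Nat.sub_eq_zero_of_le hk, mul_zero, add_zero]

lemma sig {w' : ℕ → ℕ} (h : G2 μ u v (rows (μ + 2) 0 w')) (x : ℕ) {w : ℕ → ℕ}
    (h1 : ∀ k ≤ μ + 1, w k ≤ w' k + x * k) : G2 μ (u + x) v (rows (μ + 2) 0 w) :=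
  rev (m := μ + 1) (w' := fun k => w (μ + 1 - k)) (fun k hk => by rw [Nat.sub_sub_self hk]) (his
    (rev (m := μ + 1) (w := fun k => w' (μ + 1 - k)) (fun k _ => le_rfl) h) x
    fun k _ => ⟨fun _ => rfl, rfl, h1 _ (Nat.sub_le _ _)⟩)

lemma cfgA {N ε s t : ℕ} (h : μ * ε ≤ N) (hN : N ≤ v) (hs : N + s + t = u + v) :
    G2 μ u v (rows (μ + 1) 0 fun k => W μ N ε s t k + u) := by
  obtain ⟨u₁, u₂, v₁, v₂, rfl, rfl, rfl, rfl⟩ : ∃ u₁ u₂ v₁ v₂, u = 0 + u₁ + u₂ ∧
      v = N + v₁ + v₂ ∧ s = u₁ + v₁ ∧ t = u₂ + v₂ :=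
    ⟨u - min u t, min u t, s - (u - min u t), t - min u t, by omega, by omega, by omega, by omega⟩
  have h1 := his (los (θ := 0) zero_le_one (g2_of_lo (merge h)) v₁ (o := 0)
    (w := fun k => V μ N ε k + v₁ * (μ - k)) fun k _ => ⟨fun _ => rfl, by simp, le_rfl⟩) u₁ (o := 0)
    (w := fun k => V μ N ε k + v₁ * (μ - k) + u₁ * (μ + 1 - k))
    fun k _ => ⟨fun _ => rfl, rfl, le_rfl⟩
  generalize hw : (fun k => V μ N ε k + v₁ * (μ - k) + u₁ * (μ + 1 - k)) = w at h1
  have h2 := his (los (θ := 0) zero_le_one (rev (w := fun k => w (μ - k)) (fun k _ => le_rfl) h1) v₂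
    (o := 0) (w := fun k => w (μ - k) + v₂ * (μ - k)) fun k _ => ⟨fun _ => rfl, by simp, le_rfl⟩)
    u₂ (o := 0) (w := fun k => w (μ - k) + v₂ * (μ - k) + u₂ * (μ + 1 - k))
    fun k _ => ⟨fun _ => rfl, rfl, le_rfl⟩
  refine rev (fun k hk => ?_) h2
  obtain ⟨c, rfl⟩ := Nat.exists_eq_add_of_le hk
  simp only [← hw, W, if_pos hk, Nat.add_sub_cancel_left, Nat.add_sub_cancel,
    show k + c + 1 - k = c + 1 by omega, show k + c + 1 - c = k + 1 by omega]
  linarith

lemma pm {c ρ : ℕ} {w w' : ℕ → ℕ} (h1 : ∀ k < μ, w k ≤ w' k) (h2 : w μ ≤ c) (h3 : w (μ + 1) ≤ ρ)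
    (h4 : c + ρ ≤ w' μ) (h5 : ∀ k, k + 1 < μ → w' (k + 1) + c ≤ w' k)
    (h6 : ∀ k, k + 1 = μ → 2 * c + ρ ≤ w' k) (h : GoodIn R (rows (μ + 1) 0 w')) :
    GoodIn R (rows (μ + 2) 0 w) := by
  refine dom_push _ c 0 _ (dom_of_subset ?_ _ h)
  rintro ⟨a, b, k⟩ hp
  rw [mem_push] at hp
  have h7 : ∀ n k, k + n < μ → w' (k + n) + (k + n) * c ≤ w' k + k * c := fun n k => by
    induction n with
    | zero => exact fun _ => le_rfl
    | succ n ih =>
      intro hk
      have := ih (by omega)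
      have := h5 (k + n) hk
      rw [← add_assoc, add_mul (k + n)]
      omega
  have h8 : ∀ j ∈ lev (rows (μ + 2) 0 w) c 0 (a + k * c) (b + k * 0), b = 0 ∧
      (j < μ ∧ a + k * c < w' j + j * c ∨ j = μ ∧ a + k * c < μ * c + c ∨
        j = μ + 1 ∧ μ * c + c ≤ a + k * c ∧ a + k * c < μ * c + c + ρ) := fun j hj => by
    obtain ⟨a', b', h9, h10, h11⟩ := mem_lev.1 hj
    obtain ⟨rfl, h12, -, h13⟩ := mem_rows.1 h9
    simp only [Pi.zero_apply, zero_add] at h13
    refine ⟨by omega, ?_⟩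
    rcases lt_trichotomy j μ with h | rfl | h
    · have := h1 j h
      omega
    · omega
    · obtain rfl : j = μ + 1 := by omega
      rw [add_mul] at h10
      omega
  obtain ⟨j, hj⟩ := card_pos.1 (Nat.zero_lt_of_lt hp)
  have h9 : ∀ B, (∀ j ∈ lev (rows (μ + 2) 0 w) c 0 (a + k * c) (b + k * 0), min j μ < B) → k < B :=
    fun B hB => by
      refine hp.trans_le ((card_le_card_of_injOn (fun j => min j μ) (t := range B)
        (fun j hj => mem_coe.2 (mem_range.2 (hB j hj))) fun j hj j' hj' e => ?_).trans (by simp))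
      have := h8 j hj
      have := h8 j' hj'
      simp only at e
      omega
  have h10 := h9 (μ + 1) fun j _ => by omega
  refine mem_rows.2 ⟨(h8 j hj).1, h10, Nat.zero_le _, ?_⟩
  simp only [Pi.zero_apply, zero_add]
  by_contra h11
  refine (h9 k fun j hj => ?_).false
  have h12 := (h8 j hj).2
  by_contra h13
  rcases lt_or_ge k μ with hk | hk
  · obtain ⟨n, hn⟩ : ∃ n, μ = k + n + 1 := Nat.exists_eq_add_of_lt hk
    have h14 := h7 n k (by omega)
    have h15 := h6 (k + n) hn.symm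
    have h16 : μ * c = (k + n) * c + c := by rw [hn, add_mul (k + n), one_mul]
    rcases h12 with h12 | h12 | h12
    · obtain ⟨l, rfl⟩ : ∃ l, j = k + l := Nat.exists_eq_add_of_le (by omega)
      have := h7 l k h12.1
      omega
    · omega
    · omega
  · obtain rfl : k = μ := by omega
    omega

lemma merge0 {N ε : ℕ} {o w : ℕ → ℕ} (h1 : ∀ k < μ, o k = 0 ∧ w k ≤ (μ - k) * N)
    (h2 : o μ = 0 ∧ w μ ≤ ε) (h3 : o (μ + 1) = ε ∧ ε + w (μ + 1) ≤ (μ + 1) * N) :
    G2 μ N 0 (rows (μ + 2) o w) := by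
  have h0 : G2 μ (0 + N) 0 (rows (μ + 1) 0 fun k => N * (μ + 1 - k)) :=
    his (o' := 0) (w' := 0) (rows_mono (n' := 0) (o' := 0) (w' := 0) (fun _ _ => .inl rfl)
      (dom_of_subset (E := ∅) (by simp [rows]) _ ⟨0, 0, 0, linearIndependent_empty_type⟩)) N
      fun k _ => ⟨fun _ => rfl, rfl, by simp⟩
  rw [zero_add] at h0
  refine dom_push _ 0 0 _ (dom_of_subset ?_ _ h0)
  rintro ⟨a, b, k⟩ hp
  rw [mem_push] at hp
  simp only [mul_zero, add_zero] at hp
  have h8 : ∀ j ∈ lev (rows (μ + 2) o w) 0 0 a b, b = 0 ∧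
      (j < μ ∧ a < (μ - j) * N ∨ j = μ ∧ a < ε ∨ j = μ + 1 ∧ ε ≤ a) ∧ a < (μ + 1) * N :=
    fun j hj => by
      obtain ⟨a', b', h9, h10, h11⟩ := mem_lev.1 hj
      obtain ⟨rfl, h12, h14, h13⟩ := mem_rows.1 h9
      refine ⟨by omega, ?_⟩
      rcases lt_trichotomy j μ with h | rfl | h
      · have := h1 j h
        have : (μ - j) * N ≤ (μ + 1) * N := Nat.mul_le_mul_right _ (by omega)
        omega
      · omega
      · obtain rfl : j = μ + 1 := by omega
        omega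
  obtain ⟨j, hj⟩ := card_pos.1 (Nat.zero_lt_of_lt hp)
  obtain ⟨h4, -, h5⟩ := h8 j hj
  have hN : 0 < N := Nat.pos_of_ne_zero fun e => by simp [e] at h5
  have h6 := (Nat.div_lt_iff_lt_mul hN).2 h5
  have h7 : k < μ + 1 - a / N := by
    refine hp.trans_le ((card_le_card_of_injOn (fun j => if j < μ then j else μ - a / N)
      (t := range (μ + 1 - a / N)) (fun j hj => mem_coe.2 (mem_range.2 ?_))
      fun j hj j' hj' e => ?_).trans (by simp))
    · have := (h8 j hj).2.1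
      rw [← Nat.div_lt_iff_lt_mul hN] at this
      simp only
      split_ifs <;> omega
    · have h9 := (h8 j hj).2.1
      have h10 := (h8 j' hj').2.1
      rw [← Nat.div_lt_iff_lt_mul hN] at h9 h10
      simp only at e
      split_ifs at e <;> omega
  refine mem_rows.2 ⟨h4, h7.trans_le (Nat.sub_le _ _), Nat.zero_le _, ?_⟩
  simp only [Pi.zero_apply, zero_add]
  rw [mul_comm, ← Nat.div_lt_iff_lt_mul hN]
  generalize a / N = l at h7 ⊢
  omega

end Pool.Agent.Lib.MP_a430e8_ag.Q
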